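import Pool.Agent.AAD.StB

/-!
AAD, module ADJ: levels of the same kind are matched definably (helper98).
-/

set_option autoImplicit false
set_option linter.unusedVariables false

namespace Pool.Agent.AAD

open FirstOrder.Language Set
open scoped FirstOrder

section

variable {κ : Type} {ar : κ → ℕ} {K : Cla ar} (P : PS K) {E : Set (Fin P.N)}

/-- the order of a code is definable -/
private theorem ADJ_UDal {α : Type} (a b : α) :
    UDE P E α fun m v => al (cdE P E m.M m.lt) (v a) (v b) := by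
  refine UD_congr (UD_rel (B := LA (LvE P E ⊕ Rf P) ar) (J := LL) (X := fun m => XE P E m.M)
    (S := fun m => cdE P E m.M m.lt) (n := 2) (Sm.rl none : Sm (LvE P E ⊕ Rf P) ar 2) (![a, b])) ?_
  intro m v
  have h : (fun i => v ((![a, b] : Fin 2 → α) i)) = (![v a, v b] : Fin 2 → XE P E m.M) := by
    funext i
    refine Fin.cases rfl (fun j => ?_) i
    refine Fin.cases rfl (fun j => j.elim0) j
  rw [h]
  exact Iff.rfl

/-- the labels are definable -/
private theorem ADJ_UDlb {α : Type} (a : α) (l : LvE P E ⊕ Rf P) :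
    UDE P E α fun m v => lbl P (v a) = l :=
  UD_rel (B := LA (LvE P E ⊕ Rf P) ar) (J := LL) (X := fun m => XE P E m.M)
    (S := fun m => cdE P E m.M m.lt) (n := 1) (Sm.un l : Sm (LvE P E ⊕ Rf P) ar 1) (fun _ => a)

/-- TMI for two elements -/
private theorem ADJ_tr (hTMI : St_TMI) (m : LL) (x y x' y' : XE P E m.M) (hx : kd P x = kd P x')
    (hy : kd P y = kd P y')
    (h00 : ∀ i, plt (m.lt (bt P i)) (pp P x i) (pp P x i) ↔
      plt (m.lt (bt P i)) (pp P x' i) (pp P x' i))
    (h01 : ∀ i, plt (m.lt (bt P i)) (pp P x i) (pp P y i) ↔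
      plt (m.lt (bt P i)) (pp P x' i) (pp P y' i))
    (h10 : ∀ i, plt (m.lt (bt P i)) (pp P y i) (pp P x i) ↔
      plt (m.lt (bt P i)) (pp P y' i) (pp P x' i))
    (h11 : ∀ i, plt (m.lt (bt P i)) (pp P y i) (pp P y i) ↔
      plt (m.lt (bt P i)) (pp P y' i) (pp P y' i)) :
    al (cdE P E m.M m.lt) x y ↔ al (cdE P E m.M m.lt) x' y' := by
  have ht : (fun j => kd P ((![x, y] : Fin 2 → XE P E m.M) j)) =
      (fun j => kd P ((![x', y'] : Fin 2 → XE P E m.M) j)) := by
    funext j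
    refine Fin.cases hx (fun j => ?_) j
    refine Fin.cases hy (fun j => j.elim0) j
  show TrM P m.lt none (fun j : Fin 2 => kd P ((![x, y] : Fin 2 → XE P E m.M) j))
      (fun j : Fin 2 => pp P ((![x, y] : Fin 2 → XE P E m.M) j)) ↔
    TrM P m.lt none (fun j : Fin 2 => kd P ((![x', y'] : Fin 2 → XE P E m.M) j))
      (fun j : Fin 2 => pp P ((![x', y'] : Fin 2 → XE P E m.M) j))
  have key := (hTMI κ ar K P m none (fun j : Fin 2 => kd P ((![x, y] : Fin 2 → XE P E m.M) j))
    (fun j : Fin 2 => pp P ((![x, y] : Fin 2 → XE P E m.M) j))).2 m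
    (fun j : Fin 2 => pp P ((![x', y'] : Fin 2 → XE P E m.M) j))
    (by
      intro j j' i _ _
      have hj : ∀ j : Fin 2, j = 0 ∨ j = 1 := by decide
      rcases hj j with rfl | rfl <;> rcases hj j' with rfl | rfl
      · exact h00 i
      · exact h01 i
      · exact h10 i
      · exact h11 i)
  exact key.trans (by
    have : ∀ (t t' : Fin 2 → Fin P.N) (π : Fin 2 → Fin P.k → Pos P.N m.M), t = t' →
        (TrM P m.lt none t π ↔ TrM P m.lt none t' π) := by
      intro t t' π h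
      rw [h]
    exact this _ _ _ ht)

/-- the abstract matching -/
private theorem ADJ_gen {M : Type} (R : XE P E M → XE P E M → Prop) (l l' : LvE P E)
    (hirr : ∀ x, ¬ R x x) (htra : ∀ x y z, R x y → R y z → R x z)
    (hb : ∀ μ : M, R (.inl (μ, l)) (.inl (μ, l')))
    (hc : ∀ μ ν : M, μ ≠ ν → R (.inl (μ, l)) (.inl (ν, l')) → R (.inl (μ, l')) (.inl (ν, l')))
    (a b : XE P E M) :
    (((lbl P a = .inl l ∧ lbl P b = .inl l') ∧ R a b) ∧
      ∀ z, lbl P z = .inl l' → R a z → ¬ R z b) ↔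
      ∃ μ, a = .inl (μ, l) ∧ b = .inl (μ, l') := by
  have hl : ∀ (c : XE P E M) (l₁ : LvE P E), lbl P c = .inl l₁ → ∃ μ, c = .inl (μ, l₁) := by
    intro c l₁ h
    rcases c with ⟨μ, l₂⟩ | r
    · have h2 : l₂ = l₁ := Sum.inl.inj h
      exact ⟨μ, by rw [h2]⟩
    · exact absurd h (by intro h; exact Sum.inr_ne_inl h)
  constructor
  · rintro ⟨⟨⟨h1, h2⟩, h3⟩, h4⟩
    obtain ⟨μ, rfl⟩ := hl a l h1
    obtain ⟨ν, rfl⟩ := hl b l' h2
    by_cases hμ : μ = ν
    · subst hμ
      exact ⟨μ, rfl, rfl⟩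
    · exact absurd (hc μ ν hμ h3) (h4 (.inl (μ, l')) rfl (hb μ))
  · rintro ⟨μ, rfl, rfl⟩
    refine ⟨⟨⟨rfl, rfl⟩, hb μ⟩, ?_⟩
    intro z hz h1 h2
    obtain ⟨ν, rfl⟩ := hl z l' hz
    by_cases hμ : μ = ν
    · subst hμ
      exact hirr _ h2
    · exact hirr _ (htra _ _ _ (hc μ ν hμ h1) h2)

end

theorem thm_ADJ (hTMI : St_TMI) (hCLN : St_CLN) (hPWM : St_PWM) : St_ADJ := by
  intro κ ar K P E l l' hll
  have hpl : ∀ (m : LL) (b : Bool) (μ : m.M), ¬ m.lt b μ μ := fun m b μ => (m.lin b).1 μ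
  by_cases heq : l = l'
  · subst heq
    refine UD_congr (UD_and (UD_eq 0 1) (ADJ_UDlb P (0 : Fin 2) (.inl l))) ?_
    intro m v
    constructor
    · rintro ⟨h1, h2⟩
      rcases hv : v 0 with ⟨μ, l₂⟩ | r
      · rw [hv] at h2
        have h3 : l₂ = l := Sum.inl.inj h2
        refine ⟨μ, ?_, ?_⟩
        · rw [h3]
        · rw [← h1, hv, h3]
      · rw [hv] at h2
        exact absurd h2 (by intro h; exact Sum.inr_ne_inl h)
    · rintro ⟨μ, h1, h2⟩
      exact ⟨h1.trans h2.symm, by rw [h1]; rfl⟩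
  -- the truth value of `x μ < x' μ` is constant
  have hσ : ∀ (m m' : LL) (μ : m.M) (μ' : m'.M),
      al (cdE P E m.M m.lt) (.inl (μ, l)) (.inl (μ, l')) ↔
        al (cdE P E m'.M m'.lt) (.inl (μ', l)) (.inl (μ', l')) := by
    intro m m' μ μ'
    have key := hPWM κ ar K P E m m' none
      (![.inl (μ, l), .inl (μ, l')] : Fin 2 → XE P E m.M)
      (![.inl (μ', l), .inl (μ', l')] : Fin 2 → XE P E m'.M)
      (by
        intro j
        refine Fin.cases rfl (fun j => ?_) j
        refine Fin.cases rfl (fun j => j.elim0) j)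
      (by
        intro b i j
        have h1 : ¬ pl (m.lt b) ((![.inl (μ, l), .inl (μ, l')] : Fin 2 → XE P E m.M) i)
            ((![.inl (μ, l), .inl (μ, l')] : Fin 2 → XE P E m.M) j) := by
          have hj : ∀ j : Fin 2, j = 0 ∨ j = 1 := by decide
          rcases hj i with rfl | rfl <;> rcases hj j with rfl | rfl <;> exact hpl m b μ
        have h2 : ¬ pl (m'.lt b) ((![.inl (μ', l), .inl (μ', l')] : Fin 2 → XE P E m'.M) i)
            ((![.inl (μ', l), .inl (μ', l')] : Fin 2 → XE P E m'.M) j) := by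
          have hj : ∀ j : Fin 2, j = 0 ∨ j = 1 := by decide
          rcases hj i with rfl | rfl <;> rcases hj j with rfl | rfl <;> exact hpl m' b μ'
        exact iff_of_false h1 h2)
    exact key
  -- the patterns of two different points
  have hup : ∀ (m : LL) (μ ν : m.M), μ ≠ ν →
      (al (cdE P E m.M m.lt) (.inl (μ, l)) (.inl (ν, l')) ↔
        al (cdE P E m.M m.lt) (.inl (μ, l')) (.inl (ν, l'))) := by
    intro m μ ν hμν
    refine ADJ_tr P hTMI m _ _ _ _ hll rfl ?_ ?_ ?_ ?_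
    · intro i
      exact iff_of_false (by
        rintro (h | ⟨-, h⟩)
        · exact hpl m _ μ h
        · exact lt_irrefl _ h) (by
        rintro (h | ⟨-, h⟩)
        · exact hpl m _ μ h
        · exact lt_irrefl _ h)
    · intro i
      constructor
      · rintro (h | ⟨h, -⟩)
        · exact Or.inl h
        · exact absurd h hμν
      · rintro (h | ⟨h, -⟩)
        · exact Or.inl h
        · exact absurd h hμν
    · intro i
      constructor
      · rintro (h | ⟨h, -⟩)
        · exact Or.inl h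
        · exact absurd h.symm hμν
      · rintro (h | ⟨h, -⟩)
        · exact Or.inl h
        · exact absurd h.symm hμν
    · intro i
      exact Iff.rfl
  have hdn : ∀ (m : LL) (μ ν : m.M), μ ≠ ν →
      (al (cdE P E m.M m.lt) (.inl (ν, l')) (.inl (μ, l)) ↔
        al (cdE P E m.M m.lt) (.inl (ν, l')) (.inl (μ, l'))) := by
    intro m μ ν hμν
    refine ADJ_tr P hTMI m _ _ _ _ rfl hll ?_ ?_ ?_ ?_
    · intro i
      exact Iff.rfl
    · intro i
      constructor
      · rintro (h | ⟨h, -⟩)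
        · exact Or.inl h
        · exact absurd h.symm hμν
      · rintro (h | ⟨h, -⟩)
        · exact Or.inl h
        · exact absurd h.symm hμν
    · intro i
      constructor
      · rintro (h | ⟨h, -⟩)
        · exact Or.inl h
        · exact absurd h hμν
      · rintro (h | ⟨h, -⟩)
        · exact Or.inl h
        · exact absurd h hμν
    · intro i
      exact iff_of_false (by
        rintro (h | ⟨-, h⟩)
        · exact hpl m _ μ h
        · exact lt_irrefl _ h) (by
        rintro (h | ⟨-, h⟩)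
        · exact hpl m _ μ h
        · exact lt_irrefl _ h)
  by_cases hs : ∃ (m : LL) (μ : m.M), al (cdE P E m.M m.lt) (.inl (μ, l)) (.inl (μ, l'))
  · obtain ⟨m₀, μ₀, h₀⟩ := hs
    have hb : ∀ (m : LL) (μ : m.M), al (cdE P E m.M m.lt) (.inl (μ, l)) (.inl (μ, l')) :=
      fun m μ => (hσ m₀ m μ₀ μ).1 h₀
    have hU : UDE P E (Fin 2) fun m v =>
        ((lbl P (v 0) = .inl l ∧ lbl P (v 1) = .inl l') ∧ al (cdE P E m.M m.lt) (v 0) (v 1)) ∧
          ∀ z, lbl P z = .inl l' → al (cdE P E m.M m.lt) (v 0) z →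
            ¬ al (cdE P E m.M m.lt) z (v 1) := by
      refine UD_and (UD_and (UD_and (ADJ_UDlb (α := Fin 2) P (E := E) 0 (Sum.inl l))
        (ADJ_UDlb (α := Fin 2) P (E := E) 1 (Sum.inl l')))
        (ADJ_UDal (α := Fin 2) P (E := E) 0 1)) ?_
      refine UD_all1 (Q := fun (m : LL) (v : Fin 2 → XE P E m.M) z => lbl P z = .inl l' →
        al (cdE P E m.M m.lt) (v 0) z → ¬ al (cdE P E m.M m.lt) z (v 1)) ?_
      exact UD_imp (ADJ_UDlb (α := Fin 2 ⊕ Unit) P (E := E) (Sum.inr ()) (Sum.inl l'))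
        (UD_imp (ADJ_UDal (α := Fin 2 ⊕ Unit) P (E := E) (Sum.inl 0) (Sum.inr ()))
        (UD_not (ADJ_UDal (α := Fin 2 ⊕ Unit) P (E := E) (Sum.inr ()) (Sum.inl 1))))
    refine UD_congr hU ?_
    intro m v
    have hlin := (hCLN κ ar K P E m).1
    exact ADJ_gen P (al (cdE P E m.M m.lt)) l l' hlin.1 hlin.2.1 (hb m)
      (fun μ ν h => (hup m μ ν h).1) (v 0) (v 1)
  · have hb : ∀ (m : LL) (μ : m.M), al (cdE P E m.M m.lt) (.inl (μ, l')) (.inl (μ, l)) := by
      intro m μ
      have hlin := (hCLN κ ar K P E m).1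
      have hne : (.inl (μ, l) : XE P E m.M) ≠ .inl (μ, l') := by
        intro h
        exact heq (Prod.mk.inj (Sum.inl.inj h)).2
      rcases hlin.2.2 _ _ hne with h | h
      · exact absurd ⟨m, μ, h⟩ hs
      · exact h
    have hU : UDE P E (Fin 2) fun m v =>
        ((lbl P (v 0) = .inl l ∧ lbl P (v 1) = .inl l') ∧ al (cdE P E m.M m.lt) (v 1) (v 0)) ∧
          ∀ z, lbl P z = .inl l' → al (cdE P E m.M m.lt) z (v 0) →
            ¬ al (cdE P E m.M m.lt) (v 1) z := by
      refine UD_and (UD_and (UD_and (ADJ_UDlb (α := Fin 2) P (E := E) 0 (Sum.inl l))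
        (ADJ_UDlb (α := Fin 2) P (E := E) 1 (Sum.inl l')))
        (ADJ_UDal (α := Fin 2) P (E := E) 1 0)) ?_
      refine UD_all1 (Q := fun (m : LL) (v : Fin 2 → XE P E m.M) z => lbl P z = .inl l' →
        al (cdE P E m.M m.lt) z (v 0) → ¬ al (cdE P E m.M m.lt) (v 1) z) ?_
      exact UD_imp (ADJ_UDlb (α := Fin 2 ⊕ Unit) P (E := E) (Sum.inr ()) (Sum.inl l'))
        (UD_imp (ADJ_UDal (α := Fin 2 ⊕ Unit) P (E := E) (Sum.inr ()) (Sum.inl 0))
        (UD_not (ADJ_UDal (α := Fin 2 ⊕ Unit) P (E := E) (Sum.inl 1) (Sum.inr ()))))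
    refine UD_congr hU ?_
    intro m v
    have hlin := (hCLN κ ar K P E m).1
    exact ADJ_gen P (fun x y => al (cdE P E m.M m.lt) y x) l l' hlin.1
      (fun x y z h h' => hlin.2.1 _ _ _ h' h) (hb m)
      (fun μ ν h => (hdn m μ ν h).1) (v 0) (v 1)

end Pool.Agent.AAD
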