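import Pool.Agent.AAD.StA

/-!
AAD [AGC]: the age passes to a structure whose finite pieces occur (helper32).
-/

set_option autoImplicit false
set_option linter.unusedVariables false

namespace Pool.Agent.AAD

open FirstOrder.Language Set
open scoped FirstOrder

private theorem AGC_piece {ι κ : Type} {ar : κ → ℕ} {C M : Type} (S : (LA ι ar).Structure C)
    (S' : (LA ι ar).Structure M) (h : @Pcs (LA ι ar) C M S S') (n : ℕ) (c : Fin n → C)
    (s : Finset κ) : ∃ e : Fin n → M, (∀ i j, e i = e j ↔ c i = c j) ∧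
      (∀ i j, al S' (e i) (e j) ↔ al S (c i) (c j)) ∧
      ∀ k ∈ s, ∀ v : Fin (ar k) → Fin n,
        (rr S' (some k) (fun i => e (v i)) ↔ rr S (some k) (fun i => c (v i))) := by
  classical
  obtain ⟨e, h1, h2⟩ := h n c (insert (⟨2, (Sm.rl none : Sm ι ar 2)⟩ : Σ n, (LA ι ar).Relations n)
    (s.image fun k => (⟨ar k, (Sm.rl (some k) : Sm ι ar (ar k))⟩ :
      Σ n, (LA ι ar).Relations n)))
  refine ⟨e, h1, fun i j => ?_, fun k hk v => ?_⟩
  · have h3 := h2 _ (Finset.mem_insert_self _ _) (![i, j] : Fin 2 → Fin n)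
    have e1 : (fun l => e ((![i, j] : Fin 2 → Fin n) l)) = ![e i, e j] := by
      funext l
      fin_cases l <;> rfl
    have e2 : (fun l => c ((![i, j] : Fin 2 → Fin n) l)) = ![c i, c j] := by
      funext l
      fin_cases l <;> rfl
    change S'.RelMap (n := 2) (Sm.rl none : Sm ι ar 2) (fun l => e ((![i, j] : Fin 2 → Fin n) l)) ↔
      S.RelMap (n := 2) (Sm.rl none : Sm ι ar 2) (fun l => c ((![i, j] : Fin 2 → Fin n) l)) at h3
    rw [e1, e2] at h3
    exact h3
  · exact h2 _ (Finset.mem_insert_of_mem (Finset.mem_image_of_mem _ hk)) v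

theorem thm_AGC : St_AGC := by
  intro ι κ ar K C M S S' hK hP hS
  obtain ⟨⟨h1, h2, h3⟩, h4⟩ := hS
  refine ⟨⟨?_, ?_, ?_⟩, ?_⟩
  · intro x hx
    obtain ⟨e, -, he, -⟩ := AGC_piece S S' hP 1 (fun _ => x) ∅
    exact h1 _ ((he 0 0).2 hx)
  · intro x y z hxy hyz
    obtain ⟨e, -, he, -⟩ := AGC_piece S S' hP 3 (![x, y, z] : Fin 3 → C) ∅
    exact (he 0 2).1 (h2 _ _ _ ((he 0 1).2 hxy) ((he 1 2).2 hyz))
  · intro x y hxy
    obtain ⟨e, hq, he, -⟩ := AGC_piece S S' hP 2 (![x, y] : Fin 2 → C) ∅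
    have h5 : e 0 ≠ e 1 := fun h => hxy ((hq 0 1).1 h)
    rcases h3 _ _ h5 with h6 | h6
    · exact Or.inl ((he 0 1).1 h6)
    · exact Or.inr ((he 1 0).1 h6)
  · intro m z hz
    refine hK m _ fun s => ?_
    obtain ⟨e, -, he, hr⟩ := AGC_piece S S' hP m z s
    refine ⟨_, h4 m e fun i j hij => (he i j).2 (hz i j hij), fun c hc v => ?_⟩
    exact hr c hc v

end Pool.Agent.AAD
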