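import Pool.Agent.AAD.StD

/-!
AAD [ARR2]: infinite arrays by an ultrapower (helper73).
-/

set_option autoImplicit false
set_option linter.unusedVariables false

namespace Pool.Agent.AAD

open FirstOrder.Language Set
open scoped FirstOrder

/-- the ultrafilter -/
private noncomputable def AR2_u : Ultrafilter ℕ := Filter.hyperfilter ℕ

private theorem AR2_ev (k₀ : ℕ) : ∀ᶠ k in (AR2_u : Filter ℕ), k₀ ≤ k := by
  have h1 : (AR2_u : Filter ℕ) ≤ Filter.atTop := by
    rw [← Nat.cofinite_eq_atTop]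
    exact Filter.hyperfilter_le_cofinite
  exact h1 (Filter.eventually_ge_atTop k₀)

private theorem AR2_iff {P : ℕ → Prop} {c : Prop}
    (h : c ↔ ∀ᶠ k in (AR2_u : Filter ℕ), P k) : ∀ᶠ k in (AR2_u : Filter ℕ), (P k ↔ c) := by
  by_cases hc : c
  · filter_upwards [h.1 hc] with k hk
    exact ⟨fun _ => hc, fun _ => hk⟩
  · have h1 : ¬ ∀ᶠ k in (AR2_u : Filter ℕ), P k := fun h2 => hc (h.2 h2)
    rw [← Ultrafilter.eventually_not] at h1
    filter_upwards [h1] with k hk
    exact ⟨fun h2 => absurd h2 hk, fun h2 => absurd h2 hc⟩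

/-- the ultrapower -/
private abbrev AR2_P (M : Type) : Type := (AR2_u : Filter ℕ).Product (fun _ => M)

private theorem AR2_real (L : FirstOrder.Language.{0, 0}) (M : Type) [L.Structure M] [Nonempty M]
    {β : Type} (φ : L.Formula β) (x : β → ℕ → M) (c : β → AR2_P M)
    (hc : ∀ i, c i = (x i : AR2_P M)) :
    φ.Realize c ↔ ∀ᶠ k in (AR2_u : Filter ℕ), φ.Realize fun i => x i k := by
  have h1 : c = fun i => (x i : AR2_P M) := funext hc
  rw [h1]
  exact FirstOrder.Language.Ultraproduct.realize_formula_cast (M := fun _ : ℕ => M) φ x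

private theorem AR2_pcs (L : FirstOrder.Language.{0, 0}) (M : Type) [L.Structure M]
    [Nonempty M] : Pcs L (AR2_P M) M := by
  classical
  intro n c F
  have hx : ∀ i, ∃ x : ℕ → M, c i = (x : AR2_P M) := fun i => by
    obtain ⟨x, hx⟩ := Quotient.exists_rep (c i)
    exact ⟨x, hx.symm⟩
  choose x hx using hx
  have h1 : ∀ i j, ∀ᶠ k in (AR2_u : Filter ℕ), (x i k = x j k ↔ c i = c j) := by
    intro i j
    refine AR2_iff ?_
    have h2 := AR2_real L M
      (((Term.var (L := L) i).equal (Term.var j) : L.Formula (Fin n))) x c hx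
    rw [Formula.realize_equal] at h2
    refine h2.trans ?_
    refine Filter.eventually_congr (Filter.Eventually.of_forall fun k => ?_)
    rw [Formula.realize_equal]
    exact Iff.rfl
  have h3 : ∀ R : (Σ n, L.Relations n), ∀ w : Fin R.1 → Fin n, ∀ᶠ k in (AR2_u : Filter ℕ),
      (Structure.RelMap R.2 (fun i => x (w i) k) ↔ Structure.RelMap R.2 (fun i => c (w i))) := by
    intro R w
    refine AR2_iff ?_
    have h2 := AR2_real L M
      ((R.2.formula fun i => (Term.var (L := L) (w i)) : L.Formula (Fin n))) x c hx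
    rw [Formula.realize_rel] at h2
    refine h2.trans ?_
    refine Filter.eventually_congr (Filter.Eventually.of_forall fun k => ?_)
    rw [Formula.realize_rel]
    exact Iff.rfl
  have h4 : ∀ᶠ k in (AR2_u : Filter ℕ), ∀ i j, (x i k = x j k ↔ c i = c j) := by
    rw [Filter.eventually_all]
    intro i
    rw [Filter.eventually_all]
    exact h1 i
  have h5 : ∀ᶠ k in (AR2_u : Filter ℕ), ∀ R ∈ F, ∀ w : Fin R.1 → Fin n,
      (Structure.RelMap R.2 (fun i => x (w i) k) ↔ Structure.RelMap R.2 (fun i => c (w i))) := by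
    rw [Filter.eventually_all_finset]
    intro R _
    rw [Filter.eventually_all]
    exact h3 R
  obtain ⟨k, hk4, hk5⟩ := (h4.and h5).exists
  exact ⟨fun i => x i k, hk4, hk5⟩

/-- [ARR2] -/
theorem thm_ARR2 : St_ARR2 := by
  classical
  intro L hnof M _ m n φ hex
  have hM : Nonempty M := by
    by_contra hno
    rw [not_nonempty_iff] at hno
    obtain ⟨x, y, hxy⟩ := hex 1
    have hy : y ∅ = y Set.univ := by
      funext i
      exact (hno.false (y ∅ i)).elim
    have h1 := hxy 0 ∅
    have h2 := hxy 0 Set.univ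
    rw [hy] at h1
    exact (h1.1 (h2.2 (Set.mem_univ _)))
  choose X Y hXY using hex
  obtain ⟨m0⟩ := id hM
  -- the coordinates
  let X' : ℕ → Fin m → ℕ → M := fun i j k => if h : i < k then X k ⟨i, h⟩ j else m0
  let Y' : (Fin (n + 1) → ℕ) → Fin n → ℕ → M := fun b j k =>
    Y k {i : Fin k | ∃ t, b t = (i : ℕ)} j
  refine ⟨AR2_P M, inferInstance, fun i j => (X' i j : AR2_P M), fun b j => (Y' b j : AR2_P M),
    ⟨((fun _ => m0 : ℕ → M) : AR2_P M)⟩, AR2_pcs L M, fun r b => ?_⟩
  let W : Fin m ⊕ Fin n → ℕ → M := Sum.elim (X' r) (Y' b)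
  have h1 := AR2_real L M φ W
    (Sum.elim (fun q => (X' r q : AR2_P M)) (fun q => (Y' b q : AR2_P M))) (by
      intro q
      rcases q with q | q <;> rfl)
  refine h1.trans ?_
  have h2 : ∀ᶠ k in (AR2_u : Filter ℕ), ((φ.Realize fun q => W q k) ↔ ∃ j, b j = r) := by
    filter_upwards [AR2_ev (r + 1)] with k hk
    have hr : r < k := by omega
    have h3 : (fun q => W q k) = Sum.elim (X k ⟨r, hr⟩) (Y k {i : Fin k | ∃ t, b t = (i : ℕ)}) := by
      funext q
      rcases q with q | q
      · show X' r q k = X k ⟨r, hr⟩ q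
        exact dif_pos hr
      · rfl
    rw [h3]
    exact hXY k ⟨r, hr⟩ _
  constructor
  · intro h
    obtain ⟨k, hk1, hk2⟩ := (h.and h2).exists
    exact hk2.1 hk1
  · intro h
    filter_upwards [h2] with k hk
    exact hk.2 h

end Pool.Agent.AAD
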