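import Pool.Agent.AAD.StA

/-!
[BAF] configurations preserve first-order formulas.
-/

set_option autoImplicit false

namespace Pool.Agent.AAD

open FirstOrder.Language Set
open scoped FirstOrder

section

variable {L : FirstOrder.Language.{0, 0}} {C : Type} [L.Structure C] [MulAction Gam C]

theorem BAF_pull {I J : Type} {c : I → C} {g : I → Gam} (h : CfgI L c g) (f : J → I) :
    CfgI L (fun j => c (f j)) (fun j => g (f j)) :=
  ⟨fun _ _ hij => h.cls _ _ hij, fun _ _ hs a ha b hb hab => h.ord _ _ hs a ha b hb hab⟩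

theorem BAF_rel (hCFM : St_CFM) (hMUP : St_MUP) (hC : Cor L C) {n : ℕ} (R : L.Relations n)
    (c : Fin n → C) (g : Fin n → Gam) (h : CfgI L c g) :
    Structure.RelMap R (fun j => g j • c j) ↔ Structure.RelMap R c := by
  obtain ⟨k, h1, h2, h3⟩ := hCFM L C hC (Fin n) c g h
  have e1 := hMUP L C hC n c k h1 (fun i q => (h3 i q).1) n R id
  have e2 := hMUP L C hC n (fun i => g i • c i) (fun i => k i * (g i)⁻¹) h2
    (fun i q => (h3 i q).2) n R id
  have e3 : (fun j => (k (id j) * (g (id j))⁻¹) • (g (id j) • c (id j))) =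
      fun j : Fin n => k (id j) • c (id j) := by
    funext j
    rw [mul_smul, inv_smul_smul]
  rw [e3] at e2
  exact e2.symm.trans e1

theorem BAF_eq (hCFS : St_CFS) (hC : Cor L C) {I : Type} (c : I → C) (g : I → Gam)
    (h : CfgI L c g) (i j : I) : g i • c i = g j • c j ↔ c i = c j := by
  have key : ∀ (c : I → C) (g : I → Gam), CfgI L c g → c i = c j → g i • c i = g j • c j := by
    intro c g h hij
    have h1 : Lnk L (c i) (c j) := by
      rw [hij]
      exact hC.equ.refl _
    rw [h.cls i j h1, hij]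
  constructor
  · intro hij
    have h2 := hCFS L C hC I c g h
    have h3 := key _ _ h2 hij
    simpa only [inv_smul_smul] using h3
  · exact key c g h

theorem BAF_var (hn : ∀ n, IsEmpty (L.Functions n)) {β : Type} (t : L.Term β) :
    ∃ i, t = Term.var i := by
  cases t with
  | var i => exact ⟨i, rfl⟩
  | func f _ => exact (hn _).elim f

/-- from `Option (α ⊕ Fin n)` to `α ⊕ Fin (n + 1)` -/
theorem BAF_ext (hCFE : St_CFE) (hC : Cor L C) {α : Type} [Finite α] {n : ℕ} (c : α → C)
    (xs : Fin n → C) (g : α → Gam) (h : Fin n → Gam)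
    (hc : CfgI L (Sum.elim c xs) (Sum.elim g h)) (x : C) :
    ∃ h' : Gam, CfgI L (Sum.elim c (Fin.snoc xs x : Fin (n + 1) → C))
      (Sum.elim g (Fin.snoc h h' : Fin (n + 1) → Gam)) := by
  obtain ⟨h', hh⟩ := hCFE L C hC (α ⊕ Fin n) _ _ hc x
  refine ⟨h', ?_⟩
  let f : α ⊕ Fin (n + 1) → Option (α ⊕ Fin n) :=
    Sum.elim (fun a => some (Sum.inl a))
      (Fin.snoc (α := fun _ => Option (α ⊕ Fin n)) (fun i => some (Sum.inr i)) none)
  have h1 := BAF_pull hh f
  have e1 : (fun j => Option.elim (f j) x (Sum.elim c xs)) =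
      Sum.elim c (Fin.snoc xs x : Fin (n + 1) → C) := by
    funext j
    rcases j with a | i
    · rfl
    · refine Fin.lastCases ?_ (fun i => ?_) i
      · simp only [f, Sum.elim_inr, Fin.snoc_last, Option.elim_none]
      · simp only [f, Sum.elim_inr, Fin.snoc_castSucc, Option.elim_some]
  have e2 : (fun j => Option.elim (f j) h' (Sum.elim g h)) =
      Sum.elim g (Fin.snoc h h' : Fin (n + 1) → Gam) := by
    funext j
    rcases j with a | i
    · rfl
    · refine Fin.lastCases ?_ (fun i => ?_) i
      · simp only [f, Sum.elim_inr, Fin.snoc_last, Option.elim_none]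
      · simp only [f, Sum.elim_inr, Fin.snoc_castSucc, Option.elim_some]
  rw [← e1, ← e2]
  exact h1

theorem BAF_snoc {n : ℕ} (xs : Fin n → C) (h : Fin n → Gam) (x : C) (h' : Gam) :
    (fun i => (Fin.snoc h h' : Fin (n + 1) → Gam) i • (Fin.snoc xs x : Fin (n + 1) → C) i) =
      (Fin.snoc (fun i => h i • xs i) (h' • x) : Fin (n + 1) → C) := by
  funext i
  refine Fin.lastCases ?_ (fun i => ?_) i
  · simp only [Fin.snoc_last]
  · simp only [Fin.snoc_castSucc]

theorem BAF_inv (hCFS : St_CFS) (hC : Cor L C) {α : Type} {n : ℕ} (c : α → C)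
    (xs : Fin n → C) (g : α → Gam) (h : Fin n → Gam)
    (hc : CfgI L (Sum.elim c xs) (Sum.elim g h)) :
    CfgI L (Sum.elim (fun i => g i • c i) (fun i => h i • xs i))
      (Sum.elim (fun i => (g i)⁻¹) (fun i => (h i)⁻¹)) := by
  have h1 := hCFS L C hC (α ⊕ Fin n) _ _ hc
  have e1 : (fun i => (Sum.elim g h i) • (Sum.elim c xs i)) =
      Sum.elim (fun i => g i • c i) (fun i => h i • xs i) := by
    funext i
    rcases i with a | i <;> rfl
  have e2 : (fun i => (Sum.elim g h i)⁻¹) =
      Sum.elim (fun i => (g i)⁻¹) (fun i => (h i)⁻¹) := by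
    funext i
    rcases i with a | i <;> rfl
  rw [← e1, ← e2]
  exact h1

theorem BAF_main (hCFS : St_CFS) (hCFE : St_CFE) (hCFM : St_CFM) (hMUP : St_MUP) (hC : Cor L C)
    {α : Type} [Finite α] {n : ℕ} (φ : L.BoundedFormula α n) :
    ∀ (c : α → C) (xs : Fin n → C) (g : α → Gam) (h : Fin n → Gam),
      CfgI L (Sum.elim c xs) (Sum.elim g h) →
      (φ.Realize (fun i => g i • c i) (fun i => h i • xs i) ↔ φ.Realize c xs) := by
  induction φ with
  | falsum => intro c xs g h _; exact Iff.rfl
  | @equal n t₁ t₂ =>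
    intro c xs g h hc
    obtain ⟨i, rfl⟩ := BAF_var hC.ctx.nof t₁
    obtain ⟨j, rfl⟩ := BAF_var hC.ctx.nof t₂
    have h1 := BAF_eq hCFS hC _ _ hc i j
    have e1 : ∀ i, Sum.elim (fun i => g i • c i) (fun i => h i • xs i) i =
        (Sum.elim g h i) • (Sum.elim c xs i) := by
      intro i
      rcases i with a | i <;> rfl
    show (Sum.elim (fun i => g i • c i) (fun i => h i • xs i) i =
      Sum.elim (fun i => g i • c i) (fun i => h i • xs i) j) ↔ Sum.elim c xs i = Sum.elim c xs j
    rw [e1, e1]
    exact h1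
  | @rel n l R ts =>
    intro c xs g h hc
    choose w hw using fun i => BAF_var hC.ctx.nof (ts i)
    have h1 := BAF_rel hCFM hMUP hC R _ _ (BAF_pull hc w)
    have e1 : (fun i => (ts i).realize (Sum.elim (fun i => g i • c i) (fun i => h i • xs i))) =
        fun j => (Sum.elim g h (w j)) • (Sum.elim c xs (w j)) := by
      funext i
      rw [hw i, Term.realize_var]
      rcases w i with a | k <;> rfl
    have e2 : (fun i => (ts i).realize (Sum.elim c xs)) = fun j => Sum.elim c xs (w j) := by
      funext i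
      rw [hw i, Term.realize_var]
    show Structure.RelMap R (fun i =>
      (ts i).realize (Sum.elim (fun i => g i • c i) (fun i => h i • xs i))) ↔
      Structure.RelMap R (fun i => (ts i).realize (Sum.elim c xs))
    rw [e1, e2]
    exact h1
  | imp φ ψ ih₁ ih₂ =>
    intro c xs g h hc
    rw [BoundedFormula.realize_imp, BoundedFormula.realize_imp, ih₁ c xs g h hc,
      ih₂ c xs g h hc]
  | @all n φ ih =>
    intro c xs g h hc
    rw [BoundedFormula.realize_all, BoundedFormula.realize_all]
    constructor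
    · intro H x
      obtain ⟨h', hh⟩ := BAF_ext hCFE hC c xs g h hc x
      have h1 := ih c _ g _ hh
      rw [BAF_snoc] at h1
      exact h1.1 (H _)
    · intro H y
      have hi := BAF_inv hCFS hC c xs g h hc
      obtain ⟨h', hh⟩ := BAF_ext hCFE hC _ _ _ _ hi y
      have h1 := ih _ _ _ _ hh
      rw [BAF_snoc] at h1
      refine h1.1 ?_
      have e1 : (fun i => (g i)⁻¹ • (g i • c i)) = c := by
        funext i
        rw [inv_smul_smul]
      have e2 : (fun i => (h i)⁻¹ • (h i • xs i)) = xs := by
        funext i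
        rw [inv_smul_smul]
      rw [e1, e2]
      exact H _

end

theorem thm_BAF (hCFS : St_CFS) (hCFE : St_CFE) (hCFM : St_CFM) (hMUP : St_MUP) : St_BAF := by
  intro L C _ _ hC α _ φ c g hc
  have h0 : CfgI L (Sum.elim c (default : Fin 0 → C)) (Sum.elim g (default : Fin 0 → Gam)) := by
    have h1 := BAF_pull hc (Sum.elim id (fun i : Fin 0 => i.elim0) : α ⊕ Fin 0 → α)
    have e1 : (fun j => c ((Sum.elim id (fun i : Fin 0 => i.elim0) : α ⊕ Fin 0 → α) j)) =
        Sum.elim c (default : Fin 0 → C) := by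
      funext j
      rcases j with a | i
      · rfl
      · exact i.elim0
    have e2 : (fun j => g ((Sum.elim id (fun i : Fin 0 => i.elim0) : α ⊕ Fin 0 → α) j)) =
        Sum.elim g (default : Fin 0 → Gam) := by
      funext j
      rcases j with a | i
      · rfl
      · exact i.elim0
    rw [← e1, ← e2]
    exact h1
  have h2 := BAF_main hCFS hCFE hCFM hMUP hC φ c default g default h0
  have e3 : (fun i => (default : Fin 0 → Gam) i • (default : Fin 0 → C) i) = default :=
    Subsingleton.elim _ _
  rw [e3] at h2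
  exact h2

end Pool.Agent.AAD
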