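import Pool.Agent.AAD.StA

/-!
# AAD [BRI]: from `Con` to a pattern structure
-/

set_option autoImplicit false
set_option linter.unusedVariables false

namespace Pool.Agent.AAD

open FirstOrder.Language Set
open scoped FirstOrder

/-! ### the intervals -/

private theorem BRI_eps (A : Finset ℚ) :
    ∃ ε : ℚ, 0 < ε ∧ ∀ a ∈ A, ∀ b ∈ A, a < b → a + ε < b - ε := by
  classical
  rcases ((A ×ˢ A).filter fun p => p.1 < p.2).eq_empty_or_nonempty with h | h
  · refine ⟨1, one_pos, fun a ha b hb hab => ?_⟩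
    have : (a, b) ∈ (A ×ˢ A).filter fun p => p.1 < p.2 :=
      Finset.mem_filter.2 ⟨Finset.mem_product.2 ⟨ha, hb⟩, hab⟩
    rw [h] at this
    exact absurd this (Finset.notMem_empty _)
  · obtain ⟨p, hp, hmin⟩ := Finset.exists_min_image _ (fun p : ℚ × ℚ => p.2 - p.1) h
    have hp' := (Finset.mem_filter.1 hp).2
    refine ⟨(p.2 - p.1) / 3, by linarith, fun a ha b hb hab => ?_⟩
    have h1 := hmin (a, b) (Finset.mem_filter.2 ⟨Finset.mem_product.2 ⟨ha, hb⟩, hab⟩)
    have h2 : p.2 - p.1 ≤ b - a := h1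
    linarith

private theorem BRI_sq_mono {x y : ℚ} (h : x < y) : x / (1 + |x|) < y / (1 + |y|) := by
  have hx : 0 < 1 + |x| := by positivity
  have hy : 0 < 1 + |y| := by positivity
  rw [div_lt_div_iff₀ hx hy]
  rcases le_or_gt 0 x with hx0 | hx0
  · rw [abs_of_nonneg hx0, abs_of_nonneg (hx0.trans h.le)]
    nlinarith
  · rcases le_or_gt 0 y with hy0 | hy0
    · rw [abs_of_neg hx0, abs_of_nonneg hy0]
      nlinarith [mul_nonneg hy0 (neg_nonneg.2 hx0.le)]
    · rw [abs_of_neg hx0, abs_of_neg hy0]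
      nlinarith

private theorem BRI_sq_lt (x : ℚ) : -1 < x / (1 + |x|) ∧ x / (1 + |x|) < 1 := by
  have hx : 0 < 1 + |x| := by positivity
  constructor
  · rw [lt_div_iff₀ hx]
    linarith [neg_abs_le x]
  · rw [div_lt_one hx]
    linarith [le_abs_self x]

/-- order embeddings into disjoint intervals -/
private theorem BRI_emb (A : Finset ℚ) {k : ℕ} (s : Fin k → ℚ) (hs : StrictMono s)
    (hsA : ∀ i, s i ∈ A) :
    ∃ b : Fin k → ℚ → ℚ, (∀ i, b i 0 = s i) ∧ (∀ i x y, x < y → b i x < b i y) ∧
      ∀ i i' x y, i < i' → b i x < b i' y := by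
  obtain ⟨ε, hε, hA⟩ := BRI_eps A
  refine ⟨fun i x => s i + ε * (x / (1 + |x|)), fun i => ?_, fun i x y h => ?_,
    fun i i' x y h => ?_⟩
  · show s i + ε * (0 / (1 + |0|)) = s i
    rw [zero_div, mul_zero, add_zero]
  · have := mul_lt_mul_of_pos_left (BRI_sq_mono h) hε
    show s i + ε * (x / (1 + |x|)) < s i + ε * (y / (1 + |y|))
    linarith
  · have h1 := hA _ (hsA i) _ (hsA i') (hs h)
    have h2 := mul_lt_mul_of_pos_left (BRI_sq_lt x).2 hε
    have h3 := mul_lt_mul_of_pos_left (BRI_sq_lt y).1 hε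
    show s i + ε * (x / (1 + |x|)) < s i' + ε * (y / (1 + |y|))
    linarith

/-! ### transport -/

section transport

variable {L : FirstOrder.Language.{0, 0}} {C : Type} [L.Structure C] [MulAction Gam C]

/-- tuples with the same order pattern of supports -/
private theorem BRI_trans (hEXT : St_EXT) (hSU : St_SU) (hC : Ctx L C) {n : ℕ} (x : Fin n → C)
    (g g' : Fin n → Gam)
    (hlt : ∀ j j', ∀ a ∈ su (x j), ∀ a' ∈ su (x j'), g j a < g j' a' → g' j a < g' j' a')
    (heq : ∀ j j', ∀ a ∈ su (x j), ∀ a' ∈ su (x j'), g j a = g j' a' → g' j a = g' j' a') :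
    ∃ δ : Gam, ∀ j, δ • (g j • x j) = g' j • x j := by
  classical
  let A : Finset ℚ := Finset.univ.biUnion fun j => (su (x j)).image (g j)
  let P : ℚ → Prop := fun c => ∃ (j : Fin n) (a : ℚ), a ∈ su (x j) ∧ g j a = c
  let f : ℚ → ℚ := fun c => if h : P c then g' h.choose h.choose_spec.choose else 0
  have hf : ∀ j, ∀ a ∈ su (x j), f (g j a) = g' j a := by
    intro j a ha
    have hP : P (g j a) := ⟨j, a, ha, rfl⟩
    show (if h : P (g j a) then g' h.choose h.choose_spec.choose else 0) = g' j a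
    rw [dif_pos hP]
    have h1 := hP.choose_spec.choose_spec
    exact heq _ _ _ h1.1 _ ha h1.2
  obtain ⟨δ, hδ⟩ := hEXT A f (by
    intro c hc d hd hcd
    obtain ⟨j, -, hj⟩ := Finset.mem_biUnion.1 hc
    obtain ⟨a, ha, rfl⟩ := Finset.mem_image.1 hj
    obtain ⟨j', -, hj'⟩ := Finset.mem_biUnion.1 hd
    obtain ⟨a', ha', rfl⟩ := Finset.mem_image.1 hj'
    rw [hf _ _ ha, hf _ _ ha']
    exact hlt _ _ _ ha _ ha' hcd)
  refine ⟨δ, fun j => ?_⟩
  rw [← mul_smul]
  refine (hSU C hC.fin (x j)).2.2.2 _ _ fun a ha => ?_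
  rw [RelIso.mul_apply, hδ _ (Finset.mem_biUnion.2 ⟨j, Finset.mem_univ _,
    Finset.mem_image_of_mem _ ha⟩), hf _ _ ha]

private theorem BRI_rel (hEXT : St_EXT) (hSU : St_SU) (hC : Ctx L C) {n : ℕ} (R : L.Relations n)
    (x : Fin n → C) (g g' : Fin n → Gam)
    (hlt : ∀ j j', ∀ a ∈ su (x j), ∀ a' ∈ su (x j'), g j a < g j' a' → g' j a < g' j' a')
    (heq : ∀ j j', ∀ a ∈ su (x j), ∀ a' ∈ su (x j'), g j a = g j' a' → g' j a = g' j' a') :
    Structure.RelMap R (fun j => g' j • x j) ↔ Structure.RelMap R (fun j => g j • x j) := by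
  obtain ⟨δ, hδ⟩ := BRI_trans hEXT hSU hC x g g' hlt heq
  rw [← hC.inv δ n R fun j => g j • x j]
  simp only [hδ]

end transport

/-! ### the pattern structure -/

/-- the data -/
private structure BRI_D {ι κ : Type} {ar : κ → ℕ} {C : Type} (S : (LA ι ar).Structure C)
    [MulAction Gam C] (T : Set C) where
  N : ℕ
  k : ℕ
  tt : Fin N → C
  inj : Function.Injective tt
  ran : ∀ x, x ∈ T ↔ ∃ i, tt i = x
  s : Fin k → ℚ
  mono : StrictMono s
  sur : ∀ t, ∀ a ∈ su (tt t), ∃ i, s i = a
  b : Fin k → ℚ → ℚ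
  b0 : ∀ i, b i 0 = s i
  b1 : ∀ i x y, x < y → b i x < b i y
  b2 : ∀ i i' x y, i < i' → b i x < b i' y
  G : (Fin k → ℚ) → Gam
  hG : ∀ π i, G π (s i) = b i (π i)

private theorem BRI_data {ι κ : Type} {ar : κ → ℕ} {C : Type} (S : (LA ι ar).Structure C)
    [MulAction Gam C] (hEXT : St_EXT) (T : Set C) (hT : T.Finite) : Nonempty (BRI_D S T) := by
  classical
  let F : Finset C := hT.toFinset
  let e := F.equivFin
  let A : Finset ℚ := F.biUnion su
  let s : Fin A.card ↪o ℚ := A.orderEmbOfFin rfl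
  have hsA : ∀ i, s i ∈ A := fun i => A.orderEmbOfFin_mem rfl i
  obtain ⟨b, b0, b1, b2⟩ := BRI_emb A s s.strictMono hsA
  have hE : ∀ π : Fin A.card → ℚ, ∃ g : Gam, ∀ i, g (s i) = b i (π i) := by
    intro π
    obtain ⟨g, hg⟩ := hEXT A (Function.extend s (fun i => b i (π i)) 0) (by
      intro a ha a' ha' haa
      have h1 : ∀ c ∈ A, ∃ i, s i = c := fun c hc => by
        have : c ∈ Set.range s := by
          rw [Finset.range_orderEmbOfFin]
          exact hc
        exact this
      obtain ⟨i, rfl⟩ := h1 a ha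
      obtain ⟨i', rfl⟩ := h1 a' ha'
      rw [s.injective.extend_apply, s.injective.extend_apply]
      exact b2 _ _ _ _ (s.lt_iff_lt.1 haa))
    refine ⟨g, fun i => ?_⟩
    rw [hg _ (hsA i), s.injective.extend_apply]
  choose G hG using hE
  refine ⟨{ N := F.card, k := A.card, tt := fun i => (e.symm i : C),
            inj := fun i j h => e.symm.injective (Subtype.ext h),
            ran := fun x => ⟨fun hx => ⟨e ⟨x, hT.mem_toFinset.2 hx⟩, by simp⟩, ?_⟩,
            s := s, mono := s.strictMono, sur := fun t a ha => ?_, b := b, b0 := b0, b1 := b1,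
            b2 := b2, G := G, hG := hG }⟩
  · rintro ⟨i, rfl⟩
    exact hT.mem_toFinset.1 (e.symm i).2
  · have h1 : a ∈ A := Finset.mem_biUnion.2 ⟨_, (e.symm t).2, ha⟩
    have : a ∈ Set.range s := by
      rw [Finset.range_orderEmbOfFin]
      exact h1
    exact this

section

variable {ι κ : Type} {ar : κ → ℕ} {C : Type} {S : (LA ι ar).Structure C} [MulAction Gam C]
  {T : Set C} (D : BRI_D S T)

private theorem BRI_D.binj {i i' : Fin D.k} {x y : ℚ} (h : D.b i x = D.b i' y) :
    i = i' ∧ x = y := by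
  have h1 : i = i' := by
    rcases lt_trichotomy i i' with h1 | h1 | h1
    · exact absurd h (D.b2 _ _ x y h1).ne
    · exact h1
    · exact absurd h (D.b2 _ _ y x h1).ne'
  subst h1
  refine ⟨rfl, ?_⟩
  rcases lt_trichotomy x y with h2 | h2 | h2
  · exact absurd h (D.b1 _ _ _ h2).ne
  · exact h2
  · exact absurd h (D.b1 _ _ _ h2).ne'

private theorem BRI_D.blt {i i' : Fin D.k} {x y : ℚ} (h : D.b i x < D.b i' y) :
    i < i' ∨ (i = i' ∧ x < y) := by
  rcases lt_trichotomy i i' with h1 | h1 | h1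
  · exact Or.inl h1
  · subst h1
    refine Or.inr ⟨rfl, ?_⟩
    rcases lt_trichotomy x y with h2 | h2 | h2
    · exact h2
    · exact absurd h (by rw [h2]; exact lt_irrefl _)
    · exact absurd h (D.b1 _ _ _ h2).not_gt
  · exact absurd h (D.b2 _ _ y x h1).not_gt

/-- the elements -/
private def BRI_D.el (t : Fin D.N) (π : Fin D.k → ℚ) : C := D.G π • D.tt t

private theorem BRI_D.elinj (hSU : St_SU) (hC : @Ctx (LA ι ar) C S _) {t₁ t₂ : Fin D.N}
    {π₁ π₂ : Fin D.k → ℚ} (h : D.el t₁ π₁ = D.el t₂ π₂) :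
    t₁ = t₂ ∧ ∀ i, D.s i ∈ su (D.tt t₁) → π₁ i = π₂ i := by
  classical
  have key : ∀ {t₁ t₂ : Fin D.N} {π₁ π₂ : Fin D.k → ℚ}, D.el t₁ π₁ = D.el t₂ π₂ →
      ∀ i, D.s i ∈ su (D.tt t₁) → π₁ i = π₂ i := by
    intro t₁ t₂ π₁ π₂ h i hi
    have e1 := (hSU C hC.fin (D.tt t₁)).2.2.1 (D.G π₁)
    have e2 := (hSU C hC.fin (D.tt t₂)).2.2.1 (D.G π₂)
    have e3 : D.b i (π₁ i) ∈ su (D.G π₁ • D.tt t₁) := by
      rw [e1, ← D.hG]
      exact Finset.mem_image_of_mem _ hi
    have h' : D.G π₁ • D.tt t₁ = D.G π₂ • D.tt t₂ := h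
    rw [h', e2] at e3
    obtain ⟨a, ha, hab⟩ := Finset.mem_image.1 e3
    obtain ⟨i', rfl⟩ := D.sur _ _ ha
    rw [D.hG] at hab
    obtain ⟨h1, h2⟩ := D.binj hab
    subst h1
    exact h2.symm
  have h1 := key h
  refine ⟨?_, h1⟩
  have h2 : D.G π₁ • D.tt t₁ = D.G π₂ • D.tt t₁ := by
    refine (hSU C hC.fin (D.tt t₁)).2.2.2 _ _ fun a ha => ?_
    obtain ⟨i, rfl⟩ := D.sur _ _ ha
    rw [D.hG, D.hG, h1 i ha]
  have h3 : D.G π₂ • D.tt t₁ = D.G π₂ • D.tt t₂ := h2.symm.trans h
  exact D.inj (smul_left_cancel _ h3)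

end

/-- [BRI] -/
theorem thm_BRI (hEXT : St_EXT) (hSU : St_SU) : St_BRI := by
  classical
  intro ι κ ar K C S _ T z₁ z₂ hC hK hT
  obtain ⟨D⟩ := BRI_data S hEXT T hT.fin
  obtain ⟨t₁, ht₁⟩ := (D.ran z₁).1 hT.m₁
  obtain ⟨t₂, ht₂⟩ := (D.ran z₂).1 hT.m₂
  have hpair : ∀ (t t' : Fin D.N) (π π' : Fin D.k → ℚ),
      rr S none (fun j => D.el ((![t, t'] : Fin 2 → Fin D.N) j)
        ((![π, π'] : Fin 2 → Fin D.k → ℚ) j)) ↔ al S (D.el t π) (D.el t' π') := by
    intro t t' π π'
    have : (fun j => D.el ((![t, t'] : Fin 2 → Fin D.N) j)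
        ((![π, π'] : Fin 2 → Fin D.k → ℚ) j)) = (![D.el t π, D.el t' π'] : Fin 2 → C) := by
      funext j
      fin_cases j <;> rfl
    exact Iff.of_eq (congrArg (rr S none) this)
  obtain ⟨⟨hirr, htra, htot⟩, hage⟩ := hK
  refine ⟨{ N := D.N, k := D.k, sp := fun t i => D.s i ∈ su (D.tt t),
            Tr := fun s t π => rr S s fun j => D.el (t j) (π j),
            inv := ?_, irr := ?_, tra := ?_, tot := ?_, age := ?_, z₁ := t₁, z₂ := t₂,
            ne₁ := ?_, ne₂ := ?_, dis := ?_, con := ?_ }⟩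
  · intro s t π π' h
    refine (BRI_rel hEXT hSU hC (Sm.rl s : Sm ι ar (ar' ar s)) (fun j => D.tt (t j))
      (fun j => D.G (π j)) (fun j => D.G (π' j)) ?_ ?_).symm
    · intro j j' a ha a' ha' haa
      obtain ⟨i, rfl⟩ := D.sur _ _ ha
      obtain ⟨i', rfl⟩ := D.sur _ _ ha'
      rw [D.hG, D.hG] at haa ⊢
      rcases D.blt haa with h1 | ⟨h1, h2⟩
      · exact D.b2 _ _ _ _ h1
      · subst h1
        exact D.b1 _ _ _ ((h j j' i ha ha').1 h2)
    · intro j j' a ha a' ha' haa
      obtain ⟨i, rfl⟩ := D.sur _ _ ha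
      obtain ⟨i', rfl⟩ := D.sur _ _ ha'
      rw [D.hG, D.hG] at haa ⊢
      obtain ⟨h1, h2⟩ := D.binj haa
      subst h1
      have h3 : π' j i = π' j' i := by
        rcases lt_trichotomy (π' j i) (π' j' i) with h4 | h4 | h4
        · exact absurd h2 ((h j j' i ha ha').2 h4).ne
        · exact h4
        · exact absurd h2 ((h j' j i ha' ha).2 h4).ne'
      rw [h3]
  · intro t π h
    exact hirr _ ((hpair t t π π).1 h)
  · intro t₁ t₂ t₃ π₁ π₂ π₃ h h'
    exact (hpair _ _ _ _).2 (htra _ _ _ ((hpair _ _ _ _).1 h) ((hpair _ _ _ _).1 h'))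
  · intro t₁ t₂ π₁ π₂ h
    have hne : D.el t₁ π₁ ≠ D.el t₂ π₂ := fun h' => h (D.elinj hSU hC h')
    rcases htot _ _ hne with h1 | h1
    · exact Or.inl ((hpair _ _ _ _).2 h1)
    · exact Or.inr ((hpair _ _ _ _).2 h1)
  · intro m t π h
    exact hage m (fun i => D.el (t i) (π i)) fun i j hij => (hpair _ _ _ _).1 (h i j hij)
  · obtain ⟨a, ha⟩ := hT.n₁
    rw [← ht₁] at ha
    obtain ⟨i, rfl⟩ := D.sur _ _ ha
    exact ⟨i, ha⟩
  · obtain ⟨a, ha⟩ := hT.n₂
    rw [← ht₂] at ha
    obtain ⟨i, rfl⟩ := D.sur _ _ ha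
    exact ⟨i, ha⟩
  · intro i h1 h2
    rw [ht₁] at h1
    rw [ht₂] at h2
    exact Finset.disjoint_left.1 hT.dis h1 h2
  · intro E hE1 hE2
    have hsub : D.tt '' E ⊆ T := by
      rintro _ ⟨t, -, rfl⟩
      exact (D.ran _).2 ⟨t, rfl⟩
    have hz1 : z₁ ∈ D.tt '' E := ⟨t₁, hE1, ht₁⟩
    have hz2 : z₂ ∉ D.tt '' E := by
      rintro ⟨t, ht, ht'⟩
      rw [← ht₂] at ht'
      rw [D.inj ht'] at ht
      exact hE2 ht
    obtain ⟨p, g, n, R, v, v', hvT, hfix, hin, hout, hR⟩ := hT.con _ hsub hz1 hz2
    choose t ht using fun j => (D.ran (v j)).1 (hvT j)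
    have hmem : ∀ j, v j ∈ D.tt '' E ↔ t j ∈ E := by
      intro j
      constructor
      · rintro ⟨t', ht', h⟩
        rw [← ht j] at h
        rw [← D.inj h]
        exact ht'
      · intro h
        exact ⟨t j, h, ht j⟩
    -- the point moves and is in a support
    have hex : ∃ j, t j ∈ E ∧ p ∈ su (v j) ∧ g p ≠ p := by
      by_contra hcon
      have hvv : v' = v := by
        funext j
        by_cases hj : t j ∈ E
        · rw [hin j ((hmem j).2 hj)]
          have h1 : g • v j = (1 : Gam) • v j := by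
            refine (hSU C hC.fin (v j)).2.2.2 _ _ fun a ha => ?_
            rw [RelIso.one_apply]
            by_cases hap : a = p
            · by_contra h
              rw [hap] at h ha
              exact hcon ⟨j, hj, ha, h⟩
            · exact hfix j a ha hap
          rw [h1, one_smul]
        · exact hout j fun h => hj ((hmem j).1 h)
      exact hR (by rw [hvv])
    obtain ⟨j₀, hj₀, hp₀, hgp⟩ := hex
    rw [← ht j₀] at hp₀
    obtain ⟨i, rfl⟩ := D.sur _ _ hp₀
    cases R with
    | un u =>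
      exfalso
      by_cases h0 : v 0 ∈ D.tt '' E
      · apply hR
        have h1 : v' = fun j => g • v j := by
          funext j
          rw [Subsingleton.elim j 0]
          exact hin 0 h0
        rw [h1]
        exact hC.inv g 1 (Sm.un u : Sm ι ar 1) v
      · apply hR
        have h1 : v' = v := by
          funext j
          rw [Subsingleton.elim j 0]
          exact hout 0 h0
        rw [h1]
    | rl s =>
      let q : ℚ := if D.s i < g (D.s i) then 1 else -1
      let π : Fin (ar' ar s) → Fin D.k → ℚ := fun j i' => if t j ∈ E ∧ i' = i then q else 0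
      refine ⟨s, t, i, q, π, fun j hj => if_pos ⟨hj, rfl⟩, fun j hj => if_neg fun h => hj h.1,
        fun j i' hi' => if_neg fun h => hi' h.2, ?_⟩
      -- the two sides
      let gg : Fin (ar' ar s) → Gam := fun j => if t j ∈ E then g else 1
      have hv' : v' = fun j => gg j • v j := by
        funext j
        by_cases hj : t j ∈ E
        · rw [hin j ((hmem j).2 hj)]
          show g • v j = (if t j ∈ E then g else 1) • v j
          rw [if_pos hj]
        · rw [hout j fun h => hj ((hmem j).1 h)]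
          show v j = (if t j ∈ E then g else 1) • v j
          rw [if_neg hj, one_smul]
      -- positions
      have hpos : ∀ j, ∀ a ∈ su (v j), (a < D.s i → a < g (D.s i) ∧ a < D.b i q) ∧
          (D.s i < a → g (D.s i) < a ∧ D.b i q < a) := by
        intro j a ha
        have ha' : a ∈ su (D.tt (t j)) := by rw [ht j]; exact ha
        obtain ⟨i', rfl⟩ := D.sur _ _ ha'
        constructor
        · intro h
          have h1 := hfix j _ ha h.ne
          refine ⟨?_, ?_⟩
          · have h2 := g.strictMono h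
            rw [h1] at h2
            exact h2
          · rw [← D.b0 i']
            exact D.b2 _ _ _ _ (D.mono.lt_iff_lt.1 h)
        · intro h
          have h1 := hfix j _ ha h.ne'
          refine ⟨?_, ?_⟩
          · have h2 := g.strictMono h
            rw [h1] at h2
            exact h2
          · rw [← D.b0 i']
            exact D.b2 _ _ _ _ (D.mono.lt_iff_lt.1 h)
      have hpp : (D.s i < g (D.s i) ∧ D.s i < D.b i q) ∨ (g (D.s i) < D.s i ∧ D.b i q < D.s i) := by
        by_cases h : D.s i < g (D.s i)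
        · refine Or.inl ⟨h, ?_⟩
          have hq : q = 1 := if_pos h
          rw [hq]
          conv_lhs => rw [← D.b0 i]
          exact D.b1 _ _ _ one_pos
        · refine Or.inr ⟨lt_of_le_of_ne (not_lt.1 h) hgp, ?_⟩
          have hq : q = -1 := if_neg h
          rw [hq]
          conv_rhs => rw [← D.b0 i]
          exact D.b1 _ _ _ (by norm_num)
      -- values
      have hval : ∀ j, ∀ a ∈ su (v j), (gg j a = a ∧ D.G (π j) a = a) ∨
          (a = D.s i ∧ gg j a = g (D.s i) ∧ D.G (π j) a = D.b i q) := by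
        intro j a ha
        have ha' : a ∈ su (D.tt (t j)) := by rw [ht j]; exact ha
        obtain ⟨i', rfl⟩ := D.sur _ _ ha'
        by_cases hii : i' = i
        · subst hii
          by_cases hj : t j ∈ E
          · refine Or.inr ⟨rfl, ?_, ?_⟩
            · show (if t j ∈ E then g else 1) (D.s i') = g (D.s i')
              rw [if_pos hj]
            · rw [D.hG]
              show D.b i' (if t j ∈ E ∧ i' = i' then q else 0) = _
              rw [if_pos ⟨hj, rfl⟩]
          · refine Or.inl ⟨?_, ?_⟩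
            · show (if t j ∈ E then g else 1) (D.s i') = _
              rw [if_neg hj, RelIso.one_apply]
            · rw [D.hG]
              show D.b i' (if t j ∈ E ∧ i' = i' then q else 0) = _
              rw [if_neg fun h => hj h.1, D.b0]
        · have hne : D.s i' ≠ D.s i := fun h => hii (D.mono.injective h)
          refine Or.inl ⟨?_, ?_⟩
          · show (if t j ∈ E then g else 1) (D.s i') = _
            by_cases hj : t j ∈ E
            · rw [if_pos hj]
              exact hfix j _ ha hne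
            · rw [if_neg hj, RelIso.one_apply]
          · rw [D.hG]
            show D.b i' (if t j ∈ E ∧ i' = i then q else 0) = _
            rw [if_neg fun h => hii h.2, D.b0]
      have hcmp : ∀ j, ∀ a ∈ su (v j), (a < D.b i q ↔ a < g (D.s i)) ∧
          (D.b i q < a ↔ g (D.s i) < a) := by
        intro j a ha
        rcases lt_trichotomy a (D.s i) with h | h | h
        · obtain ⟨h1, h2⟩ := (hpos j a ha).1 h
          exact ⟨⟨fun _ => h1, fun _ => h2⟩, ⟨fun h3 => absurd h3 h2.not_gt,
            fun h3 => absurd h3 h1.not_gt⟩⟩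
        · rw [h]
          rcases hpp with ⟨h1, h2⟩ | ⟨h1, h2⟩
          · exact ⟨⟨fun _ => h1, fun _ => h2⟩, ⟨fun h3 => absurd h3 h2.not_gt,
              fun h3 => absurd h3 h1.not_gt⟩⟩
          · exact ⟨⟨fun h3 => absurd h3 h2.not_gt, fun h3 => absurd h3 h1.not_gt⟩,
              ⟨fun _ => h1, fun _ => h2⟩⟩
        · obtain ⟨h1, h2⟩ := (hpos j a ha).2 h
          exact ⟨⟨fun h3 => absurd h3 h2.not_gt, fun h3 => absurd h3 h1.not_gt⟩,
            ⟨fun _ => h1, fun _ => h2⟩⟩
      have e1 : rr S s (fun j => gg j • v j) ↔ rr S s (fun j => D.G (π j) • v j) := by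
        refine BRI_rel (L := LA ι ar) hEXT hSU hC (Sm.rl s : Sm ι ar (ar' ar s)) v
          (fun j => D.G (π j)) gg ?_ ?_
        · intro j j' a ha a' ha' haa
          rcases hval j a ha with ⟨h1, h2⟩ | ⟨h0, h1, h2⟩ <;>
            rcases hval j' a' ha' with ⟨h3, h4⟩ | ⟨h5, h3, h4⟩
          · show gg j a < gg j' a'
            have haa' : D.G (π j) a < D.G (π j') a' := haa
            rw [h2, h4] at haa'
            rw [h1, h3]
            exact haa'
          · show gg j a < gg j' a'
            have haa' : D.G (π j) a < D.G (π j') a' := haa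
            rw [h2, h4] at haa'
            rw [h1, h3]
            exact (hcmp j a ha).1.1 haa'
          · show gg j a < gg j' a'
            have haa' : D.G (π j) a < D.G (π j') a' := haa
            rw [h2, h4] at haa'
            rw [h1, h3]
            exact (hcmp j' a' ha').2.1 haa'
          · have haa' : D.G (π j) a < D.G (π j') a' := haa
            rw [h2, h4] at haa'
            exact absurd haa' (lt_irrefl _)
        · intro j j' a ha a' ha' haa
          rcases hval j a ha with ⟨h1, h2⟩ | ⟨h0, h1, h2⟩ <;>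
            rcases hval j' a' ha' with ⟨h3, h4⟩ | ⟨h5, h3, h4⟩
          · show gg j a = gg j' a'
            have haa' : D.G (π j) a = D.G (π j') a' := haa
            rw [h2, h4] at haa'
            rw [h1, h3]
            exact haa'
          · show gg j a = gg j' a'
            have haa' : D.G (π j) a = D.G (π j') a' := haa
            rw [h2, h4] at haa'
            rw [h1, h3]
            have h6 := hcmp j a ha
            rcases lt_trichotomy a (g (D.s i)) with h7 | h7 | h7
            · exact absurd haa' (h6.1.2 h7).ne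
            · exact h7
            · exact absurd haa' (h6.2.2 h7).ne'
          · show gg j a = gg j' a'
            have haa' : D.G (π j) a = D.G (π j') a' := haa
            rw [h2, h4] at haa'
            rw [h1, h3]
            have h6 := hcmp j' a' ha'
            rcases lt_trichotomy a' (g (D.s i)) with h7 | h7 | h7
            · exact absurd haa' (h6.1.2 h7).ne'
            · exact h7.symm
            · exact absurd haa' (h6.2.2 h7).ne
          · show gg j a = gg j' a'
            rw [h1, h3]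
      have e2 : (fun j => D.el (t j) (π j)) = fun j => D.G (π j) • v j := by
        funext j
        show D.G (π j) • D.tt (t j) = _
        rw [ht j]
      have e3 : (fun j => D.el (t j) (fun _ => 0)) = v := by
        funext j
        show D.G (fun _ => 0) • D.tt (t j) = v j
        rw [← ht j]
        have h1 : D.G (fun _ => 0) • D.tt (t j) = (1 : Gam) • D.tt (t j) := by
          refine (hSU C hC.fin (D.tt (t j))).2.2.2 _ _ fun a ha => ?_
          obtain ⟨i', rfl⟩ := D.sur _ _ ha
          rw [D.hG, D.b0, RelIso.one_apply]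
        rw [h1, one_smul]
      intro hcon
      apply hR
      rw [hv']
      refine e1.trans ?_
      have h4 : rr S s (fun j => D.el (t j) (π j)) ↔ rr S s (fun j => D.el (t j) (fun _ => 0)) :=
        hcon
      rw [e2, e3] at h4
      exact h4

end Pool.Agent.AAD
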