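import Pool.Agent.AAD.StA

/-!
AAD, module CF (helper43): facts on cores.
-/

set_option autoImplicit false
set_option linter.unusedVariables false

namespace Pool.Agent.AAD

open FirstOrder.Language Set
open scoped FirstOrder

section

variable {L : FirstOrder.Language.{0, 0}} {C : Type} [L.Structure C] [MulAction Gam C]

/-- the stabilizer of the class of `x` -/
private def CF_H (L : FirstOrder.Language.{0, 0}) {C : Type} [L.Structure C] [MulAction Gam C]
    (x : C) : Set Gam := {g | Lnk L (g • x) x}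

private theorem CF_co (x : C) : co L x = ls (CF_H L x) := rfl

private theorem CF_mem (x : C) (g : Gam) : g ∈ CF_H L x ↔ Lnk L (g • x) x := Iff.rfl

private theorem CF_one (hE : Equivalence (Lnk L : C → C → Prop)) (x : C) :
    (1 : Gam) ∈ CF_H L x := by
  rw [CF_mem, one_smul]
  exact hE.refl x

private theorem CF_mul (hE : Equivalence (Lnk L : C → C → Prop))
    (hA : ∀ (g : Gam) (x y : C), Lnk L x y → Lnk L (g • x) (g • y)) (x : C) (g : Gam)
    (hg : g ∈ CF_H L x) (h : Gam) (hh : h ∈ CF_H L x) : g * h ∈ CF_H L x := by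
  rw [CF_mem] at *
  rw [mul_smul]
  exact hE.trans (hA g _ _ hh) hg

private theorem CF_inv (hE : Equivalence (Lnk L : C → C → Prop))
    (hA : ∀ (g : Gam) (x y : C), Lnk L x y → Lnk L (g • x) (g • y)) (x : C) (g : Gam)
    (hg : g ∈ CF_H L x) : g⁻¹ ∈ CF_H L x := by
  rw [CF_mem] at *
  have h := hA g⁻¹ _ _ hg
  rw [inv_smul_smul] at h
  exact hE.symm h

private theorem CF_su (hSU : St_SU) (hC : Ctx L C) (hE : Equivalence (Lnk L : C → C → Prop))
    (x : C) : Fx (su x) ⊆ CF_H L x := by
  intro g hg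
  have h1 : g • x = x := (hSU C hC.fin x).1 hg
  rw [CF_mem, h1]
  exact hE.refl x

end

/-- facts on cores -/
theorem thm_CF (hLS : St_LS) (hLSC : St_LSC) (hSU : St_SU) (hEQV : St_EQV) : St_CF := by
  intro L C _ _ hC x
  obtain ⟨hE, hA⟩ := hEQV L C hC
  have hS : ∀ z : C, Fx (su z) ⊆ CF_H L z := fun z => CF_su hSU hC hE z
  have hL := hLS (CF_H L x) (CF_one hE x) (fun g hg h hh => CF_mul hE hA x g hg h hh)
    (fun g hg => CF_inv hE hA x g hg) ⟨su x, hS x⟩
  refine ⟨hL.2 (su x) (hS x), fun g hg => hL.1 hg, fun g => ?_, fun y hxy => ?_⟩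
  · refine hLSC (CF_H L x) (CF_H L (g • x)) g (fun h => ?_) ⟨su x, hS x⟩
    rw [CF_mem, CF_mem]
    constructor
    · intro hh
      have h1 := hA g⁻¹ _ _ hh
      rw [inv_smul_smul, ← mul_smul, ← mul_smul] at h1
      exact h1
    · intro hh
      have h1 := hA g _ _ hh
      rw [← mul_smul, ← mul_assoc, ← mul_assoc, mul_inv_cancel, one_mul, mul_smul] at h1
      exact h1
  · have h1 : CF_H L x = CF_H L y := by
      ext g
      rw [CF_mem, CF_mem]
      have h2 := hA g _ _ hxy
      constructor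
      · intro hh
        exact hE.trans (hE.symm h2) (hE.trans hh hxy)
      · intro hh
        exact hE.trans h2 (hE.trans hh (hE.symm hxy))
    rw [CF_co, CF_co, h1]

end Pool.Agent.AAD
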