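import Pool.Agent.AAD.StA

/-!
AAD, module CFE (helper90): extension of configurations by one element.
-/

set_option autoImplicit false
set_option linter.unusedVariables false

namespace Pool.Agent.AAD

open FirstOrder.Language Set
open scoped FirstOrder

section

variable {L : FirstOrder.Language.{0, 0}} {C : Type} [L.Structure C] [MulAction Gam C]

private theorem CFE_spc_symm (hC : Cor L C) {x y : C} (h : Spc L x y) : Spc L y x := by
  obtain ⟨g, hg⟩ := h
  refine ⟨g⁻¹, ?_⟩
  have h1 := hC.act g⁻¹ _ _ hg
  rw [inv_smul_smul] at h1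
  exact hC.equ.symm h1

private theorem CFE_spc_trans (hC : Cor L C) {x y z : C} (h : Spc L x y) (h' : Spc L y z) :
    Spc L x z := by
  obtain ⟨g, hg⟩ := h
  obtain ⟨g', hg'⟩ := h'
  refine ⟨g' * g, ?_⟩
  have h1 := hC.act g' _ _ hg
  rw [mul_smul]
  exact hC.equ.trans h1 hg'

private theorem CFE_spc_of_lnk (hC : Cor L C) {x y : C} (h : Lnk L x y) : Spc L x y :=
  ⟨1, by rw [one_smul]; exact h⟩

end

theorem thm_CFE (hCF : St_CF) : St_CFE := by
  intro L C _ _ hC I _ c g hcfg x
  by_cases hx : ∃ i, Lnk L x (c i)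
  · -- `x` is in the class of `c i`
    obtain ⟨i, hi⟩ := hx
    have hco : co L x = co L (c i) := (hCF L C hC.ctx x).2.2.2 (c i) hi
    refine ⟨g i, ⟨?_, ?_⟩⟩
    · rintro (_ | j) (_ | k) hjk
      · rfl
      · exact hcfg.cls i k (hC.equ.trans (hC.equ.symm hi) hjk)
      · exact hcfg.cls j i (hC.equ.trans hjk hi)
      · exact hcfg.cls j k hjk
    · rintro (_ | j) (_ | k) hjk a ha b hb hab
      · exact absurd (hC.one x a ha b hb) hab.ne
      · exact hcfg.ord i k (CFE_spc_trans hC (CFE_spc_of_lnk hC (hC.equ.symm hi)) hjk) a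
          (by rw [← hco]; exact ha) b hb hab
      · exact hcfg.ord j i (CFE_spc_trans hC hjk (CFE_spc_of_lnk hC hi)) a ha b
          (by rw [← hco]; exact hb) hab
      · exact hcfg.ord j k hjk a ha b hb hab
  · rcases (co L x).eq_empty_or_nonempty with he | ⟨a, ha⟩
    · refine ⟨1, ⟨?_, ?_⟩⟩
      · rintro (_ | j) (_ | k) hjk
        · rfl
        · exact absurd ⟨k, hjk⟩ hx
        · exact absurd ⟨j, hC.equ.symm hjk⟩ hx
        · exact hcfg.cls j k hjk
      · rintro (_ | j) (_ | k) hjk p hp q hq hpq
        · exact absurd (hC.one x p hp q hq) hpq.ne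
        · have hp' : p ∈ co L x := hp
          rw [he] at hp'
          exact absurd hp' (Finset.notMem_empty p)
        · have hq' : q ∈ co L x := hq
          rw [he] at hq'
          exact absurd hq' (Finset.notMem_empty q)
        · exact hcfg.ord j k hjk p hp q hq hpq
    · -- the points which must be below and above
      have hfin : ∀ P : I → ℚ → Prop, {q : ℚ | ∃ i, ∃ b ∈ co L (c i), P i b ∧ q = g i b}.Finite := by
        intro P
        refine (Set.finite_iUnion (fun i : I => ((co L (c i)).finite_toSet.image (g i)))).subset ?_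
        rintro q ⟨i, b, hb, _, rfl⟩
        exact Set.mem_iUnion.2 ⟨i, b, hb, rfl⟩
      obtain ⟨a', hlo, hhi⟩ := Order.exists_between_finsets
        (hfin (fun i b => Spc L (c i) x ∧ b < a)).toFinset
        (hfin (fun i b => Spc L (c i) x ∧ a < b)).toFinset (by
          intro p hp q hq
          rw [Set.Finite.mem_toFinset] at hp hq
          obtain ⟨i, b, hb, ⟨h1, h2⟩, rfl⟩ := hp
          obtain ⟨j, b', hb', ⟨h3, h4⟩, rfl⟩ := hq
          exact hcfg.ord i j (CFE_spc_trans hC h1 (CFE_spc_symm hC h3)) b hb b' hb' (h2.trans h4))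
      have hha : (OrderIso.addRight (a' - a) : Gam) a = a' := by
        simp
      refine ⟨OrderIso.addRight (a' - a), ⟨?_, ?_⟩⟩
      · rintro (_ | j) (_ | k) hjk
        · rfl
        · exact absurd ⟨k, hjk⟩ hx
        · exact absurd ⟨j, hC.equ.symm hjk⟩ hx
        · exact hcfg.cls j k hjk
      · rintro (_ | j) (_ | k) hjk p hp q hq hpq
        · exact absurd (hC.one x p hp q hq) hpq.ne
        · have hpa : p = a := hC.one x p hp a ha
          subst hpa
          change (OrderIso.addRight (a' - p) : Gam) p < g k q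
          rw [hha]
          refine hhi _ ?_
          rw [Set.Finite.mem_toFinset]
          exact ⟨k, q, hq, ⟨CFE_spc_symm hC hjk, hpq⟩, rfl⟩
        · have hqa : q = a := hC.one x q hq a ha
          subst hqa
          change g j p < (OrderIso.addRight (a' - q) : Gam) q
          rw [hha]
          refine hlo _ ?_
          rw [Set.Finite.mem_toFinset]
          exact ⟨j, p, hp, ⟨hjk, hpq⟩, rfl⟩
        · exact hcfg.ord j k hjk p hp q hq hpq

end Pool.Agent.AAD
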