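import Pool.Agent.AAD.StA

/-!
AAD: the maximum of the automorphisms of a configuration and `1`.
-/

set_option autoImplicit false
set_option linter.unusedVariables false

namespace Pool.Agent.AAD

open FirstOrder.Language Set
open scoped FirstOrder

theorem CFM_strictMono (g : Gam) : StrictMono (fun x : ℚ => max (g x) x) := by
  intro a b hab
  have h : g a < g b := g.strictMono hab
  exact max_lt (lt_of_lt_of_le h (le_max_left _ _)) (lt_of_lt_of_le hab (le_max_right _ _))

theorem CFM_inv_mul (g : Gam) (x : ℚ) : g⁻¹ (g x) = x := by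
  rw [← RelIso.mul_apply, inv_mul_cancel, RelIso.one_apply]

theorem CFM_mul_inv (g : Gam) (x : ℚ) : g (g⁻¹ x) = x := by
  rw [← RelIso.mul_apply, mul_inv_cancel, RelIso.one_apply]

/-- `max g 1` -/
def CFM_k (g : Gam) : Gam where
  toFun x := max (g x) x
  invFun y := min (g⁻¹ y) y
  left_inv x := by
    show min (g⁻¹ (max (g x) x)) (max (g x) x) = x
    rcases le_total x (g x) with h | h
    · rw [max_eq_left h, CFM_inv_mul, min_eq_left h]
    · rw [max_eq_right h]
      have h1 : x ≤ g⁻¹ x := by
        have h2 := (g⁻¹).monotone h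
        rwa [CFM_inv_mul] at h2
      exact min_eq_right h1
  right_inv y := by
    show max (g (min (g⁻¹ y) y)) (min (g⁻¹ y) y) = y
    rcases le_total y (g⁻¹ y) with h | h
    · rw [min_eq_right h]
      have h1 : g y ≤ y := by
        have h2 := g.monotone h
        rwa [CFM_mul_inv] at h2
      exact max_eq_right h1
    · rw [min_eq_left h, CFM_mul_inv]
      exact max_eq_left h
  map_rel_iff' := by
    intro a b
    exact (CFM_strictMono g).le_iff_le

theorem CFM_k_apply (g : Gam) (x : ℚ) : CFM_k g x = max (g x) x := rfl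

theorem thm_CFM (hCF : St_CF) (hCFS : St_CFS) : St_CFM := by
  intro L C _ _ hC I c g hg
  have hs := hCFS L C hC I c g hg
  refine ⟨fun i => CFM_k (g i), ⟨?_, ?_⟩, ⟨?_, ?_⟩, ?_⟩
  · intro i j hij
    show CFM_k (g i) = CFM_k (g j)
    rw [hg.cls i j hij]
  · intro i j hij a ha b hb hab
    have h1 := hg.ord i j hij a ha b hb hab
    show max (g i a) a < max (g j b) b
    exact max_lt (lt_of_lt_of_le h1 (le_max_left _ _)) (lt_of_lt_of_le hab (le_max_right _ _))
  · intro i j hij
    have h1 : (g i)⁻¹ = (g j)⁻¹ := hs.cls i j hij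
    have h2 : g i = g j := inv_injective h1
    show CFM_k (g i) * (g i)⁻¹ = CFM_k (g j) * (g j)⁻¹
    rw [h2]
  · intro i j hij a' ha' b' hb' hab'
    have h1 : (g i)⁻¹ a' < (g j)⁻¹ b' := hs.ord i j hij a' ha' b' hb' hab'
    show (CFM_k (g i) * (g i)⁻¹) a' < (CFM_k (g j) * (g j)⁻¹) b'
    rw [RelIso.mul_apply, RelIso.mul_apply, CFM_k_apply, CFM_k_apply, CFM_mul_inv, CFM_mul_inv]
    exact max_lt (lt_of_lt_of_le hab' (le_max_left _ _)) (lt_of_lt_of_le h1 (le_max_right _ _))
  · intro i q
    constructor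
    · exact le_max_right _ _
    · show q ≤ (CFM_k (g i) * (g i)⁻¹) q
      rw [RelIso.mul_apply, CFM_k_apply, CFM_mul_inv]
      exact le_max_left _ _

end Pool.Agent.AAD
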