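import Pool.Agent.AAD.StA

/-!
AAD [CFS]: configurations are symmetric (helper44).
-/

set_option autoImplicit false
set_option linter.unusedVariables false

namespace Pool.Agent.AAD

open FirstOrder.Language Set
open scoped FirstOrder

theorem thm_CFS (hSU : St_SU) (hCF : St_CF) : St_CFS := by
  classical
  intro L C _ _ hC I c g hg
  have hcf := hCF L C hC.ctx
  have hsu := hSU C hC.ctx.fin
  -- elements with empty core are fixed
  have hfix : ∀ (x : C) (h : Gam), co L x = ∅ → h • x = x := by
    intro x h hx
    have h1 : su x = ∅ := by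
      by_contra h2
      have h3 := hC.ne x (Finset.nonempty_iff_ne_empty.2 h2)
      rw [hx] at h3
      exact Finset.not_nonempty_empty h3
    have h2 := (hsu x).2.2.2 h 1 (by
      intro a ha
      rw [h1] at ha
      exact absurd ha (Finset.notMem_empty a))
    rw [h2, one_smul]
  -- a common element of the cores
  have hcom : ∀ i j, Spc L (c i) (c j) → ∀ a, a ∈ co L (c i) → a ∈ co L (c j) →
      Lnk L (c i) (c j) := by
    rintro i j ⟨h, hh⟩ a hai haj
    have h1 : co L (h • c i) = co L (c j) := (hcf (h • c i)).2.2.2 (c j) hh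
    rw [(hcf (c i)).2.2.1 h] at h1
    have h2 : h a ∈ co L (c j) := by
      rw [← h1]
      exact Finset.mem_image_of_mem _ hai
    have h3 : h a = a := hC.one (c j) (h a) h2 a haj
    have h4 : Lnk L (h • c i) (c i) := (hcf (c i)).2.1 h (by
      intro b hb
      rw [hC.one (c i) b hb a hai]
      exact h3)
    exact hC.equ.trans (hC.equ.symm h4) hh
  have hsymm : ∀ x y : C, Spc L x y → Spc L y x := by
    rintro x y ⟨h, hh⟩
    refine ⟨h⁻¹, ?_⟩
    have h1 := hC.act h⁻¹ _ _ hh
    rw [inv_smul_smul] at h1
    exact hC.equ.symm h1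
  have hspc : ∀ i j, Spc L (g i • c i) (g j • c j) → Spc L (c i) (c j) := by
    rintro i j ⟨h, hh⟩
    refine ⟨(g j)⁻¹ * (h * g i), ?_⟩
    have h1 := hC.act (g j)⁻¹ _ _ hh
    rw [inv_smul_smul, ← mul_smul, ← mul_smul] at h1
    exact h1
  constructor
  · intro i j hij
    have hS : Spc L (c i) (c j) := hspc i j ⟨1, by rw [one_smul]; exact hij⟩
    have hco : (co L (c i)).image (g i) = (co L (c j)).image (g j) := by
      have h1 := (hcf (g i • c i)).2.2.2 _ hij
      rw [(hcf (c i)).2.2.1, (hcf (c j)).2.2.1] at h1
      exact h1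
    have hL : Lnk L (c i) (c j) := by
      by_cases hi : co L (c i) = ∅
      · have hj : co L (c j) = ∅ := by
          rw [hi, Finset.image_empty] at hco
          exact Finset.image_eq_empty.1 hco.symm
        rw [hfix (c i) (g i) hi, hfix (c j) (g j) hj] at hij
        exact hij
      · obtain ⟨a, ha⟩ := Finset.nonempty_iff_ne_empty.2 hi
        have h1 : g i a ∈ (co L (c j)).image (g j) := by
          rw [← hco]
          exact Finset.mem_image_of_mem _ ha
        obtain ⟨b, hb, hgb⟩ := Finset.mem_image.1 h1
        have hab : a = b := by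
          rcases lt_trichotomy a b with h | h | h
          · have h2 := hg.ord i j hS a ha b hb h
            rw [hgb] at h2
            exact absurd h2 (lt_irrefl _)
          · exact h
          · have h2 := hg.ord j i (hsymm _ _ hS) b hb a ha h
            rw [hgb] at h2
            exact absurd h2 (lt_irrefl _)
        rw [← hab] at hb
        exact hcom i j hS a ha hb
    show (g i)⁻¹ = (g j)⁻¹
    rw [hg.cls i j hL]
  · intro i j hij a' ha' b' hb' hab'
    have hS := hspc i j hij
    rw [(hcf (c i)).2.2.1] at ha'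
    rw [(hcf (c j)).2.2.1] at hb'
    obtain ⟨a, ha, rfl⟩ := Finset.mem_image.1 ha'
    obtain ⟨b, hb, rfl⟩ := Finset.mem_image.1 hb'
    have h1 : (g i)⁻¹ (g i a) = a := (g i).symm_apply_apply a
    have h2 : (g j)⁻¹ (g j b) = b := (g j).symm_apply_apply b
    show (g i)⁻¹ (g i a) < (g j)⁻¹ (g j b)
    rw [h1, h2]
    rcases lt_trichotomy a b with h | h | h
    · exact h
    · exfalso
      subst h
      have h3 := hg.cls i j (hcom i j hS a ha hb)
      rw [h3] at hab'
      exact lt_irrefl _ hab'
    · exact absurd (hg.ord j i (hsymm _ _ hS) b hb a ha h) (lt_asymm hab')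

end Pool.Agent.AAD
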