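import Pool.Agent.AAD.StB

/-!
AAD, module CLN: the codes are ordered structures with age in `K` (helper57).
-/

set_option autoImplicit false
set_option linter.unusedVariables false

namespace Pool.Agent.AAD

open FirstOrder.Language Set
open scoped FirstOrder

/-- positions are compared by `plt` -/
private theorem CLN_plt {N : ℕ} {M : Type} {r : M → M → Prop} (hr : Lin r) {a b : Pos N M}
    (h1 : ¬ plt r a b) (h2 : ¬ plt r b a) : a = b := by
  cases a with
  | lo i =>
    cases b with
    | lo j => exact congrArg _ (le_antisymm (not_lt.1 h2) (not_lt.1 h1))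
    | md ν e => exact absurd trivial h1
    | hi j => exact absurd trivial h1
  | md μ d =>
    cases b with
    | lo j => exact absurd trivial h2
    | md ν e =>
      have h1' : ¬ (r μ ν ∨ (μ = ν ∧ d < e)) := h1
      have h2' : ¬ (r ν μ ∨ (ν = μ ∧ e < d)) := h2
      have hμ : μ = ν := by
        by_contra hne
        rcases hr.2.2 μ ν hne with h | h
        · exact h1' (Or.inl h)
        · exact h2' (Or.inl h)
      subst hμ
      have hd : d = e := by
        refine le_antisymm (not_lt.1 fun h => h2' (Or.inr ⟨rfl, h⟩))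
          (not_lt.1 fun h => h1' (Or.inr ⟨rfl, h⟩))
      rw [hd]
    | hi j => exact absurd trivial h1
  | hi i =>
    cases b with
    | lo j => exact absurd trivial h2
    | md ν e => exact absurd trivial h2
    | hi j => exact congrArg _ (le_antisymm (not_lt.1 h2) (not_lt.1 h1))

private theorem CLN_rfp {N : ℕ} {M : Type} {a b : Bool × Fin N} (h : rfp M a = rfp M b) :
    a = b := by
  obtain ⟨a1, a2⟩ := a
  obtain ⟨b1, b2⟩ := b
  cases a1 <;> cases b1 <;> simp_all [rfp]

private theorem CLN_rfp_md {N : ℕ} {M : Type} {a : Bool × Fin N} {μ : M} {d : Fin 3} :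
    rfp M a ≠ .md μ d := by
  obtain ⟨a1, a2⟩ := a
  cases a1 <;> simp [rfp]

/-- an element is determined by the kind and the position on the support -/
private theorem CLN_inj {κ : Type} {ar : κ → ℕ} {K : Cla ar} (P : PS K) (E : Set (Fin P.N))
    {M : Type} (x y : XE P E M) (hk : kd P x = kd P y)
    (hp : ∀ i, P.sp (kd P x) i → pp P x i = pp P y i) : x = y := by
  rcases x with ⟨μ, ⟨⟨t, d⟩, hl⟩⟩ | ⟨⟨t, d⟩, hr⟩ <;>
    rcases y with ⟨ν, ⟨⟨t', d'⟩, hl'⟩⟩ | ⟨⟨t', d'⟩, hr'⟩
  · have hk' : t = t' := hk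
    subst hk'
    obtain ⟨i, hi⟩ := hl.2.1
    have h1 : (Pos.md μ (d i) : Pos P.N M) = .md ν (d' i) := hp i hi
    have hμ : μ = ν := by
      injection h1
    subst hμ
    have hd : d = d' := by
      funext i
      by_cases h : P.sp t i
      · have h2 : (Pos.md μ (d i) : Pos P.N M) = .md μ (d' i) := hp i h
        injection h2
      · exact (hl.2.2 i h).trans (hl'.2.2 i h).symm
    subst hd
    rfl
  · have hk' : t = t' := hk
    obtain ⟨i, hi⟩ := hl.2.1
    have h1 : (Pos.md μ (d i) : Pos P.N M) = rfp M (d' i) := hp i hi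
    exact absurd h1.symm CLN_rfp_md
  · have hk' : t = t' := hk
    subst hk'
    obtain ⟨i, hi⟩ := hl'.2.1
    have h1 : rfp M (d i) = (Pos.md ν (d' i) : Pos P.N M) := hp i hi
    exact absurd h1 CLN_rfp_md
  · have hk' : t = t' := hk
    subst hk'
    have hd : d = d' := by
      funext i
      by_cases h : P.sp t i
      · exact CLN_rfp (hp i h)
      · exact (hr i h).trans (hr' i h).symm
    subst hd
    rfl

/-- the relations between finitely many elements are given by rational points -/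
private theorem CLN_tr (hRNK : St_RNK) (hTMI : St_TMI) {κ : Type} {ar : κ → ℕ} {K : Cla ar}
    (P : PS K) (E : Set (Fin P.N)) (m : LL) (n : ℕ) (v : Fin n → XE P E m.M) :
    ∃ π' : Fin n → Fin P.k → ℚ,
      (∀ j j' i, plt (m.lt (bt P i)) (pp P (v j) i) (pp P (v j') i) ↔ π' j i < π' j' i) ∧
      (∀ s (w : Fin (ar' ar s) → Fin n), rr (cdE P E m.M m.lt) s (fun i => v (w i)) ↔
        P.Tr s (fun i => kd P (v (w i))) (fun i => π' (w i))) ∧
      ∀ a b, al (cdE P E m.M m.lt) (v a) (v b) ↔
        P.Tr none (![kd P (v a), kd P (v b)] : Fin 2 → Fin P.N)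
          (![π' a, π' b] : Fin 2 → Fin P.k → ℚ) := by
  obtain ⟨π', h⟩ := hRNK κ ar K P m n fun j => pp P (v j)
  have key : ∀ s (w : Fin (ar' ar s) → Fin n), rr (cdE P E m.M m.lt) s (fun i => v (w i)) ↔
      P.Tr s (fun i => kd P (v (w i))) (fun i => π' (w i)) := fun s w =>
    (hTMI κ ar K P m s (fun i => kd P (v (w i))) (fun i => pp P (v (w i)))).1
      (fun i => π' (w i)) fun j j' i _ _ => h (w j) (w j') i
  refine ⟨π', h, key, fun a b => ?_⟩
  have h1 := key none (![a, b] : Fin 2 → Fin n)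
  have e1 : (fun i : Fin (ar' ar none) => v ((![a, b] : Fin 2 → Fin n) i)) =
      (![v a, v b] : Fin 2 → XE P E m.M) := by
    funext i
    revert i
    exact Fin.forall_fin_two.2 ⟨rfl, rfl⟩
  have e2 : (fun i : Fin (ar' ar none) => kd P (v ((![a, b] : Fin 2 → Fin n) i))) =
      (![kd P (v a), kd P (v b)] : Fin 2 → Fin P.N) := by
    funext i
    revert i
    exact Fin.forall_fin_two.2 ⟨rfl, rfl⟩
  have e3 : (fun i : Fin (ar' ar none) => π' ((![a, b] : Fin 2 → Fin n) i)) =
      (![π' a, π' b] : Fin 2 → Fin P.k → ℚ) := by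
    funext i
    revert i
    exact Fin.forall_fin_two.2 ⟨rfl, rfl⟩
  rw [e1, e2, e3] at h1
  exact h1

theorem thm_CLN (hRNK : St_RNK) (hTMI : St_TMI) : St_CLN := by
  intro κ ar K P E m
  refine ⟨⟨?_, ?_, ?_⟩, ?_⟩
  · intro x hx
    obtain ⟨π', -, -, h⟩ := CLN_tr hRNK hTMI P E m 1 fun _ => x
    exact P.irr _ _ ((h 0 0).1 hx)
  · intro x y z hxy hyz
    obtain ⟨π', -, -, h⟩ := CLN_tr hRNK hTMI P E m 3 ![x, y, z]
    have h1 := (h 0 1).1 hxy
    have h2 := (h 1 2).1 hyz
    exact (h 0 2).2 (P.tra _ _ _ _ _ _ h1 h2)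
  · intro x y hne
    obtain ⟨π', h0, -, h⟩ := CLN_tr hRNK hTMI P E m 2 ![x, y]
    have h1 := P.tot (kd P x) (kd P y) (π' 0) (π' 1) (by
      rintro ⟨hk, hp⟩
      apply hne
      refine CLN_inj P E x y hk fun i hi => ?_
      refine CLN_plt (m.lin (bt P i)) (fun hlt => ?_) (fun hlt => ?_)
      · have h2 := (h0 0 1 i).1 hlt
        rw [hp i hi] at h2
        exact lt_irrefl _ h2
      · have h2 := (h0 1 0 i).1 hlt
        rw [hp i hi] at h2
        exact lt_irrefl _ h2)
    rcases h1 with h1 | h1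
    · exact Or.inl ((h 0 1).2 h1)
    · exact Or.inr ((h 1 0).2 h1)
  · intro n z hz
    obtain ⟨π', -, hr, h⟩ := CLN_tr hRNK hTMI P E m n z
    have h1 := P.age n (fun i => kd P (z i)) π' fun i j hij => (h i j).1 (hz i j hij)
    have e : (fun (c : κ) (v : Fin (ar c) → Fin n) =>
        rr (cdE P E m.M m.lt) (some c) (fun i => z (v i))) =
        fun c v => P.Tr (some c) (fun i => kd P (z (v i))) (fun i => π' (v i)) := by
      funext c v
      exact propext (hr (some c) v)
    show (fun (c : κ) (v : Fin (ar c) → Fin n) =>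
        rr (cdE P E m.M m.lt) (some c) (fun i => z (v i))) ∈ K n
    rw [e]
    exact h1

end Pool.Agent.AAD
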