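import Pool.Agent.AAD.StA

/-!
AAD, module COR: cores under the hypothesis (H) (helper40).
-/

set_option autoImplicit false
set_option linter.unusedVariables false

namespace Pool.Agent.AAD

open FirstOrder.Language Set
open scoped FirstOrder

/-- a small step to the right of `a` which does not reach any element of `A` -/
theorem COR_gap (A : Finset ℚ) (a : ℚ) : ∃ a' : ℚ, a < a' ∧ ∀ b ∈ A, a < b → a' < b := by
  classical
  induction A using Finset.induction_on with
  | empty => exact ⟨a + 1, by linarith, fun b hb => absurd hb (Finset.notMem_empty b)⟩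
  | insert c s _ ih =>
    obtain ⟨a', h1, h2⟩ := ih
    by_cases hc : a < c
    · refine ⟨min a' ((a + c) / 2), lt_min h1 (by linarith), fun b hb hab => ?_⟩
      rcases Finset.mem_insert.1 hb with rfl | hb
      · exact lt_of_le_of_lt (min_le_right _ _) (by linarith)
      · exact lt_of_le_of_lt (min_le_left _ _) (h2 b hb hab)
    · refine ⟨a', h1, fun b hb hab => ?_⟩
      rcases Finset.mem_insert.1 hb with rfl | hb
      · exact absurd hab hc
      · exact h2 b hb hab

theorem thm_COR (hEXT : St_EXT) (hSU : St_SU) (hEQV : St_EQV) (hFOR : St_FOR) (hCF : St_CF) :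
    St_COR := by
  classical
  intro L C _ _ hctx hyp lt hlt
  have hS := hSU C hctx.fin
  have hCo := hCF L C hctx
  refine ⟨hctx, (hEQV L C hctx).1, (hEQV L C hctx).2, hFOR L C hctx, ?_, ?_⟩
  · -- at most one element
    have key : ∀ (x : C) (a₁ a₂ : ℚ), a₁ ∈ co L x → a₂ ∈ co L x → a₁ < a₂ → False := by
      intro x a₁ a₂ h1 h2 h12
      have s1 : a₁ ∈ su x := (hCo x).1 h1
      have s2 : a₂ ∈ su x := (hCo x).1 h2
      obtain ⟨b₁, hb1, hb1'⟩ := COR_gap (su x) a₁
      obtain ⟨b₂, hb2, hb2'⟩ := COR_gap (su x) a₂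
      have hb12 : b₁ < a₂ := hb1' a₂ s2 h12
      -- the two automorphisms
      obtain ⟨δ₁, hδ₁⟩ := hEXT (insert b₂ (su x)) (Function.update id a₁ b₁) (by
        intro a ha b hb hab
        by_cases e1 : a = a₁
        · subst e1
          have e2 : b ≠ a := ne_of_gt hab
          rw [Function.update_self, Function.update_of_ne e2, id]
          rcases Finset.mem_insert.1 hb with rfl | hb
          · linarith
          · exact hb1' b hb hab
        · by_cases e2 : b = a₁
          · subst e2
            rw [Function.update_self, Function.update_of_ne e1, id]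
            linarith
          · rw [Function.update_of_ne e1, Function.update_of_ne e2]
            exact hab)
      obtain ⟨δ₂, hδ₂⟩ := hEXT (insert b₁ (su x)) (Function.update id a₂ b₂) (by
        intro a ha b hb hab
        by_cases e1 : a = a₂
        · subst e1
          have e2 : b ≠ a := ne_of_gt hab
          rw [Function.update_self, Function.update_of_ne e2, id]
          rcases Finset.mem_insert.1 hb with rfl | hb
          · linarith
          · exact hb2' b hb hab
        · by_cases e2 : b = a₂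
          · subst e2
            rw [Function.update_self, Function.update_of_ne e1, id]
            linarith
          · rw [Function.update_of_ne e1, Function.update_of_ne e2]
            exact hab)
      have d1a : δ₁ a₁ = b₁ := by
        rw [hδ₁ a₁ (Finset.mem_insert_of_mem s1), Function.update_self]
      have d1b : δ₁ b₂ = b₂ := by
        rw [hδ₁ b₂ (Finset.mem_insert_self _ _), Function.update_of_ne (by linarith [hb2] : b₂ ≠ a₁)]
        rfl
      have d1c : ∀ a ∈ su x, a ≠ a₁ → δ₁ a = a := by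
        intro a ha hne
        rw [hδ₁ a (Finset.mem_insert_of_mem ha), Function.update_of_ne hne]
        rfl
      have d2a : δ₂ a₂ = b₂ := by
        rw [hδ₂ a₂ (Finset.mem_insert_of_mem s2), Function.update_self]
      have d2b : δ₂ b₁ = b₁ := by
        rw [hδ₂ b₁ (Finset.mem_insert_self _ _), Function.update_of_ne (ne_of_lt hb12)]
        rfl
      have d2c : ∀ a ∈ su x, a ≠ a₂ → δ₂ a = a := by
        intro a ha hne
        rw [hδ₂ a (Finset.mem_insert_of_mem ha), Function.update_of_ne hne]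
        rfl
      -- supports
      have su1 : ∀ a ∈ su (δ₁ • x), a ≠ b₁ → a ∈ su x ∧ a ≠ a₁ := by
        intro a ha hne
        rw [(hS x).2.2.1 δ₁] at ha
        obtain ⟨c, hc, rfl⟩ := Finset.mem_image.1 ha
        have hc1 : c ≠ a₁ := by
          rintro rfl
          exact hne d1a
        rw [d1c c hc hc1]
        exact ⟨hc, hc1⟩
      have su2 : ∀ a ∈ su (δ₂ • x), a ≠ b₂ → a ∈ su x ∧ a ≠ a₂ := by
        intro a ha hne
        rw [(hS x).2.2.1 δ₂] at ha
        obtain ⟨c, hc, rfl⟩ := Finset.mem_image.1 ha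
        have hc1 : c ≠ a₂ := by
          rintro rfl
          exact hne d2a
        rw [d2c c hc hc1]
        exact ⟨hc, hc1⟩
      -- commutation
      have hcom : δ₁ • δ₂ • x = δ₂ • δ₁ • x := by
        rw [smul_smul, smul_smul]
        refine (hS x).2.2.2 _ _ fun a ha => ?_
        change δ₁ (δ₂ a) = δ₂ (δ₁ a)
        by_cases e1 : a = a₁
        · subst e1
          rw [d2c a ha (ne_of_lt h12), d1a, d2b]
        · by_cases e2 : a = a₂
          · subst e2
            rw [d2a, d1b, d1c a ha e1, d2a]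
          · rw [d2c a ha e2, d1c a ha e1, d2c a ha e2]
      -- cores
      have n1 : a₁ ∉ co L (δ₁ • x) := by
        intro hm
        have := su1 a₁ ((hCo (δ₁ • x)).1 hm) (ne_of_lt hb1)
        exact this.2 rfl
      have n2 : a₂ ∉ co L (δ₂ • x) := by
        intro hm
        have := su2 a₂ ((hCo (δ₂ • x)).1 hm) (ne_of_lt hb2)
        exact this.2 rfl
      have m2 : a₁ ∈ co L (δ₂ • x) := by
        rw [(hCo x).2.2.1 δ₂]
        exact Finset.mem_image.2 ⟨a₁, h1, d2c a₁ s1 (ne_of_lt h12)⟩
      have u1 : ¬ Lnk L x (δ₁ • x) := fun h => n1 (((hCo x).2.2.2 _ h) ▸ h1)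
      have u1' : ¬ Lnk L (δ₁ • x) x := fun h => n1 (((hCo (δ₁ • x)).2.2.2 _ h).symm ▸ h1)
      have u2 : ¬ Lnk L x (δ₂ • x) := fun h => n2 (((hCo x).2.2.2 _ h) ▸ h2)
      have u2' : ¬ Lnk L (δ₂ • x) x := fun h => n2 (((hCo (δ₂ • x)).2.2.2 _ h).symm ▸ h2)
      have hne : δ₁ • x ≠ δ₂ • x := fun h => n1 (h ▸ m2)
      have af : ∀ y z : C, ¬ Lnk L y z → AF L {y} {z} := by
        intro y z h
        refine hFOR L C hctx {y} {z} (Set.finite_singleton y) (Set.finite_singleton z) ?_
        intro y' hy' z' hz'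
        rw [Set.mem_singleton_iff.1 hy', Set.mem_singleton_iff.1 hz']
        exact h
      -- conditions on fixed points
      have f1x : ∀ a ∈ su x, a ≠ a₁ → δ₁ a = a := d1c
      have f1x2 : ∀ a ∈ su (δ₂ • x), a ≠ a₁ → δ₁ a = a := by
        intro a ha hne1
        by_cases e : a = b₂
        · rw [e, d1b]
        · exact d1c a (su2 a ha e).1 hne1
      have f2x1 : ∀ a ∈ su (δ₁ • x), a ≠ a₂ → δ₂ a = a := by
        intro a ha hne1
        by_cases e : a = b₁
        · rw [e, d2b]
        · exact d2c a (su1 a ha e).1 hne1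
      have r1 : Structure.RelMap lt ![x, δ₁ • δ₂ • x] ↔ Structure.RelMap lt ![x, δ₂ • x] := by
        refine af _ _ u2' a₁ δ₁ 2 lt ![x, δ₂ • x] ![x, δ₁ • δ₂ • x] ?_ ?_
        · rw [Fin.forall_fin_two]
          exact ⟨Or.inr ⟨Or.inl rfl, rfl⟩, Or.inl ⟨rfl, rfl⟩⟩
        · rw [Fin.forall_fin_two]
          exact ⟨f1x, f1x2⟩
      have r2 : Structure.RelMap lt ![δ₁ • x, δ₂ • x] ↔ Structure.RelMap lt ![x, δ₂ • x] := by
        refine af _ _ u2 a₁ δ₁ 2 lt ![x, δ₂ • x] ![δ₁ • x, δ₂ • x] ?_ ?_
        · rw [Fin.forall_fin_two]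
          exact ⟨Or.inl ⟨rfl, rfl⟩, Or.inr ⟨Or.inl rfl, rfl⟩⟩
        · rw [Fin.forall_fin_two]
          exact ⟨f1x, f1x2⟩
      have r3 : Structure.RelMap lt ![x, δ₂ • δ₁ • x] ↔ Structure.RelMap lt ![x, δ₁ • x] := by
        refine af _ _ u1' a₂ δ₂ 2 lt ![x, δ₁ • x] ![x, δ₂ • δ₁ • x] ?_ ?_
        · rw [Fin.forall_fin_two]
          exact ⟨Or.inr ⟨Or.inl rfl, rfl⟩, Or.inl ⟨rfl, rfl⟩⟩
        · rw [Fin.forall_fin_two]
          exact ⟨d2c, f2x1⟩
      have r4 : Structure.RelMap lt ![δ₂ • x, δ₁ • x] ↔ Structure.RelMap lt ![x, δ₁ • x] := by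
        refine af _ _ u1 a₂ δ₂ 2 lt ![x, δ₁ • x] ![δ₂ • x, δ₁ • x] ?_ ?_
        · rw [Fin.forall_fin_two]
          exact ⟨Or.inl ⟨rfl, rfl⟩, Or.inr ⟨Or.inl rfl, rfl⟩⟩
        · rw [Fin.forall_fin_two]
          exact ⟨d2c, f2x1⟩
      have e := hlt (δ₁ • x) (δ₂ • x) hne
      rw [r2, r4, ← r1, ← r3, hcom] at e
      exact iff_not_self e
    intro x a ha b hb
    rcases lt_trichotomy a b with h | h | h
    · exact (key x a b ha hb h).elim
    · exact h
    · exact (key x b a hb ha h).elim
  · -- cores are not empty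
    intro x hx
    by_contra hco
    rw [Finset.not_nonempty_iff_eq_empty] at hco
    have hl : ∀ g : Gam, Lnk L (g • x) x := fun g =>
      (hCo x).2.1 g fun a ha => absurd (hco ▸ ha) (Finset.notMem_empty a)
    obtain ⟨M, hM, hM'⟩ := (su x).exists_max_image id hx
    obtain ⟨m, hm, hm'⟩ := (su x).exists_min_image id hx
    have hMm : m ≤ M := hm' M hM
    obtain ⟨g, hg⟩ : ∃ g : Gam, ∀ a, g a = a + (M - m + 1) :=
      ⟨OrderIso.addRight (M - m + 1), fun a => rfl⟩
    have hbig : ∀ a ∈ su (g • x), M < a := by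
      intro a ha
      rw [(hS x).2.2.1 g] at ha
      obtain ⟨c, hc, rfl⟩ := Finset.mem_image.1 ha
      rw [hg]
      have : m ≤ c := hm' c hc
      linarith
    have hne : g • x ≠ x := by
      intro h
      have := hbig M (h.symm ▸ hM)
      exact lt_irrefl _ this
    obtain ⟨a, ha, ha'⟩ := hyp (g • x) x (hl g) hne
    have h1 := hbig a ha
    have h2 : a ≤ M := hM' a ha'
    linarith

end Pool.Agent.AAD
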