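import Pool.Agent.AAD.StD

/-!
AAD, module CTR2 (helper69 for helper45): in a structure with small cores there are no arrays of the
second kind.
-/

set_option autoImplicit false
set_option linter.unusedVariables false

namespace Pool.Agent.AAD

open FirstOrder.Language Set
open scoped FirstOrder

/-- pigeonhole: some index of `b` is in no core of the `n` elements -/
theorem ctr2_pick {n : ℕ} (b : Fin (n + 1) → ℚ) (hb : Function.Injective b)
    (co : Fin n → Finset ℚ) (hone : ∀ i, ∀ a ∈ co i, ∀ a' ∈ co i, a = a') :
    ∃ j, ∀ i, b j ∉ co i := by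
  by_contra hcon
  push Not at hcon
  choose f hf using hcon
  have hinj : Function.Injective f := by
    intro j j' hjj
    apply hb
    have h1 := hf j
    have h2 := hf j'
    rw [← hjj] at h2
    exact hone _ _ h1 _ h2
  have := Fintype.card_le_of_injective f hinj
  simp at this

theorem thm_CTR2 (hEXT : St_EXT) (hSU : St_SU) (hCF : St_CF) (hBAF : St_BAF) : St_CTR2 := by
  intro L C _ _ hC A
  obtain ⟨m, n, φ, x, y, xa, ya, ex⟩ := A
  have hsu := hSU C hC.ctx.fin
  have hcf := hCF L C hC.ctx
  -- the indices
  let b : Fin (n + 1) → ℚ := fun j => ((j : ℕ) : ℚ)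
  have hbinj : Function.Injective b := by
    intro j j' hjj
    have h1 : ((j : ℕ) : ℚ) = ((j' : ℕ) : ℚ) := hjj
    exact Fin.ext (by exact_mod_cast h1)
  have hsx : ∀ r i, su (x r i) ⊆ {r} := by
    intro r i
    apply (hsu (x r i)).2.1
    intro g hg
    have hgr : g r = r := hg r (by simp)
    show g • x r i = x r i
    rw [xa, hgr]
  have hsy : ∀ i, su (y b i) ⊆ Finset.univ.image b := by
    intro i
    apply (hsu (y b i)).2.1
    intro g hg
    have hgb : (fun j => g (b j)) = b := by
      funext j
      exact hg (b j) (Finset.mem_image_of_mem b (Finset.mem_univ j))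
    show g • y b i = y b i
    rw [ya, hgb]
  obtain ⟨j, hj⟩ := ctr2_pick b hbinj (fun i => co L (y b i)) (fun i => hC.one (y b i))
  let r : ℚ := b j
  have hr : r = b j := rfl
  have hdist : ∀ k, r < b k → r + 1 / 2 < b k := by
    intro k hk
    have h1 : ((j : ℕ) : ℚ) < ((k : ℕ) : ℚ) := hk
    have h2 : (j : ℕ) < (k : ℕ) := by exact_mod_cast h1
    have h3 : (((j : ℕ) + 1 : ℕ) : ℚ) ≤ ((k : ℕ) : ℚ) := by exact_mod_cast h2
    have h4 : ((j : ℕ) : ℚ) + 1 ≤ ((k : ℕ) : ℚ) := by
      push_cast at h3
      exact h3
    show ((j : ℕ) : ℚ) + 1 / 2 < ((k : ℕ) : ℚ)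
    linarith
  -- the map
  obtain ⟨h, hh⟩ := hEXT (Finset.univ.image b) (fun q => if q = r then r + 1 / 2 else q) (by
    intro a ha a' ha' hlt
    obtain ⟨k, -, rfl⟩ := Finset.mem_image.1 ha
    obtain ⟨k', -, rfl⟩ := Finset.mem_image.1 ha'
    by_cases h1 : b k = r
    · have h2 : b k' ≠ r := by
        intro h2
        rw [h1, h2] at hlt
        exact lt_irrefl _ hlt
      simp only [h1, if_true, h2, if_false]
      apply hdist
      rw [← h1]
      exact hlt
    · by_cases h2 : b k' = r
      · simp only [h1, if_false, h2, if_true]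
        rw [h2] at hlt
        linarith
      · simp only [h1, if_false, h2]
        exact hlt)
  have hhr : h r = r + 1 / 2 := by
    have := hh r (Finset.mem_image_of_mem b (Finset.mem_univ j))
    simpa using this
  classical
  -- the configuration
  let c : Fin m ⊕ Fin n → C := Sum.elim (x r) (y b)
  let g : Fin m ⊕ Fin n → Gam :=
    Sum.elim (fun i => if (su (x r i)).Nonempty then h else 1) (fun _ => 1)
  have hcx : ∀ i, (co L (x r i)).Nonempty → (su (x r i)).Nonempty ∧ r ∈ co L (x r i) := by
    rintro i ⟨a, ha⟩
    have h1 := (hcf (x r i)).1 ha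
    have h2 : a = r := Finset.mem_singleton.1 (hsx r i h1)
    subst h2
    exact ⟨⟨_, h1⟩, ha⟩
  have hcfg : CfgI L c g := by
    constructor
    · rintro (i | i) (i' | i') hl
      · have hco := (hcf (x r i)).2.2.2 _ hl
        have hiff : (su (x r i)).Nonempty ↔ (su (x r i')).Nonempty := by
          constructor
          · intro h1
            have h2 := hC.ne _ h1
            rw [show co L (x r i) = co L (x r i') from hco] at h2
            exact (hcx i' h2).1
          · intro h1
            have h2 := hC.ne _ h1
            rw [← show co L (x r i) = co L (x r i') from hco] at h2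
            exact (hcx i h2).1
        show (if (su (x r i)).Nonempty then h else 1) = (if (su (x r i')).Nonempty then h else 1)
        by_cases h1 : (su (x r i)).Nonempty
        · rw [if_pos h1, if_pos (hiff.1 h1)]
        · rw [if_neg h1, if_neg (fun h2 => h1 (hiff.2 h2))]
      · have hco : co L (x r i) = co L (y b i') := (hcf (x r i)).2.2.2 _ hl
        show (if (su (x r i)).Nonempty then h else 1) = 1
        by_cases h1 : (su (x r i)).Nonempty
        · exfalso
          have h2 := (hcx i (hC.ne _ h1)).2
          rw [hco] at h2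
          exact hj i' h2
        · rw [if_neg h1]
      · have hco : co L (y b i) = co L (x r i') := (hcf (y b i)).2.2.2 _ hl
        show (1 : Gam) = (if (su (x r i')).Nonempty then h else 1)
        by_cases h1 : (su (x r i')).Nonempty
        · exfalso
          have h2 := (hcx i' (hC.ne _ h1)).2
          rw [← hco] at h2
          exact hj i h2
        · rw [if_neg h1]
      · rfl
    · rintro (i | i) (i' | i') hs a ha a' ha' hlt
      · exfalso
        have h1 : a = r := Finset.mem_singleton.1 (hsx r i ((hcf _).1 ha))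
        have h2 : a' = r := Finset.mem_singleton.1 (hsx r i' ((hcf _).1 ha'))
        rw [h1, h2] at hlt
        exact lt_irrefl _ hlt
      · have h0 : a ∈ su (x r i) := (hcf _).1 ha
        have h1 : a = r := Finset.mem_singleton.1 (hsx r i h0)
        obtain ⟨k, -, hk⟩ := Finset.mem_image.1 (hsy i' ((hcf _).1 ha'))
        have h3 : g (Sum.inl i) = h := if_pos ⟨a, h0⟩
        have h4 : g (Sum.inr i') = 1 := rfl
        rw [h3, h4, h1, hhr]
        show r + 1 / 2 < a'
        rw [← hk]
        apply hdist
        rw [hk, ← h1]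
        exact hlt
      · have h0 : a' ∈ su (x r i') := (hcf _).1 ha'
        have h1 : a' = r := Finset.mem_singleton.1 (hsx r i' h0)
        have h3 : g (Sum.inl i') = h := if_pos ⟨a', h0⟩
        have h4 : g (Sum.inr i) = 1 := rfl
        rw [h3, h4, h1, hhr]
        show a < r + 1 / 2
        rw [h1] at hlt
        linarith
      · exact hlt
  have key := hBAF L C hC (Fin m ⊕ Fin n) φ c g hcfg
  have hmv : (fun i => g i • c i) = Sum.elim (x (r + 1 / 2)) (y b) := by
    funext i
    rcases i with i | i
    · show (if (su (x r i)).Nonempty then h else 1) • x r i = x (r + 1 / 2) i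
      by_cases h1 : (su (x r i)).Nonempty
      · rw [if_pos h1, xa, hhr]
      · rw [if_neg h1, one_smul, ← hhr, ← xa]
        have h2 : su (x r i) = ∅ := Finset.not_nonempty_iff_eq_empty.1 h1
        have h3 : h ∈ St (x r i) := by
          apply (hsu (x r i)).1
          rw [h2]
          intro a ha
          simp at ha
        exact (show h • x r i = x r i from h3).symm
    · show (1 : Gam) • y b i = y b i
      rw [one_smul]
  rw [hmv] at key
  have hc : φ.Realize c := (ex r b).2 ⟨j, rfl⟩
  obtain ⟨k, hk⟩ := (ex (r + 1 / 2) b).1 (key.2 hc)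
  have h1 : ((k : ℕ) : ℚ) = ((j : ℕ) : ℚ) + 1 / 2 := hk
  have h2 : ((2 * (k : ℕ) : ℕ) : ℚ) = ((2 * (j : ℕ) + 1 : ℕ) : ℚ) := by
    push_cast
    linarith
  have h3 : 2 * (k : ℕ) = 2 * (j : ℕ) + 1 := by exact_mod_cast h2
  omega

end Pool.Agent.AAD
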