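import Pool.Agent.AAD.StA

/-!
# AAD, module EQV: links are an invariant equivalence relation (helper72)
-/

set_option autoImplicit false

namespace Pool.Agent.AAD

open FirstOrder.Language Set
open scoped FirstOrder

section

variable {L : FirstOrder.Language.{0, 0}} {C : Type} [L.Structure C] [MulAction Gam C]

private theorem EQV_anti {p : ℚ} {X Y X' Y' : Set C} (h : Fre L p X Y) (hX : X' ⊆ X)
    (hY : Y' ⊆ Y) : Fre L p X' Y' := by
  intro g n R v v' h1 h2
  refine h g n R v v' (fun j => ?_) h2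
  rcases h1 j with ⟨h3, h4⟩ | ⟨h3 | h3, h4⟩
  · exact Or.inl ⟨hX h3, h4⟩
  · exact Or.inr ⟨Or.inl (hY h3), h4⟩
  · exact Or.inr ⟨Or.inr h3, h4⟩

private theorem EQV_cnn {Z₁ Z₂ : Set C} (h1 : Cnn L Z₁) (h2 : Cnn L Z₂) {y : C} (hy1 : y ∈ Z₁)
    (hy2 : y ∈ Z₂) : Cnn L (Z₁ ∪ Z₂) := by
  refine ⟨h1.1.union h2.1, ⟨y, Or.inl hy1⟩, fun X Y hXY hd hf => ?_⟩
  have key : ∀ Z : Set C, Cnn L Z → Z ⊆ X ∪ Y → X ∩ Z = ∅ ∨ Y ∩ Z = ∅ := by
    intro Z hZ hsub
    refine hZ.2.2 (X ∩ Z) (Y ∩ Z) ?_ (hd.mono inter_subset_left inter_subset_left)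
      fun p => EQV_anti (hf p) inter_subset_left inter_subset_left
    rw [← union_inter_distrib_right, inter_eq_right]
    exact hsub
  have k1 := key Z₁ h1 (by rw [hXY]; exact subset_union_left)
  have k2 := key Z₂ h2 (by rw [hXY]; exact subset_union_right)
  have hy : y ∈ X ∪ Y := by
    rw [hXY]
    exact Or.inl hy1
  rcases hy with hy | hy
  · right
    have e1 : Y ∩ Z₁ = ∅ := k1.resolve_left fun h => by
      have h3 : y ∈ X ∩ Z₁ := ⟨hy, hy1⟩
      rw [h] at h3
      exact h3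
    have e2 : Y ∩ Z₂ = ∅ := k2.resolve_left fun h => by
      have h3 : y ∈ X ∩ Z₂ := ⟨hy, hy2⟩
      rw [h] at h3
      exact h3
    have e3 : Y = Y ∩ (Z₁ ∪ Z₂) := (inter_eq_left.2 (by rw [← hXY]; exact subset_union_right)).symm
    rw [e3, inter_union_distrib_left, e1, e2, union_empty]
  · left
    have e1 : X ∩ Z₁ = ∅ := k1.resolve_right fun h => by
      have h3 : y ∈ Y ∩ Z₁ := ⟨hy, hy1⟩
      rw [h] at h3
      exact h3
    have e2 : X ∩ Z₂ = ∅ := k2.resolve_right fun h => by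
      have h3 : y ∈ Y ∩ Z₂ := ⟨hy, hy2⟩
      rw [h] at h3
      exact h3
    have e3 : X = X ∩ (Z₁ ∪ Z₂) := (inter_eq_left.2 (by rw [← hXY]; exact subset_union_left)).symm
    rw [e3, inter_union_distrib_left, e1, e2, union_empty]

private theorem EQV_act (hc : Ctx L C)
    (hsu : ∀ (x : C) (g : Gam), su (g • x) = (su x).image g) (h : Gam) {p : ℚ} {X Y : Set C}
    (hf : Fre L p X Y) :
    Fre L (h p) ((fun x => h • x) '' X) ((fun x => h • x) '' Y) := by
  intro g n R v v' h1 h2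
  have hv : ∀ j, h • (h⁻¹ • v j) = v j := fun j => smul_inv_smul h (v j)
  have hv' : ∀ j, h • (h⁻¹ • v' j) = v' j := fun j => smul_inv_smul h (v' j)
  have hs : ∀ j, ∀ a, a ∈ su (h⁻¹ • v j) → h a ∈ su (v j) := by
    intro j a ha
    have h3 : su (v j) = (su (h⁻¹ • v j)).image h := by
      rw [← hsu, hv]
    rw [h3]
    exact Finset.mem_image_of_mem _ ha
  have key := hf (h⁻¹ * g * h) n R (fun j => h⁻¹ • v j) (fun j => h⁻¹ • v' j) (fun j => ?_)
    (fun j a ha hap => ?_)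
  · have e1 := hc.inv h n R (fun j => h⁻¹ • v' j)
    have e2 := hc.inv h n R (fun j => h⁻¹ • v j)
    simp only [hv, hv'] at e1 e2
    rw [e1, e2]
    exact key
  · rcases h1 j with ⟨⟨x, hx, hxv⟩, h4⟩ | ⟨h3, h4⟩
    · left
      have hxv' : h • x = v j := hxv
      refine ⟨?_, ?_⟩
      · show h⁻¹ • v j ∈ X
        rw [← hxv', inv_smul_smul]
        exact hx
      · show h⁻¹ • v' j = (h⁻¹ * g * h) • h⁻¹ • v j
        rw [h4, mul_smul, hv, mul_smul]
    · right
      refine ⟨?_, ?_⟩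
      · rcases h3 with ⟨x, hx, hxv⟩ | h3
        · left
          have hxv' : h • x = v j := hxv
          show h⁻¹ • v j ∈ Y
          rw [← hxv', inv_smul_smul]
          exact hx
        · right
          exact fun h5 => h3 (hs j p h5)
      · show h⁻¹ • v' j = h⁻¹ • v j
        rw [h4]
  · have h5 := h2 j (h a) (hs j a ha) fun h6 => hap (h.injective h6)
    show h⁻¹ (g (h a)) = a
    rw [h5]
    exact h.symm_apply_apply a

end

/-- [EQV] -/
theorem thm_EQV (hSU : St_SU) : St_EQV := by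
  intro L C _ _ hc
  have hsu : ∀ (x : C) (g : Gam), su (g • x) = (su x).image g := fun x g =>
    (hSU C hc.fin x).2.2.1 g
  refine ⟨⟨fun x => ?_, fun {x y} h => ?_, fun {x y z} h1 h2 => ?_⟩, fun h x y hxy => ?_⟩
  · refine ⟨{x}, ⟨finite_singleton x, ⟨x, rfl⟩, fun X Y hXY hd _ => ?_⟩, rfl, rfl⟩
    have hx : x ∈ X ∪ Y := by
      rw [hXY]
      rfl
    rcases hx with hx | hx
    · right
      rw [eq_empty_iff_forall_notMem]
      intro y hy
      have h1 : y ∈ ({x} : Set C) := by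
        rw [← hXY]
        exact Or.inr hy
      rw [mem_singleton_iff] at h1
      subst h1
      exact Set.disjoint_left.1 hd hx hy
    · left
      rw [eq_empty_iff_forall_notMem]
      intro y hy
      have h1 : y ∈ ({x} : Set C) := by
        rw [← hXY]
        exact Or.inl hy
      rw [mem_singleton_iff] at h1
      subst h1
      exact Set.disjoint_left.1 hd hy hx
  · obtain ⟨Z, hZ, hx, hy⟩ := h
    exact ⟨Z, hZ, hy, hx⟩
  · obtain ⟨Z₁, hZ₁, hx, hy₁⟩ := h1
    obtain ⟨Z₂, hZ₂, hy₂, hz⟩ := h2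
    exact ⟨Z₁ ∪ Z₂, EQV_cnn hZ₁ hZ₂ hy₁ hy₂, Or.inl hx, Or.inr hz⟩
  · obtain ⟨Z, hZ, hx, hy⟩ := hxy
    refine ⟨(fun x => h • x) '' Z, ⟨hZ.1.image _, hZ.2.1.image _, fun X Y hXY hd hf => ?_⟩,
      ⟨x, hx, rfl⟩, ⟨y, hy, rfl⟩⟩
    have e0 : ∀ W : Set C, (fun x => h • x) '' ((fun x => h⁻¹ • x) '' W) = W := by
      intro W
      rw [image_image]
      simp only [smul_inv_smul, image_id']
    have e0' : ∀ W : Set C, (fun x => h⁻¹ • x) '' ((fun x => h • x) '' W) = W := by
      intro W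
      rw [image_image]
      simp only [inv_smul_smul, image_id']
    have e1 := hZ.2.2 ((fun x => h⁻¹ • x) '' X) ((fun x => h⁻¹ • x) '' Y)
      (by rw [← image_union, hXY, e0'])
      ((disjoint_image_iff (MulAction.injective h⁻¹)).2 hd)
      (fun p => by
        have h1 := EQV_act hc hsu h⁻¹ (hf (h p))
        have h2 : h⁻¹ (h p) = p := h.symm_apply_apply p
        rw [h2] at h1
        exact h1)
    rcases e1 with e1 | e1
    · left
      rw [← e0 X, e1, image_empty]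
    · right
      rw [← e0 Y, e1, image_empty]

end Pool.Agent.AAD
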