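import Pool.Agent.AAD.StA

/-!
# AAD [EXT]: finite strictly monotone maps extend to automorphisms of `(ℚ, <)`
-/

set_option autoImplicit false

namespace Pool.Agent.AAD

/-- identity up to `u`, and `p` goes to `r` -/
private theorem EXT_piece (u p r : ℚ) (hp : u < p) (hr : u < r) :
    ∃ h : ℚ ≃o ℚ, (∀ x, x ≤ u → h x = x) ∧ h p = r := by
  have hk : 0 < (r - u) / (p - u) := div_pos (by linarith) (by linarith)
  obtain ⟨k, hk0, hk1⟩ : ∃ k : ℚ, 0 < k ∧ (p - u) * k = r - u :=
    ⟨(r - u) / (p - u), hk, by field_simp [sub_ne_zero.mpr hp.ne']⟩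
  have hmono : StrictMono fun x : ℚ => if x ≤ u then x else u + (x - u) * k := by
    intro x y hxy
    show (if x ≤ u then x else u + (x - u) * k) < (if y ≤ u then y else u + (y - u) * k)
    split_ifs with h1 h2 h2
    · exact hxy
    · have h3 : 0 < (y - u) * k := mul_pos (by linarith) hk0
      linarith
    · linarith
    · have h3 : 0 < (y - x) * k := mul_pos (by linarith) hk0
      have h4 : (y - u) * k = (x - u) * k + (y - x) * k := by ring
      linarith
  refine ⟨StrictMono.orderIsoOfRightInverse _ hmono
    (fun y => if y ≤ u then y else u + (y - u) * k⁻¹) ?_, ?_, ?_⟩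
  · intro y
    show (if (if y ≤ u then y else u + (y - u) * k⁻¹) ≤ u then
      (if y ≤ u then y else u + (y - u) * k⁻¹) else
        u + ((if y ≤ u then y else u + (y - u) * k⁻¹) - u) * k) = y
    by_cases h1 : y ≤ u
    · rw [if_pos h1, if_pos h1]
    · have h2 : 0 < (y - u) * k⁻¹ := mul_pos (by linarith) (inv_pos.mpr hk0)
      rw [if_neg h1, if_neg (by linarith)]
      have h3 : (u + (y - u) * k⁻¹ - u) * k = (y - u) * (k⁻¹ * k) := by ring
      rw [h3, inv_mul_cancel₀ hk0.ne']
      ring
  · intro x hx
    show (if x ≤ u then x else u + (x - u) * k) = x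
    rw [if_pos hx]
  · show (if p ≤ u then p else u + (p - u) * k) = r
    rw [if_neg (by linarith), hk1]
    ring

/-- **[EXT]** -/
theorem thm_EXT : St_EXT := by
  intro A
  induction A using Finset.induction_on_max with
  | empty => exact fun f _ => ⟨OrderIso.refl ℚ, fun a ha => absurd ha (Finset.notMem_empty a)⟩
  | insert a s hs ih =>
    intro f hf
    obtain ⟨g, hg⟩ := ih f fun x hx y hy => hf x (Finset.mem_insert_of_mem hx) y
      (Finset.mem_insert_of_mem hy)
    rcases s.eq_empty_or_nonempty with h0 | h0
    · refine ⟨OrderIso.addRight (f a - a), fun x hx => ?_⟩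
      rw [h0, Finset.mem_insert] at hx
      rcases hx with rfl | hx
      · show x + (f x - x) = f x
        ring
      · exact absurd hx (Finset.notMem_empty x)
    · have hm := s.max'_mem h0
      have h1 : g (s.max' h0) = f (s.max' h0) := hg _ hm
      have h2 : f (s.max' h0) < g a := by
        rw [← h1]
        exact g.strictMono (hs _ hm)
      have h3 : f (s.max' h0) < f a :=
        hf _ (Finset.mem_insert_of_mem hm) _ (Finset.mem_insert_self a s) (hs _ hm)
      obtain ⟨h, h4, h5⟩ := EXT_piece (f (s.max' h0)) (g a) (f a) h2 h3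
      refine ⟨g.trans h, fun x hx => ?_⟩
      show h (g x) = f x
      rcases Finset.mem_insert.mp hx with rfl | hx'
      · exact h5
      · rw [hg x hx']
        refine h4 _ ?_
        rcases eq_or_lt_of_le (s.le_max' x hx') with h6 | h6
        · rw [← h6]
        · exact (hf x hx _ (Finset.mem_insert_of_mem hm) h6).le

end Pool.Agent.AAD
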