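import Pool.Agent.AAD.StD

/-!
AAD, module FIN2: conclusion of the LINK theorem, stronger form.
-/

set_option autoImplicit false
set_option linter.unusedVariables false

namespace Pool.Agent.AAD

open FirstOrder.Language Set
open scoped FirstOrder

private theorem FIN2_fix (hSU : St_SU) {L : FirstOrder.Language.{0, 0}} {C : Type} [L.Structure C]
    [MulAction Gam C] (hctx : Ctx L C) (x : C) (g : Gam) (h : ∀ a ∈ su x, g a = a) : g • x = x := by
  have h1 := (hSU C hctx.fin x).2.2.2 g 1 (fun a ha => h a ha)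
  rw [one_smul] at h1
  exact h1

/-- in a connected set with two elements every element has a nonempty support -/
private theorem FIN2_ne (hSU : St_SU) {L : FirstOrder.Language.{0, 0}} {C : Type} [L.Structure C]
    [MulAction Gam C] (hctx : Ctx L C) {Z : Set C} (hZ : Cnn L Z) {x y : C} (hx : x ∈ Z)
    (hy : y ∈ Z) (hxy : x ≠ y) : (su x).Nonempty := by
  by_contra hne
  rw [Finset.not_nonempty_iff_eq_empty] at hne
  have hfix : ∀ g : Gam, g • x = x := by
    intro g
    refine FIN2_fix hSU hctx x g ?_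
    rw [hne]
    intro a ha
    exact absurd ha (Finset.notMem_empty a)
  have hAF : AF L ({x} : Set C) (Z \ {x}) := by
    intro p g n R v v' h1 h2
    have : v' = v := by
      funext j
      rcases h1 j with ⟨h3, h4⟩ | ⟨_, h4⟩
      · rw [h4]
        have h5 : v j = x := h3
        rw [h5]
        exact hfix g
      · exact h4
    rw [this]
  have hun : ({x} : Set C) ∪ (Z \ {x}) = Z := by
    rw [Set.union_sdiff_self, Set.union_eq_right]
    intro w hw
    have : w = x := hw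
    rw [this]
    exact hx
  rcases hZ.2.2 {x} (Z \ {x}) hun disjoint_sdiff_right hAF with h | h
  · exact (Set.singleton_nonempty x).ne_empty h
  · have : y ∈ Z \ {x} := ⟨hy, fun h' => hxy (h' : y = x).symm⟩
    rw [h] at this
    exact this

/-- the witness for a subset -/
private theorem FIN2_wit {L : FirstOrder.Language.{0, 0}} {C : Type} [L.Structure C]
    [MulAction Gam C] {Z : Set C} (hZ : Cnn L Z) {z₁ z₂ : C} (h₂ : z₂ ∈ Z) (X : Set C) :
    ∃ S : Set C, S.Finite ∧ (X ⊆ Z → z₁ ∈ X → z₂ ∉ X →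
      ∃ (p : ℚ) (g : Gam) (n : ℕ) (R : L.Relations n) (v v' : Fin n → C),
        (∀ j, (v j ∈ X ∧ v' j = g • v j) ∨ ((v j ∈ Z \ X ∨ p ∉ su (v j)) ∧ v' j = v j)) ∧
        (∀ j, ∀ a ∈ su (v j), a ≠ p → g a = a) ∧ (∀ j, v j ∈ S) ∧
        ¬ (Structure.RelMap R v' ↔ Structure.RelMap R v)) := by
  by_cases hX : X ⊆ Z ∧ z₁ ∈ X ∧ z₂ ∉ X
  · obtain ⟨hXZ, h1, h2⟩ := hX
    have hnot : ¬ AF L X (Z \ X) := by
      intro hAF
      rcases hZ.2.2 X (Z \ X) (Set.union_sdiff_cancel hXZ) disjoint_sdiff_right hAF with h | h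
      · rw [h] at h1
        exact h1
      · have : z₂ ∈ Z \ X := ⟨h₂, h2⟩
        rw [h] at this
        exact this
    unfold AF Fre at hnot
    simp only [not_forall] at hnot
    obtain ⟨p, g, n, R, v, v', h3, h4, h5⟩ := hnot
    exact ⟨Set.range v, Set.finite_range v, fun _ _ _ =>
      ⟨p, g, n, R, v, v', h3, h4, fun j => Set.mem_range_self j, h5⟩⟩
  · exact ⟨∅, Set.finite_empty, fun a b c => absurd ⟨a, b, c⟩ hX⟩

/-- [FIN2]: conclusion of the LINK theorem. -/
theorem thm_FIN2 (hSU : St_SU) (hCOR : St_COR) (hCTR2 : St_CTR2) : St_FIN2 := by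
  intro L C _ _ hctx lt hlt arr
  have hHyp : ¬ Hyp L C := fun h => hCTR2 L C (hCOR L C hctx h lt hlt) arr
  unfold Hyp at hHyp
  simp only [not_forall] at hHyp
  obtain ⟨z₁, z₂, ⟨Z, hZ, hz₁, hz₂⟩, hne, hdis⟩ := hHyp
  choose S hSf hS using fun X => FIN2_wit (L := L) hZ (z₁ := z₁) hz₂ X
  have hpow : (𝒫 Z).Finite := hZ.1.powerset
  refine ⟨Z ∪ ⋃ X ∈ 𝒫 Z, S X, z₁, z₂, ?_⟩
  refine
    { fin := hZ.1.union (hpow.biUnion fun X _ => hSf X)
      m₁ := Or.inl hz₁
      m₂ := Or.inl hz₂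
      n₁ := FIN2_ne hSU hctx hZ hz₁ hz₂ hne
      n₂ := FIN2_ne hSU hctx hZ hz₂ hz₁ (Ne.symm hne)
      dis := ?_
      con := ?_ }
  · rw [Finset.disjoint_left]
    intro a ha hb
    exact hdis ⟨a, ha, hb⟩
  · intro E hE h1 h2
    obtain ⟨p, g, n, R, v, v', h3, h4, h5, h6⟩ := hS (E ∩ Z) Set.inter_subset_right ⟨h1, hz₁⟩
      (fun h => h2 h.1)
    refine ⟨p, g, n, R, v, v', ?_, h4, ?_, ?_, h6⟩
    · intro j
      refine Or.inr ?_
      simp only [Set.mem_iUnion]
      exact ⟨E ∩ Z, Set.inter_subset_right, h5 j⟩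
    · intro j hj
      rcases h3 j with ⟨_, h8⟩ | ⟨h7, h8⟩
      · exact h8
      · rcases h7 with h7 | h7
        · exact absurd ⟨hj, h7.1⟩ h7.2
        · rw [h8]
          refine (FIN2_fix hSU hctx (v j) g ?_).symm
          intro a ha
          exact h4 j a ha (fun h9 => h7 (h9 ▸ ha))
    · intro j hj
      rcases h3 j with ⟨h7, _⟩ | ⟨_, h8⟩
      · exact absurd h7.1 hj
      · exact h8

end Pool.Agent.AAD
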