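import Pool.Agent.AAD.StA

/-!
AAD, module FOR: different classes are free.
-/

set_option autoImplicit false

namespace Pool.Agent.AAD

open FirstOrder.Language Set
open scoped FirstOrder

section

variable {L : FirstOrder.Language.{0, 0}} {C : Type} [L.Structure C] [MulAction Gam C]

private theorem FOR_mono {p : ℚ} {X Y X' Y' : Set C} (h : Fre L p X Y) (hX : X' ⊆ X)
    (hY : Y' ⊆ Y) : Fre L p X' Y' := by
  intro g n R v v' hv hs
  refine h g n R v v' (fun j => ?_) hs
  rcases hv j with ⟨h1, h2⟩ | ⟨h1, h2⟩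
  · exact Or.inl ⟨hX h1, h2⟩
  · refine Or.inr ⟨?_, h2⟩
    rcases h1 with h1 | h1
    · exact Or.inl (hY h1)
    · exact Or.inr h1

private theorem FOR_empty (Y : Set C) : AF L (∅ : Set C) Y := by
  intro p g n R v v' hv _
  have h : v' = v := by
    funext j
    rcases hv j with ⟨h1, _⟩ | ⟨_, h2⟩
    · exact absurd h1 (Set.notMem_empty _)
    · exact h2
  rw [h]

private theorem FOR_refl (x : C) : Lnk L x x := by
  refine ⟨{x}, ⟨Set.finite_singleton x, Set.singleton_nonempty x, ?_⟩, rfl, rfl⟩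
  intro X Y hXY hd _
  by_contra hc
  rw [not_or] at hc
  obtain ⟨a, ha⟩ := Set.nonempty_iff_ne_empty.mpr hc.1
  obtain ⟨b, hb⟩ := Set.nonempty_iff_ne_empty.mpr hc.2
  have h1 : a = x := by
    have : a ∈ X ∪ Y := Or.inl ha
    rwa [hXY] at this
  have h2 : b = x := by
    have : b ∈ X ∪ Y := Or.inr hb
    rwa [hXY] at this
  subst h1
  subst h2
  exact Set.disjoint_left.mp hd ha hb

end

theorem thm_FOR (hFSY : St_FSY) (hFP3 : St_FP3) : St_FOR := by
  intro L C _ _ hC
  have sym : ∀ X Y : Set C, AF L X Y → AF L Y X := fun X Y h p => hFSY L C hC p X Y (h p)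
  have mono : ∀ X Y X' Y' : Set C, AF L X Y → X' ⊆ X → Y' ⊆ Y → AF L X' Y' :=
    fun X Y X' Y' h h1 h2 p => FOR_mono (h p) h1 h2
  have fp3 : ∀ X Y V : Set C, AF L X Y → AF L (X ∪ Y) V → AF L X (Y ∪ V) :=
    fun X Y V h1 h2 p => hFP3 L C hC p X Y V (h1 p) (h2 p)
  have key : ∀ n : ℕ, ∀ X Y : Set C, (X ∪ Y).ncard ≤ n → X.Finite → Y.Finite →
      (∀ x ∈ X, ∀ y ∈ Y, ¬ Lnk L x y) → AF L X Y := by
    intro n
    induction n with
    | zero =>
      intro X Y hn hX hY _
      have h1 : X ∪ Y = ∅ := by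
        rw [← Set.ncard_eq_zero (hX.union hY)]
        omega
      have h2 : X = ∅ := by
        rw [Set.union_empty_iff] at h1
        exact h1.1
      rw [h2]
      exact FOR_empty Y
    | succ n ih =>
      intro X Y hn hX hY hL
      by_cases hX0 : X = ∅
      · rw [hX0]
        exact FOR_empty Y
      by_cases hY0 : Y = ∅
      · rw [hY0]
        exact sym _ _ (FOR_empty X)
      obtain ⟨x, hx⟩ := Set.nonempty_iff_ne_empty.mpr hX0
      obtain ⟨y, hy⟩ := Set.nonempty_iff_ne_empty.mpr hY0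
      have hF : (X ∪ Y).Finite := hX.union hY
      have hnc : ¬ Cnn L (X ∪ Y) := fun h => hL x hx y hy ⟨X ∪ Y, h, Or.inl hx, Or.inr hy⟩
      have hex : ∃ A B : Set C, A ∪ B = X ∪ Y ∧ Disjoint A B ∧ AF L A B ∧ A ≠ ∅ ∧ B ≠ ∅ := by
        by_contra hc
        apply hnc
        refine ⟨hF, ⟨x, Or.inl hx⟩, ?_⟩
        intro A B h1 h2 h3
        by_contra h4
        rw [not_or] at h4
        exact hc ⟨A, B, h1, h2, h3, h4.1, h4.2⟩
      obtain ⟨A, B, hAB, hd, hfr, hA0, hB0⟩ := hex
      have hAs : A ⊆ X ∪ Y := by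
        rw [← hAB]
        exact Set.subset_union_left
      have hBs : B ⊆ X ∪ Y := by
        rw [← hAB]
        exact Set.subset_union_right
      obtain ⟨a, ha⟩ := Set.nonempty_iff_ne_empty.mpr hA0
      obtain ⟨b, hb⟩ := Set.nonempty_iff_ne_empty.mpr hB0
      have hAlt : A.ncard < (X ∪ Y).ncard := by
        refine Set.ncard_lt_ncard ⟨hAs, fun h => ?_⟩ hF
        exact Set.disjoint_left.mp hd (h (hBs hb)) hb
      have hBlt : B.ncard < (X ∪ Y).ncard := by
        refine Set.ncard_lt_ncard ⟨hBs, fun h => ?_⟩ hF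
        exact Set.disjoint_left.mp hd ha (h (hAs ha))
      have hUA : X ∩ A ∪ Y ∩ A = A := by
        rw [← Set.union_inter_distrib_right]
        exact Set.inter_eq_self_of_subset_right hAs
      have hUB : X ∩ B ∪ Y ∩ B = B := by
        rw [← Set.union_inter_distrib_right]
        exact Set.inter_eq_self_of_subset_right hBs
      have iA : AF L (X ∩ A) (Y ∩ A) := by
        refine ih _ _ ?_ (hX.subset Set.inter_subset_left) (hY.subset Set.inter_subset_left)
          fun s hs t ht => hL s hs.1 t ht.1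
        rw [hUA]
        omega
      have iB : AF L (X ∩ B) (Y ∩ B) := by
        refine ih _ _ ?_ (hX.subset Set.inter_subset_left) (hY.subset Set.inter_subset_left)
          fun s hs t ht => hL s hs.1 t ht.1
        rw [hUB]
        omega
      have jA : AF L (X ∩ A) (Y ∩ A ∪ B) := fp3 _ _ _ iA (by rw [hUA]; exact hfr)
      have jB : AF L (X ∩ B) (Y ∩ B ∪ A) := fp3 _ _ _ iB (by rw [hUB]; exact sym _ _ hfr)
      have hYs : ∀ t ∈ Y, t ∈ A ∨ t ∈ B := fun t ht => by
        have : t ∈ A ∪ B := by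
          rw [hAB]
          exact Or.inr ht
        exact this
      have kA : AF L Y (X ∩ A) := by
        refine sym _ _ (mono _ _ _ _ jA subset_rfl fun t ht => ?_)
        rcases hYs t ht with h | h
        · exact Or.inl ⟨ht, h⟩
        · exact Or.inr h
      have kB : AF L (Y ∪ X ∩ A) (X ∩ B) := by
        refine sym _ _ (mono _ _ _ _ jB subset_rfl fun t ht => ?_)
        rcases ht with ht | ht
        · rcases hYs t ht with h | h
          · exact Or.inr h
          · exact Or.inl ⟨ht, h⟩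
        · exact Or.inr ht.2
      have hXU : X ∩ A ∪ X ∩ B = X := by
        rw [← Set.inter_union_distrib_left, hAB]
        exact Set.inter_eq_self_of_subset_left Set.subset_union_left
      have := fp3 _ _ _ kA kB
      rw [hXU] at this
      exact sym _ _ this
  intro X Y hX hY hL
  exact key _ X Y le_rfl hX hY hL

end Pool.Agent.AAD
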