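import Pool.Agent.AAD.StA

/-!
# AAD, module FP3: transitivity of freeness
-/

set_option autoImplicit false
set_option linter.unusedVariables false

namespace Pool.Agent.AAD

open FirstOrder.Language Set
open scoped FirstOrder

/-- a point is moved to another one in the same gap of a finite set -/
theorem FP3_move (hEXT : St_EXT) (S : Finset ℚ) (p q : ℚ)
    (h : ∀ s ∈ S, (s < p ↔ s < q) ∧ (p < s ↔ q < s)) : ∃ g : Gam, g p = q ∧ ∀ s ∈ S, g s = s := by
  classical
  obtain ⟨g, hg⟩ := hEXT (insert p S) (fun a => if a = p then q else a) (by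
    intro a ha b hb hab
    show (if a = p then q else a) < (if b = p then q else b)
    by_cases h1 : a = p
    · have h2 : b ≠ p := fun h2 => by rw [h1, h2] at hab; exact lt_irrefl _ hab
      rw [if_pos h1, if_neg h2]
      have hb' : b ∈ S := (Finset.mem_insert.mp hb).resolve_left h2
      exact (h b hb').2.mp (h1 ▸ hab)
    · have ha' : a ∈ S := (Finset.mem_insert.mp ha).resolve_left h1
      rw [if_neg h1]
      by_cases h2 : b = p
      · rw [if_pos h2]
        exact (h a ha').1.mp (h2 ▸ hab)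
      · rw [if_neg h2]
        exact hab)
  refine ⟨g, ?_, fun s hs => ?_⟩
  · rw [hg p (Finset.mem_insert_self p S), if_pos rfl]
  · have h1 := hg s (Finset.mem_insert_of_mem hs)
    by_cases h2 : s = p
    · subst h2
      have h3 := h s hs
      have h4 : s = q := by
        rcases lt_trichotomy s q with h5 | h5 | h5
        · exact absurd (h3.1.mpr h5) (lt_irrefl _)
        · exact h5
        · exact absurd (h3.2.mpr h5) (lt_irrefl _)
      rw [h1, if_pos rfl, ← h4]
    · rw [h1, if_neg h2]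

/-- a point on the other side -/
theorem FP3_pt (S : Finset ℚ) (p p' : ℚ) (hne : p' ≠ p) :
    ∃ q : ℚ, q ≠ p ∧ (∀ s ∈ S, s ≠ p → ((s < p ↔ s < q) ∧ (p < s ↔ q < s))) ∧
      (p' < p ↔ p' < q) ∧ (p < p' ↔ q < p') ∧ (q < p ↔ q < p') ∧ (p < q ↔ p' < q) := by
  classical
  rcases lt_or_gt_of_ne hne with h | h
  · obtain ⟨q, h1, h2⟩ := Order.exists_between_finsets ({p} : Finset ℚ) (S.filter (p < ·)) (by
      intro x hx y hy
      rw [Finset.mem_singleton] at hx
      rw [hx]
      exact (Finset.mem_filter.mp hy).2)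
    have h3 : p < q := h1 p (Finset.mem_singleton_self p)
    refine ⟨q, h3.ne', fun s hs hsp => ⟨⟨fun h4 => h4.trans h3, fun h4 => ?_⟩, fun h4 =>
      h2 s (Finset.mem_filter.mpr ⟨hs, h4⟩), fun h4 => h3.trans h4⟩, ?_, ?_, ?_, ?_⟩
    · by_contra h5
      have h6 : p < s := lt_of_le_of_ne (not_lt.mp h5) (Ne.symm hsp)
      exact absurd (h2 s (Finset.mem_filter.mpr ⟨hs, h6⟩)) (not_lt.mpr h4.le)
    · exact ⟨fun _ => h.trans h3, fun _ => h⟩
    · exact ⟨fun h4 => absurd h4 (not_lt.mpr h.le), fun h4 => absurd (h3.trans h4)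
        (not_lt.mpr h.le)⟩
    · exact ⟨fun h4 => absurd h4 (not_lt.mpr h3.le), fun h4 => absurd (h3.trans h4)
        (not_lt.mpr h.le)⟩
    · exact ⟨fun _ => h.trans h3, fun _ => h3⟩
  · obtain ⟨q, h1, h2⟩ := Order.exists_between_finsets (S.filter (· < p)) ({p} : Finset ℚ) (by
      intro x hx y hy
      rw [Finset.mem_singleton] at hy
      rw [hy]
      exact (Finset.mem_filter.mp hx).2)
    have h3 : q < p := h2 p (Finset.mem_singleton_self p)
    refine ⟨q, h3.ne, fun s hs hsp => ⟨⟨fun h4 => h1 s (Finset.mem_filter.mpr ⟨hs, h4⟩),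
      fun h4 => h4.trans h3⟩, fun h4 => h3.trans h4, fun h4 => ?_⟩, ?_, ?_, ?_, ?_⟩
    · by_contra h5
      have h6 : s < p := lt_of_le_of_ne (not_lt.mp h5) hsp
      exact absurd (h1 s (Finset.mem_filter.mpr ⟨hs, h6⟩)) (not_lt.mpr h4.le)
    · exact ⟨fun h4 => absurd h4 (not_lt.mpr (le_of_lt h)), fun h4 => absurd (h4.trans h3)
        (not_lt.mpr (le_of_lt h))⟩
    · exact ⟨fun h4 => h3.trans h4, fun _ => h⟩
    · exact ⟨fun h4 => h4.trans h, fun _ => h3⟩
    · exact ⟨fun h4 => absurd h4 (not_lt.mpr h3.le), fun h4 => absurd (lt_trans h h4)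
        (not_lt.mpr h3.le)⟩

/-- **[FP3]** -/
theorem thm_FP3 (hEXT : St_EXT) (hSU : St_SU) (hFSY : St_FSY) : St_FP3 := by
  intro L C _ _ hC p X Y V hXY hXYV g n R v v' hv hg
  classical
  have hsu := hSU C hC.fin
  have hVXY := hFSY L C hC p (X ∪ Y) V hXYV
  by_cases hgp : g p = p
  · have h0 : v' = v := by
      funext j
      have h1 : g • v j = v j := by
        refine (hsu (v j)).1 ?_
        intro a ha
        by_cases h2 : a = p
        · rw [h2]; exact hgp
        · exact hg j a ha h2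
      rcases hv j with ⟨_, h⟩ | ⟨_, h⟩
      · rw [h, h1]
      · exact h
    rw [h0]
  obtain ⟨S, hS⟩ : ∃ S : Finset ℚ, ∀ a, a ∈ S ↔ (∃ j, a ∈ su (v j)) ∧ a ≠ p := by
    refine ⟨(Finset.univ.biUnion fun j => su (v j)).erase p, fun a => ?_⟩
    rw [Finset.mem_erase, Finset.mem_biUnion]
    constructor
    · rintro ⟨h1, j, _, h2⟩
      exact ⟨⟨j, h2⟩, h1⟩
    · rintro ⟨⟨j, h2⟩, h1⟩
      exact ⟨h1, j, Finset.mem_univ j, h2⟩
  have hgS : ∀ s ∈ S, g s = s := by
    intro s hs
    obtain ⟨⟨j, h1⟩, h2⟩ := (hS s).mp hs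
    exact hg j s h1 h2
  have hsg : ∀ s ∈ S, (s < p ↔ s < g p) ∧ (p < s ↔ g p < s) := by
    intro s hs
    have h1 := hgS s hs
    constructor
    · rw [← g.lt_iff_lt (x := s) (y := p), h1]
    · rw [← g.lt_iff_lt (x := p) (y := s), h1]
  obtain ⟨q, hqp, hq, hq1, hq2, hq3, hq4⟩ := FP3_pt S p (g p) hgp
  have hqS : ∀ s ∈ S, (s < p ↔ s < q) ∧ (p < s ↔ q < s) := fun s hs =>
    hq s hs ((hS s).mp hs).2
  obtain ⟨h, hh1, hh2⟩ := FP3_move hEXT (insert (g p) S) p q (by
    intro s hs
    rcases Finset.mem_insert.mp hs with h1 | h1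
    · rw [h1]; exact ⟨hq1, hq2⟩
    · exact hqS s h1)
  obtain ⟨g', hg1, hg2⟩ := FP3_move hEXT (insert q S) p (g p) (by
    intro s hs
    rcases Finset.mem_insert.mp hs with h1 | h1
    · rw [h1]; exact ⟨hq3, hq4⟩
    · exact hsg s h1)
  have hhS : ∀ s ∈ S, h s = s := fun s hs => hh2 s (Finset.mem_insert_of_mem hs)
  have hhp : h (g p) = g p := hh2 _ (Finset.mem_insert_self _ _)
  have hg'S : ∀ s ∈ S, g' s = s := fun s hs => hg2 s (Finset.mem_insert_of_mem hs)
  have hg'q : g' q = q := hg2 _ (Finset.mem_insert_self _ _)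
  have hvS : ∀ j, ∀ a ∈ su (v j), a ≠ p → a ∈ S := fun j a ha hp => (hS a).mpr ⟨⟨j, ha⟩, hp⟩
  have hgg : ∀ j, g • v j = g' • v j := by
    intro j
    refine (hsu (v j)).2.2.2 g g' fun a ha => ?_
    by_cases h1 : a = p
    · rw [h1, hg1]
    · rw [hgS a (hvS j a ha h1), hg'S a (hvS j a ha h1)]
  -- the support of `g • v j`, `h • v j`
  have hsg' : ∀ j, ∀ a ∈ su (g • v j), a = g p ∨ a ∈ S := by
    intro j a ha
    rw [(hsu (v j)).2.2.1 g, Finset.mem_image] at ha
    obtain ⟨b, hb, rfl⟩ := ha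
    by_cases h1 : b = p
    · rw [h1]; exact Or.inl rfl
    · right
      rw [hgS b (hvS j b hb h1)]
      exact hvS j b hb h1
  have hsh' : ∀ j, ∀ a ∈ su (h • v j), a = q ∨ a ∈ S := by
    intro j a ha
    rw [(hsu (v j)).2.2.1 h, Finset.mem_image] at ha
    obtain ⟨b, hb, rfl⟩ := ha
    by_cases h1 : b = p
    · rw [h1, hh1]; exact Or.inl rfl
    · right
      rw [hhS b (hvS j b hb h1)]
      exact hvS j b hb h1
  have hpS : p ∉ S := fun h1 => ((hS p).mp h1).2 rfl
  obtain ⟨s, hs⟩ : ∃ s : Fin n → Prop, ∀ j, s j ↔ (v j ∈ X ∧ v' j = g • v j) :=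
    ⟨fun j => v j ∈ X ∧ v' j = g • v j, fun j => Iff.rfl⟩
  obtain ⟨t, ht⟩ : ∃ t : Fin n → Prop, ∀ j, t j ↔ (¬ s j ∧ v j ∈ V ∧ p ∈ su (v j)) :=
    ⟨fun j => ¬ s j ∧ v j ∈ V ∧ p ∈ su (v j), fun j => Iff.rfl⟩
  have hu : ∀ j, ¬ s j → ¬ t j → (v j ∈ Y ∨ p ∉ su (v j)) := by
    intro j h1 h2
    rcases hv j with h3 | ⟨(h3 | h3) | h3, h4⟩
    · exact absurd ((hs j).mpr h3) h1
    · exact Or.inl h3
    · right
      intro h5
      exact h2 ((ht j).mpr ⟨h1, h3, h5⟩)
    · exact Or.inr h3
  have hu' : ∀ j, ¬ s j → v' j = v j := by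
    intro j h1
    rcases hv j with h3 | ⟨_, h4⟩
    · exact absurd ((hs j).mpr h3) h1
    · exact h4
  -- step 1
  have e1 := hVXY h n R v (fun j => if t j then h • v j else v j) (by
    intro j
    by_cases h1 : t j
    · refine Or.inl ⟨((ht j).mp h1).2.1, ?_⟩
      show (if t j then h • v j else v j) = h • v j
      rw [if_pos h1]
    · refine Or.inr ⟨?_, ?_⟩
      · by_cases h2 : s j
        · exact Or.inl (Or.inl ((hs j).mp h2).1)
        · rcases hu j h2 h1 with h3 | h3
          · exact Or.inl (Or.inr h3)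
          · exact Or.inr h3
      · show (if t j then h • v j else v j) = v j
        rw [if_neg h1]) (fun j a ha hp => hhS a (hvS j a ha hp))
  -- step 2
  have e2 := hXY g' n R (fun j => if t j then h • v j else v j)
    (fun j => if s j then g • v j else if t j then h • v j else v j) (by
    intro j
    show ((if t j then h • v j else v j) ∈ X ∧
      (if s j then g • v j else if t j then h • v j else v j) =
        g' • (if t j then h • v j else v j)) ∨
      (((if t j then h • v j else v j) ∈ Y ∨ p ∉ su (if t j then h • v j else v j)) ∧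
      (if s j then g • v j else if t j then h • v j else v j) =
        (if t j then h • v j else v j))
    by_cases h1 : s j
    · have h2 : ¬ t j := fun h2 => ((ht j).mp h2).1 h1
      rw [if_pos h1, if_neg h2]
      exact Or.inl ⟨((hs j).mp h1).1, hgg j⟩
    · rw [if_neg h1]
      by_cases h2 : t j
      · rw [if_pos h2]
        refine Or.inr ⟨Or.inr fun h3 => ?_, rfl⟩
        rcases hsh' j p h3 with h4 | h4
        · exact hqp h4.symm
        · exact hpS h4
      · rw [if_neg h2]
        exact Or.inr ⟨hu j h1 h2, rfl⟩) (by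
    intro j a ha hp
    have ha' : a ∈ su (if t j then h • v j else v j) := ha
    by_cases h2 : t j
    · rw [if_pos h2] at ha'
      rcases hsh' j a ha' with h4 | h4
      · rw [h4]; exact hg'q
      · exact hg'S a h4
    · rw [if_neg h2] at ha'
      exact hg'S a (hvS j a ha' hp))
  -- step 3
  have e3 := hVXY h n R v'
    (fun j => if s j then g • v j else if t j then h • v j else v j) (by
    intro j
    show (v' j ∈ V ∧ (if s j then g • v j else if t j then h • v j else v j) = h • v' j) ∨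
      ((v' j ∈ X ∪ Y ∨ p ∉ su (v' j)) ∧
        (if s j then g • v j else if t j then h • v j else v j) = v' j)
    by_cases h1 : s j
    · rw [if_pos h1, ((hs j).mp h1).2]
      refine Or.inr ⟨Or.inr fun h3 => ?_, rfl⟩
      rcases hsg' j p h3 with h4 | h4
      · exact hgp h4.symm
      · exact hpS h4
    · rw [if_neg h1, hu' j h1]
      by_cases h2 : t j
      · rw [if_pos h2]
        exact Or.inl ⟨((ht j).mp h2).2.1, rfl⟩
      · rw [if_neg h2]
        rcases hu j h1 h2 with h3 | h3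
        · exact Or.inr ⟨Or.inl (Or.inr h3), rfl⟩
        · exact Or.inr ⟨Or.inr h3, rfl⟩) (by
    intro j a ha hp
    by_cases h1 : s j
    · rw [((hs j).mp h1).2] at ha
      rcases hsg' j a ha with h4 | h4
      · rw [h4]; exact hhp
      · exact hhS a h4
    · rw [hu' j h1] at ha
      exact hhS a (hvS j a ha hp))
  exact e3.symm.trans (e2.trans e1)

end Pool.Agent.AAD
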