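import Pool.Agent.AAD.StA

/-!
# AAD, module FSY: symmetry of freeness
-/

set_option autoImplicit false
set_option linter.unusedVariables false

namespace Pool.Agent.AAD

open FirstOrder.Language Set
open scoped FirstOrder

private theorem FSY_inv (g : Gam) (a : ℚ) (h : g a = a) : g⁻¹ a = a := by
  have h1 : g⁻¹ (g a) = a := g.symm_apply_apply a
  rw [h] at h1
  exact h1

theorem thm_FSY (hSU : St_SU) : St_FSY := by
  intro L C _ _ hC p X Y hF g n R v v' hv hg
  have hg' : ∀ j, ∀ a ∈ su (v j), a ≠ p → g⁻¹ a = a := fun j a ha hp =>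
    FSY_inv g a (hg j a ha hp)
  have h1 := hC.inv g⁻¹ n R v'
  have h2 := hF g⁻¹ n R v (fun j => g⁻¹ • v' j) (fun j => ?_) hg'
  · exact h1.symm.trans h2
  · rcases hv j with ⟨hY, h⟩ | ⟨hX | hp, h⟩
    · refine Or.inr ⟨Or.inl hY, ?_⟩
      rw [h, inv_smul_smul]
    · refine Or.inl ⟨hX, ?_⟩
      rw [h]
    · refine Or.inr ⟨Or.inr hp, ?_⟩
      rw [h]
      refine (hSU C hC.fin (v j)).1 ?_
      intro a ha
      exact hg' j a ha fun hap => hp (hap ▸ ha)

end Pool.Agent.AAD
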