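import Pool.Agent.AAD.StC

/-!
AAD, module GRA: growth of classes with good codes.
-/

set_option autoImplicit false
set_option linter.unusedVariables false

namespace Pool.Agent.AAD

open FirstOrder.Language Set
open scoped FirstOrder

/-! ### Formulas contain finitely many symbols -/

section

variable {ι κ : Type} {ar : κ → ℕ}

/-- `f` preserves the unary predicates, the order and the relations in `s` -/
structure GRAg (s : Finset κ) {X X' : Type} (S : (LA ι ar).Structure X)
    (S' : (LA ι ar).Structure X') (f : X ≃ X') : Prop where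
  un : ∀ i x, au S i x ↔ au S' i (f x)
  lt : ∀ v, rr S none v ↔ rr S' none fun j => f (v j)
  rl : ∀ c ∈ s, ∀ v, rr S (some c) v ↔ rr S' (some c) fun j => f (v j)

theorem GRAg_mono {s t : Finset κ} (h : s ⊆ t) {X X' : Type} {S : (LA ι ar).Structure X}
    {S' : (LA ι ar).Structure X'} {f : X ≃ X'} (H : GRAg t S S' f) : GRAg s S S' f :=
  ⟨H.un, H.lt, fun c hc => H.rl c (h hc)⟩

theorem GRA_term {α X X' : Type} (S : (LA ι ar).Structure X) (S' : (LA ι ar).Structure X')
    (f : X ≃ X') (t : (LA ι ar).Term α) (v : α → X) :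
    f (@Term.realize _ X S _ v t) = @Term.realize _ X' S' _ (fun a => f (v a)) t := by
  cases t with
  | var a => rfl
  | func g ts => exact Empty.elim g

theorem GRA_for {α : Type} {n : ℕ} (φ : (LA ι ar).BoundedFormula α n) :
    ∃ s : Finset κ, ∀ (X X' : Type) (S : (LA ι ar).Structure X) (S' : (LA ι ar).Structure X')
      (f : X ≃ X'), GRAg s S S' f → ∀ (v : α → X) (xs : Fin n → X),
      (@BoundedFormula.Realize _ X S _ _ φ v xs ↔
        @BoundedFormula.Realize _ X' S' _ _ φ (fun a => f (v a)) (fun j => f (xs j))) := by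
  classical
  induction φ with
  | falsum => exact ⟨∅, fun X X' S S' f _ v xs => Iff.rfl⟩
  | equal t₁ t₂ =>
    refine ⟨∅, fun X X' S S' f _ v xs => ?_⟩
    have h1 := GRA_term S S' f t₁ (Sum.elim v xs)
    have h2 := GRA_term S S' f t₂ (Sum.elim v xs)
    have he : (fun a => f (Sum.elim v xs a)) = Sum.elim (fun a => f (v a)) (fun j => f (xs j)) := by
      funext a
      cases a <;> rfl
    rw [he] at h1 h2
    change @Term.realize _ X S _ (Sum.elim v xs) t₁ = @Term.realize _ X S _ (Sum.elim v xs) t₂ ↔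
      @Term.realize _ X' S' _ (Sum.elim (fun a => f (v a)) (fun j => f (xs j))) t₁ =
      @Term.realize _ X' S' _ (Sum.elim (fun a => f (v a)) (fun j => f (xs j))) t₂
    rw [← h1, ← h2]
    exact f.injective.eq_iff.symm
  | rel R ts =>
    have key : ∃ s : Finset κ, ∀ (X X' : Type) (S : (LA ι ar).Structure X)
        (S' : (LA ι ar).Structure X') (f : X ≃ X'), GRAg s S S' f → ∀ v,
        S.RelMap R v ↔ S'.RelMap R fun j => f (v j) := by
      cases R with
      | un i =>
        refine ⟨∅, fun X X' S S' f h v => ?_⟩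
        have e1 : v = fun _ => v 0 := funext fun j => by rw [Subsingleton.elim j 0]
        rw [e1]
        exact h.un i (v 0)
      | rl s =>
        cases s with
        | none => exact ⟨∅, fun X X' S S' f h v => h.lt v⟩
        | some c => exact ⟨{c}, fun X X' S S' f h v => h.rl c (Finset.mem_singleton_self c) v⟩
    obtain ⟨s, hs⟩ := key
    refine ⟨s, fun X X' S S' f h v xs => ?_⟩
    have he : (fun a => f (Sum.elim v xs a)) = Sum.elim (fun a => f (v a)) (fun j => f (xs j)) := by
      funext a
      cases a <;> rfl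
    change S.RelMap R (fun i => @Term.realize _ X S _ (Sum.elim v xs) (ts i)) ↔
      S'.RelMap R (fun i => @Term.realize _ X' S' _
        (Sum.elim (fun a => f (v a)) (fun j => f (xs j))) (ts i))
    rw [hs X X' S S' f h, ← he]
    have e2 : (fun j => f (@Term.realize _ X S _ (Sum.elim v xs) (ts j))) =
        fun i => @Term.realize _ X' S' _ (fun a => f (Sum.elim v xs a)) (ts i) :=
      funext fun j => GRA_term S S' f (ts j) (Sum.elim v xs)
    rw [e2]
  | imp φ ψ ih₁ ih₂ =>
    obtain ⟨s, hs⟩ := ih₁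
    obtain ⟨t, ht⟩ := ih₂
    refine ⟨s ∪ t, fun X X' S S' f h v xs => ?_⟩
    exact imp_congr (hs X X' S S' f (GRAg_mono Finset.subset_union_left h) v xs)
      (ht X X' S S' f (GRAg_mono Finset.subset_union_right h) v xs)
  | all φ ih =>
    obtain ⟨s, hs⟩ := ih
    refine ⟨s, fun X X' S S' f h v xs => ?_⟩
    have he : ∀ x : X, (fun j => f ((Fin.snoc xs x : Fin _ → X) j)) =
        (Fin.snoc (fun j => f (xs j)) (f x) : Fin _ → X') := by
      intro x
      funext j
      refine Fin.lastCases ?_ (fun i => ?_) j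
      · simp
      · simp
    change (∀ x : X, @BoundedFormula.Realize _ X S _ _ φ v (Fin.snoc xs x)) ↔
      ∀ x : X', @BoundedFormula.Realize _ X' S' _ _ φ (fun a => f (v a))
        (Fin.snoc (fun j => f (xs j)) x)
    constructor
    · intro H x
      have h1 := (hs X X' S S' f h v (Fin.snoc xs (f.symm x))).mp (H _)
      rw [he, Equiv.apply_symm_apply] at h1
      exact h1
    · intro H x
      apply (hs X X' S S' f h v (Fin.snoc xs x)).mpr
      rw [he]
      exact H (f x)

end

/-! ### Enumerations of finite linear orders -/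

theorem GRA_enum (X : Type) [Finite X] (r : X → X → Prop) (h : Lin r) (N : ℕ)
    (hN : Nat.card X = N) : ∃ e : Fin N ≃ X, ∀ i j, i < j ↔ r (e i) (e j) := by
  classical
  have : Fintype X := Fintype.ofFinite X
  have hs : IsStrictTotalOrder X r :=
    { trichotomous := fun a b h1 h2 => by
        by_contra hab
        rcases h.2.2 a b hab with h3 | h3
        · exact h1 h3
        · exact h2 h3
      irrefl := h.1
      trans := h.2.1 }
  let I : LinearOrder X := linearOrderOfSTO r
  have hc : Fintype.card X = N := by rw [← hN, Nat.card_eq_fintype_card]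
  let e := Fintype.orderIsoFinOfCardEq X hc
  exact ⟨e.toEquiv, fun i j => (e.lt_iff_lt (x := i) (y := j)).symm⟩

theorem GRA_id {n : ℕ} (g : Fin n → Fin n) (h : ∀ i j, i < j → g i < g j) : g = id := by
  have h1 : StrictMono g := fun i j => h i j
  have h2 : Function.Surjective g := Finite.surjective_of_injective h1.injective
  refine (h1.range_inj strictMono_id).mp ?_
  rw [h2.range_eq, Set.range_id]

/-- the two orders `<` and `π p < π q` -/
def GRAm {n : ℕ} (π : Equiv.Perm (Fin n)) : LL where
  M := Fin n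
  lt := fun b p q => if b = true then p < q else π p < π q
  lin := by
    intro b
    cases b
    · refine ⟨fun x => ?_, fun x y z => ?_, fun x y => ?_⟩
      · simp
      · simp only [Bool.false_eq_true, if_false]
        exact lt_trans
      · simp only [Bool.false_eq_true, if_false]
        intro hxy
        exact lt_or_gt_of_ne fun h => hxy (π.injective h)
    · refine ⟨fun x => ?_, fun x y z => ?_, fun x y => ?_⟩
      · simp
      · simp only [if_true]
        exact lt_trans
      · simp only [if_true]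
        exact lt_or_gt_of_ne

section

variable {κ : Type} {ar : κ → ℕ} {K : Cla ar} (G : Gcd K)

/-- the code of `π` -/
abbrev GRAX (n : ℕ) : Type := (Fin n × G.Λ) ⊕ G.Ρ

/-- if two codes are isomorphic for the symbols in `s` (the identity on labels) then `π = π'` -/
theorem GRA_rigid (s : Finset κ)
    (hs : ∀ b : Bool, ∀ (X X' : Type) (S : (LA (G.Λ ⊕ G.Ρ) ar).Structure X)
      (S' : (LA (G.Λ ⊕ G.Ρ) ar).Structure X') (f : X ≃ X'), GRAg s S S' f → ∀ v : Fin 2 → X,
      (@Formula.Realize _ X S _ (G.th b) v ↔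
        @Formula.Realize _ X' S' _ (G.th b) (fun a => f (v a))))
    {n : ℕ} (π π' : Equiv.Perm (Fin n)) (f : GRAX G n ≃ GRAX G n)
    (hf : GRAg s (cd G.toCd (Fin n) (GRAm π).lt) (cd G.toCd (Fin n) (GRAm π').lt) f) :
    π = π' := by
  have hlab : ∀ x, lab (f x) = lab x := by
    intro x
    exact (hf.un (lab x) x).mp rfl
  have hg : ∀ μ : Fin n, ∃ ν : Fin n, f (.inl (μ, G.l₀)) = .inl (ν, G.l₀) := by
    intro μ
    have h1 := hlab (.inl (μ, G.l₀))
    generalize f (.inl (μ, G.l₀)) = y at h1
    cases y with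
    | inl y =>
      obtain ⟨ν, l⟩ := y
      have h2 : (Sum.inl l : G.Λ ⊕ G.Ρ) = Sum.inl G.l₀ := h1
      exact ⟨ν, by rw [Sum.inl.inj h2]⟩
    | inr r =>
      have h2 : (Sum.inr r : G.Λ ⊕ G.Ρ) = Sum.inl G.l₀ := h1
      exact absurd h2 Sum.inr_ne_inl
  choose g hg using hg
  have key : ∀ (b : Bool) (μ ν : Fin n), (GRAm π).lt b μ ν ↔ (GRAm π').lt b (g μ) (g ν) := by
    intro b μ ν
    have h1 := hs b _ _ _ _ f hf ![.inl (μ, G.l₀), .inl (ν, G.l₀)]
    have h2 := G.thp (GRAm π) b ![.inl (μ, G.l₀), .inl (ν, G.l₀)]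
    have h3 := G.thp (GRAm π') b (fun a => f ((![.inl (μ, G.l₀), .inl (ν, G.l₀)] :
      Fin 2 → GRAX G n) a))
    have h4 := h2.symm.trans (h1.trans h3)
    constructor
    · intro h
      obtain ⟨μ', ν', e1, e2, e3⟩ := h4.mp ⟨μ, ν, rfl, rfl, h⟩
      have e1' : f (.inl (μ, G.l₀)) = .inl (μ', G.l₀) := e1
      have e2' : f (.inl (ν, G.l₀)) = .inl (ν', G.l₀) := e2
      rw [hg] at e1' e2'
      have f1 : g μ = μ' := congrArg Prod.fst (Sum.inl.inj e1')
      have f2 : g ν = ν' := congrArg Prod.fst (Sum.inl.inj e2')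
      rw [f1, f2]
      exact e3
    · intro h
      obtain ⟨μ', ν', e1, e2, e3⟩ := h4.mpr ⟨g μ, g ν, hg μ, hg ν, h⟩
      have e1' : (Sum.inl (μ, G.l₀) : GRAX G n) = .inl (μ', G.l₀) := e1
      have e2' : (Sum.inl (ν, G.l₀) : GRAX G n) = .inl (ν', G.l₀) := e2
      have f1 : μ = μ' := congrArg Prod.fst (Sum.inl.inj e1')
      have f2 : ν = ν' := congrArg Prod.fst (Sum.inl.inj e2')
      rw [f1, f2]
      exact e3
  have hid : g = id := GRA_id g fun i j hij => by
    have h1 := (key true i j).mp (by simpa [GRAm] using hij)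
    simpa [GRAm] using h1
  have hπ : ∀ μ ν : Fin n, π μ < π ν ↔ π' μ < π' ν := by
    intro μ ν
    have h1 := key false μ ν
    rw [hid] at h1
    simpa [GRAm] using h1
  have h2 : (fun i => π' (π.symm i)) = id := GRA_id _ fun i j hij => by
    apply (hπ _ _).mp
    rw [Equiv.apply_symm_apply, Equiv.apply_symm_apply]
    exact hij
  apply Equiv.ext
  intro i
  have h3 := congrFun h2 (π i)
  simp only [Equiv.symm_apply_apply, id] at h3
  exact h3.symm

theorem thm_GRA : St_GRA := by
  classical
  intro κ ar K G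
  have hΛ := G.fΛ
  have hΡ := G.fΡ
  have hne : Nonempty G.Λ := ⟨G.l₀⟩
  obtain ⟨s₁, hs₁⟩ := GRA_for (G.th true)
  obtain ⟨s₂, hs₂⟩ := GRA_for (G.th false)
  set s := s₁ ∪ s₂ with hsd
  have hs : ∀ b : Bool, ∀ (X X' : Type) (S : (LA (G.Λ ⊕ G.Ρ) ar).Structure X)
      (S' : (LA (G.Λ ⊕ G.Ρ) ar).Structure X') (f : X ≃ X'), GRAg s S S' f → ∀ v : Fin 2 → X,
      (@Formula.Realize _ X S _ (G.th b) v ↔
        @Formula.Realize _ X' S' _ (G.th b) (fun a => f (v a))) := by
    intro b X X' S S' f h v
    have he : (fun j => f ((default : Fin 0 → X) j)) = (default : Fin 0 → X') :=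
      Subsingleton.elim _ _
    cases b
    · have h1 := hs₂ X X' S S' f (GRAg_mono Finset.subset_union_right h) v default
      rw [he] at h1
      exact h1
    · have h1 := hs₁ X X' S S' f (GRAg_mono Finset.subset_union_left h) v default
      rw [he] at h1
      exact h1
  refine ⟨s, Nat.card G.Λ, Nat.card G.Ρ, fun n => ?_⟩
  set N := Nat.card G.Λ * n + Nat.card G.Ρ with hN
  have hcard : Nat.card (GRAX G n) = N := by
    rw [Nat.card_sum, Nat.card_prod, Nat.card_eq_fintype_card, Fintype.card_fin, mul_comm]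
  have hen : ∀ π : Equiv.Perm (Fin n), ∃ e : Fin N ≃ GRAX G n, ∀ i j, i < j ↔
      cr G.toCd (GRAm π).lt none (![e i, e j] : Fin 2 → GRAX G n) := by
    intro π
    exact GRA_enum (GRAX G n) _ (G.lin (GRAm π)) N hcard
  choose e he using hen
  set R : Equiv.Perm (Fin n) → ∀ c : {c // c ∈ s}, (Fin (ar c.1) → Fin N) → Prop :=
    fun π c v => cr G.toCd (GRAm π).lt (some c.1) (fun i => e π (v i)) with hR
  have hmem : ∀ π, R π ∈ redK K s N := by
    intro π
    refine ⟨fun c v => cr G.toCd (GRAm π).lt (some c) (fun i => e π (v i)), ?_, rfl⟩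
    exact G.age (GRAm π) N (e π) fun i j hij => (he π i j).mp hij
  have hfin : (redK K s N).Finite := Set.toFinite _
  have : Finite (redK K s N) := hfin
  set Φ : Equiv.Perm (Fin n) → (redK K s N) × (Fin N → G.Λ ⊕ G.Ρ) :=
    fun π => (⟨R π, hmem π⟩, fun i => lab (e π i)) with hΦ
  have hinj : Function.Injective Φ := by
    intro π π' h
    have h1 : R π = R π' := congrArg Subtype.val (congrArg Prod.fst h)
    have h2 : ∀ i, lab (e π i) = lab (e π' i) := fun i => congrFun (congrArg Prod.snd h) i
    refine GRA_rigid G s hs π π' ((e π).symm.trans (e π')) ⟨?_, ?_, ?_⟩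
    · intro l x
      obtain ⟨i, rfl⟩ := (e π).surjective x
      change lab (e π i) = l ↔ lab (e π' ((e π).symm (e π i))) = l
      rw [Equiv.symm_apply_apply, h2]
    · intro (v : Fin 2 → GRAX G n)
      have hv : ∀ w : Fin 2 → GRAX G n, w = ![w 0, w 1] := by
        intro w
        funext j
        fin_cases j <;> rfl
      obtain ⟨i, hi⟩ := (e π).surjective (v 0)
      obtain ⟨j, hj⟩ := (e π).surjective (v 1)
      have h3 : (fun j : Fin 2 => e π' ((e π).symm (v j))) = ![e π' i, e π' j] := by
        funext k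
        fin_cases k
        · change e π' ((e π).symm (v 0)) = e π' i
          rw [← hi, Equiv.symm_apply_apply]
        · change e π' ((e π).symm (v 1)) = e π' j
          rw [← hj, Equiv.symm_apply_apply]
      have h4 : v = ![e π i, e π j] := by rw [hi, hj]; exact hv v
      change cr G.toCd (GRAm π).lt none v ↔
        cr G.toCd (GRAm π').lt none (fun j : Fin 2 => e π' ((e π).symm (v j)))
      rw [h3, h4]
      exact (he π i j).symm.trans (he π' i j)
    · intro c hc v
      have h3 := congrFun (congrFun h1 ⟨c, hc⟩) (fun i => (e π).symm (v i))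
      simp only [hR, Equiv.apply_symm_apply] at h3
      exact Iff.of_eq h3
  have h3 := Nat.card_le_card_of_injective Φ hinj
  rw [Nat.card_prod, Nat.card_fun, Nat.card_sum, Nat.card_eq_fintype_card, Fintype.card_perm,
    Fintype.card_fin, Nat.card_eq_fintype_card (α := Fin N), Fintype.card_fin] at h3
  exact h3

end

end Pool.Agent.AAD
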