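import Pool.Agent.AAD.StC

/-!
AAD: [GRN] the factorial beats every power (helper52).
-/

set_option autoImplicit false
set_option linter.unusedVariables false

namespace Pool.Agent.AAD

/-- the factorial beats a geometric sequence times a constant -/
private theorem GRN_aux (A B : ℕ) : ∃ n : ℕ, A ^ n * B < n.factorial := by
  have h := FloorSemiring.tendsto_pow_div_factorial_atTop (K := ℝ) (A : ℝ)
  have h1 : ∀ᶠ n : ℕ in Filter.atTop, (A : ℝ) ^ n / (n.factorial : ℝ) < 1 / ((B : ℝ) + 1) :=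
    h.eventually_lt_const (by positivity)
  obtain ⟨n, hn⟩ := h1.exists
  refine ⟨n, ?_⟩
  have hf : (0 : ℝ) < (n.factorial : ℝ) := by exact_mod_cast n.factorial_pos
  have hB : (0 : ℝ) < (B : ℝ) + 1 := by positivity
  rw [div_lt_div_iff₀ hf hB, one_mul] at hn
  have h2 : ((A ^ n * B : ℕ) : ℝ) < (n.factorial : ℝ) := by
    push_cast
    have : (A : ℝ) ^ n * B ≤ (A : ℝ) ^ n * (B + 1) := by
      have : (0 : ℝ) ≤ (A : ℝ) ^ n := by positivity
      nlinarith
    linarith
  exact_mod_cast h2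

/-- [GRN] -/
theorem thm_GRN : St_GRN := by
  intro C c d
  obtain ⟨n, hn⟩ := GRN_aux ((C * (c + d)) ^ c) ((C * (c + d)) ^ d)
  refine ⟨n, ?_⟩
  rw [← mul_pow, pow_add, pow_mul]
  exact hn

end Pool.Agent.AAD
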