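import Pool.Agent.AAD.StC

/-!
AAD, module KAG: codes have age in `K`.
-/

set_option autoImplicit false
set_option linter.unusedVariables false

namespace Pool.Agent.AAD

open FirstOrder.Language Set
open scoped FirstOrder
open Pool.Agent.PMC (Sy LP us Two)

/-- the module KAG -/
theorem thm_KAG (hKRE : St_KRE) : St_KAG := by
  intro κ ar K G ι M S hF
  obtain ⟨h2, e, he⟩ := hKRE κ ar K G ι M S hF
  let m : LL := ⟨{z : M // lv G S (.inl G.l₀) z}, PMC.ls (dec G S), fun b => h2 b⟩
  have hrr : ∀ (s : Option κ) (v : Fin (ar' ar s) → (m.M × G.Λ) ⊕ G.Ρ),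
      cr G.toCd m.lt s v ↔ rr S s (e ∘ v) := fun s v => he _ (Sm.rl s) v
  have hal : ∀ x y : M, al S x y ↔
      cr G.toCd m.lt none (![e.symm x, e.symm y] : Fin 2 → (m.M × G.Λ) ⊕ G.Ρ) := by
    intro x y
    rw [hrr]
    have h1 : (e ∘ (![e.symm x, e.symm y] : Fin 2 → (m.M × G.Λ) ⊕ G.Ρ)) =
        (![x, y] : Fin 2 → M) := by
      funext i
      refine Fin.cases ?_ (fun i => ?_) i
      · exact e.apply_symm_apply x
      · refine Fin.cases ?_ (fun i => i.elim0) i
        exact e.apply_symm_apply y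
    exact (iff_of_eq (congrArg (rr S none) h1)).symm
  have hlin := G.lin m
  refine ⟨⟨fun x hx => ?_, fun x y z hxy hyz => ?_, fun x y hxy => ?_⟩, ?_⟩
  · exact hlin.1 _ ((hal x x).1 hx)
  · exact (hal x z).2 (hlin.2.1 _ _ _ ((hal x y).1 hxy) ((hal y z).1 hyz))
  · rcases hlin.2.2 (e.symm x) (e.symm y) (fun h => hxy (e.symm.injective h)) with h | h
    · exact Or.inl ((hal x y).2 h)
    · exact Or.inr ((hal y x).2 h)
  · intro n z hz
    have h3 := G.age m n (fun i => e.symm (z i)) (fun i j hij => (hal _ _).1 (hz i j hij))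
    have h4 : (fun (c : κ) (v : Fin (ar c) → Fin n) =>
        cr G.toCd m.lt (some c) (fun i => e.symm (z (v i)))) =
        fun (c : κ) (v : Fin (ar c) → Fin n) => rr S (some c) (fun i => z (v i)) := by
      funext c v
      apply propext
      rw [hrr]
      have h5 : (e ∘ fun i => e.symm (z (v i))) = fun i => z (v i) := by
        funext i
        exact e.apply_symm_apply _
      exact iff_of_eq (congrArg (rr S (some c)) h5)
    exact (iff_of_eq (congrArg (fun r => r ∈ K n) h4)).1 h3

end Pool.Agent.AAD
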