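import Pool.Agent.AAD.StC

/-!
AAD [KCO] (helper75): `enc G S` is a code of `S`.
-/

set_option autoImplicit false
set_option linter.unusedVariables false

namespace Pool.Agent.AAD

open FirstOrder.Language Set
open scoped FirstOrder
open Pool.Agent.PMC (Sy LP us Two)
open Pool.Agent.Helper6.Str (PerfK CtblK Iso Code toStr)

section

variable {κ : Type} {ar : κ → ℕ} {K : Cla ar} (G : Gcd K) {ι M : Type} {S : (LP ι).Structure M}

private theorem KCO_rd (S : (LP ι).Structure M) :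
    rd G (enc G S) = cd G.toCd M (PMC.ls S) := by
  apply Structure.ext
  · rfl
  · funext n R v
    cases R <;> rfl

private theorem KCO_mS (hS : Two S) (l : G.Λ) (z w : (M × G.Λ) ⊕ G.Ρ) :
    mS G (enc G S) l z w ↔ ∃ μ, z = .inl (μ, G.l₀) ∧ w = .inl (μ, l) := by
  unfold mS
  rw [KCO_rd]
  exact G.mtp ⟨M, PMC.ls S, hS⟩ l ![z, w]

private theorem KCO_tS (hS : Two S) (b : Bool) (z w : (M × G.Λ) ⊕ G.Ρ) :
    tS G (enc G S) b z w ↔
      ∃ μ ν, z = .inl (μ, G.l₀) ∧ w = .inl (ν, G.l₀) ∧ PMC.ls S b μ ν := by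
  unfold tS
  rw [KCO_rd]
  exact G.thp ⟨M, PMC.ls S, hS⟩ b ![z, w]

private theorem KCO_lv (l : G.Λ ⊕ G.Ρ) (z : (M × G.Λ) ⊕ G.Ρ) :
    lv G (enc G S) l z ↔ lab z = l := Iff.rfl

private theorem KCO_l0 {z : (M × G.Λ) ⊕ G.Ρ} {a : G.Λ} (h : lab z = Sum.inl a) :
    ∃ μ, z = .inl (μ, a) := by
  rcases z with ⟨μ, l⟩ | r
  · obtain rfl : l = a := Sum.inl.inj h
    exact ⟨μ, rfl⟩
  · exact absurd h (by rintro ⟨⟩)

private theorem KCO_r0 {z : (M × G.Λ) ⊕ G.Ρ} {r : G.Ρ} (h : lab z = Sum.inr r) :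
    z = .inr r := by
  rcases z with ⟨μ, l⟩ | r'
  · exact absurd h (by rintro ⟨⟩)
  · obtain rfl : r' = r := Sum.inr.inj h
    rfl

/-- the element of `M` under an element of the level `l₀` -/
private def KCO_f : {z : (M × G.Λ) ⊕ G.Ρ // lv G (enc G S) (.inl G.l₀) z} → M
  | ⟨.inl x, _⟩ => x.1
  | ⟨.inr _, h⟩ => absurd (show (Sum.inr _ : G.Λ ⊕ G.Ρ) = Sum.inl G.l₀ from h) (by rintro ⟨⟩)

private def KCO_e : {z : (M × G.Λ) ⊕ G.Ρ // lv G (enc G S) (.inl G.l₀) z} ≃ M where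
  toFun := KCO_f G
  invFun μ := ⟨.inl (μ, G.l₀), rfl⟩
  left_inv := by
    rintro ⟨z, hz⟩
    obtain ⟨μ, rfl⟩ := KCO_l0 G ((KCO_lv G _ z).1 hz)
    rfl
  right_inv μ := rfl

private theorem KCO_e_eq (z : {z : (M × G.Λ) ⊕ G.Ρ // lv G (enc G S) (.inl G.l₀) z}) :
    z.1 = .inl (KCO_e G z, G.l₀) := by
  have h := (KCO_e G).left_inv z
  exact (congrArg Subtype.val h).symm

end

theorem thm_KCO : St_KCO := by
  intro κ ar K G ι M S hS
  have hinl : ∀ {μ ν : M} {a b : G.Λ}, (Sum.inl (μ, a) : (M × G.Λ) ⊕ G.Ρ) = .inl (ν, b) →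
      μ = ν ∧ a = b := fun h => Prod.mk.inj (Sum.inl.inj h)
  refine ⟨⟨?_, ?_, ?_, ?_, ?_, ?_, ?_, ?_, ?_, ?_, ?_, ?_, ?_, ?_, ?_⟩, ?_⟩
  · exact fun z => ⟨lab z, rfl⟩
  · exact fun z l l' h h' => ((KCO_lv G l z).1 h).symm.trans ((KCO_lv G l' z).1 h')
  · exact fun r => ⟨.inr r, rfl⟩
  · exact fun r z z' h h' => (KCO_r0 G h).trans (KCO_r0 G h').symm
  · intro l z w h
    obtain ⟨μ, rfl, rfl⟩ := (KCO_mS G hS l z w).1 h
    exact ⟨rfl, rfl⟩
  · intro l z h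
    obtain ⟨μ, rfl⟩ := KCO_l0 G h
    exact ⟨.inl (μ, l), (KCO_mS G hS l _ _).2 ⟨μ, rfl, rfl⟩⟩
  · intro l z w w' h h'
    obtain ⟨μ, h1, rfl⟩ := (KCO_mS G hS l z w).1 h
    obtain ⟨ν, h2, rfl⟩ := (KCO_mS G hS l z w').1 h'
    rw [(hinl (h1.symm.trans h2)).1]
  · intro l w h
    obtain ⟨μ, rfl⟩ := KCO_l0 G h
    exact ⟨.inl (μ, G.l₀), (KCO_mS G hS l _ _).2 ⟨μ, rfl, rfl⟩⟩
  · intro l z z' w h h'
    obtain ⟨μ, rfl, h1⟩ := (KCO_mS G hS l z w).1 h
    obtain ⟨ν, rfl, h2⟩ := (KCO_mS G hS l z' w).1 h'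
    rw [(hinl (h1.symm.trans h2)).1]
  · intro z w h
    obtain ⟨μ, rfl, rfl⟩ := (KCO_mS G hS _ z w).1 h
    rfl
  · intro b z _ h
    obtain ⟨μ, ν, h1, h2, h3⟩ := (KCO_tS G hS b z z).1 h
    rw [(hinl (h1.symm.trans h2)).1] at h3
    exact (hS b).1 _ h3
  · intro b z z' z'' _ _ _ h h'
    obtain ⟨μ, ν, h1, h2, h3⟩ := (KCO_tS G hS b z z').1 h
    obtain ⟨ν', ρ, h4, h5, h6⟩ := (KCO_tS G hS b z' z'').1 h'
    rw [← (hinl (h2.symm.trans h4)).1] at h6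
    exact (KCO_tS G hS b z z'').2 ⟨μ, ρ, h1, h5, (hS b).2.1 _ _ _ h3 h6⟩
  · intro b z z' h h' hne
    obtain ⟨μ, rfl⟩ := KCO_l0 G h
    obtain ⟨ν, rfl⟩ := KCO_l0 G h'
    have hμν : μ ≠ ν := by
      rintro rfl
      exact hne rfl
    rcases (hS b).2.2 μ ν hμν with h1 | h1
    · exact Or.inl ((KCO_tS G hS b _ _).2 ⟨μ, ν, rfl, rfl, h1⟩)
    · exact Or.inr ((KCO_tS G hS b _ _).2 ⟨ν, μ, rfl, rfl, h1⟩)
  · intro s l z w h
    have h0 : ∀ j, (∃ a μ, l j = .inl a ∧ z j = .inl (μ, G.l₀) ∧ w j = .inl (μ, a)) ∨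
        ∃ r, l j = .inr r ∧ w j = .inr r := by
      intro j
      have h1 := h j
      cases hl : l j with
      | inl a =>
        rw [hl] at h1
        obtain ⟨μ, h2, h3⟩ := (KCO_mS G hS a _ _).1 h1
        exact Or.inl ⟨a, μ, rfl, h2, h3⟩
      | inr r =>
        rw [hl] at h1
        exact Or.inr ⟨r, rfl, KCO_r0 G h1⟩
    have h1 : (fun j => lab (w j)) = l := by
      funext j
      rcases h0 j with ⟨a, μ, h2, -, h4⟩ | ⟨r, h2, h3⟩
      · rw [h2, h4]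
        rfl
      · rw [h2, h3]
        rfl
    have h2 : (fun (b : Bool) i j => pl (PMC.ls S b) (w i) (w j)) =
        fun (b : Bool) i j => (l i).isLeft = true ∧ (l j).isLeft = true ∧
          tS G (enc G S) b (z i) (z j) := by
      funext b i j
      rcases h0 i with ⟨a, μ, e1, e2, e3⟩ | ⟨r, e1, e2⟩
      · rcases h0 j with ⟨a', μ', e4, e5, e6⟩ | ⟨r', e4, e5⟩
        · rw [e1, e3, e4, e6, e2, e5]
          refine propext ⟨fun h3 => ⟨rfl, rfl, (KCO_tS G hS b _ _).2 ⟨μ, μ', rfl, rfl, h3⟩⟩, ?_⟩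
          rintro ⟨-, -, h3⟩
          obtain ⟨ν, ν', h4, h5, h6⟩ := (KCO_tS G hS b _ _).1 h3
          obtain ⟨rfl, -⟩ := hinl h4
          obtain ⟨rfl, -⟩ := hinl h5
          exact h6
        · rw [e4, e5]
          refine propext ⟨fun h3 => ?_, fun h3 => ?_⟩
          · rw [e3] at h3
            exact h3.elim
          · exact absurd h3.2.1 (by simp)
      · rw [e1, e2]
        refine propext ⟨fun h3 => h3.elim, fun h3 => ?_⟩
        exact absurd h3.1 (by simp)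
    show G.W s (fun j => lab (w j)) (fun b i j => pl (PMC.ls S b) (w i) (w j)) ↔ _
    rw [h1, h2]
  · rintro i z ⟨μ, h, -⟩
    have h' : z = .inl (μ, G.l₀) := h
    rw [h']
    rfl
  · refine ⟨KCO_e G, ?_⟩
    intro n R v
    match n, R with
    | _, .un i =>
      show au (enc G S) (.inl i) (v 0).1 ↔ S.RelMap (Sy.un i : Sy ι 1) _
      have h1 : au (enc G S) (.inl i) (v 0).1 ↔ us S i (KCO_e G (v 0)) := by
        constructor
        · rintro ⟨μ, h, h2⟩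
          have h3 : (v 0).1 = .inl (μ, G.l₀) := h
          rw [KCO_e_eq G (v 0)] at h3
          rw [(hinl h3).1]
          exact h2
        · intro h
          exact ⟨KCO_e G (v 0), KCO_e_eq G (v 0), h⟩
      rw [h1]
      unfold us
      have h2 : ![KCO_e G (v 0)] = KCO_e G ∘ v := by
        funext k
        rw [Subsingleton.elim k 0]
        rfl
      rw [h2]
    | _, .lt b =>
      show tS G (enc G S) b (v 0).1 (v 1).1 ↔ S.RelMap (Sy.lt b : Sy ι 2) _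
      have h1 : tS G (enc G S) b (v 0).1 (v 1).1 ↔
          PMC.ls S b (KCO_e G (v 0)) (KCO_e G (v 1)) := by
        rw [KCO_tS G hS]
        constructor
        · rintro ⟨μ, ν, h2, h3, h4⟩
          rw [KCO_e_eq G (v 0)] at h2
          rw [KCO_e_eq G (v 1)] at h3
          rw [(hinl h2).1, (hinl h3).1]
          exact h4
        · intro h
          exact ⟨_, _, KCO_e_eq G (v 0), KCO_e_eq G (v 1), h⟩
      refine h1.trans ?_
      unfold PMC.ls
      have h2 : ![KCO_e G (v 0), KCO_e G (v 1)] = KCO_e G ∘ v := by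
        funext k
        match k with
        | 0 => rfl
        | 1 => rfl
      rw [h2]

end Pool.Agent.AAD
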