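import Pool.Agent.AAD.StC

/-!
AAD, module KDM: measurable decoding (helper20)
-/

set_option autoImplicit false
set_option linter.unusedVariables false
set_option linter.unusedSectionVars false

namespace Pool.Agent.AAD

open FirstOrder.Language Set
open scoped FirstOrder
open Pool.Agent.PMC (Sy LP us Two Bin)
open Pool.Agent.Helper6.Str (PerfK CtblK Iso Code toStr)
open VPF (ModF)

section meas

open Classical in
private theorem KDM_count {X : Type} [MeasurableSpace X] {A : X → Set ℕ}
    (hA : ∀ p, Measurable fun x => p ∈ A x) (m : ℕ) :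
    ∀ n, Measurable fun x => Nat.count (· ∈ A x) m = n := by
  induction m with
  | zero =>
    intro n
    simp only [Nat.count_zero]
    exact measurable_const
  | succ m ih =>
    intro n
    have h1 : (fun x => Nat.count (· ∈ A x) (m + 1) = n) = fun x =>
        ((m ∈ A x ∧ Nat.count (· ∈ A x) m + 1 = n) ∨
          (¬ m ∈ A x ∧ Nat.count (· ∈ A x) m = n)) := by
      funext x
      simp only [Nat.count_succ]
      by_cases h : m ∈ A x <;> simp [h]
    rw [h1]
    refine ((hA m).and ?_).or ((hA m).not.and (ih n))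
    cases n with
    | zero =>
      simp only [Nat.add_eq_zero_iff, one_ne_zero, and_false]
      exact measurable_const
    | succ n => simpa only [Nat.add_right_cancel_iff] using ih n

open Classical in
private theorem KDM_nth {X : Type} [MeasurableSpace X] {A : X → Set ℕ}
    (hA : ∀ p, Measurable fun x => p ∈ A x) (hinf : ∀ x, (A x).Infinite) (n m : ℕ) :
    Measurable fun x => Nat.nth (· ∈ A x) n = m := by
  have h1 : (fun x => Nat.nth (· ∈ A x) n = m) = fun x =>
      (m ∈ A x ∧ Nat.count (· ∈ A x) m = n) := by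
    funext x
    have hi : (Set.ofPred (· ∈ A x)).Infinite := hinf x
    apply propext
    constructor
    · rintro rfl
      exact ⟨Nat.nth_mem_of_infinite hi n, Nat.count_nth_of_infinite hi n⟩
    · rintro ⟨h1, rfl⟩
      exact Nat.nth_count h1
  rw [h1]
  exact (hA m).and (KDM_count hA m n)

/-- formulas are measurable -/
private theorem KDM_fm {B : FirstOrder.Language.{0, 0}} (hB : ∀ n, IsEmpty (B.Functions n))
    {X : Type} [MeasurableSpace X] (F : X → B.Structure ℕ)
    (hF : ∀ (n : ℕ) (R : B.Relations n) (a : Fin n → ℕ), Measurable fun x => (F x).RelMap R a)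
    {α : Type} {n : ℕ} (φ : B.BoundedFormula α n) (v : α → ℕ) :
    ∀ xs : Fin n → ℕ, Measurable fun x => @BoundedFormula.Realize B ℕ (F x) α n φ v xs := by
  have ht : ∀ (β : Type) (t : B.Term β) (u : β → ℕ), ∃ a : ℕ, ∀ x, @Term.realize B ℕ (F x) β u t = a := by
    intro β t u
    cases t with
    | var i => exact ⟨u i, fun x => rfl⟩
    | func f _ => exact ((hB _).false f).elim
  induction φ with
  | falsum => exact fun xs => measurable_const
  | equal t₁ t₂ =>
    intro xs
    obtain ⟨a, ha⟩ := ht _ t₁ (Sum.elim v xs)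
    obtain ⟨b, hb⟩ := ht _ t₂ (Sum.elim v xs)
    have h1 : (fun x => @BoundedFormula.Realize B ℕ (F x) α _ (BoundedFormula.equal t₁ t₂) v xs) =
        fun _ => (a = b) := by
      funext x
      show (@Term.realize B ℕ (F x) _ (Sum.elim v xs) t₁ =
        @Term.realize B ℕ (F x) _ (Sum.elim v xs) t₂) = _
      rw [ha x, hb x]
    rw [h1]
    exact measurable_const
  | rel R ts =>
    intro xs
    choose a ha using fun i => ht _ (ts i) (Sum.elim v xs)
    have h1 : (fun x => @BoundedFormula.Realize B ℕ (F x) α _ (BoundedFormula.rel R ts) v xs) =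
        fun x => (F x).RelMap R a := by
      funext x
      show (F x).RelMap R (fun i => @Term.realize B ℕ (F x) _ (Sum.elim v xs) (ts i)) = _
      congr 1
      funext i
      exact ha i x
    rw [h1]
    exact hF _ R a
  | imp φ ψ h1 h2 => exact fun xs => (h1 xs).imp (h2 xs)
  | all φ h1 => exact fun xs => Measurable.forall fun w => h1 (Fin.snoc xs w)

end meas

section

variable {κ : Type} {ar : κ → ℕ} {K : Cla ar} (G : Gcd K) {ι M : Type}

/-- the relations of `dec G S` on the points of `S` -/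
private def KDM_hol (S : (LA (ι ⊕ (G.Λ ⊕ G.Ρ)) ar).Structure M) : ∀ {n : ℕ},
    (LP ι).Relations n → (Fin n → M) → Prop
  | _, .un i, v => au S (.inl i) (v 0)
  | _, .lt b, v => tS G S b (v 0) (v 1)

variable {F : (ℕ → Bool) → (LA (ι ⊕ (G.Λ ⊕ G.Ρ)) ar).Structure ℕ}

private theorem KDM_rd (hc : ∀ (n : ℕ) (R : (LA (ι ⊕ (G.Λ ⊕ G.Ρ)) ar).Relations n) (a : Fin n → ℕ),
    IsClopen {x | (F x).RelMap R a}) (n : ℕ) (R : (LA (G.Λ ⊕ G.Ρ) ar).Relations n)
    (a : Fin n → ℕ) : Measurable fun x => (rd G (F x)).RelMap R a := by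
  cases R with
  | un l => exact measurableSet_setOfPred.1 (hc 1 (Sm.un (.inr l)) (fun _ => a 0)).isOpen.measurableSet
  | rl s => exact measurableSet_setOfPred.1 (hc _ (Sm.rl s) a).isOpen.measurableSet

private theorem KDM_holm (hc : ∀ (n : ℕ) (R : (LA (ι ⊕ (G.Λ ⊕ G.Ρ)) ar).Relations n)
    (a : Fin n → ℕ), IsClopen {x | (F x).RelMap R a}) : ∀ {n : ℕ} (R : (LP ι).Relations n)
    (w : Fin n → ℕ), Measurable fun x => KDM_hol G (F x) R w
  | _, .un i, w => measurableSet_setOfPred.1
      (hc 1 (Sm.un (.inl i)) (fun _ => w 0)).isOpen.measurableSet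
  | _, .lt b, w => KDM_fm (fun _ => inferInstanceAs (IsEmpty Empty)) _ (KDM_rd G hc) _ _ _

private theorem KDM_inf (S : (LA (ι ⊕ (G.Λ ⊕ G.Ρ)) ar).Structure ℕ)
    (hS : Frame G S) : {a | lv G S (.inl G.l₀) a}.Infinite := by
  intro hfin
  have := G.fΛ
  have := G.fΡ
  have h1 : (⋃ p ∈ {a | lv G S (.inl G.l₀) a} ×ˢ (univ : Set G.Λ), {w | mS G S p.2 p.1 w}).Finite := by
    refine Set.Finite.biUnion (hfin.prod (Set.finite_univ)) fun p hp => ?_
    exact Set.Subsingleton.finite fun w hw w' hw' => hS.mun _ _ _ _ hw hw'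
  have h2 : (⋃ r ∈ (univ : Set G.Ρ), {w | lv G S (.inr r) w}).Finite := by
    refine Set.Finite.biUnion Set.finite_univ fun r _ => ?_
    exact Set.Subsingleton.finite fun w hw w' hw' => hS.run _ _ _ hw hw'
  refine Set.infinite_univ (α := ℕ) ((h1.union h2).subset fun w _ => ?_)
  obtain ⟨l, hl⟩ := hS.lev w
  cases l with
  | inl l =>
    obtain ⟨z, hz⟩ := hS.msu l w hl
    exact Or.inl (Set.mem_biUnion (x := (z, l)) ⟨(hS.mlv _ _ _ hz).1, mem_univ _⟩ hz)
  | inr r => exact Or.inr (Set.mem_biUnion (mem_univ r) hl)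

end

theorem thm_KDM : St_KDM := by
  classical
  intro κ ar K G ι F hF hc
  let A : (ℕ → Bool) → Set ℕ := fun x => {a | lv G (F x) (.inl G.l₀) a}
  have hA : ∀ p, Measurable fun x => p ∈ A x := fun p =>
    measurableSet_setOfPred.1 (hc 1 (Sm.un (.inr (.inl G.l₀))) (fun _ => p)).isOpen.measurableSet
  have hAinf : ∀ x, (A x).Infinite := fun x => KDM_inf G (F x) (hF x)
  let d : (ℕ → Bool) → ℕ → ℕ := fun x => Nat.nth (· ∈ A x)
  have hd : ∀ x n, d x n ∈ A x := fun x n => Nat.nth_mem_of_infinite (hAinf x) n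
  let f : ∀ x, ℕ → {z : ℕ // lv G (F x) (.inl G.l₀) z} := fun x n => ⟨d x n, hd x n⟩
  have hfinj : ∀ x, Function.Injective (f x) := by
    intro x n m hnm
    have h1 := congrArg Subtype.val hnm
    exact Nat.nth_injective (hAinf x) h1
  have hfsurj : ∀ x, Function.Surjective (f x) := by
    rintro x ⟨a, ha⟩
    refine ⟨Nat.count (· ∈ A x) a, ?_⟩
    have h1 : d x (Nat.count (· ∈ A x) a) = a := Nat.nth_count (p := (· ∈ A x)) ha
    exact Subtype.ext h1
  let e : ∀ x, ℕ ≃ {z : ℕ // lv G (F x) (.inl G.l₀) z} :=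
    fun x => Equiv.ofBijective (f x) ⟨hfinj x, hfsurj x⟩
  refine ⟨fun x p => decide (KDM_hol G (F x) p.2.1 fun i => d x (p.2.2 i)), ?_, ?_⟩
  · rw [measurable_pi_iff]
    rintro ⟨n, R, v⟩
    refine measurable_to_bool ?_
    have h1 : (fun x => decide (KDM_hol G (F x) R fun i => d x (v i))) ⁻¹' {true} =
        {x | ∃ w : Fin n → ℕ, (∀ i, d x (v i) = w i) ∧ KDM_hol G (F x) R w} := by
      ext x
      simp only [mem_preimage, mem_singleton_iff, decide_eq_true_eq, mem_ofPred_eq]
      constructor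
      · intro h
        exact ⟨_, fun i => rfl, h⟩
      · rintro ⟨w, hw, h⟩
        rwa [funext hw]
    show MeasurableSet ((fun x => decide (KDM_hol G (F x) R fun i => d x (v i))) ⁻¹' {true})
    rw [h1]
    refine measurableSet_setOfPred.2 (Measurable.exists fun w => Measurable.and ?_ (KDM_holm G hc R w))
    exact Measurable.forall fun i => KDM_nth hA hAinf _ _
  · intro x
    refine ⟨(e x).symm, fun n R v => ?_⟩
    show (dec G (F x)).RelMap R v ↔
      decide (KDM_hol G (F x) R fun i => d x ((⇑(e x).symm ∘ v) i)) = true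
    rw [decide_eq_true_eq]
    have hv : ∀ i, d x ((e x).symm (v i)) = (v i).1 := fun i =>
      congrArg Subtype.val ((e x).apply_symm_apply (v i))
    have hv' : (fun i => d x ((⇑(e x).symm ∘ v) i)) = fun i => (v i).1 := funext hv
    rw [hv']
    cases R with
    | un i => exact Iff.rfl
    | lt b => exact Iff.rfl

end Pool.Agent.AAD
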