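import Pool.Agent.AAD.StC

/-!
AAD: `Frame` is a set of sentences (helper35).
-/

set_option autoImplicit false
set_option linter.unusedVariables false

namespace Pool.Agent.AAD

open FirstOrder.Language Set
open scoped FirstOrder
open Pool.Agent.PMC (Sy LP us Two)

section

variable {κ : Type} {ar : κ → ℕ} {K : Cla ar} (G : Gcd K) (ι : Type)

/-- all structures -/
private abbrev KFR_J : Type 1 := Σ M : Type, (LA (ι ⊕ (G.Λ ⊕ G.Ρ)) ar).Structure M

private abbrev KFR_U (α : Type) (Q : ∀ j : KFR_J G ι, (α → j.1) → Prop) : Prop :=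
  UD (LA (ι ⊕ (G.Λ ⊕ G.Ρ)) ar) (J := KFR_J G ι) (fun j => j.1) (fun j => j.2) α Q

/-- axiomatizable properties -/
private def KFR_A (C : ∀ M : Type, (LA (ι ⊕ (G.Λ ⊕ G.Ρ)) ar).Structure M → Prop) : Prop :=
  ∃ F : (LA (ι ⊕ (G.Λ ⊕ G.Ρ)) ar).Theory,
    ∀ (M : Type) (S : (LA (ι ⊕ (G.Λ ⊕ G.Ρ)) ar).Structure M),
      @FirstOrder.Language.Theory.Model (LA (ι ⊕ (G.Λ ⊕ G.Ρ)) ar) M S F ↔ C M S

private lemma KFR_and {C C' : ∀ M : Type, (LA (ι ⊕ (G.Λ ⊕ G.Ρ)) ar).Structure M → Prop}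
    (h : KFR_A G ι C) (h' : KFR_A G ι C') : KFR_A G ι fun M S => C M S ∧ C' M S := by
  obtain ⟨F, hF⟩ := h
  obtain ⟨F', hF'⟩ := h'
  refine ⟨F ∪ F', fun M S => ?_⟩
  letI := S
  rw [Theory.model_union_iff, hF, hF']

private lemma KFR_all {I : Type} {C : I → ∀ M : Type, (LA (ι ⊕ (G.Λ ⊕ G.Ρ)) ar).Structure M → Prop}
    (h : ∀ i, KFR_A G ι (C i)) : KFR_A G ι fun M S => ∀ i, C i M S := by
  choose F hF using h
  refine ⟨⋃ i, F i, fun M S => ?_⟩
  letI := S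
  constructor
  · intro hm i
    exact (hF i M S).1 (hm.mono (subset_iUnion F i))
  · intro hc
    refine ⟨fun φ hφ => ?_⟩
    obtain ⟨i, hi⟩ := mem_iUnion.1 hφ
    exact ((hF i M S).2 (hc i)).realize_of_mem φ hi

private lemma KFR_ud {C : ∀ M : Type, (LA (ι ⊕ (G.Λ ⊕ G.Ρ)) ar).Structure M → Prop}
    (h : KFR_U G ι Empty fun j _ => C j.1 j.2) : KFR_A G ι C := by
  obtain ⟨φ, hφ⟩ := h
  refine ⟨{φ}, fun M S => ?_⟩
  letI := S
  rw [Theory.model_singleton_iff]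
  exact hφ ⟨M, S⟩ default

/-! ### The atomic relations -/

private lemma KFR_lv {α : Type} (l : G.Λ ⊕ G.Ρ) (a : α) :
    KFR_U G ι α fun j v => lv G j.2 l (v a) :=
  UD_rel (B := LA (ι ⊕ (G.Λ ⊕ G.Ρ)) ar) (J := KFR_J G ι) (X := fun j => j.1) (S := fun j => j.2)
    (n := 1) (Sm.un (.inr l)) (fun _ => a)

private lemma KFR_au {α : Type} (i : ι) (a : α) :
    KFR_U G ι α fun j v => au j.2 (.inl i) (v a) :=
  UD_rel (B := LA (ι ⊕ (G.Λ ⊕ G.Ρ)) ar) (J := KFR_J G ι) (X := fun j => j.1) (S := fun j => j.2)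
    (n := 1) (Sm.un (.inl i)) (fun _ => a)

private lemma KFR_rr {α : Type} (s : Option κ) (a : Fin (ar' ar s) → α) :
    KFR_U G ι α fun j v => rr j.2 s (fun i => v (a i)) :=
  UD_rel (B := LA (ι ⊕ (G.Λ ⊕ G.Ρ)) ar) (J := KFR_J G ι) (X := fun j => j.1) (S := fun j => j.2)
    (n := ar' ar s) (Sm.rl s) a

private def KFR_onR {n : ℕ} : Sm (G.Λ ⊕ G.Ρ) ar n → Sm (ι ⊕ (G.Λ ⊕ G.Ρ)) ar n
  | .un l => .un (.inr l)
  | .rl s => .rl s

private def KFR_hom : LA (G.Λ ⊕ G.Ρ) ar →ᴸ LA (ι ⊕ (G.Λ ⊕ G.Ρ)) ar where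
  onFunction := fun {n} f => Empty.elim f
  onRelation := fun {n} R => KFR_onR G ι R

private lemma KFR_real {M : Type} (S : (LA (ι ⊕ (G.Λ ⊕ G.Ρ)) ar).Structure M) {α : Type}
    (φ : (LA (G.Λ ⊕ G.Ρ) ar).Formula α) (v : α → M) :
    @Formula.Realize _ _ S _ ((KFR_hom G ι).onFormula φ) v ↔
      @Formula.Realize _ _ (rd G S) _ φ v := by
  letI i1 : (LA (ι ⊕ (G.Λ ⊕ G.Ρ)) ar).Structure M := S
  letI i2 : (LA (G.Λ ⊕ G.Ρ) ar).Structure M := rd G S
  haveI : (KFR_hom G ι).IsExpansionOn M := by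
    refine ⟨fun {n} f x => Empty.elim f, fun {n} R x => ?_⟩
    cases R with
    | un l =>
      have : x = fun _ => x 0 := by
        funext i
        rw [Subsingleton.elim i 0]
      conv_lhs => rw [this]
      rfl
    | rl s => rfl
  exact LHom.realize_onFormula (KFR_hom G ι) φ

private lemma KFR_F2 {α : Type} (φ : (LA (G.Λ ⊕ G.Ρ) ar).Formula (Fin 2)) (a b : α) :
    KFR_U G ι α fun j v => @Formula.Realize _ _ (rd G j.2) _ φ ![v a, v b] := by
  refine ⟨((KFR_hom G ι).onFormula φ).relabel ![a, b], fun j v => ?_⟩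
  letI := j.2
  rw [Formula.realize_relabel, KFR_real G ι j.2 φ]
  have : v ∘ ![a, b] = ![v a, v b] := by
    funext i
    fin_cases i <;> rfl
  rw [this]

private lemma KFR_mS {α : Type} (l : G.Λ) (a b : α) :
    KFR_U G ι α fun j v => mS G j.2 l (v a) (v b) :=
  KFR_F2 G ι (G.mt l) a b

private lemma KFR_tS {α : Type} (c : Bool) (a b : α) :
    KFR_U G ι α fun j v => tS G j.2 c (v a) (v b) :=
  KFR_F2 G ι (G.th c) a b

private lemma KFR_ov {α : Type} (l : G.Λ ⊕ G.Ρ) (a b : α) :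
    KFR_U G ι α fun j v => ov G j.2 l (v a) (v b) := by
  cases l with
  | inl x => exact KFR_mS G ι x a b
  | inr r => exact KFR_lv G ι (.inr r) b

private lemma KFR_W {α : Type} (s : Option κ) (l : Fin (ar' ar s) → G.Λ ⊕ G.Ρ)
    (a : Fin (ar' ar s) → α) :
    KFR_U G ι α fun q v => G.W s l fun b i j => (l i).isLeft = true ∧ (l j).isLeft = true ∧
      tS G q.2 b (v (a i)) (v (a j)) := by
  refine UD_congr (Q := fun q v => ∃ p : Bool → Fin (ar' ar s) → Fin (ar' ar s) → Prop,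
    (∀ b i j, p b i j ↔ ((l i).isLeft = true ∧ (l j).isLeft = true ∧
      tS G q.2 b (v (a i)) (v (a j)))) ∧ G.W s l p) ?_ ?_
  · refine UD_fex fun p => UD_and (UD_fin fun b => UD_fin fun i => UD_fin fun j => UD_iff (UD_const _)
      (UD_and (UD_const _) (UD_and (UD_const _) ?_))) (UD_const _)
    exact KFR_tS G ι b (a i) (a j)
  · intro q v
    constructor
    · rintro ⟨p, hp, hW⟩
      have : p = fun b i j => (l i).isLeft = true ∧ (l j).isLeft = true ∧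
          tS G q.2 b (v (a i)) (v (a j)) := by
        funext b i j
        exact propext (hp b i j)
      rw [← this]
      exact hW
    · intro hW
      exact ⟨_, fun b i j => Iff.rfl, hW⟩

end

/-- [KFR] -/
theorem thm_KFR : St_KFR := by
  intro κ ar K G ι
  haveI := G.fΛ
  haveI := G.fΡ
  suffices h : KFR_A G ι fun M S => Frame G S from h
  -- the conditions
  have lev : KFR_A G ι fun M S => ∀ z, ∃ l, lv G S l z :=
    KFR_ud G ι (UD_all1 (UD_fex fun l => KFR_lv G ι l _))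
  have unq : KFR_A G ι fun M S => ∀ l l' z, lv G S l z → lv G S l' z → l = l' :=
    KFR_all G ι fun l => KFR_all G ι fun l' => KFR_ud G ι
      (UD_all1 (UD_imp (KFR_lv G ι l _) (UD_imp (KFR_lv G ι l' _) (UD_const _))))
  have rex : KFR_A G ι fun M S => ∀ r : G.Ρ, ∃ z, lv G S (.inr r) z :=
    KFR_all G ι fun r => KFR_ud G ι (UD_ex1 (KFR_lv G ι (.inr r) _))
  have run : KFR_A G ι fun M S => ∀ (r : G.Ρ) z z', lv G S (.inr r) z → lv G S (.inr r) z' →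
      z = z' :=
    KFR_all G ι fun r => KFR_ud G ι (UD_all1 (UD_all1
      (UD_imp (KFR_lv G ι (.inr r) _) (UD_imp (KFR_lv G ι (.inr r) _) (UD_eq _ _)))))
  have mlv : KFR_A G ι fun M S => ∀ l z w, mS G S l z w →
      lv G S (.inl G.l₀) z ∧ lv G S (.inl l) w :=
    KFR_all G ι fun l => KFR_ud G ι (UD_all1 (UD_all1
      (UD_imp (KFR_mS G ι l _ _) (UD_and (KFR_lv G ι _ _) (KFR_lv G ι _ _)))))
  have mex : KFR_A G ι fun M S => ∀ l z, lv G S (.inl G.l₀) z → ∃ w, mS G S l z w :=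
    KFR_all G ι fun l => KFR_ud G ι (UD_all1
      (UD_imp (KFR_lv G ι _ _) (UD_ex1 (KFR_mS G ι l _ _))))
  have mun : KFR_A G ι fun M S => ∀ l z w w', mS G S l z w → mS G S l z w' → w = w' :=
    KFR_all G ι fun l => KFR_ud G ι (UD_all1 (UD_all1 (UD_all1
      (UD_imp (KFR_mS G ι l _ _) (UD_imp (KFR_mS G ι l _ _) (UD_eq _ _))))))
  have msu : KFR_A G ι fun M S => ∀ l w, lv G S (.inl l) w → ∃ z, mS G S l z w :=
    KFR_all G ι fun l => KFR_ud G ι (UD_all1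
      (UD_imp (KFR_lv G ι _ _) (UD_ex1 (KFR_mS G ι l _ _))))
  have mi : KFR_A G ι fun M S => ∀ l z z' w, mS G S l z w → mS G S l z' w → z = z' :=
    KFR_all G ι fun l => KFR_ud G ι (UD_all1 (UD_all1 (UD_all1
      (UD_imp (KFR_mS G ι l _ _) (UD_imp (KFR_mS G ι l _ _) (UD_eq _ _))))))
  have mid : KFR_A G ι fun M S => ∀ z w, mS G S G.l₀ z w → z = w :=
    KFR_ud G ι (UD_all1 (UD_all1 (UD_imp (KFR_mS G ι _ _ _) (UD_eq _ _))))
  have irr : KFR_A G ι fun M S => ∀ b z, lv G S (.inl G.l₀) z → ¬ tS G S b z z :=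
    KFR_all G ι fun b => KFR_ud G ι (UD_all1
      (UD_imp (KFR_lv G ι _ _) (UD_not (KFR_tS G ι b _ _))))
  have tra : KFR_A G ι fun M S => ∀ b z z' z'', lv G S (.inl G.l₀) z → lv G S (.inl G.l₀) z' →
      lv G S (.inl G.l₀) z'' → tS G S b z z' → tS G S b z' z'' → tS G S b z z'' :=
    KFR_all G ι fun b => KFR_ud G ι (UD_all1 (UD_all1 (UD_all1
      (UD_imp (KFR_lv G ι _ _) (UD_imp (KFR_lv G ι _ _) (UD_imp (KFR_lv G ι _ _)
        (UD_imp (KFR_tS G ι b _ _) (UD_imp (KFR_tS G ι b _ _) (KFR_tS G ι b _ _)))))))))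
  have tot : KFR_A G ι fun M S => ∀ b z z', lv G S (.inl G.l₀) z → lv G S (.inl G.l₀) z' →
      z ≠ z' → tS G S b z z' ∨ tS G S b z' z :=
    KFR_all G ι fun b => KFR_ud G ι (UD_all1 (UD_all1
      (UD_imp (KFR_lv G ι _ _) (UD_imp (KFR_lv G ι _ _) (UD_imp (UD_not (UD_eq _ _))
        (UD_or (KFR_tS G ι b _ _) (KFR_tS G ι b _ _)))))))
  have rel : KFR_A G ι fun M S => ∀ (s : Option κ) (l : Fin (ar' ar s) → G.Λ ⊕ G.Ρ)
      (z w : Fin (ar' ar s) → M), (∀ j, ov G S (l j) (z j) (w j)) →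
      (rr S s w ↔ G.W s l fun b i j => (l i).isLeft = true ∧ (l j).isLeft = true ∧
        tS G S b (z i) (z j)) := by
    refine KFR_all G ι fun s => KFR_all G ι fun l => KFR_ud G ι ?_
    refine UD_congr (Q := fun q v => ∀ z : Fin (ar' ar s) → q.1, ∀ w : Fin (ar' ar s) → q.1,
      (∀ j, ov G q.2 (l j) (z j) (w j)) →
      (rr q.2 s w ↔ G.W s l fun b i j => (l i).isLeft = true ∧ (l j).isLeft = true ∧
        tS G q.2 b (z i) (z j))) ?_ (fun _ _ => Iff.rfl)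
    have h0 : KFR_U G ι ((Empty ⊕ Fin (ar' ar s)) ⊕ Fin (ar' ar s)) fun q v =>
        (∀ j, ov G q.2 (l j) (v (.inl (.inr j))) (v (.inr j))) →
        (rr q.2 s (fun j => v (.inr j)) ↔ G.W s l fun b i j => (l i).isLeft = true ∧
          (l j).isLeft = true ∧ tS G q.2 b (v (.inl (.inr i))) (v (.inl (.inr j)))) :=
      UD_imp (UD_fin fun j => KFR_ov G ι (l j) _ _) (UD_iff (KFR_rr G ι s _)
        (KFR_W G ι s l fun j =>
        (Sum.inl (Sum.inr j) : (Empty ⊕ Fin (ar' ar s)) ⊕ Fin (ar' ar s))))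
    exact UD_all (UD_all h0)
  have un : KFR_A G ι fun M S => ∀ i z, au S (.inl i) z → lv G S (.inl G.l₀) z :=
    KFR_all G ι fun i => KFR_ud G ι (UD_all1 (UD_imp (KFR_au G ι i _) (KFR_lv G ι _ _)))
  obtain ⟨F, hF⟩ := KFR_and G ι lev (KFR_and G ι unq (KFR_and G ι rex (KFR_and G ι run
    (KFR_and G ι mlv (KFR_and G ι mex (KFR_and G ι mun (KFR_and G ι msu (KFR_and G ι mi
    (KFR_and G ι mid (KFR_and G ι irr (KFR_and G ι tra (KFR_and G ι tot
    (KFR_and G ι rel un)))))))))))))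
  refine ⟨F, fun M S => (hF M S).trans ?_⟩
  constructor
  · rintro ⟨h1, h2, h3, h4, h5, h6, h7, h8, h9, h10, h11, h12, h13, h14, h15⟩
    exact ⟨h1, fun z l l' => h2 l l' z, h3, h4, h5, h6, h7, h8, h9, h10, h11, h12, h13, h14, h15⟩
  · rintro ⟨h1, h2, h3, h4, h5, h6, h7, h8, h9, h10, h11, h12, h13, h14, h15⟩
    exact ⟨h1, fun l l' z => h2 z l l', h3, h4, h5, h6, h7, h8, h9, h10, h11, h12, h13, h14, h15⟩

end Pool.Agent.AAD

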