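import Pool.Agent.AAD.StC

/-!
AAD, module KFU (helper43): coding and decoding are functorial.
-/

set_option autoImplicit false
set_option linter.unusedVariables false

namespace Pool.Agent.AAD

open FirstOrder.Language Set
open scoped FirstOrder
open Pool.Agent.PMC (Sy LP us Two)
open Pool.Agent.Helper6.Str (Iso RelIso)

section

variable {ι M M' : Type} {S : (LP ι).Structure M} {S' : (LP ι).Structure M'} {e : M ≃ M'}

private theorem KFU_us (h : RelIso S S' e) (i : ι) (x : M) : us S i x ↔ us S' i (e x) := by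
  have h1 := h 1 (Sy.un i : Sy ι 1) ![x]
  have h2 : (e ∘ ![x] : Fin 1 → M') = ![e x] := by
    funext k
    rw [Subsingleton.elim k 0]
    rfl
  rw [h2] at h1
  exact h1

private theorem KFU_ls (h : RelIso S S' e) (b : Bool) (x y : M) :
    PMC.ls S b x y ↔ PMC.ls S' b (e x) (e y) := by
  have h1 := h 2 (Sy.lt b : Sy ι 2) ![x, y]
  have h2 : (e ∘ ![x, y] : Fin 2 → M') = ![e x, e y] := by
    funext k
    match k with
    | 0 => rfl
    | 1 => rfl
  rw [h2] at h1
  exact h1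

end

section

variable {M M' Λ Ρ : Type}

/-- the bijection of the codes -/
private def KFU_e (e : M ≃ M') : (M × Λ) ⊕ Ρ ≃ (M' × Λ) ⊕ Ρ :=
  Equiv.sumCongr (e.prodCongr (Equiv.refl Λ)) (Equiv.refl Ρ)

private theorem KFU_lab (e : M ≃ M') (x : (M × Λ) ⊕ Ρ) : lab (KFU_e e x) = lab x := by
  cases x with
  | inl x => rfl
  | inr r => rfl

private theorem KFU_pl (e : M ≃ M') (lt : M → M → Prop) (lt' : M' → M' → Prop)
    (h : ∀ x y, lt x y ↔ lt' (e x) (e y)) (x y : (M × Λ) ⊕ Ρ) :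
    pl lt' (KFU_e e x) (KFU_e e y) ↔ pl lt x y := by
  cases x with
  | inl x =>
    cases y with
    | inl y => exact (h x.1 y.1).symm
    | inr r => exact Iff.rfl
  | inr r => exact Iff.rfl

private theorem KFU_ex (e : M ≃ M') (l : Λ) (p : M → Prop) (p' : M' → Prop)
    (h : ∀ x, p x ↔ p' (e x)) (x : (M × Λ) ⊕ Ρ) :
    (∃ μ, x = .inl (μ, l) ∧ p μ) ↔ ∃ μ, KFU_e e x = .inl (μ, l) ∧ p' μ := by
  constructor
  · rintro ⟨μ, rfl, hp⟩
    exact ⟨e μ, rfl, (h μ).1 hp⟩
  · rintro ⟨μ, h1, h2⟩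
    cases x with
    | inl x =>
      have h3 : (e x.1, x.2) = (μ, l) := Sum.inl.inj h1
      have h4 : e x.1 = μ := congrArg Prod.fst h3
      have h5 : x.2 = l := congrArg Prod.snd h3
      refine ⟨x.1, ?_, (h x.1).2 (h4 ▸ h2)⟩
      rw [← h5]
    | inr r => exact absurd h1 (fun h => Sum.inr_ne_inl h)

end

section

variable {κ : Type} {ar : κ → ℕ} {K : Cla ar} (G : Gcd K) {ι M M' : Type}
  {S : (LA (ι ⊕ (G.Λ ⊕ G.Ρ)) ar).Structure M} {S' : (LA (ι ⊕ (G.Λ ⊕ G.Ρ)) ar).Structure M'}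
  {e : M ≃ M'}

private theorem KFU_au (h : RelIso S S' e) (i : ι ⊕ (G.Λ ⊕ G.Ρ)) (x : M) :
    au S i x ↔ au S' i (e x) :=
  h 1 (Sm.un i : Sm (ι ⊕ (G.Λ ⊕ G.Ρ)) ar 1) (fun _ => x)

private theorem KFU_rd (h : RelIso S S' e) {α : Type} (φ : (LA (G.Λ ⊕ G.Ρ) ar).Formula α)
    (v : α → M) :
    @Formula.Realize _ _ (rd G S) _ φ v ↔ @Formula.Realize _ _ (rd G S') _ φ (e ∘ v) := by
  let f : @FirstOrder.Language.Equiv (LA (G.Λ ⊕ G.Ρ) ar) M M' (rd G S) (rd G S') :=
    @FirstOrder.Language.Equiv.mk (LA (G.Λ ⊕ G.Ρ) ar) M M' (rd G S) (rd G S') e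
      (fun f _ => Empty.elim f)
      (fun {n} R v => by
        cases R with
        | un l => exact (KFU_au G h (.inr l) (v 0)).symm
        | rl s => exact (h _ (Sm.rl s : Sm (ι ⊕ (G.Λ ⊕ G.Ρ)) ar (ar' ar s)) v).symm)
  let _ := rd G S
  let _ := rd G S'
  exact (StrongHomClass.realize_formula f φ (v := v)).symm

private theorem KFU_two (e : M ≃ M') (x y : M) : (e ∘ ![x, y] : Fin 2 → M') = ![e x, e y] := by
  funext k
  match k with
  | 0 => rfl
  | 1 => rfl

private theorem KFU_tS (h : RelIso S S' e) (b : Bool) (z w : M) :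
    tS G S b z w ↔ tS G S' b (e z) (e w) := by
  have h1 := KFU_rd G h (G.th b) ![z, w]
  rw [KFU_two] at h1
  exact h1

end

/-- functoriality -/
theorem thm_KFU : St_KFU := by
  intro κ ar K G ι M M'
  constructor
  · rintro S S' ⟨e, he⟩
    refine ⟨KFU_e e, fun n R v => ?_⟩
    cases R with
    | un i =>
      cases i with
      | inl i => exact KFU_ex e G.l₀ (us S i) (us S' i) (KFU_us he i) (v 0)
      | inr l =>
        show lab (v 0) = l ↔ lab (KFU_e e (v 0)) = l
        rw [KFU_lab]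
    | rl s =>
      show G.W s (fun j => lab (v j)) (fun b i j => pl (PMC.ls S b) (v i) (v j)) ↔
        G.W s (fun j => lab (KFU_e e (v j)))
          (fun b i j => pl (PMC.ls S' b) (KFU_e e (v i)) (KFU_e e (v j)))
      have h1 : (fun j => lab (KFU_e e (v j))) = fun j => lab (v j) := by
        funext j
        exact KFU_lab e (v j)
      have h2 : (fun (b : Bool) i j => pl (PMC.ls S' b) (KFU_e e (v i)) (KFU_e e (v j))) =
          fun b i j => pl (PMC.ls S b) (v i) (v j) := by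
        funext b i j
        exact propext (KFU_pl e _ _ (KFU_ls he b) (v i) (v j))
      rw [h1, h2]
  · rintro S S' ⟨e, he⟩
    refine ⟨e.subtypeEquiv fun z => KFU_au G he _ z, fun n R v => ?_⟩
    cases R with
    | un i => exact KFU_au G he (.inl i) (v 0).1
    | lt b => exact KFU_tS G he b (v 0).1 (v 1).1

end Pool.Agent.AAD
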