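import Pool.Agent.AAD.StC

/-!
AAD: [KRE] a code is the code of its decoded structure (helper52).
-/

set_option autoImplicit false
set_option linter.unusedVariables false

namespace Pool.Agent.AAD

open FirstOrder.Language Set
open scoped FirstOrder
open Pool.Agent.PMC (Sy LP us Two Bin)
open Pool.Agent.Helper6.Str (PerfK CtblK Iso Code toStr)
open VPF (ModF)

section

variable {κ : Type} {ar : κ → ℕ} {K : Cla ar} (G : Gcd K) {ι M : Type}
  (S : (LA (ι ⊕ (G.Λ ⊕ G.Ρ)) ar).Structure M)

/-- `w` is the element with the name `p` -/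
private def KRE_sp (p : ({z : M // lv G S (.inl G.l₀) z} × G.Λ) ⊕ G.Ρ) (w : M) : Prop :=
  match p with
  | .inl x => mS G S x.2 x.1.1 w
  | .inr r => lv G S (.inr r) w

/-- the first component, or `w` -/
private def KRE_fs (p : ({z : M // lv G S (.inl G.l₀) z} × G.Λ) ⊕ G.Ρ) (w : M) : M :=
  match p with
  | .inl x => x.1.1
  | .inr _ => w

variable {S}

private theorem KRE_two (h : Frame G S) : Two (dec G S) := by
  intro b
  refine ⟨fun x hx => h.irr b x.1 x.2 hx, fun x y z hx hy => ?_, fun x y hxy => ?_⟩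
  · exact h.tra b x.1 y.1 z.1 x.2 y.2 z.2 hx hy
  · exact h.tot b x.1 y.1 x.2 y.2 (fun e => hxy (Subtype.ext e))

private theorem KRE_lab (h : Frame G S) (p : ({z : M // lv G S (.inl G.l₀) z} × G.Λ) ⊕ G.Ρ) (w : M)
    (hp : KRE_sp G S p w) : lv G S (lab p) w := by
  rcases p with x | r
  · exact (h.mlv _ _ _ hp).2
  · exact hp

private theorem KRE_ov (h : Frame G S) (p : ({z : M // lv G S (.inl G.l₀) z} × G.Λ) ⊕ G.Ρ) (w : M)
    (hp : KRE_sp G S p w) : ov G S (lab p) (KRE_fs G S p w) w := by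
  rcases p with x | r
  · exact hp
  · exact hp

private theorem KRE_iso (h : Frame G S) : Iso (enc G (dec G S)) S := by
  have hex : ∀ p : ({z : M // lv G S (.inl G.l₀) z} × G.Λ) ⊕ G.Ρ, ∃ w, KRE_sp G S p w := by
    rintro (x | r)
    · exact h.mex x.2 x.1.1 x.1.2
    · exact h.rex r
  choose f hf using hex
  have hbij : Function.Bijective f := by
    constructor
    · rintro (⟨x, l⟩ | r) (⟨y, l'⟩ | r') he
      · have h1 : mS G S l x.1 (f (.inl (x, l))) := hf (.inl (x, l))
        have h2 : mS G S l' y.1 (f (.inl (y, l'))) := hf (.inl (y, l'))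
        rw [← he] at h2
        have e : (Sum.inl l : G.Λ ⊕ G.Ρ) = .inl l' :=
          h.unq _ _ _ (h.mlv _ _ _ h1).2 (h.mlv _ _ _ h2).2
        have e' : l = l' := Sum.inl_injective e
        subst e'
        have e2 : x = y := Subtype.ext (h.min l x.1 y.1 _ h1 h2)
        rw [e2]
      · have h1 : mS G S l x.1 (f (.inl (x, l))) := hf (.inl (x, l))
        have h2 : lv G S (.inr r') (f (.inr r')) := hf (.inr r')
        rw [← he] at h2
        exact absurd (h.unq _ _ _ (h.mlv _ _ _ h1).2 h2) Sum.inl_ne_inr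
      · have h1 : mS G S l' y.1 (f (.inl (y, l'))) := hf (.inl (y, l'))
        have h2 : lv G S (.inr r) (f (.inr r)) := hf (.inr r)
        rw [he] at h2
        exact absurd (h.unq _ _ _ (h.mlv _ _ _ h1).2 h2) Sum.inl_ne_inr
      · have h1 : lv G S (.inr r) (f (.inr r)) := hf (.inr r)
        have h2 : lv G S (.inr r') (f (.inr r')) := hf (.inr r')
        rw [← he] at h2
        have e := h.unq _ _ _ h1 h2
        exact congrArg Sum.inr (Sum.inr_injective e)
    · intro w
      obtain ⟨l, hl⟩ := h.lev w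
      rcases l with l | r
      · obtain ⟨z, hz⟩ := h.msu l w hl
        exact ⟨.inl (⟨z, (h.mlv _ _ _ hz).1⟩, l),
          h.mun l z _ _ (hf (.inl (⟨z, (h.mlv _ _ _ hz).1⟩, l))) hz⟩
      · exact ⟨.inr r, h.run r _ _ (hf (.inr r)) hl⟩
  refine ⟨Equiv.ofBijective f hbij, ?_⟩
  have hun : ∀ (i : ι ⊕ (G.Λ ⊕ G.Ρ))
      (v : Fin 1 → ({z : M // lv G S (.inl G.l₀) z} × G.Λ) ⊕ G.Ρ),
      S.RelMap (n := 1) (Sm.un i : Sm (ι ⊕ (G.Λ ⊕ G.Ρ)) ar 1) (Equiv.ofBijective f hbij ∘ v) ↔
        au S i (f (v 0)) := by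
    intro i v
    have e : (Equiv.ofBijective f hbij ∘ v) = fun _ => f (v 0) := by
      funext k
      rw [Subsingleton.elim k 0]
      rfl
    rw [e]
    exact Iff.rfl
  intro n R v
  match n, R with
  | _, .un (.inl i) =>
    refine Iff.trans ?_ (hun (.inl i) v).symm
    show (∃ μ, v 0 = .inl (μ, G.l₀) ∧ us (dec G S) i μ) ↔ _
    constructor
    · rintro ⟨μ, h1, h2⟩
      have h3 := hf (v 0)
      rw [h1] at h3
      have h4 : μ.1 = f (.inl (μ, G.l₀)) := h.mid _ _ h3
      rw [h1, ← h4]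
      exact h2
    · intro h1
      have h2 := h.un i _ h1
      have h3 := KRE_lab G h (v 0) _ (hf (v 0))
      have h4 := h.unq _ _ _ h3 h2
      rcases hv : v 0 with ⟨x, l⟩ | r
      · rw [hv] at h4
        have h5 : l = G.l₀ := Sum.inl_injective h4
        subst h5
        refine ⟨x, rfl, ?_⟩
        have h6 := hf (v 0)
        rw [hv] at h6 h1
        have h7 : x.1 = f (.inl (x, G.l₀)) := h.mid _ _ h6
        rw [← h7] at h1
        exact h1
      · rw [hv] at h4
        exact absurd h4.symm Sum.inl_ne_inr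
  | _, .un (.inr l) =>
    refine Iff.trans ?_ (hun (.inr l) v).symm
    show lab (v 0) = l ↔ lv G S l (f (v 0))
    have h1 := KRE_lab G h (v 0) _ (hf (v 0))
    constructor
    · intro h2
      rw [← h2]
      exact h1
    · intro h2
      exact h.unq _ _ _ h1 h2
  | _, .rl s =>
    show cr G.toCd (PMC.ls (dec G S)) s v ↔ rr S s (fun j => f (v j))
    rw [h.rel s (fun j => lab (v j)) (fun j => KRE_fs G S (v j) (f (v j))) (fun j => f (v j))
      (fun j => KRE_ov G h (v j) _ (hf (v j)))]
    have e : (fun (b : Bool) (i j : Fin (ar' ar s)) => pl (PMC.ls (dec G S) b) (v i) (v j)) =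
        fun b i j => (lab (v i)).isLeft = true ∧ (lab (v j)).isLeft = true ∧
          tS G S b (KRE_fs G S (v i) (f (v i))) (KRE_fs G S (v j) (f (v j))) := by
      funext b i j
      apply propext
      generalize f (v i) = wi
      generalize f (v j) = wj
      rcases v i with x | r
      · rcases v j with y | r'
        · exact ⟨fun hh => ⟨rfl, rfl, hh⟩, fun hh => hh.2.2⟩
        · exact ⟨fun hh => hh.elim, fun hh => absurd hh.2.1 (by simp [lab])⟩
      · exact ⟨fun hh => hh.elim, fun hh => absurd hh.1 (by simp [lab])⟩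
    unfold cr
    rw [e]

end

/-- [KRE] -/
theorem thm_KRE : St_KRE := fun κ ar K G ι M S h => ⟨KRE_two G h, KRE_iso G h⟩

end Pool.Agent.AAD
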