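import Pool.Agent.AAD.StC

/-!
# AAD, module KTR: translation of sentences (helper4)
-/

set_option autoImplicit false
set_option linter.unusedVariables false

namespace Pool.Agent.AAD

open FirstOrder.Language Set
open scoped FirstOrder
open Pool.Agent.PMC (Sy LP us Two)

section

variable {κ : Type} {ar : κ → ℕ} {K : Cla ar} (G : Gcd K) (ι : Type)

/-- all structures -/
private abbrev KTR_J {κ : Type} {ar : κ → ℕ} {K : Cla ar} (G : Gcd K) (ι : Type) : Type 1 :=
  Σ M : Type, (LA (ι ⊕ (G.Λ ⊕ G.Ρ)) ar).Structure M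

/-- the inclusion of the languages -/
private def KTR_hom : LA (G.Λ ⊕ G.Ρ) ar →ᴸ LA (ι ⊕ (G.Λ ⊕ G.Ρ)) ar where
  onFunction := fun {n} f => Empty.elim f
  onRelation := fun {n} R => match n, R with
    | _, .un l => (Sm.un (.inr l) : Sm (ι ⊕ (G.Λ ⊕ G.Ρ)) ar 1)
    | _, .rl s => Sm.rl s

private theorem KTR_real {M : Type} (S : (LA (ι ⊕ (G.Λ ⊕ G.Ρ)) ar).Structure M) {α : Type}
    (φ : (LA (G.Λ ⊕ G.Ρ) ar).Formula α) (v : α → M) :
    @Formula.Realize _ M S α ((KTR_hom G ι).onFormula φ) v ↔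
      @Formula.Realize _ M (rd G S) α φ v := by
  let _ := S
  let _ := rd G S
  have : (KTR_hom G ι).IsExpansionOn M := by
    constructor
    · intro n f x
      exact Empty.elim f
    · intro n R x
      match n, R with
      | _, .un l =>
        have hx : (fun _ : Fin 1 => x 0) = x := by
          funext i
          rw [Subsingleton.elim i 0]
        change S.RelMap (n := 1) (Sm.un (.inr l) : Sm (ι ⊕ (G.Λ ⊕ G.Ρ)) ar 1) x =
          S.RelMap (n := 1) (Sm.un (.inr l) : Sm (ι ⊕ (G.Λ ⊕ G.Ρ)) ar 1) fun _ => x 0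
        rw [hx]
      | _, .rl s => rfl
  exact LHom.realize_onFormula _ φ

private theorem KTR_lt (b : Bool) : UD (LA (ι ⊕ (G.Λ ⊕ G.Ρ)) ar) (J := KTR_J G ι) (fun j => j.1)
    (fun j => j.2) (Fin 2) fun j v => tS G j.2 b (v 0) (v 1) := by
  refine ⟨(KTR_hom G ι).onFormula (G.th b), fun j v => ?_⟩
  rw [KTR_real]
  have hv : v = ![v 0, v 1] := by
    funext i
    fin_cases i <;> rfl
  conv_lhs => rw [hv]
  exact Iff.rfl

private theorem KTR_main {n : ℕ} (φ : (LP ι).BoundedFormula Empty n) :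
    ∃ ψ : (LA (ι ⊕ (G.Λ ⊕ G.Ρ)) ar).Formula (Fin n),
      ∀ (M : Type) (S : (LA (ι ⊕ (G.Λ ⊕ G.Ρ)) ar).Structure M)
        (x : Fin n → {z : M // lv G S (.inl G.l₀) z}),
        @Formula.Realize _ M S (Fin n) ψ (fun i => (x i).1) ↔
          @BoundedFormula.Realize (LP ι) {z : M // lv G S (.inl G.l₀) z} (dec G S) Empty n φ
            default x := by
  have hterm : ∀ {m : ℕ} (t : (LP ι).Term (Empty ⊕ Fin m)),
      ∃ i : Fin m, t = Term.var (Sum.inr i) := by
    intro m t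
    match t with
    | .var (.inl e) => exact e.elim
    | .var (.inr i) => exact ⟨i, rfl⟩
    | .func f _ => exact Empty.elim f
  have key : ∀ {m : ℕ} (N : Type) (T : (LP ι).Structure N) (v : Fin m → N)
      (t : (LP ι).Term (Empty ⊕ Fin m)) (i : Fin m), t = Term.var (Sum.inr i) →
        @Term.realize (LP ι) N T _ (Sum.elim (default : Empty → N) v) t = v i := by
    intro m N T v t i h
    subst h
    rfl
  induction φ with
  | falsum => exact ⟨⊥, fun M S x => Iff.rfl⟩
  | @equal m t₁ t₂ =>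
      obtain ⟨i, rfl⟩ := hterm t₁
      obtain ⟨j, rfl⟩ := hterm t₂
      obtain ⟨ψ, hψ⟩ := UD_eq (B := LA (ι ⊕ (G.Λ ⊕ G.Ρ)) ar) (J := KTR_J G ι)
        (X := fun j => j.1) (S := fun j => j.2) i j
      refine ⟨ψ, fun M S x => ?_⟩
      refine (hψ ⟨M, S⟩ _).trans ?_
      change (x i).1 = (x j).1 ↔ x i = x j
      exact ⟨fun h => Subtype.ext h, fun h => congrArg Subtype.val h⟩
  | @rel m l R ts =>
      match l, R, ts with
      | _, .un u, ts =>
          obtain ⟨i, hi⟩ := hterm (ts 0)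
          obtain ⟨ψ, hψ⟩ := UD_rel (B := LA (ι ⊕ (G.Λ ⊕ G.Ρ)) ar) (J := KTR_J G ι)
            (X := fun j => j.1) (S := fun j => j.2) (n := 1)
            (Sm.un (.inl u) : Sm (ι ⊕ (G.Λ ⊕ G.Ρ)) ar 1) (fun _ => i)
          refine ⟨ψ, fun M S x => ?_⟩
          refine (hψ ⟨M, S⟩ _).trans ?_
          have h1 := key {z : M // lv G S (.inl G.l₀) z} (dec G S) x _ _ hi
          change au S (.inl u) (x i).1 ↔ au S (.inl u) (@Term.realize (LP ι) _ (dec G S) _
            (Sum.elim (default : Empty → {z : M // lv G S (.inl G.l₀) z}) x) (ts 0)).1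
          rw [h1]
      | _, .lt b, ts =>
          obtain ⟨i, hi⟩ := hterm (ts 0)
          obtain ⟨j, hj⟩ := hterm (ts 1)
          obtain ⟨ψ, hψ⟩ := UD_sub (KTR_lt G ι b) (![i, j] : Fin 2 → Fin m)
          refine ⟨ψ, fun M S x => ?_⟩
          refine (hψ ⟨M, S⟩ _).trans ?_
          have h1 := key {z : M // lv G S (.inl G.l₀) z} (dec G S) x _ _ hi
          have h2 := key {z : M // lv G S (.inl G.l₀) z} (dec G S) x _ _ hj
          change tS G S b (x i).1 (x j).1 ↔ tS G S b (@Term.realize (LP ι) _ (dec G S) _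
            (Sum.elim (default : Empty → {z : M // lv G S (.inl G.l₀) z}) x) (ts 0)).1
            (@Term.realize (LP ι) _ (dec G S) _
            (Sum.elim (default : Empty → {z : M // lv G S (.inl G.l₀) z}) x) (ts 1)).1
          rw [h1, h2]
  | @imp m φ₁ φ₂ ih₁ ih₂ =>
      obtain ⟨ψ₁, h₁⟩ := ih₁
      obtain ⟨ψ₂, h₂⟩ := ih₂
      refine ⟨ψ₁.imp ψ₂, fun M S x => ?_⟩
      exact imp_congr (h₁ M S x) (h₂ M S x)
  | @all m φ ih =>
      obtain ⟨ψ, hψ⟩ := ih
      let f : Fin (m + 1) → Fin m ⊕ Unit := Fin.lastCases (Sum.inr ()) Sum.inl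
      have hf : ∀ (N : Type) (v : Fin m ⊕ Unit → N), (fun i => v (f i)) =
          (Fin.snoc (fun i => v (Sum.inl i)) (v (Sum.inr ())) : Fin (m + 1) → N) := by
        intro N v
        funext i
        refine Fin.lastCases ?_ (fun j => ?_) i
        · rw [Fin.snoc_last]
          simp only [f, Fin.lastCases_last]
        · rw [Fin.snoc_castSucc]
          simp only [f, Fin.lastCases_castSucc]
      have h1 : UD (LA (ι ⊕ (G.Λ ⊕ G.Ρ)) ar) (J := KTR_J G ι) (fun j => j.1) (fun j => j.2)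
          (Fin (m + 1)) fun j v => @Formula.Realize _ j.1 j.2 (Fin (m + 1)) ψ v :=
        ⟨ψ, fun j v => Iff.rfl⟩
      have h2 : UD (LA (ι ⊕ (G.Λ ⊕ G.Ρ)) ar) (J := KTR_J G ι) (fun j => j.1) (fun j => j.2)
          (Fin m ⊕ Unit) fun j v => lv G j.2 (.inl G.l₀) (v (Sum.inr ())) →
            @Formula.Realize _ j.1 j.2 (Fin (m + 1)) ψ
              (Fin.snoc (fun i => v (Sum.inl i)) (v (Sum.inr ())) : Fin (m + 1) → j.1) := by
        refine UD_imp (UD_congr (UD_rel (B := LA (ι ⊕ (G.Λ ⊕ G.Ρ)) ar) (n := 1)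
          (Sm.un (.inr (.inl G.l₀)) : Sm (ι ⊕ (G.Λ ⊕ G.Ρ)) ar 1) (fun _ => Sum.inr ()))
          fun j v => Iff.rfl) ?_
        refine UD_congr (UD_sub h1 f) fun j v => ?_
        rw [hf]
      obtain ⟨χ, hχ⟩ := UD_all1 (Q := fun (j : KTR_J G ι) (v : Fin m → j.1) (y : j.1) =>
        lv G j.2 (.inl G.l₀) y → @Formula.Realize _ j.1 j.2 (Fin (m + 1)) ψ
          (Fin.snoc v y : Fin (m + 1) → j.1)) h2
      refine ⟨χ, fun M S x => ?_⟩
      refine (hχ ⟨M, S⟩ _).trans ?_
      have hsn : ∀ y : {z : M // lv G S (.inl G.l₀) z},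
          (Fin.snoc (fun i => (x i).1) y.1 : Fin (m + 1) → M) =
          fun i => ((Fin.snoc x y : Fin (m + 1) → {z : M // lv G S (.inl G.l₀) z}) i).1 := by
        intro y
        funext i
        refine Fin.lastCases ?_ (fun j => ?_) i
        · rw [Fin.snoc_last, Fin.snoc_last]
        · rw [Fin.snoc_castSucc, Fin.snoc_castSucc]
      constructor
      · intro h y
        have h3 := h y.1 y.2
        change @Formula.Realize _ M S (Fin (m + 1)) ψ
          (Fin.snoc (fun i => (x i).1) y.1 : Fin (m + 1) → M) at h3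
        rw [hsn y] at h3
        exact (hψ M S (Fin.snoc x y)).1 h3
      · intro h y hy
        have h3 := h ⟨y, hy⟩
        have h4 := (hψ M S (Fin.snoc x ⟨y, hy⟩)).2 h3
        rw [← hsn ⟨y, hy⟩] at h4
        exact h4

end

theorem thm_KTR : St_KTR := by
  intro κ ar K G ι σ
  obtain ⟨ψ, hψ⟩ := KTR_main G ι σ
  refine ⟨ψ.relabel (Fin.elim0 : Fin 0 → Empty), fun M S => ?_⟩
  have h := hψ M S (fun i => i.elim0)
  have e2 : (fun i : Fin 0 => (i.elim0 : {z : M // lv G S (.inl G.l₀) z})) =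
      (default : Fin 0 → {z : M // lv G S (.inl G.l₀) z}) := Subsingleton.elim _ _
  rw [e2] at h
  refine Iff.trans ?_ h
  let _ := S
  change (ψ.relabel (Fin.elim0 : Fin 0 → Empty)).Realize default ↔ _
  rw [Formula.realize_relabel]
  have e3 : ((default : Empty → M) ∘ (Fin.elim0 : Fin 0 → Empty)) =
      fun i : Fin 0 => (i.elim0 : {z : M // lv G S (.inl G.l₀) z}).1 := Subsingleton.elim _ _
  rw [e3]

end Pool.Agent.AAD
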