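import Pool.Agent.AAD.StA

/-!
# AAD [LS]: least supports of subgroups of `Aut(ℚ, <)`
-/

set_option autoImplicit false

namespace Pool.Agent.AAD

open Set

/-- there is a point between `u` and the elements of a finite set above `u` -/
private theorem LS_gap (S : Finset ℚ) (u : ℚ) : ∃ e, u < e ∧ ∀ b ∈ S, u < b → e < b := by
  classical
  have hne : (insert (u + 1) (S.filter fun b => u < b)).Nonempty := Finset.insert_nonempty _ _
  have hm := Finset.min'_mem _ hne
  have ham : u < (insert (u + 1) (S.filter fun b => u < b)).min' hne := by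
    rcases Finset.mem_insert.1 hm with h | h
    · rw [h]
      linarith
    · exact (Finset.mem_filter.1 h).2
  obtain ⟨e, h1, h2⟩ := exists_between ham
  exact ⟨e, h1, fun b hb hub => h2.trans_le
    (Finset.min'_le _ _ (Finset.mem_insert_of_mem (Finset.mem_filter.2 ⟨hb, hub⟩)))⟩

private theorem LS_up (hEXT : St_EXT) {H : Set Gam} (hmul : ∀ g ∈ H, ∀ h ∈ H, g * h ∈ H)
    (hinv : ∀ g ∈ H, g⁻¹ ∈ H) {A B : Finset ℚ} (hA : Fx A ⊆ H) (hB : Fx B ⊆ H) {a : ℚ}
    (haB : a ∉ B) {g : Gam} (hg : g ∈ Fx (A.erase a)) (haA : a ∈ A) (hga : a < g a) :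
    g ∈ H := by
  classical
  have hgA : ∀ c ∈ A, c ≠ a → g c = c := fun c hc hca => hg c (Finset.mem_erase.2 ⟨hca, hc⟩)
  have hno : ∀ c ∈ A, a < c → g a < c := by
    intro c hc hac
    have h2 : g a < g c := g.strictMono hac
    rwa [hgA c hc hac.ne'] at h2
  obtain ⟨e, hae, he⟩ := LS_gap (insert (g a) B) a
  have hee : e < g a := he _ (Finset.mem_insert_self _ _) hga
  have heB : ∀ b ∈ B, a < b → e < b := fun b hb => he b (Finset.mem_insert_of_mem hb)
  obtain ⟨e', hge, he'⟩ := LS_gap A (g a)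
  have heA : ∀ c ∈ A, a < c → e' < c := fun c hc hac => he' c hc (hno c hc hac)
  have hneA : ∀ c ∈ A, c ≠ e := by
    rintro c hc rfl
    exact absurd (hno c hc hae) (not_lt.2 hee.le)
  obtain ⟨h, hh⟩ := hEXT (insert e A) (fun x => if x = e then e' else x) (by
    intro x hx y hy hxy
    show (if x = e then e' else x) < (if y = e then e' else y)
    rcases Finset.mem_insert.1 hx with hx' | hx'
    · rcases Finset.mem_insert.1 hy with hy' | hy'
      · rw [hx', hy'] at hxy
        exact absurd hxy (lt_irrefl _)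
      · rw [if_pos hx', if_neg (hneA y hy')]
        rw [hx'] at hxy
        exact heA y hy' (hae.trans hxy)
    · rw [if_neg (hneA x hx')]
      rcases Finset.mem_insert.1 hy with hy' | hy'
      · rw [if_pos hy']
        rw [hy'] at hxy
        exact hxy.trans (hee.trans hge)
      · rw [if_neg (hneA y hy')]
        exact hxy)
  have hhA : ∀ c ∈ A, h c = c := by
    intro c hc
    have h1 := hh c (Finset.mem_insert_of_mem hc)
    simpa only [if_neg (hneA c hc)] using h1
  have hhe : h e = e' := by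
    have h1 := hh e (Finset.mem_insert_self _ _)
    simpa only [if_pos] using h1
  have hhH : h ∈ H := hA hhA
  -- the image of `B` avoids `[a, g a]`
  have hBi : ∀ c ∈ B.image h, c < a ∨ g a < c := by
    intro c hc
    obtain ⟨b, hb, rfl⟩ := Finset.mem_image.1 hc
    rcases lt_trichotomy b a with h1 | h1 | h1
    · left
      have h2 : h b < h a := h.strictMono h1
      rwa [hhA a haA] at h2
    · exact absurd (h1 ▸ hb) haB
    · right
      have h2 : h e < h b := h.strictMono (heB b hb h1)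
      rw [hhe] at h2
      exact hge.trans h2
  have hcon : ∀ k : Gam, k ∈ Fx (B.image h) → k ∈ H := by
    intro k hk
    have h1 : h⁻¹ * k * h ∈ Fx B := by
      intro b hb
      show h⁻¹ (k (h b)) = b
      rw [hk (h b) (Finset.mem_image_of_mem _ hb)]
      exact h.symm_apply_apply b
    have h2 : k = h * (h⁻¹ * k * h) * h⁻¹ := by group
    rw [h2]
    exact hmul _ (hmul _ hhH _ (hB h1)) _ (hinv _ hhH)
  -- move `a` to `g a`
  have hout : ∀ c ∈ B.image h ∪ A, c ≠ a → c < a ∨ g a < c := by
    intro c hc hca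
    rcases Finset.mem_union.1 hc with h1 | h1
    · exact hBi c h1
    · rcases lt_or_gt_of_ne hca with h2 | h2
      · exact Or.inl h2
      · exact Or.inr (hno c h1 h2)
  obtain ⟨k, hk⟩ := hEXT (B.image h ∪ A) (fun x => if x = a then g a else x) (by
    intro x hx y hy hxy
    show (if x = a then g a else x) < (if y = a then g a else y)
    by_cases h1 : x = a
    · have h2 : y ≠ a := by
        rintro rfl
        exact absurd h1 hxy.ne
      rw [if_pos h1, if_neg h2]
      rcases hout y hy h2 with h3 | h3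
      · rw [h1] at hxy
        exact absurd h3 (not_lt.2 hxy.le)
      · exact h3
    · rw [if_neg h1]
      by_cases h2 : y = a
      · rw [if_pos h2]
        rw [h2] at hxy
        exact hxy.trans hga
      · rw [if_neg h2]
        exact hxy)
  have hk1 : ∀ c ∈ B.image h ∪ A, c ≠ a → k c = c := by
    intro c hc hca
    have h1 := hk c hc
    simpa only [if_neg hca] using h1
  have hk2 : k a = g a := by
    have h1 := hk a (Finset.mem_union_right _ haA)
    simpa only [if_pos] using h1
  have hkH : k ∈ H := by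
    refine hcon k fun c hc => hk1 c (Finset.mem_union_left _ hc) ?_
    rintro rfl
    rcases hBi _ hc with h1 | h1
    · exact lt_irrefl _ h1
    · exact absurd h1 (not_lt.2 hga.le)
  have hkg : k⁻¹ * g ∈ H := by
    refine hA fun c hc => ?_
    show k⁻¹ (g c) = c
    by_cases hca : c = a
    · rw [hca, ← hk2]
      exact k.symm_apply_apply a
    · rw [hgA c hc hca]
      have h1 := hk1 c (Finset.mem_union_right _ hc) hca
      have h2 : k⁻¹ (k c) = c := k.symm_apply_apply c
      rwa [h1] at h2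
  have h3 : g = k * (k⁻¹ * g) := by group
  rw [h3]
  exact hmul _ hkH _ hkg

private theorem LS_step (hEXT : St_EXT) {H : Set Gam} (hmul : ∀ g ∈ H, ∀ h ∈ H, g * h ∈ H)
    (hinv : ∀ g ∈ H, g⁻¹ ∈ H) {A B : Finset ℚ} (hA : Fx A ⊆ H) (hB : Fx B ⊆ H) {a : ℚ}
    (haA : a ∈ A) (haB : a ∉ B) : Fx (A.erase a) ⊆ H := by
  intro g hg
  rcases lt_trichotomy (g a) a with h1 | h1 | h1
  · have h2 : g⁻¹ ∈ Fx (A.erase a) := by
      intro c hc
      have h3 : g⁻¹ (g c) = c := g.symm_apply_apply c
      rwa [hg c hc] at h3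
    have h3 : a < g⁻¹ a := by
      have h4 : g⁻¹ (g a) < g⁻¹ a := (g⁻¹).strictMono h1
      have h5 : g⁻¹ (g a) = a := g.symm_apply_apply a
      rwa [h5] at h4
    have h4 := hinv _ (LS_up hEXT hmul hinv hA hB haB h2 haA h3)
    rwa [inv_inv] at h4
  · refine hA fun c hc => ?_
    by_cases hca : c = a
    · rw [hca, h1]
    · exact hg c (Finset.mem_erase.2 ⟨hca, hc⟩)
  · exact LS_up hEXT hmul hinv hA hB haB hg haA h1

/-- **[LS]** -/
theorem thm_LS (hEXT : St_EXT) : St_LS := by
  classical
  intro H hone hmul hinv hex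
  have hdef : ls H = hex.choose.filter (fun a => ∀ A : Finset ℚ, Fx A ⊆ H → a ∈ A) := by
    unfold ls
    rw [dif_pos hex]
  have hmem : ∀ a : ℚ, a ∈ ls H ↔ ∀ A : Finset ℚ, Fx A ⊆ H → a ∈ A := by
    intro a
    rw [hdef, Finset.mem_filter]
    exact ⟨fun h => h.2, fun h => ⟨h _ hex.choose_spec, h⟩⟩
  refine ⟨?_, fun A hA a ha => (hmem a).1 ha A hA⟩
  -- a support of least size
  obtain ⟨A, hA, hmin⟩ : ∃ A : Finset ℚ, Fx A ⊆ H ∧ ∀ B : Finset ℚ, Fx B ⊆ H → A.card ≤ B.card := by
    have hex' : ∃ n : ℕ, ∃ A : Finset ℚ, Fx A ⊆ H ∧ A.card = n := ⟨_, _, hex.choose_spec, rfl⟩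
    obtain ⟨A, h1, h2⟩ := Nat.find_spec hex'
    exact ⟨A, h1, fun B hB => h2 ▸ Nat.find_min' hex' ⟨B, hB, rfl⟩⟩
  have hsub : A ⊆ ls H := by
    intro a ha
    rw [hmem]
    intro B hB
    by_contra haB
    have h1 := hmin _ (LS_step hEXT hmul hinv hA hB ha haB)
    have h2 := Finset.card_erase_lt_of_mem ha
    exact absurd h1 (not_le.2 h2)
  exact fun g hg => hA fun a ha => hg a (hsub ha)

end Pool.Agent.AAD
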