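import Pool.Agent.AAD.StA

/-! AAD, module LSC: least supports of conjugate sets. -/

set_option autoImplicit false
set_option linter.unusedVariables false

namespace Pool.Agent.AAD

theorem LSC_mem (H : Set Gam) (hH : ∃ A : Finset ℚ, Fx A ⊆ H) (a : ℚ) :
    a ∈ ls H ↔ ∀ A : Finset ℚ, Fx A ⊆ H → a ∈ A := by
  classical
  unfold ls
  rw [dif_pos hH, Finset.mem_filter]
  exact ⟨fun h => h.2, fun h => ⟨h _ hH.choose_spec, h⟩⟩

theorem LSC_fx (A : Finset ℚ) (g h : Gam) :
    h ∈ Fx (A.image g) ↔ g⁻¹ * h * g ∈ Fx A := by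
  constructor
  · intro hh a ha
    have h1 : h (g a) = g a := hh (g a) (Finset.mem_image_of_mem _ ha)
    show g.symm (h (g a)) = a
    rw [h1]
    exact g.symm_apply_apply a
  · intro hh b hb
    obtain ⟨a, ha, rfl⟩ := Finset.mem_image.1 hb
    have h1 : g.symm (h (g a)) = a := hh a ha
    have h2 : g (g.symm (h (g a))) = g a := congrArg g h1
    rw [g.apply_symm_apply] at h2
    exact h2

theorem LSC_sub (H H' : Set Gam) (g : Gam) (hc : ∀ h, h ∈ H' ↔ g⁻¹ * h * g ∈ H)
    (A : Finset ℚ) : Fx A ⊆ H ↔ Fx (A.image g) ⊆ H' := by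
  constructor
  · intro hA h hh
    exact (hc h).2 (hA ((LSC_fx A g h).1 hh))
  · intro hA h hh
    have h1 : g⁻¹ * (g * h * g⁻¹) * g = h := by group
    have h2 : g * h * g⁻¹ ∈ Fx (A.image g) := by
      rw [LSC_fx, h1]
      exact hh
    have h3 := (hc _).1 (hA h2)
    rw [h1] at h3
    exact h3

theorem thm_LSC : St_LSC := by
  intro H H' g hc hH
  classical
  obtain ⟨A₀, hA₀⟩ := hH
  have hH : ∃ A : Finset ℚ, Fx A ⊆ H := ⟨A₀, hA₀⟩
  have hH' : ∃ A : Finset ℚ, Fx A ⊆ H' := ⟨A₀.image g, (LSC_sub H H' g hc A₀).1 hA₀⟩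
  ext b
  rw [Finset.mem_image, LSC_mem H' hH']
  constructor
  · intro hb
    refine ⟨g.symm b, ?_, g.apply_symm_apply b⟩
    rw [LSC_mem H hH]
    intro A hA
    obtain ⟨a, ha, hab⟩ := Finset.mem_image.1 (hb _ ((LSC_sub H H' g hc A).1 hA))
    rw [← hab, g.symm_apply_apply]
    exact ha
  · rintro ⟨a, ha, rfl⟩ B hB
    rw [LSC_mem H hH] at ha
    have h1 : (B.image g.symm).image g = B := by
      rw [Finset.image_image]
      have h2 : (g ∘ g.symm : ℚ → ℚ) = id := by
        funext x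
        exact g.apply_symm_apply x
      rw [h2, Finset.image_id]
    have h3 : Fx (B.image g.symm) ⊆ H := by
      rw [LSC_sub H H' g hc, h1]
      exact hB
    obtain ⟨c, hc1, hc2⟩ := Finset.mem_image.1 (ha _ h3)
    rw [← hc2, g.apply_symm_apply]
    exact hc1

end Pool.Agent.AAD
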