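import Pool.Agent.AAD.StB

/-!
AAD, module MRG: merging (helper77).
-/

set_option autoImplicit false
set_option linter.unusedVariables false

namespace Pool.Agent.AAD

open FirstOrder.Language Set
open scoped FirstOrder

section

variable {κ : Type} {ar : κ → ℕ} {K : Cla ar} (P : PS K) {E' : Set (Fin P.N)}

/-- the matching of two levels -/
private def MRG_mt (l l' : LvE P E') (m : LL) (v : Fin 2 → XE P E' m.M) : Prop :=
  ∃ μ, v 0 = .inl (μ, l) ∧ v 1 = .inl (μ, l')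

private theorem MRG_lbl {α : Type} (a : α) (l : LvE P E' ⊕ Rf P) :
    UDE P E' α fun m v => lbl P (v a) = l := by
  have h : UDE P E' α fun m v => @Structure.RelMap (LA (LvE P E' ⊕ Rf P) ar) (XE P E' m.M)
      (cdE P E' m.M m.lt) 1 (Sm.un l) fun _ => v a :=
    UD_rel (B := LA (LvE P E' ⊕ Rf P) ar) (X := fun m : LL => XE P E' m.M)
      (S := fun m : LL => cdE P E' m.M m.lt) (Sm.un l : (LA (LvE P E' ⊕ Rf P) ar).Relations 1)
      fun _ => a
  exact h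

private theorem MRG_symm (l l' : LvE P E') (h : UDE P E' (Fin 2) (MRG_mt P l l')) :
    UDE P E' (Fin 2) (MRG_mt P l' l) := by
  have h1 := UD_sub h (![1, 0] : Fin 2 → Fin 2)
  refine UD_congr h1 fun m v => ?_
  constructor
  · rintro ⟨μ, h2, h3⟩
    exact ⟨μ, h3, h2⟩
  · rintro ⟨μ, h2, h3⟩
    exact ⟨μ, h3, h2⟩

private theorem MRG_trans (l l' l'' : LvE P E') (h : UDE P E' (Fin 2) (MRG_mt P l l'))
    (h' : UDE P E' (Fin 2) (MRG_mt P l' l'')) : UDE P E' (Fin 2) (MRG_mt P l l'') := by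
  have h1 := UD_sub h (![Sum.inl 0, Sum.inr ()] : Fin 2 → Fin 2 ⊕ Unit)
  have h2 := UD_sub h' (![Sum.inr (), Sum.inl 1] : Fin 2 → Fin 2 ⊕ Unit)
  refine UD_congr (UD_ex (UD_and h1 h2)) fun m v => ?_
  constructor
  · rintro ⟨w, ⟨μ, h3, h4⟩, ⟨μ', h5, h6⟩⟩
    have h3' : v 0 = .inl (μ, l) := h3
    have h4' : w () = .inl (μ, l') := h4
    have h5' : w () = .inl (μ', l') := h5
    have h6' : v 1 = .inl (μ', l'') := h6
    rw [h4'] at h5'
    have h7 : μ = μ' := congrArg Prod.fst (Sum.inl_injective h5')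
    subst h7
    exact ⟨μ, h3', h6'⟩
  · rintro ⟨μ, h3, h4⟩
    exact ⟨fun _ => .inl (μ, l'), ⟨μ, h3, rfl⟩, ⟨μ, rfl, h4⟩⟩

open Classical in
/-- the level of the kind `u` with displacement `d` on the support -/
private noncomputable def MRG_nd (u : Fin P.N) (hu : u ∈ E') (hs : ∃ i, P.sp u i)
    (d : Fin P.k → Fin 3) : LvE P E' :=
  ⟨(u, fun i => if P.sp u i then d i else 1), hu, hs, fun i hi => if_neg hi⟩

open Classical in
/-- the reference of kind `u` at the position `r` on the support -/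
private noncomputable def MRG_rf (u : Fin P.N) (r : Fin P.k → Bool × Fin P.N) : Rf P :=
  ⟨(u, fun i => if P.sp u i then r i else (false, P.z₁)), fun i hi => if_neg hi⟩

/-- levels of kinds in `E` -/
private theorem MRG_in (hRLV : St_RLV) {E : Set (Fin P.N)} (hEE : E ⊆ E') (hT : Tight P E)
    (l l' : LvE P E') (hl : l.1.1 ∈ E) (hl' : l'.1.1 ∈ E) :
    UDE P E' (Fin 2) (MRG_mt P l l') := by
  have h1 := hRLV κ ar K P E E' hEE (Fin 2) _
    (hT ⟨l.1, hl, l.2.2⟩ ⟨l'.1, hl', l'.2.2⟩)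
  refine UD_congr h1 fun m v => ?_
  constructor
  · rintro ⟨w, h2, μ, h3, h4⟩
    refine ⟨μ, ?_, ?_⟩
    · rw [h2 0, h3]
      rfl
    · rw [h2 1, h4]
      rfl
  · rintro ⟨μ, h3, h4⟩
    refine ⟨![.inl (μ, ⟨l.1, hl, l.2.2⟩), .inl (μ, ⟨l'.1, hl', l'.2.2⟩)], ?_, μ, rfl, rfl⟩
    intro a
    fin_cases a
    · exact h3
    · exact h4

end

section

variable {κ : Type} {ar : κ → ℕ} {K : Cla ar} (P : PS K) {E S₀ : Set (Fin P.N)}
  (hE : ∀ u ∈ E, ∃ i, P.sp u i) (hS : ∀ u ∈ S₀, ∃ i, P.sp u i) (hz : P.z₁ ∈ E)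

/-- the level of `z₁` without displacement -/
private noncomputable def MRG_lz : LvE P (E ∪ S₀) :=
  MRG_nd P P.z₁ (Or.inl hz) (hE _ hz) fun _ => 1

/-- the level of `u` without displacement -/
private noncomputable def MRG_lu (u : S₀) : LvE P (E ∪ S₀) :=
  MRG_nd P u.1 (Or.inr u.2) (hS _ u.2) fun _ => 1

/-- the data -/
private def MRG_G (m : LL) (v : Option S₀ → XE P (E ∪ S₀) m.M) (μ : m.M)
    (ν : Fin P.N → m.M) : Prop :=
  v none = .inl (μ, MRG_lz P hE hz) ∧ ∀ u : S₀, v (some u) = .inl (ν u.1, MRG_lu P hS u)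

private theorem MRG_G_ud : UDE P (E ∪ S₀) (Option S₀) fun m v =>
    ∃ μ ν, MRG_G P hE hS hz m v μ ν := by
  have h1 := MRG_lbl P (E' := E ∪ S₀) (none : Option S₀) (.inl (MRG_lz P hE hz))
  have h2 : UDE P (E ∪ S₀) (Option S₀) fun m v =>
      ∀ u : S₀, lbl P (v (some u)) = .inl (MRG_lu P hS u) :=
    UD_fin fun u => MRG_lbl P (E' := E ∪ S₀) (some u) (.inl (MRG_lu P hS u))
  refine UD_congr (UD_and h1 h2) fun m v => ?_
  have key : ∀ (x : XE P (E ∪ S₀) m.M) (l : LvE P (E ∪ S₀)), lbl P x = .inl l →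
      ∃ μ, x = .inl (μ, l) := by
    intro x l hx
    rcases x with ⟨μ, l'⟩ | r
    · have h3 : l' = l := Sum.inl_injective hx
      exact ⟨μ, by rw [h3]⟩
    · exact absurd hx (by intro h4; cases h4)
  constructor
  · rintro ⟨h3, h4⟩
    obtain ⟨μ, hμ⟩ := key _ _ h3
    choose x hx using fun u : S₀ => key _ _ (h4 u)
    classical
    refine ⟨μ, fun u => if h : u ∈ S₀ then x ⟨u, h⟩ else μ, hμ, ?_⟩
    intro u
    have h5 : (if h : u.1 ∈ S₀ then x ⟨u.1, h⟩ else μ) = x u := dif_pos u.2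
    rw [hx u]
    show Sum.inl (x u, _) = Sum.inl ((if h : u.1 ∈ S₀ then x ⟨u.1, h⟩ else μ), _)
    rw [h5]
  · rintro ⟨μ, ν, h3, h4⟩
    refine ⟨?_, fun u => ?_⟩
    · rw [h3]
      rfl
    · rw [h4 u]
      rfl

/-- uniqueness of the data -/
private theorem MRG_G_unq (m : LL) (v : Option S₀ → XE P (E ∪ S₀) m.M) (μ μ' : m.M)
    (ν ν' : Fin P.N → m.M) (h : MRG_G P hE hS hz m v μ ν) (h' : MRG_G P hE hS hz m v μ' ν') :
    μ = μ' ∧ ∀ u ∈ S₀, ν u = ν' u := by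
  constructor
  · have h1 := h.1.symm.trans h'.1
    exact congrArg Prod.fst (Sum.inl_injective h1)
  · intro u hu
    have h1 := (h.2 ⟨u, hu⟩).symm.trans (h'.2 ⟨u, hu⟩)
    exact congrArg Prod.fst (Sum.inl_injective h1)

private theorem MRG_Fas_congr (M : Type) (μ : M) (ν ν' : Fin P.N → M)
    (h : ∀ u ∈ S₀, ν u = ν' u) (d : Fin P.k → Fin 3) (e : Fin P.N → Fin P.k → Fin 3)
    (ρ : Fin P.N → Fin P.k → Bool × Fin P.N) :
    Fas P E S₀ μ ν d e ρ = Fas P E S₀ μ ν' d e ρ := by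
  funext u i
  unfold Fas
  split_ifs with h1 h2
  · rfl
  · rw [h u h2]
  · rfl

variable (d : Fin P.k → Fin 3) (e : Fin P.N → Fin P.k → Fin 3)
  (ρ : Fin P.N → Fin P.k → Bool × Fin P.N)

open Classical in
/-- the element of kind `u` -/
private noncomputable def MRG_tg (M : Type) (μ : M) (ν : Fin P.N → M) (u : Fin P.N) :
    XE P (E ∪ S₀) M :=
  if h : u ∈ E then .inl (μ, MRG_nd P u (Or.inl h) (hE u h) d)
  else if h' : u ∈ S₀ then .inl (ν u, MRG_nd P u (Or.inr h') (hS u h') (e u))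
  else .inr (MRG_rf P u (ρ u))

private theorem MRG_tg_kd (M : Type) (μ : M) (ν : Fin P.N → M) (u : Fin P.N) :
    kd P (MRG_tg P hE hS d e ρ M μ ν u) = u := by
  unfold MRG_tg
  split_ifs with h1 h2
  · rfl
  · rfl
  · rfl

open Classical in
private theorem MRG_tg_pp (M : Type) (μ : M) (ν : Fin P.N → M) (u : Fin P.N) (i : Fin P.k)
    (hi : P.sp u i) :
    pp P (MRG_tg P hE hS d e ρ M μ ν u) i = Fas P E S₀ μ ν d e ρ u i := by
  unfold MRG_tg Fas
  split_ifs with h1 h2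
  · show Pos.md μ (if P.sp u i then d i else 1) = Pos.md μ (d i)
    rw [if_pos hi]
  · show Pos.md (ν u) (if P.sp u i then e u i else 1) = Pos.md (ν u) (e u i)
    rw [if_pos hi]
  · show rfp M (if P.sp u i then ρ u i else (false, P.z₁)) = rfp M (ρ u i)
    rw [if_pos hi]

private theorem MRG_tg_congr (M : Type) (μ : M) (ν ν' : Fin P.N → M)
    (h : ∀ u ∈ S₀, ν u = ν' u) (u : Fin P.N) :
    MRG_tg P hE hS d e ρ M μ ν u = MRG_tg P hE hS d e ρ M μ ν' u := by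
  unfold MRG_tg
  split_ifs with h1 h2
  · rfl
  · rw [h u h2]
  · rfl

/-- one coordinate -/
private theorem MRG_one (hRLV : St_RLV) (hADJ : St_ADJ) (hT : Tight P E) {β : Type} (j : β)
    (u : Fin P.N) :
    UDE P (E ∪ S₀) (Option S₀ ⊕ β) fun m v => ∃ μ ν,
      MRG_G P hE hS hz m (fun a => v (Sum.inl a)) μ ν ∧
      v (Sum.inr j) = MRG_tg P hE hS d e ρ m.M μ ν u := by
  have hG := UD_sub (MRG_G_ud P hE hS hz) (Sum.inl : Option S₀ → Option S₀ ⊕ β)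
  by_cases h1 : u ∈ E
  · have h2 := UD_sub (MRG_in P hRLV (E' := E ∪ S₀) subset_union_left hT (MRG_lz P hE hz)
      (MRG_nd P u (Or.inl h1) (hE u h1) d) hz h1)
      (![Sum.inl none, Sum.inr j] : Fin 2 → Option S₀ ⊕ β)
    refine UD_congr (UD_and hG h2) fun m v => ?_
    have htg : ∀ μ ν, MRG_tg P hE hS d e ρ m.M μ ν u =
        .inl (μ, MRG_nd P u (Or.inl h1) (hE u h1) d) := fun μ ν => dif_pos h1
    constructor
    · rintro ⟨⟨μ, ν, h3⟩, μ', h4, h5⟩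
      have h4' : v (Sum.inl none) = .inl (μ', MRG_lz P hE hz) := h4
      have h5' : v (Sum.inr j) = .inl (μ', MRG_nd P u (Or.inl h1) (hE u h1) d) := h5
      have h6 := h3.1.symm.trans h4'
      have h7 : μ = μ' := congrArg Prod.fst (Sum.inl_injective h6)
      refine ⟨μ, ν, h3, ?_⟩
      rw [htg, h7]
      exact h5'
    · rintro ⟨μ, ν, h3, h4⟩
      rw [htg] at h4
      exact ⟨⟨μ, ν, h3⟩, μ, h3.1, h4⟩
  · by_cases h2 : u ∈ S₀
    · have h3 := UD_sub (hADJ κ ar K P (E ∪ S₀) (MRG_lu P hS ⟨u, h2⟩)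
        (MRG_nd P u (Or.inr h2) (hS u h2) (e u)) rfl)
        (![Sum.inl (some ⟨u, h2⟩), Sum.inr j] : Fin 2 → Option S₀ ⊕ β)
      refine UD_congr (UD_and hG h3) fun m v => ?_
      have htg : ∀ μ ν, MRG_tg P hE hS d e ρ m.M μ ν u =
          .inl (ν u, MRG_nd P u (Or.inr h2) (hS u h2) (e u)) := fun μ ν => by
        unfold MRG_tg
        rw [dif_neg h1, dif_pos h2]
      constructor
      · rintro ⟨⟨μ, ν, h4⟩, μ', h5, h6⟩
        have h5' : v (Sum.inl (some ⟨u, h2⟩)) = .inl (μ', MRG_lu P hS ⟨u, h2⟩) := h5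
        have h6' : v (Sum.inr j) = .inl (μ', MRG_nd P u (Or.inr h2) (hS u h2) (e u)) := h6
        have h7 := (h4.2 ⟨u, h2⟩).symm.trans h5'
        have h8 : ν u = μ' := congrArg Prod.fst (Sum.inl_injective h7)
        refine ⟨μ, ν, h4, ?_⟩
        rw [htg, h8]
        exact h6'
      · rintro ⟨μ, ν, h4, h5⟩
        rw [htg] at h5
        exact ⟨⟨μ, ν, h4⟩, ν u, h4.2 ⟨u, h2⟩, h5⟩
    · have h3 := MRG_lbl P (E' := E ∪ S₀) (Sum.inr j : Option S₀ ⊕ β) (.inr (MRG_rf P u (ρ u)))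
      refine UD_congr (UD_and hG h3) fun m v => ?_
      have htg : ∀ μ ν, MRG_tg P hE hS d e ρ m.M μ ν u = .inr (MRG_rf P u (ρ u)) :=
        fun μ ν => by
          unfold MRG_tg
          rw [dif_neg h1, dif_neg h2]
      constructor
      · rintro ⟨⟨μ, ν, h4⟩, h5⟩
        refine ⟨μ, ν, h4, ?_⟩
        rw [htg]
        rcases hv : v (Sum.inr j) with ⟨x, l⟩ | r
        · rw [hv] at h5
          exact absurd h5 (by intro h6; cases h6)
        · rw [hv] at h5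
          have h6 : r = MRG_rf P u (ρ u) := Sum.inr_injective h5
          rw [h6]
      · rintro ⟨μ, ν, h4, h5⟩
        refine ⟨⟨μ, ν, h4⟩, ?_⟩
        rw [h5, htg]
        rfl

/-- the truth values -/
private theorem MRG_tv (hTMI : St_TMI) (hRLV : St_RLV) (hADJ : St_ADJ) (hT : Tight P E)
    (s : Option κ) (t : Fin (ar' ar s) → Fin P.N) :
    UDE P (E ∪ S₀) (Option S₀) fun m v => ∃ μ ν, MRG_G P hE hS hz m v μ ν ∧
      TrM P m.lt s t (fun j => Fas P E S₀ μ ν d e ρ (t j)) := by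
  have h1 : UDE P (E ∪ S₀) (Option S₀ ⊕ Fin (ar' ar s)) fun m v => ∀ j : Fin (ar' ar s),
      ∃ μ ν, MRG_G P hE hS hz m (fun a => v (Sum.inl a)) μ ν ∧
      v (Sum.inr j) = MRG_tg P hE hS d e ρ m.M μ ν (t j) :=
    UD_fin fun j => MRG_one P hE hS hz d e ρ hRLV hADJ hT j (t j)
  have h2 : UDE P (E ∪ S₀) (Option S₀ ⊕ Fin (ar' ar s)) fun m v =>
      @Structure.RelMap (LA (LvE P (E ∪ S₀) ⊕ Rf P) ar) (XE P (E ∪ S₀) m.M)
        (cdE P (E ∪ S₀) m.M m.lt) (ar' ar s) (Sm.rl s) fun j => v (Sum.inr j) :=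
    UD_rel (B := LA (LvE P (E ∪ S₀) ⊕ Rf P) ar) (X := fun m : LL => XE P (E ∪ S₀) m.M)
      (S := fun m : LL => cdE P (E ∪ S₀) m.M m.lt)
      (Sm.rl s : (LA (LvE P (E ∪ S₀) ⊕ Rf P) ar).Relations (ar' ar s)) fun j => Sum.inr j
  refine UD_congr (UD_and (MRG_G_ud P hE hS hz) (UD_ex (UD_and h1 h2))) fun m v => ?_
  have key : ∀ μ ν, TrM P m.lt s (fun j => kd P (MRG_tg P hE hS d e ρ m.M μ ν (t j)))
      (fun j => pp P (MRG_tg P hE hS d e ρ m.M μ ν (t j))) ↔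
      TrM P m.lt s t (fun j => Fas P E S₀ μ ν d e ρ (t j)) := by
    intro μ ν
    have hk : (fun j => kd P (MRG_tg P hE hS d e ρ m.M μ ν (t j))) = t :=
      funext fun j => MRG_tg_kd P hE hS d e ρ m.M μ ν (t j)
    rw [hk]
    refine (hTMI κ ar K P m s t _).2 m _ ?_
    intro j j' i hj hj'
    rw [MRG_tg_pp P hE hS d e ρ m.M μ ν (t j) i hj, MRG_tg_pp P hE hS d e ρ m.M μ ν (t j') i hj']
  constructor
  · rintro ⟨⟨μ, ν, h3⟩, w, h4, h5⟩
    refine ⟨μ, ν, h3, (key μ ν).1 ?_⟩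
    have hw : w = fun j => MRG_tg P hE hS d e ρ m.M μ ν (t j) := by
      funext j
      obtain ⟨μ', ν', h6, h7⟩ := h4 j
      have h8 := MRG_G_unq P hE hS hz m v μ μ' ν ν' h3 h6
      have h9 : w j = MRG_tg P hE hS d e ρ m.M μ' ν' (t j) := h7
      rw [h9, ← h8.1]
      exact (MRG_tg_congr P hE hS d e ρ m.M μ ν ν' h8.2 (t j)).symm
    have h10 : TrM P m.lt s (fun j => kd P (w j)) (fun j => pp P (w j)) := h5
    rw [hw] at h10
    exact h10
  · rintro ⟨μ, ν, h3, h4⟩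
    refine ⟨⟨μ, ν, h3⟩, fun j => MRG_tg P hE hS d e ρ m.M μ ν (t j), fun j => ⟨μ, ν, h3, rfl⟩, ?_⟩
    exact (key μ ν).2 h4

/-- the relation `NN` -/
private theorem MRG_nn (hTMI : St_TMI) (hRLV : St_RLV) (hADJ : St_ADJ) (hT : Tight P E)
    (s : Option κ) (t : Fin (ar' ar s) → Fin P.N) :
    UDE P (E ∪ S₀) (Option S₀) fun m v => ∃ μ ν, MRG_G P hE hS hz m v μ ν ∧
      NN P m.lt E S₀ ρ s t μ ν := by
  have h1 : UDE P (E ∪ S₀) (Option S₀) fun m v =>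
      ∃ x : (Fin P.k → Fin 3) × (Fin P.k → Fin 3) × (Fin P.N → Fin P.k → Fin 3),
        ¬ ((∃ μ ν, MRG_G P hE hS hz m v μ ν ∧
            TrM P m.lt s t (fun j => Fas P E S₀ μ ν x.1 x.2.2 ρ (t j))) ↔
          ∃ μ ν, MRG_G P hE hS hz m v μ ν ∧
            TrM P m.lt s t (fun j => Fas P E S₀ μ ν x.2.1 x.2.2 ρ (t j))) :=
    UD_fex fun x => UD_not (UD_iff (MRG_tv P hE hS hz x.1 x.2.2 ρ hTMI hRLV hADJ hT s t)
      (MRG_tv P hE hS hz x.2.1 x.2.2 ρ hTMI hRLV hADJ hT s t))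
  refine UD_congr (UD_and (MRG_G_ud P hE hS hz) h1) fun m v => ?_
  have key : ∀ μ ν, MRG_G P hE hS hz m v μ ν → ∀ d e,
      ((∃ μ ν, MRG_G P hE hS hz m v μ ν ∧
        TrM P m.lt s t (fun j => Fas P E S₀ μ ν d e ρ (t j))) ↔
      TrM P m.lt s t (fun j => Fas P E S₀ μ ν d e ρ (t j))) := by
    intro μ ν h2 d e
    constructor
    · rintro ⟨μ', ν', h3, h4⟩
      have h5 := MRG_G_unq P hE hS hz m v μ μ' ν ν' h2 h3
      rw [← h5.1] at h4
      rw [MRG_Fas_congr P m.M μ ν ν' h5.2 d e ρ]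
      exact h4
    · intro h3
      exact ⟨μ, ν, h2, h3⟩
  constructor
  · rintro ⟨⟨μ, ν, h2⟩, ⟨d, d', e⟩, h3⟩
    refine ⟨μ, ν, h2, d, d', e, ?_⟩
    intro h4
    apply h3
    rw [key μ ν h2 d e, key μ ν h2 d' e]
    exact h4
  · rintro ⟨μ, ν, h2, d, d', e, h3⟩
    refine ⟨⟨μ, ν, h2⟩, (d, d', e), ?_⟩
    intro h4
    apply h3
    rw [key μ ν h2 d e, key μ ν h2 d' e] at h4
    exact h4

end

/-- [MRG] -/
theorem thm_MRG (hTMI : St_TMI) (hADJ : St_ADJ) (hRLV : St_RLV) : St_MRG := by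
  intro κ ar K P E S₀ ρ s t hz hE hT hdis hS hN
  -- the level of `z₁` is matched with the levels of `S₀` without displacement
  have hC : ∀ u₀ : S₀, UDE P (E ∪ S₀) (Fin 2)
      (MRG_mt P (MRG_lz P hE hz) (MRG_lu P hS u₀)) := by
    intro u₀
    have h1 := MRG_nn P hE hS hz ρ hTMI hRLV hADJ hT s t
    have h2 := UD_sub h1 (Sum.inr : Option S₀ → Fin 2 ⊕ Option S₀)
    have h3 : UDE P (E ∪ S₀) (Fin 2 ⊕ Option S₀) fun m v =>
        v (Sum.inl 0) = v (Sum.inr none) := UD_eq _ _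
    have h4 : UDE P (E ∪ S₀) (Fin 2 ⊕ Option S₀) fun m v =>
        v (Sum.inl 1) = v (Sum.inr (some u₀)) := UD_eq _ _
    refine UD_congr (UD_ex (UD_and h2 (UD_and h3 h4))) fun m v => ?_
    constructor
    · rintro ⟨w, ⟨μ, ν, h5, h6⟩, h7, h8⟩
      have h9 := (hN m μ ν).1 h6 u₀.1 u₀.2
      have h7' : v 0 = w none := h7
      have h8' : v 1 = w (some u₀) := h8
      refine ⟨μ, ?_, ?_⟩
      · rw [h7']
        exact h5.1
      · rw [h8', ← h9]
        exact h5.2 u₀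
    · rintro ⟨μ, h5, h6⟩
      let w : Option S₀ → XE P (E ∪ S₀) m.M := fun o => match o with
        | none => .inl (μ, MRG_lz P hE hz)
        | some u => .inl (μ, MRG_lu P hS u)
      refine ⟨w, ⟨μ, fun _ => μ, ⟨rfl, fun u => rfl⟩, (hN m μ _).2 fun u _ => rfl⟩, h5, h6⟩
  -- every level is matched with the level of `z₁`
  have hD : ∀ l : LvE P (E ∪ S₀), UDE P (E ∪ S₀) (Fin 2) (MRG_mt P (MRG_lz P hE hz) l) := by
    intro l
    rcases l.2.1 with h1 | h1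
    · exact MRG_in P hRLV subset_union_left hT _ _ hz h1
    · exact MRG_trans P _ _ _ (hC ⟨l.1.1, h1⟩)
        (hADJ κ ar K P (E ∪ S₀) (MRG_lu P hS ⟨l.1.1, h1⟩) l rfl)
  intro l l'
  exact MRG_trans P _ _ _ (MRG_symm P _ _ (hD l)) (hD l')

end Pool.Agent.AAD
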