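import Pool.Agent.AAD.StA

/-!
AAD, module MUP: configurations which move up (helper77).
-/

set_option autoImplicit false
set_option linter.unusedVariables false

namespace Pool.Agent.AAD

open FirstOrder.Language Set
open scoped FirstOrder

section

variable {L : FirstOrder.Language.{0, 0}} {C : Type} [L.Structure C] [MulAction Gam C]

/-- an element which is moved has a core -/
private theorem MUP_ne (hSU : St_SU) (hC : Cor L C) (x : C) (g : Gam) (h : g • x ≠ x) :
    (co L x).Nonempty := by
  apply hC.ne
  by_contra h0
  rw [Finset.not_nonempty_iff_eq_empty] at h0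
  apply h
  have h1 := (hSU C hC.ctx.fin x).2.2.2 g 1 (by
    intro a ha
    rw [h0] at ha
    exact absurd ha (Finset.notMem_empty a))
  rw [h1, one_smul]

/-- if `g` fixes `x` it fixes the core -/
private theorem MUP_fix (hCF : St_CF) (hC : Cor L C) (x : C) (g : Gam) (h : g • x = x) (b : ℚ)
    (hb : b ∈ co L x) : g b = b := by
  have h1 := (hCF L C hC.ctx x).2.2.1 g
  rw [h] at h1
  have h2 : g b ∈ co L x := by
    rw [h1]
    exact Finset.mem_image_of_mem _ hb
  exact hC.one x _ h2 _ hb

/-- same core point and linked after a translation: linked -/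
private theorem MUP_lnk (hCF : St_CF) (hC : Cor L C) (x y : C) (h : Gam) (hl : Lnk L (h • x) y)
    (a : ℚ) (ha : a ∈ co L x) (hha : h a = a) : Lnk L x y := by
  have h1 : Lnk L (h • x) x := by
    apply (hCF L C hC.ctx x).2.1
    intro b hb
    rw [hC.one x b hb a ha]
    exact hha
  exact hC.equ.trans (hC.equ.symm h1) hl

/-- the core of a translate -/
private theorem MUP_core (hCF : St_CF) (hC : Cor L C) (x y : C) (h : Gam)
    (hl : Lnk L (h • x) y) (a : ℚ) (ha : a ∈ co L x) : h a ∈ co L y := by
  rw [← (hCF L C hC.ctx (h • x)).2.2.2 y hl, (hCF L C hC.ctx x).2.2.1 h]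
  exact Finset.mem_image_of_mem _ ha

/-- the positions of the core of the moved class are avoided -/
private theorem MUP_avoid (hCF : St_CF) (hC : Cor L C) {N : ℕ} (c : Fin N → C)
    (g : Fin N → Gam) (hcfg : CfgI L c g) (i : Fin N) (a : ℚ) (ha : a ∈ co L (c i))
    (hmax : ∀ j, g j • c j ≠ c j → ∀ b ∈ co L (c j), b ≤ a) (k : Fin N)
    (hk : ¬ Lnk L (c k) (c i)) (h : Gam) (h1 : a ≤ h a) (h2 : h a ≤ g i a) :
    ¬ Lnk L (h • c i) (c k) := by
  intro hl
  have hhk := MUP_core hCF hC _ _ h hl a ha
  rcases h1.eq_or_lt with h3 | h3
  · exact hk (hC.equ.symm (MUP_lnk hCF hC _ _ h hl a ha h3.symm))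
  · have h4 : g k • c k = c k := by
      by_contra h5
      exact absurd (hmax k h5 _ hhk) (not_le.2 h3)
    have h6 := hcfg.ord i k ⟨h, hl⟩ a ha (h a) hhk h3
    rw [MUP_fix hCF hC _ _ h4 _ hhk] at h6
    exact absurd h2 (not_le.2 h6)

end

/-- [MUP] -/
theorem thm_MUP (hSU : St_SU) (hCF : St_CF) (hONE : St_ONE) : St_MUP := by
  intro L C _ _ hC N c g hcfg hup n R w
  classical
  obtain ⟨m, hm⟩ : ∃ m, (Finset.univ.filter (fun i => g i • c i ≠ c i)).card = m := ⟨_, rfl⟩
  induction m using Nat.strong_induction_on generalizing c g with
  | _ m ih =>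
    by_cases hall : ∀ i, g i • c i = c i
    · have h1 : (fun j => g (w j) • c (w j)) = fun j => c (w j) := funext fun j => hall (w j)
      rw [h1]
    · -- the moved element with the largest core
      have hall' : ∃ i, g i • c i ≠ c i := by
        by_contra h0
        apply hall
        intro i
        by_contra h1
        exact h0 ⟨i, h1⟩
      obtain ⟨i₀, hi₀⟩ := hall'
      let α : Fin N → ℚ := fun i => if h : (co L (c i)).Nonempty then h.choose else 0
      have hα : ∀ i, ∀ b ∈ co L (c i), α i = b := by
        intro i b hb
        have hne : (co L (c i)).Nonempty := ⟨b, hb⟩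
        have h1 : α i = hne.choose := dif_pos hne
        rw [h1]
        exact hC.one _ _ hne.choose_spec _ hb
      obtain ⟨i, hi, hmax'⟩ := Finset.exists_max_image
        (Finset.univ.filter (fun i => g i • c i ≠ c i)) α
        ⟨i₀, Finset.mem_filter.2 ⟨Finset.mem_univ _, hi₀⟩⟩
      have hi1 : g i • c i ≠ c i := (Finset.mem_filter.1 hi).2
      obtain ⟨a, ha⟩ := MUP_ne hSU hC (c i) (g i) hi1
      have hmax : ∀ j, g j • c j ≠ c j → ∀ b ∈ co L (c j), b ≤ a := by
        intro j hj b hb
        have h1 := hmax' j (Finset.mem_filter.2 ⟨Finset.mem_univ _, hj⟩)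
        rw [hα j b hb, hα i a ha] at h1
        exact h1
      have havoid := MUP_avoid hCF hC c g hcfg i a ha hmax
      -- the new configuration
      let c' : Fin N → C := fun k => if Lnk L (c k) (c i) then g k • c k else c k
      let g' : Fin N → Gam := fun k => if Lnk L (c k) (c i) then 1 else g k
      have c1 : ∀ k, Lnk L (c k) (c i) → c' k = g i • c k := by
        intro k hk
        have h1 : c' k = g k • c k := if_pos hk
        rw [h1, hcfg.cls k i hk]
      have c2 : ∀ k, ¬ Lnk L (c k) (c i) → c' k = c k := fun k hk => if_neg hk
      have g1 : ∀ k, Lnk L (c k) (c i) → g' k = 1 := fun k hk => if_pos hk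
      have g2 : ∀ k, ¬ Lnk L (c k) (c i) → g' k = g k := fun k hk => if_neg hk
      have hgc : ∀ k, g' k • c' k = g k • c k := by
        intro k
        by_cases hk : Lnk L (c k) (c i)
        · rw [g1 k hk, c1 k hk, one_smul, hcfg.cls k i hk]
        · rw [g2 k hk, c2 k hk]
      -- moved and not moved are not linked
      have hsep : ∀ j k, Lnk L (c j) (c i) → ¬ Lnk L (c k) (c i) → ¬ Lnk L (g i • c j) (c k) := by
        intro j k hj hk hl
        have h1 : Lnk L (g i • c i) (c k) :=
          hC.equ.trans (hC.equ.symm (hC.act (g i) _ _ hj)) hl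
        exact havoid k hk (g i) (hup i a) le_rfl h1
      have hone : Structure.RelMap R (fun j => c' (w j)) ↔
          Structure.RelMap R (fun j => c (w j)) := by
        refine hONE L C hC n R (fun j => c (w j)) (fun j => c (w j)) (fun j => c' (w j)) (c i) 1
          (g i) ?_
        intro j
        by_cases hk : Lnk L (c (w j)) (c i)
        · left
          refine ⟨hk, fun b _ => hup i b, ?_, c1 _ hk⟩
          show c (w j) = (1 : Gam) • c (w j)
          rw [one_smul]
        · right
          refine ⟨?_, rfl, c2 _ hk⟩
          intro a' ha' h h1 h2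
          rw [hC.one _ _ ha' _ ha] at h1 h2
          exact havoid (w j) hk h h1 h2
      have hcfg' : CfgI L c' g' := by
        refine ⟨?_, ?_⟩
        · intro j k hjk
          by_cases hj : Lnk L (c j) (c i)
          · by_cases hk : Lnk L (c k) (c i)
            · rw [g1 j hj, g1 k hk]
            · exfalso
              rw [c1 j hj, c2 k hk] at hjk
              exact hsep j k hj hk hjk
          · by_cases hk : Lnk L (c k) (c i)
            · exfalso
              rw [c2 j hj, c1 k hk] at hjk
              exact hsep k j hk hj (hC.equ.symm hjk)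
            · rw [c2 j hj, c2 k hk] at hjk
              rw [g2 j hj, g2 k hk]
              exact hcfg.cls j k hjk
        · intro j k hjk a' ha' b' hb' hab
          by_cases hj : Lnk L (c j) (c i)
          · by_cases hk : Lnk L (c k) (c i)
            · rw [g1 j hj, g1 k hk]
              exact hab
            · rw [g1 j hj, g2 k hk]
              exact lt_of_lt_of_le hab (hup k b')
          · by_cases hk : Lnk L (c k) (c i)
            · rw [g2 j hj, g1 k hk]
              show g j a' < b'
              rw [c2 j hj] at ha'
              rw [c2 j hj, c1 k hk] at hjk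
              rw [c1 k hk] at hb'
              have hb1 : b' = g i a := by
                have h1 : g i a ∈ co L (g i • c k) :=
                  MUP_core hCF hC (c i) (g i • c k) (g i)
                    (hC.act (g i) _ _ (hC.equ.symm hk)) a ha
                exact hC.one _ _ hb' _ h1
              obtain ⟨h, hh⟩ := hjk
              have hh' : Lnk L (((g i)⁻¹ * h) • c j) (c i) := by
                have h1 := hC.act (g i)⁻¹ _ _ hh
                rw [inv_smul_smul, ← mul_smul] at h1
                exact hC.equ.trans h1 hk
              rcases lt_trichotomy a' a with h1 | h1 | h1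
              · rw [hb1]
                exact hcfg.ord j i ⟨_, hh'⟩ a' ha' a ha h1
              · exfalso
                apply hj
                refine MUP_lnk hCF hC _ _ _ hh' a' ha' ?_
                have h2 := MUP_core hCF hC _ _ _ hh' a' ha'
                rw [hC.one _ _ h2 _ ha, h1]
              · have h2 : g j • c j = c j := by
                  by_contra h3
                  exact absurd (hmax j h3 _ ha') (not_le.2 h1)
                rw [MUP_fix hCF hC _ _ h2 _ ha']
                exact hab
            · rw [c2 j hj] at ha'
              rw [c2 k hk] at hb'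
              rw [c2 j hj, c2 k hk] at hjk
              rw [g2 j hj, g2 k hk]
              exact hcfg.ord j k hjk a' ha' b' hb' hab
      have hup' : ∀ k (q : ℚ), q ≤ g' k q := by
        intro k q
        by_cases hk : Lnk L (c k) (c i)
        · rw [g1 k hk]
          exact le_rfl
        · rw [g2 k hk]
          exact hup k q
      have hcard : (Finset.univ.filter (fun k => g' k • c' k ≠ c' k)).card < m := by
        rw [← hm]
        apply Finset.card_lt_card
        rw [Finset.ssubset_iff_of_subset]
        · refine ⟨i, hi, ?_⟩
          intro h1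
          apply (Finset.mem_filter.1 h1).2
          rw [g1 i (hC.equ.refl _), one_smul]
        · intro k hk
          have hk1 := (Finset.mem_filter.1 hk).2
          refine Finset.mem_filter.2 ⟨Finset.mem_univ _, ?_⟩
          by_cases hk2 : Lnk L (c k) (c i)
          · exfalso
            apply hk1
            rw [g1 k hk2, one_smul]
          · rw [g2 k hk2, c2 k hk2] at hk1
            exact hk1
      have hih := ih _ hcard c' g' hcfg' hup' rfl
      have hfun : (fun j => g' (w j) • c' (w j)) = fun j => g (w j) • c (w j) :=
        funext fun j => hgc (w j)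
      rw [hfun] at hih
      exact hih.trans hone

end Pool.Agent.AAD
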