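import Pool.Agent.AAD.StB

/-!
# AAD [NCM]: the combinatorial core of part II
-/

set_option autoImplicit false
set_option linter.unusedVariables false

namespace Pool.Agent.AAD

open FirstOrder.Language Set
open scoped FirstOrder

/-- the order of the positions is linear -/
theorem NCM_lin {N : ℕ} {M : Type} {r : M → M → Prop} (h : Lin r) : Lin (plt (N := N) r) := by
  obtain ⟨h1, h2, h3⟩ := h
  refine ⟨?_, ?_, ?_⟩
  · rintro (i | ⟨μ, d⟩ | i)
    · exact lt_irrefl i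
    · rintro (h | ⟨-, h⟩)
      · exact h1 _ h
      · exact lt_irrefl _ h
    · exact lt_irrefl i
  · rintro (i | ⟨μ, d⟩ | i) (j | ⟨ν, e⟩ | j) (k | ⟨ξ, f⟩ | k) hxy hyz
    all_goals first
      | exact trivial
      | exact hxy.elim
      | exact hyz.elim
      | exact lt_trans hxy hyz
      | skip
    rcases hxy with hxy | ⟨rfl, hxy⟩ <;> rcases hyz with hyz | ⟨rfl, hyz⟩
    · exact Or.inl (h2 _ _ _ hxy hyz)
    · exact Or.inl hxy
    · exact Or.inl hyz
    · exact Or.inr ⟨rfl, lt_trans hxy hyz⟩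
  · rintro (i | ⟨μ, d⟩ | i) (j | ⟨ν, e⟩ | j) hne
    · rcases lt_trichotomy i j with h | h | h
      · exact Or.inl h
      · exact absurd (by rw [h]) hne
      · exact Or.inr h
    · exact Or.inl trivial
    · exact Or.inl trivial
    · exact Or.inr trivial
    · by_cases hμ : μ = ν
      · subst hμ
        rcases lt_trichotomy d e with h | h | h
        · exact Or.inl (Or.inr ⟨rfl, h⟩)
        · exact absurd (by rw [h]) hne
        · exact Or.inr (Or.inr ⟨rfl, h⟩)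
      · rcases h3 μ ν hμ with h | h
        · exact Or.inl (Or.inl h)
        · exact Or.inr (Or.inl h)
    · exact Or.inl trivial
    · exact Or.inr trivial
    · exact Or.inr trivial
    · rcases lt_trichotomy i j with h | h | h
      · exact Or.inl h
      · exact absurd (by rw [h]) hne
      · exact Or.inr h

open Classical in
/-- the rank -/
noncomputable def NCM_rk {U Z : Type} [Fintype U] (lt : Z → Z → Prop) (c : U → Z) (S : U → Prop)
    (u : U) : ℕ := (Finset.univ.filter fun w => S w ∧ lt (c w) (c u)).card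

theorem NCM_rk_lt {U Z : Type} [Fintype U] {lt : Z → Z → Prop} (h : Lin lt) (c : U → Z)
    (S : U → Prop) (u : U) : NCM_rk lt c S u < Fintype.card U := by
  classical
  unfold NCM_rk
  apply Finset.card_lt_univ_of_notMem (x := u)
  rw [Finset.mem_filter]
  rintro ⟨-, -, h'⟩
  exact h.1 _ h'

theorem NCM_rank {U Z : Type} [Fintype U] {lt : Z → Z → Prop} (h : Lin lt) (c : U → Z)
    (S : U → Prop) (u u' : U) (hu : S u) (hu' : S u') :
    lt (c u) (c u') ↔ NCM_rk lt c S u < NCM_rk lt c S u' := by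
  classical
  obtain ⟨h1, h2, h3⟩ := h
  unfold NCM_rk
  constructor
  · intro hlt
    apply Finset.card_lt_card
    rw [Finset.ssubset_iff_of_subset]
    · refine ⟨u, ?_, ?_⟩
      · rw [Finset.mem_filter]
        exact ⟨Finset.mem_univ _, hu, hlt⟩
      · rw [Finset.mem_filter]
        rintro ⟨-, -, h'⟩
        exact h1 _ h'
    · intro w hw
      rw [Finset.mem_filter] at hw ⊢
      exact ⟨hw.1, hw.2.1, h2 _ _ _ hw.2.2 hlt⟩
  · intro hcard
    by_contra hn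
    apply absurd hcard
    rw [not_lt]
    apply Finset.card_le_card
    intro w hw
    rw [Finset.mem_filter] at hw ⊢
    refine ⟨hw.1, hw.2.1, ?_⟩
    by_cases he : c u = c u'
    · rw [he]
      exact hw.2.2
    · rcases h3 _ _ he with h4 | h4
      · exact absurd h4 hn
      · exact h2 _ _ _ hw.2.2 h4

/-- the one-point structure -/
def NCM_mU : LL where
  M := Unit
  lt := fun _ _ _ => False
  lin := fun _ => ⟨fun _ h => h, fun _ _ _ h _ => h, fun x y hxy => absurd (Subsingleton.elim x y) hxy⟩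

/-- its point -/
def NCM_o : NCM_mU.M := ()

section

variable {κ : Type} {ar : κ → ℕ} {K : Cla ar} (P : PS K)

theorem NCM_F1 {M : Type} {E S₀ : Set (Fin P.N)} {μ : M} {ν : Fin P.N → M} {d : Fin P.k → Fin 3}
    {e : Fin P.N → Fin P.k → Fin 3} {ρ : Fin P.N → Fin P.k → Bool × Fin P.N} {u : Fin P.N}
    (i : Fin P.k) (h : u ∈ E) : Fas P E S₀ μ ν d e ρ u i = .md μ (d i) := by
  unfold Fas
  rw [if_pos h]

theorem NCM_F2 {M : Type} {E S₀ : Set (Fin P.N)} {μ : M} {ν : Fin P.N → M} {d : Fin P.k → Fin 3}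
    {e : Fin P.N → Fin P.k → Fin 3} {ρ : Fin P.N → Fin P.k → Bool × Fin P.N} {u : Fin P.N}
    (i : Fin P.k) (h : u ∉ E) (h' : u ∈ S₀) :
    Fas P E S₀ μ ν d e ρ u i = .md (ν u) (e u i) := by
  unfold Fas
  rw [if_neg h, if_pos h']

theorem NCM_F3 {M : Type} {E S₀ : Set (Fin P.N)} {μ : M} {ν : Fin P.N → M} {d : Fin P.k → Fin 3}
    {e : Fin P.N → Fin P.k → Fin 3} {ρ : Fin P.N → Fin P.k → Bool × Fin P.N} {u : Fin P.N}
    (i : Fin P.k) (h : u ∉ E) (h' : u ∉ S₀) :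
    Fas P E S₀ μ ν d e ρ u i = rfp M (ρ u i) := by
  unfold Fas
  rw [if_neg h, if_neg h']

theorem NCM_md {N : ℕ} {M : Type} {r : M → M → Prop} (h : Lin r) (μ : M) (x y : Fin 3) :
    plt (N := N) r (.md μ x) (.md μ y) ↔ x < y := by
  show (r μ μ ∨ (μ = μ ∧ x < y)) ↔ x < y
  constructor
  · rintro (h' | h')
    · exact absurd h' (h.1 μ)
    · exact h'.2
  · intro h'
    exact Or.inr ⟨rfl, h'⟩

/-- the pattern of positions with `M`-part `μ` -/
theorem NCM_pat (m : LL) (μ : m.M) (b : Bool) (E S₀ : Set (Fin P.N)) (d : Fin P.k → Fin 3)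
    (e : Fin P.N → Fin P.k → Fin 3) (ρ : Fin P.N → Fin P.k → Bool × Fin P.N) (u u' : Fin P.N)
    (i : Fin P.k) :
    plt (m.lt b) (Fas P E S₀ μ (fun _ => μ) d e ρ u i) (Fas P E S₀ μ (fun _ => μ) d e ρ u' i) ↔
      plt (NCM_mU.lt b) (Fas P E S₀ NCM_o (fun _ => NCM_o) d e ρ u i)
        (Fas P E S₀ NCM_o (fun _ => NCM_o) d e ρ u' i) := by
  have hcase : ∀ w : Fin P.N, (∃ x, Fas P E S₀ μ (fun _ => μ) d e ρ w i = .md μ x ∧
      Fas P E S₀ NCM_o (fun _ => NCM_o) d e ρ w i = .md NCM_o x) ∨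
      (∃ a, Fas P E S₀ μ (fun _ => μ) d e ρ w i = rfp m.M a ∧
        Fas P E S₀ NCM_o (fun _ => NCM_o) d e ρ w i = rfp NCM_mU.M a) := by
    intro w
    by_cases hE : w ∈ E
    · exact Or.inl ⟨d i, NCM_F1 P i hE, NCM_F1 P i hE⟩
    · by_cases hS : w ∈ S₀
      · exact Or.inl ⟨e w i, NCM_F2 P i hE hS, NCM_F2 P i hE hS⟩
      · exact Or.inr ⟨ρ w i, NCM_F3 P i hE hS, NCM_F3 P i hE hS⟩
  rcases hcase u with ⟨x, h1, h2⟩ | ⟨⟨a, a'⟩, h1, h2⟩ <;>
    rcases hcase u' with ⟨y, h3, h4⟩ | ⟨⟨c, c'⟩, h3, h4⟩ <;> rw [h1, h2, h3, h4]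
  · rw [NCM_md (m.lin b), NCM_md (NCM_mU.lin b)]
  · cases c <;> exact Iff.rfl
  · cases a <;> exact Iff.rfl
  · cases a <;> cases c <;> exact Iff.rfl

/-- the condition for `S₀` -/
def NCM_NC (E : Set (Fin P.N)) (s : Option κ) (t : Fin (ar' ar s) → Fin P.N)
    (S₀ : Set (Fin P.N)) (ρ : Fin P.N → Fin P.k → Bool × Fin P.N) : Prop :=
  NN P NCM_mU.lt E S₀ ρ s t NCM_o (fun _ => NCM_o)

theorem NCM_a (hTMI : St_TMI) (m : LL) (μ : m.M) (E S₀ : Set (Fin P.N))
    (ρ : Fin P.N → Fin P.k → Bool × Fin P.N) (s : Option κ) (t : Fin (ar' ar s) → Fin P.N) :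
    NN P m.lt E S₀ ρ s t μ (fun _ => μ) ↔ NCM_NC P E s t S₀ ρ := by
  have key : ∀ (d : Fin P.k → Fin 3) (e : Fin P.N → Fin P.k → Fin 3),
      (TrM P m.lt s t (fun j => Fas P E S₀ μ (fun _ => μ) d e ρ (t j)) ↔
        TrM P NCM_mU.lt s t (fun j => Fas P E S₀ NCM_o (fun _ => NCM_o) d e ρ (t j))) := by
    intro d e
    exact (hTMI κ ar K P m s t _).2 NCM_mU _ (fun j j' i _ _ => NCM_pat P m μ _ E S₀ d e ρ _ _ i)
  unfold NCM_NC NN
  constructor
  · rintro ⟨d, d', e, h⟩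
    exact ⟨d, d', e, fun h' => h (by rw [key, key]; exact h')⟩
  · rintro ⟨d, d', e, h⟩
    exact ⟨d, d', e, fun h' => h (by rw [← key, ← key]; exact h')⟩

/-- (b) -/
theorem NCM_b (hTMI : St_TMI) (E : Set (Fin P.N)) (s : Option κ) (t : Fin (ar' ar s) → Fin P.N)
    (i : Fin P.k) (q : ℚ) (π : Fin (ar' ar s) → Fin P.k → ℚ)
    (h1 : ∀ j, t j ∈ E → π j i = q) (h2 : ∀ j, t j ∉ E → π j i = 0)
    (h3 : ∀ j i', i' ≠ i → π j i' = 0) (h4 : ¬ (P.Tr s t π ↔ P.Tr s t fun _ _ => 0))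
    (ρ : Fin P.N → Fin P.k → Bool × Fin P.N) : NCM_NC P E s t Eᶜ ρ := by
  classical
  have hq : q ≠ 0 := by
    rintro rfl
    apply h4
    have : π = fun _ _ => 0 := by
      funext j i'
      by_cases hi : i' = i
      · subst hi
        by_cases hj : t j ∈ E
        · exact h1 j hj
        · exact h2 j hj
      · exact h3 j i' hi
    rw [this]
  -- the displacement
  obtain ⟨y, hy⟩ : ∃ y : Fin 3, (y < 1 ↔ q < 0) ∧ (1 < y ↔ 0 < q) := by
    rcases lt_or_gt_of_ne hq with h | h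
    · exact ⟨0, ⟨fun _ => h, fun _ => by decide⟩, ⟨fun h' => absurd h' (by decide),
        fun h' => absurd h' (not_lt.2 h.le)⟩⟩
    · exact ⟨2, ⟨fun h' => absurd h' (by decide), fun h' => absurd h' (not_lt.2 h.le)⟩,
        ⟨fun _ => h, fun _ => by decide⟩⟩
  have hpos : ∀ (d : Fin P.k → Fin 3) (w : Fin P.N) (i' : Fin P.k),
      Fas P E Eᶜ NCM_o (fun _ => NCM_o) d (fun _ _ => 1) ρ w i' =
        .md NCM_o (if w ∈ E then d i' else 1) := by
    intro d w i'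
    by_cases hw : w ∈ E
    · rw [NCM_F1 P i' hw, if_pos hw]
    · rw [NCM_F2 P i' hw (mem_compl hw), if_neg hw]
  refine ⟨fun _ => 1, fun i' => if i' = i then y else 1, fun _ _ => 1, fun h => h4 ?_⟩
  have e1 := (hTMI κ ar K P NCM_mU s t
    (fun j => Fas P E Eᶜ NCM_o (fun _ => NCM_o) (fun _ => 1) (fun _ _ => 1) ρ (t j))).1
      (fun _ _ => 0) (by
        intro j j' i' _ _
        rw [hpos, hpos, NCM_md (NCM_mU.lin _), ite_self, ite_self]
        exact ⟨fun h => absurd h (lt_irrefl _), fun h => absurd h (lt_irrefl _)⟩)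
  have e2 := (hTMI κ ar K P NCM_mU s t
    (fun j => Fas P E Eᶜ NCM_o (fun _ => NCM_o) (fun i' => if i' = i then y else 1)
      (fun _ _ => 1) ρ (t j))).1 π (by
        intro j j' i' _ _
        rw [hpos, hpos, NCM_md (NCM_mU.lin _)]
        by_cases hi : i' = i
        · subst hi
          rw [if_pos rfl]
          by_cases hj : t j ∈ E <;> by_cases hj' : t j' ∈ E
          · rw [if_pos hj, if_pos hj', h1 j hj, h1 j' hj']
            exact ⟨fun h => absurd h (lt_irrefl _), fun h => absurd h (lt_irrefl _)⟩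
          · rw [if_pos hj, if_neg hj', h1 j hj, h2 j' hj']
            exact hy.1
          · rw [if_neg hj, if_pos hj', h2 j hj, h1 j' hj']
            exact hy.2
          · rw [if_neg hj, if_neg hj', h2 j hj, h2 j' hj']
            exact ⟨fun h => absurd h (lt_irrefl _), fun h => absurd h (lt_irrefl _)⟩
        · rw [if_neg hi, ite_self, ite_self, h3 j i' hi, h3 j' i' hi]
          exact ⟨fun h => absurd h (lt_irrefl _), fun h => absurd h (lt_irrefl _)⟩)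
  rw [← e1, ← e2]
  exact h.symm

/-- (c) -/
theorem NCM_c (hTMI : St_TMI) (E : Set (Fin P.N)) (s : Option κ) (t : Fin (ar' ar s) → Fin P.N)
    (ρ : Fin P.N → Fin P.k → Bool × Fin P.N) : ¬ NCM_NC P E s t ∅ ρ := by
  rintro ⟨d, d', e, h⟩
  apply h
  refine (hTMI κ ar K P NCM_mU s t _).2 NCM_mU _ (fun j j' i _ _ => ?_)
  have hcase : ∀ w : Fin P.N, (Fas P E ∅ NCM_o (fun _ => NCM_o) d e ρ w i = .md NCM_o (d i) ∧
      Fas P E ∅ NCM_o (fun _ => NCM_o) d' e ρ w i = .md NCM_o (d' i)) ∨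
      (∃ a, Fas P E ∅ NCM_o (fun _ => NCM_o) d e ρ w i = rfp NCM_mU.M a ∧
        Fas P E ∅ NCM_o (fun _ => NCM_o) d' e ρ w i = rfp NCM_mU.M a) := by
    intro w
    by_cases hE : w ∈ E
    · exact Or.inl ⟨NCM_F1 P i hE, NCM_F1 P i hE⟩
    · exact Or.inr ⟨ρ w i, NCM_F3 P i hE (notMem_empty w), NCM_F3 P i hE (notMem_empty w)⟩
  rcases hcase (t j) with ⟨h1, h2⟩ | ⟨⟨a, a'⟩, h1, h2⟩ <;>
    rcases hcase (t j') with ⟨h3, h4⟩ | ⟨⟨c, c'⟩, h3, h4⟩ <;> rw [h1, h2, h3, h4]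
  · rw [NCM_md (NCM_mU.lin _), NCM_md (NCM_mU.lin _)]
    exact ⟨fun h => absurd h (lt_irrefl _), fun h => absurd h (lt_irrefl _)⟩
  · cases c <;> exact Iff.rfl
  · cases a <;> exact Iff.rfl

/-- (d) -/
theorem NCM_d (hTMI : St_TMI) (E : Set (Fin P.N)) (s : Option κ) (t : Fin (ar' ar s) → Fin P.N)
    (S₀ : Set (Fin P.N)) (ρ : Fin P.N → Fin P.k → Bool × Fin P.N) (u : Fin P.N)
    (hu : ¬ ∃ i, P.sp u i) (h : NCM_NC P E s t S₀ ρ) : NCM_NC P E s t (S₀ \ {u}) ρ := by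
  obtain ⟨d, d', e, h⟩ := h
  refine ⟨d, d', e, fun h' => h ?_⟩
  have key : ∀ d : Fin P.k → Fin 3,
      (TrM P NCM_mU.lt s t (fun j => Fas P E S₀ NCM_o (fun _ => NCM_o) d e ρ (t j)) ↔
        TrM P NCM_mU.lt s t (fun j =>
          Fas P E (S₀ \ {u}) NCM_o (fun _ => NCM_o) d e ρ (t j))) := by
    intro d
    refine (hTMI κ ar K P NCM_mU s t _).2 NCM_mU _ (fun j j' i hj hj' => ?_)
    have hcase : ∀ w : Fin P.N, P.sp w i →
        Fas P E S₀ NCM_o (fun _ => NCM_o) d e ρ w i =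
          Fas P E (S₀ \ {u}) NCM_o (fun _ => NCM_o) d e ρ w i := by
      intro w hw
      by_cases hE : w ∈ E
      · rw [NCM_F1 P i hE, NCM_F1 P i hE]
      · by_cases hS : w ∈ S₀
        · have : w ∈ S₀ \ {u} := by
            refine ⟨hS, ?_⟩
            rintro rfl
            exact hu ⟨i, hw⟩
          rw [NCM_F2 P i hE hS, NCM_F2 P i hE this]
        · rw [NCM_F3 P i hE hS, NCM_F3 P i hE (fun h => hS h.1)]
    rw [hcase _ hj, hcase _ hj']
  rw [key, key]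
  exact h'

/-- (e) -/
theorem NCM_e (hTMI : St_TMI) (E : Set (Fin P.N)) (s : Option κ) (t : Fin (ar' ar s) → Fin P.N)
    (S₀ : Set (Fin P.N)) (ρ : Fin P.N → Fin P.k → Bool × Fin P.N) (m : LL) (μ : m.M)
    (ν : Fin P.N → m.M) (h : NN P m.lt E S₀ ρ s t μ ν) :
    ∃ ρ', NCM_NC P E s t {u | u ∈ S₀ ∧ ν u = μ} ρ' := by
  classical
  obtain ⟨d, d', e, h⟩ := h
  -- the outer kinds and their positions
  let O : Fin P.N → Prop := fun u => u ∉ E ∧ ¬ (u ∈ S₀ ∧ ν u = μ)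
  let c : Fin P.k → Fin P.N → Pos P.N m.M := fun i u =>
    if u ∈ S₀ then .md (ν u) (e u i) else rfp m.M (ρ u i)
  let r : Fin P.k → m.M → m.M → Prop := fun i => m.lt (bt P i)
  have hr : ∀ i, Lin (r i) := fun i => m.lin _
  have hpl : ∀ i, Lin (plt (N := P.N) (r i)) := fun i => NCM_lin (hr i)
  let hi : Fin P.k → Fin P.N → Prop := fun i u => plt (r i) (.md μ 1) (c i u)
  let rk : Fin P.k → Fin P.N → ℕ := fun i u =>
    NCM_rk (plt (r i)) (c i) (fun w => O w ∧ (hi i w ↔ hi i u)) u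
  have hrk : ∀ i u, rk i u < P.N := by
    intro i u
    have := NCM_rk_lt (hpl i) (c i) (fun w => O w ∧ (hi i w ↔ hi i u)) u
    rwa [Fintype.card_fin] at this
  let ρ' : Fin P.N → Fin P.k → Bool × Fin P.N := fun u i => (decide (hi i u), ⟨rk i u, hrk i u⟩)
  have hord : ∀ i u u', O u → O u' → (hi i u ↔ hi i u') →
      (plt (r i) (c i u) (c i u') ↔ rk i u < rk i u') := by
    intro i u u' hu hu' hs
    have h1 := NCM_rank (hpl i) (c i) (fun w => O w ∧ (hi i w ↔ hi i u)) u u' ⟨hu, Iff.rfl⟩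
      ⟨hu', hs.symm⟩
    have h2 : rk i u' = NCM_rk (plt (r i)) (c i) (fun w => O w ∧ (hi i w ↔ hi i u)) u' := by
      show NCM_rk (plt (r i)) (c i) (fun w => O w ∧ (hi i w ↔ hi i u')) u' = _
      congr 1
      funext w
      rw [hs]
    rw [h1, h2]
  -- outer kinds are below or above all `md μ x`
  have hout : ∀ i u, O u → ∀ x, (hi i u → plt (r i) (.md μ x) (c i u)) ∧
      (¬ hi i u → plt (r i) (c i u) (.md μ x)) := by
    intro i u hu x
    by_cases hS : u ∈ S₀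
    · have hc : c i u = .md (ν u) (e u i) := if_pos hS
      have hν : ν u ≠ μ := fun h => hu.2 ⟨hS, h⟩
      have h1 : hi i u ↔ r i μ (ν u) := by
        show plt (r i) (.md μ 1) (c i u) ↔ _
        rw [hc]
        constructor
        · rintro (h' | h')
          · exact h'
          · exact absurd h'.1.symm hν
        · exact fun h' => Or.inl h'
      rw [h1, hc]
      refine ⟨fun h' => Or.inl h', fun h' => Or.inl ?_⟩
      rcases (hr i).2.2 μ (ν u) hν.symm with h2 | h2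
      · exact absurd h2 h'
      · exact h2
    · have hc : c i u = rfp m.M (ρ u i) := if_neg hS
      have h1 : hi i u ↔ plt (r i) (.md μ 1) (rfp m.M (ρ u i)) := by
        show plt (r i) (.md μ 1) (c i u) ↔ _
        rw [hc]
      rw [h1, hc]
      rcases ρ u i with ⟨b, a⟩
      cases b
      · exact ⟨fun h' => h'.elim, fun _ => trivial⟩
      · exact ⟨fun _ => trivial, fun h' => (h' trivial).elim⟩
  have hdich : ∀ (d : Fin P.k → Fin 3) (i : Fin P.k) (u : Fin P.N),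
      (∃ x, Fas P E S₀ μ ν d e ρ u i = .md μ x ∧
        Fas P E {u | u ∈ S₀ ∧ ν u = μ} μ (fun _ => μ) d e ρ' u i = .md μ x) ∨
      (O u ∧ Fas P E S₀ μ ν d e ρ u i = c i u ∧
        Fas P E {u | u ∈ S₀ ∧ ν u = μ} μ (fun _ => μ) d e ρ' u i = rfp m.M (ρ' u i)) := by
    intro d i u
    by_cases hE : u ∈ E
    · exact Or.inl ⟨d i, NCM_F1 P i hE, NCM_F1 P i hE⟩
    · by_cases hS : u ∈ S₀ ∧ ν u = μ
      · refine Or.inl ⟨e u i, ?_, NCM_F2 P i hE hS⟩
        rw [NCM_F2 P i hE hS.1, hS.2]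
      · refine Or.inr ⟨⟨hE, hS⟩, ?_, NCM_F3 P i hE hS⟩
        show _ = if u ∈ S₀ then _ else _
        by_cases hS' : u ∈ S₀
        · rw [NCM_F2 P i hE hS', if_pos hS']
        · rw [NCM_F3 P i hE hS', if_neg hS']
  have hρ1 : ∀ i u, hi i u → rfp m.M (ρ' u i) = .hi ⟨rk i u, hrk i u⟩ := by
    intro i u h'
    show rfp m.M (decide (hi i u), _) = _
    rw [decide_eq_true h']
    rfl
  have hρ2 : ∀ i u, ¬ hi i u → rfp m.M (ρ' u i) = .lo ⟨rk i u, hrk i u⟩ := by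
    intro i u h'
    show rfp m.M (decide (hi i u), _) = _
    rw [decide_eq_false h']
    rfl
  have hpat : ∀ (d : Fin P.k → Fin 3) (i : Fin P.k) (u u' : Fin P.N),
      (plt (r i) (Fas P E S₀ μ ν d e ρ u i) (Fas P E S₀ μ ν d e ρ u' i) ↔
        plt (r i) (Fas P E {u | u ∈ S₀ ∧ ν u = μ} μ (fun _ => μ) d e ρ' u i)
          (Fas P E {u | u ∈ S₀ ∧ ν u = μ} μ (fun _ => μ) d e ρ' u' i)) := by
    intro d i u u'
    have hasym : ∀ a b : Pos P.N m.M, plt (r i) a b → ¬ plt (r i) b a := fun a b h1 h2 =>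
      (hpl i).1 _ ((hpl i).2.1 _ _ _ h1 h2)
    rcases hdich d i u with ⟨x, h1, h2⟩ | ⟨h0, h1, h2⟩ <;>
      rcases hdich d i u' with ⟨y, h3, h4⟩ | ⟨h0', h3, h4⟩ <;> rw [h1, h2, h3, h4]
    · -- `u` central, `u'` outer
      by_cases hh : hi i u'
      · rw [hρ1 i u' hh]
        exact ⟨fun _ => trivial, fun _ => (hout i u' h0' x).1 hh⟩
      · rw [hρ2 i u' hh]
        exact ⟨fun h' => hasym _ _ h' ((hout i u' h0' x).2 hh), fun h' => h'.elim⟩
    · by_cases hh : hi i u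
      · rw [hρ1 i u hh]
        exact ⟨fun h' => hasym _ _ h' ((hout i u h0 y).1 hh), fun h' => h'.elim⟩
      · rw [hρ2 i u hh]
        exact ⟨fun _ => trivial, fun _ => (hout i u h0 y).2 hh⟩
    · by_cases hh : hi i u <;> by_cases hh' : hi i u'
      · rw [hρ1 i u hh, hρ1 i u' hh', hord i u u' h0 h0' ⟨fun _ => hh', fun _ => hh⟩]
        exact Iff.rfl
      · rw [hρ1 i u hh, hρ2 i u' hh']
        refine ⟨fun h' => ?_, fun h' => h'.elim⟩
        exact hasym _ _ ((hout i u h0 1).1 hh) ((hpl i).2.1 _ _ _ h' ((hout i u' h0' 1).2 hh'))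
      · rw [hρ2 i u hh, hρ1 i u' hh']
        refine ⟨fun _ => trivial, fun _ => ?_⟩
        exact (hpl i).2.1 _ _ _ ((hout i u h0 1).2 hh) ((hout i u' h0' 1).1 hh')
      · rw [hρ2 i u hh, hρ2 i u' hh', hord i u u' h0 h0' ⟨fun h' => absurd h' hh,
          fun h' => absurd h' hh'⟩]
        exact Iff.rfl
  refine ⟨ρ', ?_⟩
  rw [← NCM_a P hTMI m μ]
  have key : ∀ d : Fin P.k → Fin 3,
      (TrM P m.lt s t (fun j => Fas P E S₀ μ ν d e ρ (t j)) ↔
        TrM P m.lt s t (fun j =>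
          Fas P E {u | u ∈ S₀ ∧ ν u = μ} μ (fun _ => μ) d e ρ' (t j))) := by
    intro d
    exact (hTMI κ ar K P m s t _).2 m _ (fun j j' i _ _ => hpat d i (t j) (t j'))
  exact ⟨d, d', e, fun h' => h (by rw [key, key]; exact h')⟩

end

theorem thm_NCM (hTMI : St_TMI) : St_NCM := by
  classical
  intro κ ar K P E hz₁ hz₂
  obtain ⟨s, t, i, q, π, h1, h2, h3, h4⟩ := P.con E hz₁ hz₂
  have hex : ∃ n : ℕ, ∃ S₀ : Set (Fin P.N), S₀ ⊆ Eᶜ ∧ (∃ ρ, NCM_NC P E s t S₀ ρ) ∧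
      S₀.ncard = n :=
    ⟨_, Eᶜ, Subset.rfl, ⟨fun _ _ => (false, P.z₁),
      NCM_b P hTMI E s t i q π h1 h2 h3 h4 _⟩, rfl⟩
  obtain ⟨S₀, hS₀, ⟨ρ, hρ⟩, hn⟩ := Nat.find_spec hex
  have hmin : ∀ S : Set (Fin P.N), S ⊆ S₀ → S ≠ S₀ → ∀ ρ', ¬ NCM_NC P E s t S ρ' := by
    intro S hS hne ρ' h'
    have hlt : S.ncard < S₀.ncard :=
      Set.ncard_lt_ncard (hS.ssubset_of_ne hne) (Set.toFinite S₀)
    rw [hn] at hlt
    exact Nat.find_min hex hlt ⟨S, hS.trans hS₀, ⟨ρ', h'⟩, rfl⟩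
  refine ⟨S₀, ρ, s, t, ?_, ?_, ?_, ?_⟩
  · rw [Set.nonempty_iff_ne_empty]
    rintro rfl
    exact NCM_c P hTMI E s t ρ hρ
  · rw [Set.disjoint_left]
    intro u hu hu'
    exact hS₀ hu' hu
  · intro u hu
    by_contra hn'
    refine hmin (S₀ \ {u}) sdiff_subset ?_ ρ (NCM_d P hTMI E s t S₀ ρ u hn' hρ)
    intro he
    have : u ∈ S₀ \ {u} := by rw [he]; exact hu
    exact this.2 rfl
  · intro m μ ν
    constructor
    · intro hNN
      obtain ⟨ρ', h'⟩ := NCM_e P hTMI E s t S₀ ρ m μ ν hNN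
      by_contra hne
      push Not at hne
      obtain ⟨u, hu, hνu⟩ := hne
      refine hmin {u | u ∈ S₀ ∧ ν u = μ} (fun w hw => hw.1) ?_ ρ' h'
      intro he
      have : u ∈ {u | u ∈ S₀ ∧ ν u = μ} := by rw [he]; exact hu
      exact hνu this.2
    · intro hν
      have h5 := (NCM_a P hTMI m μ E S₀ ρ s t).2 hρ
      have h6 : ∀ d e, Fas P E S₀ μ ν d e ρ = Fas P E S₀ μ (fun _ => μ) d e ρ := by
        intro d e
        funext u i
        by_cases hE : u ∈ E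
        · rw [NCM_F1 P i hE, NCM_F1 P i hE]
        · by_cases hS : u ∈ S₀
          · rw [NCM_F2 P i hE hS, NCM_F2 P i hE hS, hν u hS]
          · rw [NCM_F3 P i hE hS, NCM_F3 P i hE hS]
      obtain ⟨d, d', e, h7⟩ := h5
      exact ⟨d, d', e, by rw [h6, h6]; exact h7⟩

end Pool.Agent.AAD
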