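import Pool.Agent.AAD.StA

/-!
AAD, [ONE] moving one class (helper82).
-/

set_option autoImplicit false
set_option linter.unusedVariables false

namespace Pool.Agent.AAD

open FirstOrder.Language Set
open scoped FirstOrder

/-- change of one value -/
private theorem ONE_del (hEXT : St_EXT) (A T : Finset ℚ) (g g' : Gam) (b : ℚ)
    (hag : ∀ c ∈ A, c ≠ b → g c = g' c)
    (hT : ∀ t ∈ T, t ≠ g b → (t < g b ∧ t < g' b) ∨ (g b < t ∧ g' b < t)) :
    ∃ δ : Gam, (∀ t ∈ T, t ≠ g b → δ t = t) ∧ (∀ c ∈ A, c ≠ b → δ (g c) = g c) ∧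
      δ (g b) = g' b := by
  classical
  have key : ∀ t ∈ T.erase (g b) ∪ (A.erase b).image g,
      t ≠ g b ∧ ((t < g b ∧ t < g' b) ∨ (g b < t ∧ g' b < t)) := by
    intro t ht
    rcases Finset.mem_union.1 ht with h | h
    · rw [Finset.mem_erase] at h
      exact ⟨h.1, hT t h.2 h.1⟩
    · obtain ⟨c, hc, rfl⟩ := Finset.mem_image.1 h
      rw [Finset.mem_erase] at hc
      refine ⟨fun e => hc.1 (g.injective e), ?_⟩
      rcases lt_or_gt_of_ne hc.1 with h1 | h1
      · left
        refine ⟨g.strictMono h1, ?_⟩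
        rw [hag c hc.2 hc.1]
        exact g'.strictMono h1
      · right
        refine ⟨g.strictMono h1, ?_⟩
        rw [hag c hc.2 hc.1]
        exact g'.strictMono h1
  obtain ⟨δ, hδ⟩ := hEXT (insert (g b) (T.erase (g b) ∪ (A.erase b).image g))
    (fun t => if t = g b then g' b else t) (by
      intro s hs t ht hst
      rcases Finset.mem_insert.1 hs with rfl | hs
      · rcases Finset.mem_insert.1 ht with rfl | ht
        · exact absurd hst (lt_irrefl _)
        · obtain ⟨h1, h2⟩ := key t ht
          simp only [if_true, if_neg h1]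
          rcases h2 with h2 | h2
          · exact absurd hst (not_lt_of_gt h2.1)
          · exact h2.2
      · obtain ⟨h1, h2⟩ := key s hs
        rcases Finset.mem_insert.1 ht with rfl | ht
        · simp only [if_true, if_neg h1]
          rcases h2 with h2 | h2
          · exact h2.2
          · exact absurd hst (not_lt_of_gt h2.1)
        · obtain ⟨h3, h4⟩ := key t ht
          simp only [if_neg h1, if_neg h3]
          exact hst)
  refine ⟨δ, fun t ht hne => ?_, fun c hc hne => ?_, ?_⟩
  · rw [hδ t (Finset.mem_insert_of_mem (Finset.mem_union_left _ (Finset.mem_erase.2 ⟨hne, ht⟩))),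
      if_neg hne]
  · have h1 : g c ∈ T.erase (g b) ∪ (A.erase b).image g :=
      Finset.mem_union_right _ (Finset.mem_image_of_mem _ (Finset.mem_erase.2 ⟨hne, hc⟩))
    rw [hδ (g c) (Finset.mem_insert_of_mem h1), if_neg (key _ h1).1]
  · rw [hδ (g b) (Finset.mem_insert_self _ _), if_pos rfl]

/-- an element between -/
private theorem ONE_btw (hEXT : St_EXT) (A : Finset ℚ) (g g' : Gam) (b q : ℚ)
    (hag : ∀ c ∈ A, b < c → g c = g' c) (h1 : g b < q) (h2 : q ≤ g' b) :
    ∃ g'' : Gam, (∀ c ∈ A, c ≠ b → g'' c = g c) ∧ g'' b = q := by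
  classical
  obtain ⟨g'', hg⟩ := hEXT (insert b A) (fun t => if t = b then q else g t) (by
    intro s hs t ht hst
    by_cases hsb : s = b
    · subst hsb
      have htb : t ≠ s := ne_of_gt hst
      simp only [if_true, if_neg htb]
      have htA : t ∈ A := (Finset.mem_insert.1 ht).resolve_left htb
      rw [hag t htA hst]
      exact lt_of_le_of_lt h2 (g'.strictMono hst)
    · by_cases htb : t = b
      · subst htb
        simp only [if_true, if_neg hsb]
        exact lt_trans (g.strictMono hst) h1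
      · simp only [if_neg hsb, if_neg htb]
        exact g.strictMono hst)
  refine ⟨g'', fun c hc hne => ?_, ?_⟩
  · rw [hg c (Finset.mem_insert_of_mem hc), if_neg hne]
  · rw [hg b (Finset.mem_insert_self _ _), if_pos rfl]

section

variable {L : FirstOrder.Language.{0, 0}} {C : Type} [L.Structure C] [MulAction Gam C]

open Classical in
/-- the moved tuple -/
private noncomputable def ONE_W {n : ℕ} (M : Fin n → Prop) (v : Fin n → C) (g : Gam) : Fin n → C :=
  fun j => if M j then g • v j else v j

/-- one change, free -/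
private theorem ONE_stp (hSU : St_SU) (hC : Cor L C) {n : ℕ} (R : L.Relations n)
    (M : Fin n → Prop) (v : Fin n → C) (x : C) (hM : ∀ j, M j → Lnk L (v j) x)
    (A T : Finset ℚ) (hA : ∀ j, M j → su (v j) ⊆ A) (hT : ∀ j, ¬ M j → su (v j) ⊆ T)
    (g g' δ : Gam) (b : ℚ) (hag : ∀ c ∈ A, c ≠ b → g c = g' c)
    (hJ : ∀ j, ¬ M j → ¬ Lnk L (g • x) (v j))
    (h1 : ∀ t ∈ T, t ≠ g b → δ t = t) (h2 : ∀ c ∈ A, c ≠ b → δ (g c) = g c)
    (h3 : δ (g b) = g' b) :
    Structure.RelMap R (ONE_W M v g') ↔ Structure.RelMap R (ONE_W M v g) := by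
  classical
  have su1 := hSU C hC.ctx.fin
  have hfr := hC.forr {y | ∃ j, M j ∧ y = g • v j} {y | ∃ j, ¬ M j ∧ y = v j}
    ((Set.finite_range fun j => g • v j).subset (by rintro y ⟨j, -, rfl⟩; exact ⟨j, rfl⟩))
    ((Set.finite_range v).subset (by rintro y ⟨j, -, rfl⟩; exact ⟨j, rfl⟩))
    (by
      rintro y ⟨j, hj, rfl⟩ z ⟨k, hk, rfl⟩ hl
      exact hJ k hk (hC.equ.trans (hC.equ.symm (hC.act g _ _ (hM j hj))) hl))
  refine hfr (g b) δ n R (ONE_W M v g) (ONE_W M v g') ?_ ?_
  · intro j
    by_cases hj : M j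
    · left
      simp only [ONE_W, if_pos hj]
      refine ⟨⟨j, hj, rfl⟩, ?_⟩
      rw [← mul_smul]
      refine (su1 (v j)).2.2.2 _ _ fun c hc => ?_
      have hcA := hA j hj hc
      by_cases hcb : c = b
      · rw [hcb]; exact h3.symm
      · rw [← hag c hcA hcb]; exact (h2 c hcA hcb).symm
    · right
      have h5 : ONE_W M v g j = v j := by simp only [ONE_W, if_neg hj]
      have h6 : ONE_W M v g' j = v j := by simp only [ONE_W, if_neg hj]
      exact ⟨Or.inl ⟨j, hj, h5⟩, h6.trans h5.symm⟩
  · intro j c hc hne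
    by_cases hj : M j
    · simp only [ONE_W, if_pos hj] at hc
      rw [(su1 (v j)).2.2.1 g] at hc
      obtain ⟨d, hd, rfl⟩ := Finset.mem_image.1 hc
      exact h2 d (hA j hj hd) fun e => hne (by rw [e])
    · simp only [ONE_W, if_neg hj] at hc
      exact h1 c (hT j hj hc) hne

/-- one value changes -/
private theorem ONE_one (hEXT : St_EXT) (hSU : St_SU) (hC : Cor L C) {n : ℕ} (R : L.Relations n)
    (M : Fin n → Prop) (v : Fin n → C) (x : C) (hM : ∀ j, M j → Lnk L (v j) x)
    (A T : Finset ℚ) (hA : ∀ j, M j → su (v j) ⊆ A) (hT : ∀ j, ¬ M j → su (v j) ⊆ T)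
    (a b : ℚ) (ha : a ∈ A) :
    ∀ (N : ℕ) (g g' : Gam), (∀ c ∈ A, c ≠ b → g c = g' c) → g b < g' b →
      (∀ j, ¬ M j → ∀ h : Gam, g a ≤ h a → h a ≤ g' a → ¬ Lnk L (h • x) (v j)) →
      (T.filter fun t => g b < t ∧ t < g' b).card ≤ N →
      (Structure.RelMap R (ONE_W M v g') ↔ Structure.RelMap R (ONE_W M v g)) := by
  classical
  intro N
  induction N with
  | zero =>
    intro g g' hag hlt hJ hN
    have hem : T.filter (fun t => g b < t ∧ t < g' b) = ∅ := Finset.card_eq_zero.1 (by omega)
    have hno : ∀ t ∈ T, ¬ (g b < t ∧ t < g' b) := by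
      intro t ht h
      have : t ∈ T.filter (fun t => g b < t ∧ t < g' b) := Finset.mem_filter.2 ⟨ht, h⟩
      rw [hem] at this
      exact absurd this (Finset.notMem_empty t)
    obtain ⟨q, hq1, hq2⟩ := exists_between hlt
    obtain ⟨g'', hg1, hg2⟩ := ONE_btw hEXT A g g' b q (fun c hc hbc => hag c hc (ne_of_gt hbc)) hq1
      hq2.le
    have hgle : g a ≤ g' a := by
      by_cases hab : a = b
      · rw [hab]; exact hlt.le
      · rw [hag a ha hab]
    -- g to g''
    have e1 : Structure.RelMap R (ONE_W M v g'') ↔ Structure.RelMap R (ONE_W M v g) := by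
      obtain ⟨δ, d1, d2, d3⟩ := ONE_del hEXT A T g g'' b (fun c hc hne => (hg1 c hc hne).symm) (by
        intro t ht hne
        rcases lt_or_gt_of_ne hne with h | h
        · left
          refine ⟨h, ?_⟩
          rw [hg2]; exact lt_trans h hq1
        · right
          refine ⟨h, ?_⟩
          rw [hg2]
          exact lt_of_lt_of_le hq2 (not_lt.1 fun h' => hno t ht ⟨h, h'⟩))
      exact ONE_stp hSU hC R M v x hM A T hA hT g g'' δ b (fun c hc hne => (hg1 c hc hne).symm)
        (fun j hj => hJ j hj g le_rfl hgle) d1 d2 d3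
    have e2 : Structure.RelMap R (ONE_W M v g'') ↔ Structure.RelMap R (ONE_W M v g') := by
      have hag' : ∀ c ∈ A, c ≠ b → g' c = g'' c := fun c hc hne => by
        rw [hg1 c hc hne, hag c hc hne]
      obtain ⟨δ, d1, d2, d3⟩ := ONE_del hEXT A T g' g'' b hag' (by
        intro t ht hne
        rcases lt_or_gt_of_ne hne with h | h
        · left
          refine ⟨h, ?_⟩
          rw [hg2]
          exact lt_of_le_of_lt (not_lt.1 fun h' => hno t ht ⟨h', h⟩) hq1
        · right
          refine ⟨h, ?_⟩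
          rw [hg2]; exact lt_trans hq2 h)
      exact ONE_stp hSU hC R M v x hM A T hA hT g' g'' δ b hag'
        (fun j hj => hJ j hj g' hgle le_rfl) d1 d2 d3
    exact e2.symm.trans e1
  | succ N ih =>
    intro g g' hag hlt hJ hN
    by_cases hem : T.filter (fun t => g b < t ∧ t < g' b) = ∅
    · refine ih g g' hag hlt hJ ?_
      rw [hem]; simp
    · obtain ⟨q, hq⟩ := Finset.nonempty_iff_ne_empty.2 hem
      obtain ⟨hqT, hq1, hq2⟩ := Finset.mem_filter.1 hq
      obtain ⟨g'', hg1, hg2⟩ := ONE_btw hEXT A g g' b q (fun c hc hbc => hag c hc (ne_of_gt hbc))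
        hq1 hq2.le
      have hag' : ∀ c ∈ A, c ≠ b → g'' c = g' c := fun c hc hne => by
        rw [hg1 c hc hne, hag c hc hne]
      have ga1 : g a ≤ g'' a := by
        by_cases hab : a = b
        · rw [hab, hg2]; exact hq1.le
        · rw [hg1 a ha hab]
      have ga2 : g'' a ≤ g' a := by
        by_cases hab : a = b
        · rw [hab, hg2]; exact hq2.le
        · rw [hag' a ha hab]
      have e1 : Structure.RelMap R (ONE_W M v g'') ↔ Structure.RelMap R (ONE_W M v g) := by
        refine ih g g'' (fun c hc hne => (hg1 c hc hne).symm) (by rw [hg2]; exact hq1)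
          (fun j hj h h1 h2 => hJ j hj h h1 (h2.trans ga2)) ?_
        have : T.filter (fun t => g b < t ∧ t < g'' b) ⊆
            (T.filter fun t => g b < t ∧ t < g' b).erase q := by
          intro t ht
          obtain ⟨h1, h2, h3⟩ := Finset.mem_filter.1 ht
          rw [hg2] at h3
          exact Finset.mem_erase.2 ⟨ne_of_lt h3, Finset.mem_filter.2 ⟨h1, h2, h3.trans hq2⟩⟩
        have h5 := Finset.card_le_card this
        rw [Finset.card_erase_of_mem hq] at h5
        omega
      have e2 : Structure.RelMap R (ONE_W M v g') ↔ Structure.RelMap R (ONE_W M v g'') := by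
        refine ih g'' g' hag' (by rw [hg2]; exact hq2)
          (fun j hj h h1 h2 => hJ j hj h (ga1.trans h1) h2) ?_
        have : T.filter (fun t => g'' b < t ∧ t < g' b) ⊆
            (T.filter fun t => g b < t ∧ t < g' b).erase q := by
          intro t ht
          obtain ⟨h1, h2, h3⟩ := Finset.mem_filter.1 ht
          rw [hg2] at h2
          exact Finset.mem_erase.2 ⟨ne_of_gt h2, Finset.mem_filter.2 ⟨h1, hq1.trans h2, h3⟩⟩
        have h5 := Finset.card_le_card this
        rw [Finset.card_erase_of_mem hq] at h5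
        omega
      exact e2.trans e1

/-- several values change -/
private theorem ONE_all (hEXT : St_EXT) (hSU : St_SU) (hC : Cor L C) {n : ℕ} (R : L.Relations n)
    (M : Fin n → Prop) (v : Fin n → C) (x : C) (hM : ∀ j, M j → Lnk L (v j) x)
    (A T : Finset ℚ) (hA : ∀ j, M j → su (v j) ⊆ A) (hT : ∀ j, ¬ M j → su (v j) ⊆ T)
    (a : ℚ) (ha : a ∈ A) (g' : Gam) :
    ∀ (N : ℕ) (g : Gam), (∀ c ∈ A, g c ≤ g' c) →
      (∀ j, ¬ M j → ∀ h : Gam, g a ≤ h a → h a ≤ g' a → ¬ Lnk L (h • x) (v j)) →
      (A.filter fun t => g t < g' t).card ≤ N →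
      (Structure.RelMap R (ONE_W M v g') ↔ Structure.RelMap R (ONE_W M v g)) := by
  classical
  intro N
  induction N with
  | zero =>
    intro g hle hJ hN
    have hem : A.filter (fun t => g t < g' t) = ∅ := Finset.card_eq_zero.1 (by omega)
    have heq : ∀ c ∈ A, g c = g' c := by
      intro c hc
      refine le_antisymm (hle c hc) (not_lt.1 fun h => ?_)
      have : c ∈ A.filter (fun t => g t < g' t) := Finset.mem_filter.2 ⟨hc, h⟩
      rw [hem] at this
      exact absurd this (Finset.notMem_empty c)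
    have su1 := hSU C hC.ctx.fin
    have : ONE_W M v g' = ONE_W M v g := by
      funext j
      by_cases hj : M j
      · simp only [ONE_W, if_pos hj]
        exact (su1 (v j)).2.2.2 _ _ fun c hc => (heq c (hA j hj hc)).symm
      · simp only [ONE_W, if_neg hj]
    rw [this]
  | succ N ih =>
    intro g hle hJ hN
    by_cases hem : A.filter (fun t => g t < g' t) = ∅
    · refine ih g hle hJ ?_
      rw [hem]; simp
    · have hne := Finset.nonempty_iff_ne_empty.2 hem
      obtain ⟨b, hb, hmax⟩ : ∃ b ∈ A.filter (fun t => g t < g' t),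
          ∀ c ∈ A.filter (fun t => g t < g' t), c ≤ b :=
        ⟨_, Finset.max'_mem _ hne, fun c hc => Finset.le_max' _ c hc⟩
      obtain ⟨hbA, hlt⟩ := Finset.mem_filter.1 hb
      have hgt : ∀ c ∈ A, b < c → g c = g' c := by
        intro c hc hbc
        refine le_antisymm (hle c hc) (not_lt.1 fun h => ?_)
        exact absurd (hmax c (Finset.mem_filter.2 ⟨hc, h⟩)) (not_le.2 hbc)
      obtain ⟨g'', hg1, hg2⟩ := ONE_btw hEXT A g g' b (g' b) hgt hlt le_rfl
      have ga1 : g a ≤ g'' a := by
        by_cases hab : a = b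
        · rw [hab, hg2]; exact hlt.le
        · rw [hg1 a ha hab]
      have ga2 : g'' a ≤ g' a := by
        by_cases hab : a = b
        · rw [hab, hg2]
        · rw [hg1 a ha hab]; exact hle a ha
      have e1 : Structure.RelMap R (ONE_W M v g'') ↔ Structure.RelMap R (ONE_W M v g) :=
        ONE_one hEXT hSU hC R M v x hM A T hA hT a b ha _ g g''
          (fun c hc hne => (hg1 c hc hne).symm) (by rw [hg2]; exact hlt)
          (fun j hj h h1 h2 => hJ j hj h h1 (h2.trans ga2)) le_rfl
      have e2 : Structure.RelMap R (ONE_W M v g') ↔ Structure.RelMap R (ONE_W M v g'') := by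
        refine ih g'' (fun c hc => ?_) (fun j hj h h1 h2 => hJ j hj h (ga1.trans h1) h2) ?_
        · by_cases hcb : c = b
          · rw [hcb, hg2]
          · rw [hg1 c hc hcb]; exact hle c hc
        · have : A.filter (fun t => g'' t < g' t) ⊆ (A.filter fun t => g t < g' t).erase b := by
            intro t ht
            obtain ⟨h1, h2⟩ := Finset.mem_filter.1 ht
            have htb : t ≠ b := by
              rintro rfl
              rw [hg2] at h2
              exact lt_irrefl _ h2
            rw [hg1 t h1 htb] at h2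
            exact Finset.mem_erase.2 ⟨htb, Finset.mem_filter.2 ⟨h1, h2⟩⟩
          have h5 := Finset.card_le_card this
          rw [Finset.card_erase_of_mem hb] at h5
          omega
      exact e2.trans e1

end

/-- [ONE] moving one class -/
theorem thm_ONE (hEXT : St_EXT) (hSU : St_SU) (hCF : St_CF) : St_ONE := by
  classical
  intro L C _ _ hC n R v w w' x g g' H
  have su1 := hSU C hC.ctx.fin
  have cf := hCF L C hC.ctx
  -- the moved positions
  let M : Fin n → Prop := fun j => Lnk L (v j) x ∧ (∀ b ∈ su (v j), g b ≤ g' b) ∧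
    w j = g • v j ∧ w' j = g' • v j
  have hMM : ∀ j, M j ∨ ((∀ a ∈ co L x, ∀ h : Gam, g a ≤ h a → h a ≤ g' a →
      ¬ Lnk L (h • x) (v j)) ∧ w j = v j ∧ w' j = v j) := H
  have hw : w = ONE_W M v g := by
    funext j
    by_cases hj : M j
    · simp only [ONE_W, if_pos hj]; exact hj.2.2.1
    · simp only [ONE_W, if_neg hj]; exact ((hMM j).resolve_left hj).2.1
  have hw' : w' = ONE_W M v g' := by
    funext j
    by_cases hj : M j
    · simp only [ONE_W, if_pos hj]; exact hj.2.2.2
    · simp only [ONE_W, if_neg hj]; exact ((hMM j).resolve_left hj).2.2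
  by_cases hno : ∃ j, M j
  swap
  · have : w' = w := by
      funext j
      have hj : ¬ M j := fun h => hno ⟨j, h⟩
      rw [((hMM j).resolve_left hj).2.2, ((hMM j).resolve_left hj).2.1]
    rw [this]
  obtain ⟨j₀, hj₀⟩ := hno
  by_cases hco : co L x = ∅
  · have : w' = w := by
      funext j
      by_cases hj : M j
      · have h1 : su (v j) = ∅ := by
          by_contra h
          have h2 := hC.ne (v j) (Finset.nonempty_iff_ne_empty.2 h)
          rw [(cf (v j)).2.2.2 x hj.1, hco] at h2
          exact Finset.not_nonempty_empty h2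
        rw [hj.2.2.1, hj.2.2.2]
        refine (su1 (v j)).2.2.2 _ _ fun c hc => ?_
        rw [h1] at hc
        exact absurd hc (Finset.notMem_empty c)
      · rw [((hMM j).resolve_left hj).2.2, ((hMM j).resolve_left hj).2.1]
    rw [this]
  obtain ⟨a, ha⟩ := Finset.nonempty_iff_ne_empty.2 hco
  let A : Finset ℚ := (Finset.univ.filter fun j => M j).biUnion fun j => su (v j)
  let T : Finset ℚ := (Finset.univ.filter fun j => ¬ M j).biUnion fun j => su (v j)
  have hA : ∀ j, M j → su (v j) ⊆ A := fun j hj c hc =>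
    Finset.mem_biUnion.2 ⟨j, Finset.mem_filter.2 ⟨Finset.mem_univ _, hj⟩, hc⟩
  have hT : ∀ j, ¬ M j → su (v j) ⊆ T := fun j hj c hc =>
    Finset.mem_biUnion.2 ⟨j, Finset.mem_filter.2 ⟨Finset.mem_univ _, hj⟩, hc⟩
  have haA : a ∈ A := by
    refine hA j₀ hj₀ ((cf (v j₀)).1 ?_)
    rw [(cf (v j₀)).2.2.2 x hj₀.1]
    exact ha
  rw [hw, hw']
  refine ONE_all hEXT hSU hC R M v x (fun j hj => hj.1) A T hA hT a haA g' _ g ?_ ?_ le_rfl
  · intro c hc
    obtain ⟨j, hj, hcj⟩ := Finset.mem_biUnion.1 hc
    exact (Finset.mem_filter.1 hj).2.2.1 c hcj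
  · intro j hj h h1 h2
    exact ((hMM j).resolve_left hj).1 a ha h h1 h2

end Pool.Agent.AAD
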