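import Pool.Agent.AAD.StB

/-!
AAD, part II: the order of a level all of whose sorts are ordered by `lt b` (ORL; helper53).
-/

set_option autoImplicit false

namespace Pool.Agent.AAD

open FirstOrder.Language Set
open scoped FirstOrder

/-- the structure of the natural numbers with both orders -/
private def ORL_nat : LL where
  M := ℕ
  lt := fun _ x y => x < y
  lin := fun _ => ⟨fun x => lt_irrefl x, fun _ _ _ => lt_trans, fun _ _ h => lt_or_gt_of_ne h⟩

section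

variable {κ : Type} {ar : κ → ℕ} {K : Cla ar} (P : PS K) {E : Set (Fin P.N)}

/-- the order of the code between two elements of the level `l` -/
private def ORL_R (l : LvE P E) (m : LL) (μ ν : m.M) : Prop :=
  al (cdE P E m.M m.lt) (.inl (μ, l)) (.inl (ν, l))

private theorem ORL_R_iff (l : LvE P E) (m : LL) (μ ν : m.M) :
    ORL_R P l m μ ν ↔ TrM P m.lt none (fun _ => l.1.1)
      (fun (j : Fin 2) i => .md ((![μ, ν] : Fin 2 → m.M) j) (l.1.2 i)) := by
  have e1 : (fun j => kd P ((![.inl (μ, l), .inl (ν, l)] : Fin 2 → XE P E m.M) j)) =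
      fun _ => l.1.1 := by
    funext j
    fin_cases j <;> rfl
  have e2 : (fun j => pp P ((![.inl (μ, l), .inl (ν, l)] : Fin 2 → XE P E m.M) j)) =
      fun (j : Fin 2) i => Pos.md ((![μ, ν] : Fin 2 → m.M) j) (l.1.2 i) := by
    funext j
    fin_cases j <;> rfl
  exact iff_of_eq (congrArg₂ (fun (t : Fin (ar' ar none) → Fin P.N)
    (π : Fin (ar' ar none) → Fin P.k → Pos P.N m.M) => TrM P m.lt none t π) e1 e2)

private theorem ORL_asymm {M : Type} {r : M → M → Prop} (h : Lin r) {x y : M} (hne : x ≠ y) :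
    r y x ↔ ¬ r x y := by
  constructor
  · intro h1 h2
    exact h.1 _ (h.2.1 _ _ _ h1 h2)
  · intro h1
    exact (h.2.2 x y hne).resolve_left h1

private theorem ORL_key (hTMI : St_TMI) (l : LvE P E) (b : Bool)
    (hb : ∀ i, P.sp l.1.1 i → bt P i = b) (m m' : LL) (μ ν : m.M) (μ' ν' : m'.M) (h : μ ≠ ν)
    (h' : μ' ≠ ν') (e : m.lt b μ ν ↔ m'.lt b μ' ν') :
    ORL_R P l m μ ν ↔ ORL_R P l m' μ' ν' := by
  rw [ORL_R_iff, ORL_R_iff]
  refine (hTMI κ ar K P m none (fun _ => l.1.1)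
    (fun (j : Fin 2) i => .md ((![μ, ν] : Fin 2 → m.M) j) (l.1.2 i))).2 m'
    (fun (j : Fin 2) i => .md ((![μ', ν'] : Fin 2 → m'.M) j) (l.1.2 i)) ?_
  intro j j' i hi _
  have hbi : bt P i = b := hb i hi
  rw [hbi]
  have key : ∀ j j' : Fin 2, m.lt b ((![μ, ν] : Fin 2 → m.M) j) ((![μ, ν] : Fin 2 → m.M) j') ↔
      m'.lt b ((![μ', ν'] : Fin 2 → m'.M) j) ((![μ', ν'] : Fin 2 → m'.M) j') := by
    intro j j'
    have i1 : ¬ m.lt b μ μ := (m.lin b).1 _
    have i2 : ¬ m.lt b ν ν := (m.lin b).1 _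
    have i3 : ¬ m'.lt b μ' μ' := (m'.lin b).1 _
    have i4 : ¬ m'.lt b ν' ν' := (m'.lin b).1 _
    have a1 := ORL_asymm (m.lin b) h
    have a2 := ORL_asymm (m'.lin b) h'
    fin_cases j <;> fin_cases j'
    · exact iff_of_false i1 i3
    · exact e
    · show m.lt b ν μ ↔ m'.lt b ν' μ'
      rw [a1, a2, e]
    · exact iff_of_false i2 i4
  show (_ ∨ (_ ∧ _)) ↔ (_ ∨ (_ ∧ _))
  simp only [lt_irrefl, and_false, or_false]
  exact key j j'

private theorem ORL_lbl (l : LvE P E) {M : Type} (x : XE P E M) :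
    lbl P x = .inl l ↔ ∃ μ, x = .inl (μ, l) := by
  constructor
  · intro h
    rcases x with x | r
    · refine ⟨x.1, ?_⟩
      have h1 : x.2 = l := Sum.inl_injective h
      rw [← h1]
    · exact absurd h (by simp [lbl])
  · rintro ⟨μ, rfl⟩
    rfl

/-- the truth value of the order on a level -/
private theorem ORL_main (hTMI : St_TMI) (hCLN : St_CLN) (l : LvE P E) (b : Bool)
    (hb : ∀ i, P.sp l.1.1 i → bt P i = b) :
    (∀ (m : LL) (μ ν : m.M), ORL_R P l m μ ν ↔ m.lt b μ ν) ∨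
    (∀ (m : LL) (μ ν : m.M), ORL_R P l m ν μ ↔ m.lt b μ ν) := by
  have hlin : ∀ m : LL, Lin (fun μ ν : m.M => ORL_R P l m μ ν) := by
    intro m
    have h := (hCLN κ ar K P E m).1
    refine ⟨fun x => h.1 _, fun x y z => h.2.1 _ _ _, fun x y hxy => h.2.2 _ _ ?_⟩
    intro h1
    have h2 := Sum.inl_injective h1
    exact hxy (congrArg Prod.fst h2)
  by_cases hσ : ORL_R P l ORL_nat (0 : ℕ) (1 : ℕ)
  · left
    have h1 : ∀ (m : LL) (μ ν : m.M), m.lt b μ ν → ORL_R P l m μ ν := by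
      intro m μ ν h
      have hne : μ ≠ ν := by
        rintro rfl
        exact (m.lin b).1 _ h
      exact (ORL_key P hTMI l b hb m ORL_nat μ ν (0 : ℕ) (1 : ℕ) hne Nat.zero_ne_one
        (iff_of_true h Nat.zero_lt_one)).2 hσ
    intro m μ ν
    refine ⟨fun h => ?_, h1 m μ ν⟩
    have hne : μ ≠ ν := by
      rintro rfl
      exact (hlin m).1 _ h
    by_contra hn
    exact (hlin m).1 _ ((hlin m).2.1 _ _ _ h (h1 m ν μ ((ORL_asymm (m.lin b) hne).2 hn)))
  · right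
    have h1 : ∀ (m : LL) (μ ν : m.M), m.lt b μ ν → ORL_R P l m ν μ := by
      intro m μ ν h
      have hne : μ ≠ ν := by
        rintro rfl
        exact (m.lin b).1 _ h
      refine (ORL_asymm (hlin m) hne).2 fun h2 => hσ ?_
      exact (ORL_key P hTMI l b hb m ORL_nat μ ν (0 : ℕ) (1 : ℕ) hne Nat.zero_ne_one
        (iff_of_true h Nat.zero_lt_one)).1 h2
    intro m μ ν
    refine ⟨fun h => ?_, h1 m μ ν⟩
    have hne : μ ≠ ν := by
      rintro rfl
      exact (hlin m).1 _ h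
    by_contra hn
    exact (hlin m).1 _ ((hlin m).2.1 _ _ _ h (h1 m ν μ ((ORL_asymm (m.lin b) hne).2 hn)))

end

theorem thm_ORL (hTMI : St_TMI) (hCLN : St_CLN) : St_ORL := by
  intro κ ar K P E l b hb
  have hu : ∀ i : Fin 2, UDE P E (Fin 2) fun m v => lbl P (v i) = .inl l := fun i =>
    UD_rel (B := LA (LvE P E ⊕ Rf P) ar) (J := LL) (n := 1)
      (Sm.un (.inl l) : Sm (LvE P E ⊕ Rf P) ar 1) (fun _ : Fin 1 => i)
  have hr : ∀ f : Fin 2 → Fin 2, UDE P E (Fin 2) fun m v =>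
      rr (cdE P E m.M m.lt) none (fun i : Fin 2 => v (f i)) := fun f =>
    UD_rel (B := LA (LvE P E ⊕ Rf P) ar) (J := LL) (n := ar' ar none)
      (Sm.rl none : Sm (LvE P E ⊕ Rf P) ar (ar' ar none)) f
  rcases ORL_main P hTMI hCLN l b hb with h | h
  · refine UD_congr (UD_and (hu 0) (UD_and (hu 1) (hr id))) ?_
    intro m v
    rw [ORL_lbl, ORL_lbl]
    have e : (fun i : Fin 2 => v (id i)) = ![v 0, v 1] := by
      funext i
      fin_cases i <;> rfl
    rw [e]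
    constructor
    · rintro ⟨⟨μ, h0⟩, ⟨ν, h1⟩, h2⟩
      refine ⟨μ, ν, h0, h1, (h m μ ν).1 ?_⟩
      rw [h0, h1] at h2
      exact h2
    · rintro ⟨μ, ν, h0, h1, h2⟩
      refine ⟨⟨μ, h0⟩, ⟨ν, h1⟩, ?_⟩
      rw [h0, h1]
      exact (h m μ ν).2 h2
  · refine UD_congr (UD_and (hu 0) (UD_and (hu 1) (hr ![1, 0]))) ?_
    intro m v
    rw [ORL_lbl, ORL_lbl]
    have e : (fun i : Fin 2 => v ((![1, 0] : Fin 2 → Fin 2) i)) = ![v 1, v 0] := by
      funext i
      fin_cases i <;> rfl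
    rw [e]
    constructor
    · rintro ⟨⟨μ, h0⟩, ⟨ν, h1⟩, h2⟩
      refine ⟨μ, ν, h0, h1, (h m μ ν).1 ?_⟩
      rw [h0, h1] at h2
      exact h2
    · rintro ⟨μ, ν, h0, h1, h2⟩
      refine ⟨⟨μ, h0⟩, ⟨ν, h1⟩, ?_⟩
      rw [h0, h1]
      exact (h m μ ν).2 h2

end Pool.Agent.AAD
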