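import Pool.Agent.AAD.StC
import Pool.Agent.MNO.ALL
import Pool.Agent.VPF.CodI

/-!
[POS] ordered structures without arrays: the positive half, from `Pool/Agent/MNO`.
-/

set_option autoImplicit false
set_option linter.unusedVariables false

namespace Pool.Agent.AAD

open FirstOrder.Language Set
open scoped FirstOrder
open Pool.Agent.WOM (tp Mon CtT PerfT ThS)
open Pool.Agent.PMC (rel)
open Pool.Agent.MNO (Cx Dp Exa)
open Pool.Agent.Helper6.Str (PerfK CtblK Iso)
open VPF (ModF)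

section

variable {ι κ : Type} {ar : κ → ℕ}

/-- the formula of the order -/
def POS_fl (ι : Type) {κ : Type} (ar : κ → ℕ) : (LA ι ar).Formula (Fin 2) :=
  Relations.formula₂ (L := LA ι ar) (Sm.rl none : Sm ι ar 2) (Term.var 0) (Term.var 1)

theorem POS_real {M : Type} (S : (LA ι ar).Structure M) (x y : M) :
    @rel (LA ι ar) M S (POS_fl ι ar) x y ↔ al S x y := by
  let _ := S
  exact Formula.realize_rel₂

theorem POS_fun (n : ℕ) : IsEmpty ((LA ι ar).Functions n) := (inferInstance : IsEmpty Empty)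

theorem POS_ctb (hι : Countable ι) (hκ : Countable κ) : Countable (LA ι ar).Symbols := by
  have h1 : Countable (Σ m, (LA ι ar).Functions m) := by
    have : ∀ m, Countable ((LA ι ar).Functions m) := fun m => (inferInstance : Countable Empty)
    infer_instance
  have h2 : Countable (Σ m, (LA ι ar).Relations m) := by
    let g : ι ⊕ Option κ → Σ m, (LA ι ar).Relations m := fun t => match t with
      | Sum.inl i => ⟨1, (Sm.un i : Sm ι ar 1)⟩
      | Sum.inr c => ⟨ar' ar c, (Sm.rl c : Sm ι ar (ar' ar c))⟩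
    refine Function.Surjective.countable (f := g) ?_
    rintro ⟨m, s⟩
    cases s with
    | un i => exact ⟨Sum.inl i, rfl⟩
    | rl c => exact ⟨Sum.inr c, rfl⟩
  exact (inferInstance : Countable ((Σ m, (LA ι ar).Functions m) ⊕ (Σ m, (LA ι ar).Relations m)))

/-- the hypotheses in the saturated model -/
theorem POS_cx (T : (LA ι ar).Theory)
    (hT : ∀ S ∈ ModF T, Lin (al S) ∧ ∀ (m n : ℕ) (φ : (LA ι ar).Formula ((Fin m ⊕ Fin n) ⊕ Unit)),
      ∃ k, ¬ Exk (fun (x : Fin m → ℕ) (y : Fin n → ℕ) (z : ℕ) =>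
        @Formula.Realize _ _ S _ φ (Sum.elim (Sum.elim x y) fun _ => z)) k)
    (U : Type) [(LA ι ar).Structure U] (hUT : U ⊨ T) (hM : Mon (LA ι ar) U) :
    Cx (LA ι ar) (fun _ : Unit => rel (LA ι ar) U (POS_fl ι ar)) id := by
  classical
  have hctb : Countable U := hM.ctb
  have hinf : Infinite U := hM.inf
  obtain ⟨e⟩ : Nonempty (U ≃ ℕ) := nonempty_equiv_of_countable
  let S0 : (LA ι ar).Structure ℕ := e.inducedStructure
  let E : @FirstOrder.Language.Equiv (LA ι ar) U ℕ _ S0 := e.inducedStructureEquiv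
  have hmod0 : @FirstOrder.Language.Theory.Model (LA ι ar) ℕ S0 T :=
    FirstOrder.Language.StrongHomClass.theory_model E
  obtain ⟨⟨hir, htr, hto⟩, hex⟩ := hT S0 hmod0
  have hrel : ∀ x y : U, rel (LA ι ar) U (POS_fl ι ar) x y ↔ al S0 (E x) (E y) := fun x y =>
    (Pool.Agent.PMC.HYU.rel_iso E (POS_fl ι ar) x y).symm.trans (POS_real S0 (E x) (E y))
  have htra : ∀ x y z : U, rel (LA ι ar) U (POS_fl ι ar) x y →
      rel (LA ι ar) U (POS_fl ι ar) y z → rel (LA ι ar) U (POS_fl ι ar) x z := by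
    intro x y z h1 h2
    rw [hrel] at *
    exact htr _ _ _ h1 h2
  refine ⟨hM, ⟨()⟩, fun _ _ => rfl, ?_, fun _ => rfl, ?_, fun _ => htra, ?_, ?_, ?_⟩
  · intro _
    rw [Set.empty_definable_iff]
    refine ⟨POS_fl ι ar, ?_⟩
    ext v
    have hv : (![v 0, v 1] : Fin 2 → U) = v := by
      funext i
      fin_cases i <;> rfl
    simp only [Set.mem_ofPred_eq]
    unfold rel
    rw [hv]
  · intro _ x hx
    rw [hrel] at hx
    exact hir _ hx
  · intro _ x y hxy
    rw [hrel, hrel]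
    exact hto _ _ (fun he => hxy (E.injective he))
  · intro _ u x hx y hy
    exact htra y x u hy hx
  · intro m n P hP
    obtain ⟨ψ, hψ⟩ := Pool.Agent.MNO.dp_form hP
    let φ : (LA ι ar).Formula ((Fin m ⊕ Fin n) ⊕ Unit) :=
      ψ.relabel (Sum.elim (fun a => absurd a.2 (notMem_empty _)) (fun i => i))
    have hφ : ∀ (x : Fin m → U) (y : Fin n → U) (z : U), P x y z ↔
        φ.Realize (Sum.elim (Sum.elim x y) fun _ => z) := by
      intro x y z
      have h1 := hψ (Sum.elim (Sum.elim x y) fun _ => z)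
      refine h1.trans ?_
      show _ ↔ (ψ.relabel _).Realize _
      rw [FirstOrder.Language.Formula.realize_relabel]
      apply iff_of_eq
      congr 1
      funext i
      rcases i with i | i
      · exact absurd i.2 (notMem_empty _)
      · rfl
    obtain ⟨k, hk⟩ := hex m n φ
    refine ⟨k, fun ⟨x, y, z, h⟩ => hk ⟨fun i t => E (x i t), fun i t => E (y i t),
      fun a b => E (z a b), fun i j a b => ?_⟩⟩
    have e1 : (Sum.elim (Sum.elim (fun t => E (x i t)) (fun t => E (y j t)))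
        (fun _ => E (z a b)) : (Fin m ⊕ Fin n) ⊕ Unit → ℕ) =
        E ∘ (Sum.elim (Sum.elim (x i) (y j)) (fun _ => z a b)) := by
      funext t
      rcases t with (t | t) | t <;> rfl
    show @Formula.Realize (LA ι ar) ℕ S0 _ φ (Sum.elim (Sum.elim (fun t => E (x i t))
      (fun t => E (y j t))) (fun _ => E (z a b))) ↔ i = a ∧ j = b
    rw [e1, FirstOrder.Language.StrongHomClass.realize_formula E]
    exact (hφ _ _ _).symm.trans (h i j a b)

theorem POS_of (hULT : Pool.Agent.WOM.St_ULT) (hSUBM : Pool.Agent.WOM.St_SUBM)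
    (hHOMG : Pool.Agent.WOM.St_HOMG) (hINC : Pool.Agent.WOM.St_INC)
    (hNSM : Pool.Agent.WOM.St_NSM) (hTRC : Pool.Agent.WOM.St_TRC)
    (hEND : Pool.Agent.MNO.St_END) (hNPG : Pool.Agent.MNO.St_NPG)
    (hL : Countable (LA ι ar).Symbols) (T : (LA ι ar).Theory)
    (hT : ∀ S ∈ ModF T, Lin (al S) ∧ ∀ (m n : ℕ) (φ : (LA ι ar).Formula ((Fin m ⊕ Fin n) ⊕ Unit)),
      ∃ k, ¬ Exk (fun (x : Fin m → ℕ) (y : Fin n → ℕ) (z : ℕ) =>
        @Formula.Realize _ _ S _ φ (Sum.elim (Sum.elim x y) fun _ => z)) k) :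
    CtT (LA ι ar) T ∨ PerfT (LA ι ar) T := by
  refine hINC (LA ι ar) hL T fun S hS => ?_
  by_cases hp : PerfT (LA ι ar) (ThS (LA ι ar) S)
  · exact Or.inr hp
  · have hsm : Pool.Agent.WOM.Small (LA ι ar) (ThS (LA ι ar) S) := by
      by_contra h
      exact hp (hNSM (LA ι ar) hL _ h)
    obtain ⟨V, _, _, hV, hsV⟩ := hULT (LA ι ar) hL S
    obtain ⟨U, _, hc, hi, hU, hsU⟩ := hSUBM (LA ι ar) hL S hsm V hV hsV
    have hM : Mon (LA ι ar) U := hHOMG (LA ι ar) U hc hi hsU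
    have hC := POS_cx T hT U (Pool.Agent.WOM.TOP_mono (LA ι ar) T S hS U hU) hM
    have hN := hNPG (LA ι ar) hL U hM S hU hp
    exact Or.inl (hTRC (LA ι ar) U hM (hEND (LA ι ar) U Unit _ id hC hN) S hU)

end

theorem thm_POS : St_POS := by
  intro ι κ hι hκ ar T hT
  have hL : Countable (LA ι ar).Symbols := POS_ctb hι hκ
  have hDEF1 := Pool.Agent.WOM.thm_DEF1 Pool.Agent.WOM.thm_DEFF
  have hREAL := Pool.Agent.WOM.thm_REAL Pool.Agent.WOM.thm_MEAS
  have h := POS_of (Pool.Agent.WOM.thm_ULT hDEF1) (Pool.Agent.WOM.thm_SUBM hDEF1)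
    (Pool.Agent.WOM.thm_HOMG hDEF1) (Pool.Agent.WOM.thm_INC Pool.Agent.WOM.thm_MEAS hREAL)
    (Pool.Agent.WOM.thm_NSM Pool.Agent.WOM.thm_MEAS hREAL)
    (Pool.Agent.WOM.thm_TRC (Pool.Agent.WOM.thm_EMB hDEF1)) Pool.Agent.MNO.all_END
    (Pool.Agent.MNO.thm_NPG Pool.Agent.PMC.thm_NPU) hL T hT
  have hf : ∀ n, IsEmpty ((LA ι ar).Functions n) := POS_fun
  rcases h with ⟨g, hg⟩ | ⟨f, h1, h2, h3, _⟩
  · exact Or.inl ⟨g, fun S hS => (hg S hS).imp fun n h => VPF.CC.iso_of_equiv h⟩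
  · exact Or.inr ⟨f, h1, fun x y h => h2 x y (VPF.CC.equiv_of_iso h), h3⟩

end Pool.Agent.AAD
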