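import Pool.Agent.AAD.StD
import Pool.Agent.AAD.POS

/-!
[POS2] monadically NIP classes: the positive half, from `Pool/Agent/MNO`.
-/

set_option autoImplicit false
set_option linter.unusedVariables false

namespace Pool.Agent.AAD

open FirstOrder.Language Set
open scoped FirstOrder
open Pool.Agent.WOM (CtT PerfT)
open Pool.Agent.PMC (rel)
open Pool.Agent.Helper6.Str (PerfK CtblK Iso)
open VPF (ModF)

section

variable {ι κ : Type} {ar : κ → ℕ}

/-- the expansion of `S` by the set `P` -/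
@[instance_reducible]
def POS2_exp (S : (LA ι ar).Structure ℕ) (P : Set ℕ) : (LA (Option ι) ar).Structure ℕ where
  funMap := fun f _ => Empty.elim f
  RelMap := fun {n} R => match n, R with
    | _, .un none => fun v => v 0 ∈ P
    | _, .un (some i) => fun v => au S i (v 0)
    | _, .rl s => fun v => rr S s v

/-- the inclusion of the languages -/
def POS2_hom (ι : Type) {κ : Type} (ar : κ → ℕ) : LA ι ar →ᴸ LA (Option ι) ar where
  onFunction := fun {_} f => Empty.elim f
  onRelation := fun {n} R => match n, R with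
    | _, .un i => Sm.un (some i)
    | _, .rl s => Sm.rl s

theorem POS2_isexp (S : (LA ι ar).Structure ℕ) (P : Set ℕ) :
    @LHom.IsExpansionOn (LA ι ar) (LA (Option ι) ar) (POS2_hom ι ar) ℕ S (POS2_exp S P) := by
  let _ := S
  let _ := POS2_exp S P
  refine LHom.IsExpansionOn.mk (fun {n} f _ => Empty.elim f) ?_
  intro n R x
  cases R with
  | un i =>
    have hx : (fun _ => x 0) = x := by
      funext k
      fin_cases k
      rfl
    show S.RelMap (n := 1) (Sm.un i : Sm ι ar 1) (fun _ => x 0) =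
      S.RelMap (n := 1) (Sm.un i : Sm ι ar 1) x
    rw [hx]
  | rl s => rfl

theorem POS2_inK {K : Cla ar} (S : (LA ι ar).Structure ℕ) (P : Set ℕ) (h : InK K S) :
    InK K (POS2_exp S P) := h

/-- the formula `∃ z, z ∈ P ∧ φ` -/
noncomputable def POS2_fm {m n : ℕ} (φ : (LA ι ar).Formula ((Fin m ⊕ Fin n) ⊕ Unit)) :
    (LA (Option ι) ar).Formula (Fin m ⊕ Fin n) :=
  ((POS2_hom ι ar).onFormula φ ⊓
    Relations.formula₁ (L := LA (Option ι) ar) (Sm.un none : Sm (Option ι) ar 1)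
      (Term.var (Sum.inr ()))).iExs Unit

theorem POS2_iff (S : (LA ι ar).Structure ℕ) (P : Set ℕ) {m n : ℕ}
    (φ : (LA ι ar).Formula ((Fin m ⊕ Fin n) ⊕ Unit)) (v : Fin m ⊕ Fin n → ℕ) :
    @Formula.Realize (LA (Option ι) ar) ℕ (POS2_exp S P) _ (POS2_fm φ) v ↔
      ∃ z ∈ P, @Formula.Realize (LA ι ar) ℕ S _ φ (Sum.elim v fun _ => z) := by
  let _ := S
  let _ := POS2_exp S P
  have _ := POS2_isexp S P
  unfold POS2_fm
  rw [Formula.realize_iExs]
  have key : ∀ w : (Fin m ⊕ Fin n) ⊕ Unit → ℕ,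
      (((POS2_hom ι ar).onFormula φ ⊓
        Relations.formula₁ (L := LA (Option ι) ar) (Sm.un none : Sm (Option ι) ar 1)
          (Term.var (Sum.inr ()))).Realize w ↔ φ.Realize w ∧ w (Sum.inr ()) ∈ P) := by
    intro w
    rw [Formula.realize_inf, LHom.realize_onFormula, Formula.realize_rel₁]
    exact Iff.rfl
  constructor
  · rintro ⟨z, hz⟩
    have h1 := (key _).1 hz
    exact ⟨z (), h1.2, h1.1⟩
  · rintro ⟨z, hz, hz'⟩
    exact ⟨fun _ => z, (key _).2 ⟨hz', hz⟩⟩

theorem POS2_hyp {K : Cla ar} (hι : Countable ι) (hK : MonNIP K) (S : (LA ι ar).Structure ℕ)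
    (h : InK K S) : @Pool.Agent.MNO.Hyp (LA ι ar) ℕ S (POS_fl ι ar) := by
  obtain ⟨hir, htr, hto⟩ := h.1
  refine @Pool.Agent.MNO.Hyp.mk (LA ι ar) ℕ S (POS_fl ι ar) ?_ ?_ ?_ ?_
  · intro x hx
    exact hir x ((POS_real S x x).1 hx)
  · intro x y z h1 h2
    exact (POS_real S x z).2 (htr x y z ((POS_real S x y).1 h1) ((POS_real S y z).1 h2))
  · intro x y hxy
    exact (hto x y hxy).imp (POS_real S x y).2 (POS_real S y x).2
  · intro P m n φ
    have hc : Countable (Option ι) := inferInstance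
    obtain ⟨k, hk⟩ := hK (Option ι) hc (POS2_exp S P) (POS2_inK S P h) m n (POS2_fm φ)
    refine ⟨k, fun ⟨x, y, hxy⟩ => hk ⟨x, y, fun i s => ?_⟩⟩
    rw [← hxy i s]
    exact POS2_iff S P φ _

end

theorem thm_POS2 : St_POS2 := by
  intro κ hκ ar K hK ι hι T hT
  have hL : Countable (LA ι ar).Symbols := POS_ctb hι hκ
  have h := Pool.Agent.MNO.all_MAIN (LA ι ar) hL T (POS_fl ι ar)
    (fun S hS => POS2_hyp hι hK S (hT S hS))
  have hf : ∀ n, IsEmpty ((LA ι ar).Functions n) := POS_fun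
  rcases h with ⟨g, hg⟩ | ⟨f, h1, h2, h3, _⟩
  · exact Or.inl ⟨g, fun S hS => (hg S hS).imp fun n h => VPF.CC.iso_of_equiv h⟩
  · exact Or.inr ⟨f, h1, fun x y h => h2 x y (VPF.CC.equiv_of_iso h), h3⟩

end Pool.Agent.AAD
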