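import Pool.Agent.AAD.StB

/-!
AAD, module RLV: relativisation (helper20)
-/

set_option autoImplicit false
set_option linter.unusedVariables false
set_option linter.unusedSectionVars false

namespace Pool.Agent.AAD

open FirstOrder.Language Set
open scoped FirstOrder

section

variable {κ : Type} {ar : κ → ℕ} {K : Cla ar} (P : PS K) {E E' : Set (Fin P.N)} (h : E ⊆ E')

private theorem RLV_inj {M : Type} : Function.Injective (xinc P h (M := M)) := by
  rintro (⟨μ, l⟩ | r) (⟨μ', l'⟩ | r') e
  · simp only [xinc, Sum.inl.injEq, Prod.mk.injEq] at e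
    obtain ⟨e1, e2⟩ := e
    subst e1
    have e3 : l = l' := Subtype.ext (congrArg (fun z : LvE P E' => z.1) e2)
    rw [e3]
  · simp [xinc] at e
  · simp [xinc] at e
  · simpa [xinc] using e

private theorem RLV_kd {M : Type} (x : XE P E M) : kd P (xinc P h x) = kd P x := by
  cases x <;> rfl

private theorem RLV_pp {M : Type} (x : XE P E M) : pp P (xinc P h x) = pp P x := by
  cases x <;> rfl

/-- the label in the larger code -/
private def RLV_lb : LvE P E ⊕ Rf P → LvE P E' ⊕ Rf P
  | .inl l => .inl ⟨l.1, h l.2.1, l.2.2⟩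
  | .inr r => .inr r

private theorem RLV_lbl {M : Type} (x : XE P E M) (l : LvE P E ⊕ Rf P) :
    lbl P (xinc P h x) = RLV_lb P h l ↔ lbl P x = l := by
  rcases x with ⟨μ, l'⟩ | r <;> rcases l with l | r'
  · simp only [xinc, lbl, RLV_lb, Sum.inl.injEq]
    constructor
    · intro e
      exact Subtype.ext (congrArg (fun z : LvE P E' => z.1) e)
    · rintro rfl
      rfl
  · simp [xinc, lbl, RLV_lb]
  · simp [xinc, lbl, RLV_lb]
  · simp [xinc, lbl, RLV_lb]

private theorem RLV_rng {M : Type} (x : XE P E' M) :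
    (∃ y, x = xinc P h y) ↔ ∃ l : LvE P E ⊕ Rf P, lbl P x = RLV_lb P h l := by
  constructor
  · rintro ⟨y, rfl⟩
    exact ⟨lbl P y, (RLV_lbl P h y _).2 rfl⟩
  · rintro ⟨l, hl⟩
    rcases x with ⟨μ, l'⟩ | r
    · rcases l with l | r'
      · simp only [lbl, RLV_lb, Sum.inl.injEq] at hl
        exact ⟨.inl (μ, l), by rw [hl]; rfl⟩
      · simp [lbl, RLV_lb] at hl
    · exact ⟨.inr r, rfl⟩

private theorem RLV_fin : Finite (LvE P E ⊕ Rf P) := by
  have h1 : Finite (LvE P E) := by unfold LvE; infer_instance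
  have h2 : Finite (Rf P) := by unfold Rf; infer_instance
  infer_instance

private theorem RLV_one {β : Type} (a : β) :
    UDE P E' β fun m v => ∃ y : XE P E m.M, v a = xinc P h y := by
  have := RLV_fin P (E := E)
  refine UD_congr (UD_fex (I := LvE P E ⊕ Rf P) (Q := fun l m v => lbl P (v a) = RLV_lb P h l)
    fun l => ?_) fun m v => ?_
  · exact UD_rel (B := LA (LvE P E' ⊕ Rf P) ar) (n := 1) (Sm.un (RLV_lb P h l)) fun _ => a
  · exact (RLV_rng P h _).symm

private theorem RLV_all {β : Type} [Finite β] :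
    UDE P E' β fun m v => ∀ a, ∃ y : XE P E m.M, v a = xinc P h y :=
  UD_fin fun a => RLV_one P h a

/-- from pointwise statements -/
private theorem RLV_of {β : Type} [Finite β] {Q : ∀ m : LL, (β → XE P E m.M) → Prop}
    {Q' : ∀ m : LL, (β → XE P E' m.M) → Prop} (hQ : UDE P E' β Q')
    (e : ∀ m w, Q' m (fun a => xinc P h (w a)) ↔ Q m w) :
    UDE P E' β fun m v => ∃ w : β → XE P E m.M, (∀ a, v a = xinc P h (w a)) ∧ Q m w := by
  refine UD_congr (UD_and (RLV_all P h) hQ) fun m v => ?_
  constructor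
  · rintro ⟨h1, h2⟩
    choose w hw using h1
    refine ⟨w, hw, ?_⟩
    rw [← e]
    rwa [← funext hw]
  · rintro ⟨w, hw, h2⟩
    refine ⟨fun a => ⟨w a, hw a⟩, ?_⟩
    rw [funext hw, e]
    exact h2

private theorem RLV_to {β : Type} {Q : ∀ m : LL, (β → XE P E m.M) → Prop} (m : LL)
    (w : β → XE P E m.M) :
    (∃ w' : β → XE P E m.M, (∀ a, xinc P h (w a) = xinc P h (w' a)) ∧ Q m w') ↔ Q m w := by
  constructor
  · rintro ⟨w', hw, h2⟩
    rwa [funext fun a => RLV_inj P h (hw a)]
  · exact fun h2 => ⟨w, fun _ => rfl, h2⟩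

private def RLV_sh {α : Type} {n : ℕ} : α ⊕ Fin (n + 1) → (α ⊕ Fin n) ⊕ Unit
  | .inl a => .inl (.inl a)
  | .inr i => Fin.lastCases (motive := fun _ => (α ⊕ Fin n) ⊕ Unit) (.inr ())
      (fun i => .inl (.inr i)) i

private theorem RLV_main {α : Type} [Finite α] {n : ℕ}
    (φ : (LA (LvE P E ⊕ Rf P) ar).BoundedFormula α n) :
    UDE P E' (α ⊕ Fin n) fun m v => ∃ w : α ⊕ Fin n → XE P E m.M,
      (∀ a, v a = xinc P h (w a)) ∧
        @BoundedFormula.Realize _ _ (cdE P E m.M m.lt) _ _ φ (fun a => w (.inl a))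
          (fun i => w (.inr i)) := by
  have ht : ∀ (β : Type) (t : (LA (LvE P E ⊕ Rf P) ar).Term β), ∃ b, t = Term.var b := by
    intro β t
    cases t with
    | var i => exact ⟨i, rfl⟩
    | func f _ => exact Empty.elim f
  induction φ with
  | falsum => exact RLV_of P h (UD_const False) fun m w => Iff.rfl
  | @equal n t₁ t₂ =>
    obtain ⟨a, rfl⟩ := ht _ t₁
    obtain ⟨b, rfl⟩ := ht _ t₂
    refine RLV_of P h (UD_eq a b) fun m w => ?_
    rw [(RLV_inj P h).eq_iff]
    have e1 : ∀ c : α ⊕ Fin n, Sum.elim (fun a => w (.inl a)) (fun i => w (.inr i)) c = w c := by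
      rintro (c | c) <;> rfl
    show w a = w b ↔ Sum.elim (fun a => w (.inl a)) (fun i => w (.inr i)) a =
      Sum.elim (fun a => w (.inl a)) (fun i => w (.inr i)) b
    rw [e1, e1]
  | @rel n k R ts =>
    choose f hf using fun i => ht _ (ts i)
    obtain rfl : ts = fun i => Term.var (f i) := funext hf
    have e1 : ∀ (m : LL) (w : α ⊕ Fin n → XE P E m.M) (c : α ⊕ Fin n),
        Sum.elim (fun a => w (.inl a)) (fun i => w (.inr i)) c = w c := by
      rintro m w (c | c) <;> rfl
    have e2 : ∀ (m : LL) (w : α ⊕ Fin n → XE P E m.M),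
        (@BoundedFormula.Realize _ _ (cdE P E m.M m.lt) _ _
          (BoundedFormula.rel R fun i => Term.var (f i)) (fun a => w (.inl a))
          (fun i => w (.inr i))) ↔ (cdE P E m.M m.lt).RelMap R fun i => w (f i) := by
      intro m w
      have e3 : (fun i => w (f i)) =
          fun i => Sum.elim (fun a => w (.inl a)) (fun i => w (.inr i)) (f i) :=
        funext fun i => (e1 m w (f i)).symm
      rw [e3]
      exact Iff.rfl
    cases R with
    | un l =>
      refine RLV_of P h (UD_rel (B := LA (LvE P E' ⊕ Rf P) ar) (n := 1) (Sm.un (RLV_lb P h l)) f)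
        fun m w => ?_
      rw [e2]
      exact RLV_lbl P h _ _
    | rl s =>
      refine RLV_of P h (UD_rel (B := LA (LvE P E' ⊕ Rf P) ar) (n := ar' ar s) (Sm.rl s) f)
        fun m w => ?_
      rw [e2]
      show TrM P m.lt s (fun j => kd P (xinc P h (w (f j)))) (fun j => pp P (xinc P h (w (f j)))) ↔
        TrM P m.lt s (fun j => kd P (w (f j))) (fun j => pp P (w (f j)))
      rw [funext fun j => RLV_kd P h (w (f j)), funext fun j => RLV_pp P h (w (f j))]
  | @imp n φ ψ h1 h2 =>
    refine RLV_of P h (UD_imp h1 h2) fun m w => ?_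
    exact imp_congr (RLV_to P h (Q := fun m w => @BoundedFormula.Realize _ _ (cdE P E m.M m.lt) _ _ φ
      (fun a => w (.inl a)) (fun i => w (.inr i))) m w)
      (RLV_to P h (Q := fun m w => @BoundedFormula.Realize _ _ (cdE P E m.M m.lt) _ _ ψ
      (fun a => w (.inl a)) (fun i => w (.inr i))) m w)
  | @all n φ h1 =>
    have h2 := UD_sub h1 (RLV_sh (α := α) (n := n))
    refine RLV_of P h (UD_all1 (Q := fun m v x => (∃ y, x = xinc P h y) →
      ∃ w : α ⊕ Fin (n + 1) → XE P E m.M,
      (∀ a, (Sum.elim v (fun _ : Unit => x)) (RLV_sh a) = xinc P h (w a)) ∧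
        @BoundedFormula.Realize _ _ (cdE P E m.M m.lt) _ _ φ (fun a => w (.inl a))
          (fun i => w (.inr i))) ?_) fun m w => ?_
    · refine UD_congr (UD_imp (RLV_one P h (.inr ())) h2) fun m v => ?_
      have e4 : v = Sum.elim (fun i => v (.inl i)) (fun _ : Unit => v (.inr ())) := by
        funext c
        rcases c with c | c <;> rfl
      rw [← e4]
    · have e5 : ∀ (y : XE P E m.M),
          (∃ w' : α ⊕ Fin (n + 1) → XE P E m.M,
            (∀ a, (Sum.elim (fun a => xinc P h (w a)) (fun _ : Unit => xinc P h y)) (RLV_sh a) =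
              xinc P h (w' a)) ∧
            @BoundedFormula.Realize _ _ (cdE P E m.M m.lt) _ _ φ (fun a => w' (.inl a))
              (fun i => w' (.inr i))) ↔
          @BoundedFormula.Realize _ _ (cdE P E m.M m.lt) _ _ φ (fun a => w (.inl a))
              (Fin.snoc (fun i => w (.inr i)) y) := by
        intro y
        have e6 : ∀ a : α ⊕ Fin (n + 1),
            (Sum.elim (fun a => xinc P h (w a)) (fun _ : Unit => xinc P h y)) (RLV_sh a) =
              xinc P h ((Sum.elim w (fun _ : Unit => y)) (RLV_sh a)) := by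
          intro a
          cases RLV_sh a <;> rfl
        simp only [e6]
        rw [RLV_to P h (Q := fun m w => @BoundedFormula.Realize _ _ (cdE P E m.M m.lt) _ _ φ
          (fun a => w (.inl a)) (fun i => w (.inr i))) m
          (fun a => (Sum.elim w (fun _ : Unit => y)) (RLV_sh a))]
        have e7 : (fun i : Fin (n + 1) => (Sum.elim w (fun _ : Unit => y))
            (RLV_sh (.inr i : α ⊕ Fin (n + 1)))) = Fin.snoc (fun i => w (.inr i)) y := by
          funext i
          refine Fin.lastCases ?_ (fun i => ?_) i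
          · simp [RLV_sh]
          · simp [RLV_sh]
        rw [e7]
        exact Iff.rfl
      constructor
      · intro h3 y
        exact (e5 y).1 (h3 _ ⟨y, rfl⟩)
      · rintro h3 x ⟨y, rfl⟩
        exact (e5 y).2 (h3 y)

end

theorem thm_RLV : St_RLV := by
  intro κ ar K P E E' h α _ Q hQ
  obtain ⟨φ, hφ⟩ := hQ
  have h1 := UD_sub (RLV_main P h φ) (Sum.elim id Fin.elim0 : α ⊕ Fin 0 → α)
  refine UD_congr h1 fun m v => ?_
  constructor
  · rintro ⟨w, hw, h2⟩
    refine ⟨fun a => w (.inl a), fun a => hw (.inl a), ?_⟩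
    rw [← hφ]
    have e : (fun i : Fin 0 => w (.inr i)) = default := Subsingleton.elim _ _
    rw [e] at h2
    exact h2
  · rintro ⟨w, hw, h2⟩
    refine ⟨Sum.elim w Fin.elim0, ?_, ?_⟩
    · rintro (a | i)
      · exact hw a
      · exact Fin.elim0 i
    · rw [← hφ] at h2
      have e : (fun i : Fin 0 => (Sum.elim w Fin.elim0 : α ⊕ Fin 0 → _) (.inr i)) = default :=
        Subsingleton.elim _ _
      rw [e]
      exact h2

end Pool.Agent.AAD
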