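import Pool.Agent.AAD.StB

/-!
AAD, module RNK (helper72): every finite pattern is realised in `ℚ`.  The rank of a position is the number
of the given positions below it.
-/

set_option autoImplicit false
set_option linter.unusedVariables false

namespace Pool.Agent.AAD

theorem RNK_irr {N : ℕ} {M : Type} {r : M → M → Prop} (h : Lin r) (p : Pos N M) : ¬ plt r p p := by
  cases p with
  | lo i => exact fun hp => lt_irrefl i hp
  | md μ d =>
    intro hp
    rcases hp with hp | ⟨_, hp⟩
    · exact h.1 μ hp
    · exact lt_irrefl d hp
  | hi i => exact fun hp => lt_irrefl i hp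

theorem RNK_tr {N : ℕ} {M : Type} {r : M → M → Prop} (h : Lin r) (p q s : Pos N M)
    (h1 : plt r p q) (h2 : plt r q s) : plt r p s := by
  cases p with
  | lo i =>
    cases q with
    | lo j =>
      cases s with
      | lo k => exact lt_trans (show i < j from h1) (show j < k from h2)
      | md ν e => trivial
      | hi k => trivial
    | md μ d =>
      cases s with
      | lo k => exact (h2 : False).elim
      | md ν e => trivial
      | hi k => trivial
    | hi j =>
      cases s with
      | lo k => exact (h2 : False).elim
      | md ν e => trivial
      | hi k => trivial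
  | md μ d =>
    cases q with
    | lo j => exact (h1 : False).elim
    | md ν e =>
      cases s with
      | lo k => exact (h2 : False).elim
      | md ξ f =>
        have h1' : r μ ν ∨ (μ = ν ∧ d < e) := h1
        have h2' : r ν ξ ∨ (ν = ξ ∧ e < f) := h2
        show r μ ξ ∨ (μ = ξ ∧ d < f)
        rcases h1' with h1' | ⟨h1', h1''⟩
        · rcases h2' with h2' | ⟨h2', h2''⟩
          · exact Or.inl (h.2.1 _ _ _ h1' h2')
          · subst h2'
            exact Or.inl h1'
        · subst h1'
          rcases h2' with h2' | ⟨h2', h2''⟩
          · exact Or.inl h2'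
          · exact Or.inr ⟨h2', lt_trans h1'' h2''⟩
      | hi k => trivial
    | hi j =>
      cases s with
      | lo k => exact (h2 : False).elim
      | md ν e => exact (h2 : False).elim
      | hi k => trivial
  | hi i =>
    cases q with
    | lo j => exact (h1 : False).elim
    | md ν e => exact (h1 : False).elim
    | hi j =>
      cases s with
      | lo k => exact (h2 : False).elim
      | md ν e => exact (h2 : False).elim
      | hi k => exact lt_trans (show i < j from h1) (show j < k from h2)

theorem RNK_tot {N : ℕ} {M : Type} {r : M → M → Prop} (h : Lin r) (p q : Pos N M) (hne : p ≠ q) :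
    plt r p q ∨ plt r q p := by
  cases p with
  | lo i =>
    cases q with
    | lo j =>
      have hij : i ≠ j := fun e => hne (by rw [e])
      exact (lt_or_gt_of_ne hij).imp (fun e => e) (fun e => e)
    | md μ d => exact Or.inl trivial
    | hi j => exact Or.inl trivial
  | md μ d =>
    cases q with
    | lo j => exact Or.inr trivial
    | md ν e =>
      by_cases hμ : μ = ν
      · subst hμ
        have hde : d ≠ e := fun e' => hne (by rw [e'])
        rcases lt_or_gt_of_ne hde with h' | h'
        · exact Or.inl (Or.inr ⟨rfl, h'⟩)
        · exact Or.inr (Or.inr ⟨rfl, h'⟩)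
      · rcases h.2.2 μ ν hμ with h' | h'
        · exact Or.inl (Or.inl h')
        · exact Or.inr (Or.inl h')
    | hi j => exact Or.inl trivial
  | hi i =>
    cases q with
    | lo j => exact Or.inr trivial
    | md ν e => exact Or.inr trivial
    | hi j =>
      have hij : i ≠ j := fun e => hne (by rw [e])
      exact (lt_or_gt_of_ne hij).imp (fun e => e) (fun e => e)

/-- the rank function of a finite family in a strict linear order -/
theorem RNK_cnt {A : Type} {r : A → A → Prop} (h0 : ∀ x, ¬ r x x) (h1 : ∀ x y z, r x y → r y z → r x z)
    (h2 : ∀ x y, x ≠ y → r x y ∨ r y x) {n : ℕ} (a : Fin n → A) :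
    ∃ f : Fin n → ℚ, ∀ j j', r (a j) (a j') ↔ f j < f j' := by
  classical
  refine ⟨fun j => (((Finset.univ.filter fun i => r (a i) (a j)).card : ℕ) : ℚ), ?_⟩
  intro j j'
  constructor
  · intro h
    have hsub : (Finset.univ.filter fun i => r (a i) (a j)) ⊂
        (Finset.univ.filter fun i => r (a i) (a j')) := by
      rw [Finset.ssubset_iff_of_subset]
      · refine ⟨j, ?_, ?_⟩
        · simpa using h
        · simpa using h0 (a j)
      · intro i hi
        have hi' : r (a i) (a j) := by simpa using hi
        simpa using h1 _ _ _ hi' h
    have h3 := Finset.card_lt_card hsub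
    show ((Finset.univ.filter fun i => r (a i) (a j)).card : ℚ) <
        ((Finset.univ.filter fun i => r (a i) (a j')).card : ℚ)
    exact_mod_cast h3
  · intro h
    by_contra hn
    have hsub : (Finset.univ.filter fun i => r (a i) (a j')) ⊆
        (Finset.univ.filter fun i => r (a i) (a j)) := by
      intro i hi
      have hi' : r (a i) (a j') := by simpa using hi
      have : r (a i) (a j) := by
        by_cases he : a j = a j'
        · rw [he]
          exact hi'
        · rcases h2 _ _ he with h' | h'
          · exact (hn h').elim
          · exact h1 _ _ _ hi' h'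
      simpa using this
    have h3 := Finset.card_le_card hsub
    have h4 : ((Finset.univ.filter fun i => r (a i) (a j)).card : ℚ) <
        ((Finset.univ.filter fun i => r (a i) (a j')).card : ℚ) := h
    have h5 : (Finset.univ.filter fun i => r (a i) (a j)).card <
        (Finset.univ.filter fun i => r (a i) (a j')).card := by exact_mod_cast h4
    omega

theorem thm_RNK : St_RNK := by
  intro κ ar K P m n π
  have key : ∀ i, ∃ f : Fin n → ℚ, ∀ j j',
      plt (m.lt (bt P i)) (π j i) (π j' i) ↔ f j < f j' := fun i =>
    RNK_cnt (RNK_irr (m.lin _)) (RNK_tr (m.lin _)) (RNK_tot (m.lin _)) (fun j => π j i)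
  choose f hf using key
  exact ⟨fun j i => f i j, fun j j' i => hf i j j'⟩

end Pool.Agent.AAD
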