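import Pool.Agent.AAD.StA

/-!
# AAD [SU]: least supports in a `Γ`-set
-/

set_option autoImplicit false
set_option linter.unusedVariables false

namespace Pool.Agent.AAD

open FirstOrder.Language Set
open scoped FirstOrder

theorem SU_one {X : Type} [MulAction Gam X] (x : X) : (1 : Gam) ∈ St x := one_smul Gam x

theorem SU_mul {X : Type} [MulAction Gam X] (x : X) : ∀ g ∈ St x, ∀ h ∈ St x, g * h ∈ St x := by
  intro g hg h hh
  show (g * h) • x = x
  rw [mul_smul, show h • x = x from hh, show g • x = x from hg]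

theorem SU_inv {X : Type} [MulAction Gam X] (x : X) : ∀ g ∈ St x, g⁻¹ ∈ St x := by
  intro g hg
  show g⁻¹ • x = x
  rw [inv_smul_eq_iff]
  exact (show g • x = x from hg).symm

theorem SU_conj {X : Type} [MulAction Gam X] (x : X) (g : Gam) :
    ∀ h : Gam, h ∈ St (g • x) ↔ g⁻¹ * h * g ∈ St x := by
  intro h
  show h • (g • x) = g • x ↔ (g⁻¹ * h * g) • x = x
  rw [mul_assoc, mul_smul, mul_smul, inv_smul_eq_iff]

theorem thm_SU (hLS : St_LS) (hLSC : St_LSC) : St_SU := by
  intro X _ hX x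
  obtain ⟨h1, h2⟩ := hLS (St x) (SU_one x) (SU_mul x) (SU_inv x) (hX x)
  refine ⟨h1, h2, fun g => ?_, fun g h hgh => ?_⟩
  · exact hLSC (St x) (St (g • x)) g (SU_conj x g) (hX x)
  · have h3 : g⁻¹ * h ∈ Fx (ls (St x)) := by
      intro a ha
      show (g⁻¹ * h) a = a
      rw [RelIso.mul_apply, ← hgh a ha, RelIso.inv_apply_self]
    have h4 : (g⁻¹ * h) • x = x := h1 h3
    rw [mul_smul, inv_smul_eq_iff] at h4
    exact h4.symm

end Pool.Agent.AAD
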