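import Pool.Agent.AAD.StB

/-!
AAD, module TMI (helper91): `TrM` depends on the pattern only.
-/

set_option autoImplicit false
set_option linter.unusedVariables false

namespace Pool.Agent.AAD

/-- `TrM` is `P.Tr` at any rational points with the same pattern -/
theorem TMI_one {κ : Type} {ar : κ → ℕ} {K : Cla ar} (P : PS K) {M : Type}
    (lt : Bool → M → M → Prop) (s : Option κ) (t : Fin (ar' ar s) → Fin P.N)
    (π : Fin (ar' ar s) → Fin P.k → Pos P.N M) (π' : Fin (ar' ar s) → Fin P.k → ℚ)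
    (h : ∀ j j' i, P.sp (t j) i → P.sp (t j') i →
      (plt (lt (bt P i)) (π j i) (π j' i) ↔ π' j i < π' j' i)) :
    TrM P lt s t π ↔ P.Tr s t π' := by
  constructor
  · rintro ⟨π'', h1, h2⟩
    exact (P.inv s t π'' π' fun j j' i hj hj' =>
      (h1 j j' i hj hj').symm.trans (h j j' i hj hj')).1 h2
  · intro h1
    exact ⟨π', h, h1⟩

theorem thm_TMI (hRNK : St_RNK) : St_TMI := by
  intro κ ar K P m s t π
  refine ⟨fun π' h => TMI_one P m.lt s t π π' h, ?_⟩
  intro m' π' h
  obtain ⟨ρ, hρ⟩ := hRNK κ ar K P m _ π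
  rw [TMI_one P m.lt s t π ρ fun j j' i _ _ => hρ j j' i]
  exact (TMI_one P m'.lt s t π' ρ fun j j' i hj hj' =>
    (h j j' i hj hj').symm.trans (hρ j j' i)).symm

end Pool.Agent.AAD
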