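import Pool.Agent.AAD.StD

/-!
AAD, module WLD: classes which are not monadically NIP contain pattern structures (helper45).
-/

set_option autoImplicit false

namespace Pool.Agent.AAD

open FirstOrder.Language Set
open scoped FirstOrder

theorem thm_WLD2 (hARR : St_ARR2) (hITU : St_ITU2) (hAGC : St_AGC) (hFIN : St_FIN2)
    (hBRI : St_BRI) : St_WLD2 := by
  intro κ ar K hK hN
  unfold MonNIP at hN
  push Not at hN
  obtain ⟨ι, hι, S, hS, m, n, φ, hφ⟩ := hN
  have hrel : ∀ n, IsEmpty ((LA ι ar).Functions n) := fun n => ⟨fun f => Empty.elim f⟩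
  obtain ⟨M, SM, x, y, hne, hP, hxy⟩ := @hARR (LA ι ar) hrel ℕ S m n φ hφ
  obtain ⟨C, SC, aC, hctx, hP', ⟨A⟩⟩ := @hITU (LA ι ar) hrel M SM hne m n φ x y hxy
  have hM : InK K SM := hAGC ι κ ar K M ℕ SM S hK hP hS
  have hC : InK K SC := hAGC ι κ ar K C M SC SM hK hP' hM
  obtain ⟨T, z₁, z₂, hT⟩ := hFIN (LA ι ar) C hctx (Sm.rl none : Sm ι ar 2) (fun x y hxy => by
    have h1 := hC.1
    constructor
    · intro h2 h3
      exact h1.1 x (h1.2.1 x y x h2 h3)
    · intro h2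
      exact (h1.2.2 x y hxy).resolve_right h2) A
  exact hBRI ι κ ar K C SC T z₁ z₂ hctx hC hT

end Pool.Agent.AAD
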