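import Pool.Agent.AAD.ADJ
import Pool.Agent.AAD.AGC
import Pool.Agent.AAD.ARR2
import Pool.Agent.AAD.BAF
import Pool.Agent.AAD.BRI
import Pool.Agent.AAD.CF
import Pool.Agent.AAD.CFE
import Pool.Agent.AAD.CFM
import Pool.Agent.AAD.CFS
import Pool.Agent.AAD.CLN
import Pool.Agent.AAD.COR
import Pool.Agent.AAD.CTR2
import Pool.Agent.AAD.EQV
import Pool.Agent.AAD.EXT
import Pool.Agent.AAD.FIN2
import Pool.Agent.AAD.FOR
import Pool.Agent.AAD.FP3
import Pool.Agent.AAD.FSY
import Pool.Agent.AAD.GCF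
import Pool.Agent.AAD.GRA
import Pool.Agent.AAD.GRN
import Pool.Agent.AAD.KAG
import Pool.Agent.AAD.KCO
import Pool.Agent.AAD.KDM
import Pool.Agent.AAD.KFR
import Pool.Agent.AAD.KFU
import Pool.Agent.AAD.KRE
import Pool.Agent.AAD.KSH
import Pool.Agent.AAD.KTR
import Pool.Agent.AAD.LS
import Pool.Agent.AAD.LSC
import Pool.Agent.AAD.MRG
import Pool.Agent.AAD.MUP
import Pool.Agent.AAD.NCM
import Pool.Agent.AAD.ONE
import Pool.Agent.AAD.ORL
import Pool.Agent.AAD.POS2
import Pool.Agent.AAD.PWM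
import Pool.Agent.AAD.RLV
import Pool.Agent.AAD.RNK
import Pool.Agent.AAD.SU
import Pool.Agent.AAD.TMI
import Pool.Agent.AAD.WLD
import Pool.Agent.PMC.MPK

/-!
AAD: everything together (helper45).
-/

set_option autoImplicit false

namespace Pool.Agent.AAD

theorem all_LS : St_LS := thm_LS thm_EXT

theorem all_SU : St_SU := thm_SU all_LS thm_LSC

theorem all_FSY : St_FSY := thm_FSY all_SU

theorem all_FP3 : St_FP3 := thm_FP3 thm_EXT all_SU all_FSY

theorem all_FOR : St_FOR := thm_FOR all_FSY all_FP3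

theorem all_EQV : St_EQV := thm_EQV all_SU

theorem all_CF : St_CF := thm_CF all_LS thm_LSC all_SU all_EQV

theorem all_COR : St_COR := thm_COR thm_EXT all_SU all_EQV all_FOR all_CF

theorem all_ONE : St_ONE := thm_ONE thm_EXT all_SU all_CF

theorem all_CFS : St_CFS := thm_CFS all_SU all_CF

theorem all_CFE : St_CFE := thm_CFE all_CF

theorem all_CFM : St_CFM := thm_CFM all_CF all_CFS

theorem all_MUP : St_MUP := thm_MUP all_SU all_CF all_ONE

theorem all_BAF : St_BAF := thm_BAF all_CFS all_CFE all_CFM all_MUP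

theorem all_CTR2 : St_CTR2 := thm_CTR2 thm_EXT all_SU all_CF all_BAF

theorem all_FIN2 : St_FIN2 := thm_FIN2 all_SU all_COR all_CTR2

theorem all_BRI : St_BRI := thm_BRI thm_EXT all_SU

theorem all_WLD2 (hITU : St_ITU2) : St_WLD2 := thm_WLD2 thm_ARR2 hITU thm_AGC all_FIN2 all_BRI

theorem all_TMI : St_TMI := thm_TMI thm_RNK

theorem all_CLN : St_CLN := thm_CLN thm_RNK all_TMI

theorem all_PWM : St_PWM := thm_PWM all_TMI

theorem all_ADJ : St_ADJ := thm_ADJ all_TMI all_CLN all_PWM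

theorem all_ORL : St_ORL := thm_ORL all_TMI all_CLN

theorem all_NCM : St_NCM := thm_NCM all_TMI

theorem all_MRG : St_MRG := thm_MRG all_TMI all_ADJ thm_RLV

theorem all_GCF : St_GCF := thm_GCF all_CLN all_PWM all_ADJ all_ORL all_NCM all_MRG

theorem all_KAG : St_KAG := thm_KAG thm_KRE

theorem all_KSH (κ : Type) (hκ : Countable κ) (ar : κ → ℕ) (K : Cla ar) (G : Gcd K) (hV : VCA K)
    (ι : Type) (hι : Countable ι) (T : (PMC.LP ι).Theory) (hT : ∀ S ∈ VPF.ModF T, PMC.Two S) :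
    Pool.Agent.Helper6.Str.CtblK (VPF.ModF T) ∨ Pool.Agent.Helper6.Str.PerfK (VPF.ModF T) :=
  thm_KSH thm_KFR thm_KTR thm_KCO thm_KRE thm_KFU thm_KDM all_KAG PMC.thm_MPK κ hκ ar K G hV ι hι
    T hT

end Pool.Agent.AAD
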