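import Pool.Agent.AAD.Kit

/-!
AAD: hereditary classes of finite ordered structures of any arity and Vaught's conjecture (definitions for
part I: `Aut(ℚ, <)`-structures with finite supports; helper45).  The paper proof is `GC_AAD_helper45.md`.
-/

set_option autoImplicit false
set_option linter.unusedVariables false

namespace Pool.Agent.AAD

open FirstOrder.Language Set
open scoped FirstOrder

/-! ### `Γ = Aut(ℚ, <)` and supports -/

/-- the automorphism group of `(ℚ, <)`; `(g * h) x = g (h x)` -/
abbrev Gam : Type := ℚ ≃o ℚ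

/-- the automorphisms which fix `A` pointwise -/
def Fx (A : Finset ℚ) : Set Gam := {g | ∀ a ∈ A, g a = a}

open Classical in
/-- the intersection of all finite `A` with `Fx A ⊆ H` -/
noncomputable def ls (H : Set Gam) : Finset ℚ :=
  if h : ∃ A : Finset ℚ, Fx A ⊆ H then h.choose.filter (fun a => ∀ A : Finset ℚ, Fx A ⊆ H → a ∈ A)
  else ∅

section act

variable {X : Type} [MulAction Gam X]

/-- the stabilizer -/
def St (x : X) : Set Gam := {g | g • x = x}

/-- the least support -/
noncomputable def su (x : X) : Finset ℚ := ls (St x)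

end act

/-! ### Freeness and links -/

section link

variable (L : FirstOrder.Language.{0, 0}) {C : Type} [L.Structure C] [MulAction Gam C]

/-- `Γ` acts by automorphisms of the relational structure `C`, with finite supports -/
structure Ctx (L : FirstOrder.Language.{0, 0}) (C : Type) [L.Structure C] [MulAction Gam C] :
    Prop where
  nof : ∀ n, IsEmpty (L.Functions n)
  inv : ∀ (g : Gam) (n : ℕ) (R : L.Relations n) (v : Fin n → C),
    Structure.RelMap R (fun i => g • v i) ↔ Structure.RelMap R v
  fin : ∀ x : C, ∃ A : Finset ℚ, Fx A ⊆ St x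

/-- Freeness at `p`: moving `p` only in the elements of `X` does not change atomic relations between
elements of `X`, elements of `Y` and elements which do not have `p` in the support. -/
def Fre (p : ℚ) (X Y : Set C) : Prop :=
  ∀ (g : Gam) (n : ℕ) (R : L.Relations n) (v v' : Fin n → C),
    (∀ j, (v j ∈ X ∧ v' j = g • v j) ∨ ((v j ∈ Y ∨ p ∉ su (v j)) ∧ v' j = v j)) →
    (∀ j, ∀ a ∈ su (v j), a ≠ p → g a = a) →
    (Structure.RelMap R v' ↔ Structure.RelMap R v)

/-- free at all `p` -/
def AF (X Y : Set C) : Prop := ∀ p, Fre L p X Y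

/-- finite connected sets -/
def Cnn (Z : Set C) : Prop :=
  Z.Finite ∧ Z.Nonempty ∧ ∀ X Y, X ∪ Y = Z → Disjoint X Y → AF L X Y → X = ∅ ∨ Y = ∅

/-- `x`, `y` are in a common connected set -/
def Lnk (x y : C) : Prop := ∃ Z, Cnn L Z ∧ x ∈ Z ∧ y ∈ Z

/-- the core of the class of `x`: the least support of the class -/
noncomputable def co (x : C) : Finset ℚ := ls {g | Lnk L (g • x) x}

/-- the same species -/
def Spc (x y : C) : Prop := ∃ g : Gam, Lnk L (g • x) y

/-- the hypothesis (H) -/
def Hyp (C : Type) [L.Structure C] [MulAction Gam C] : Prop :=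
  ∀ x y : C, Lnk L x y → x ≠ y → ∃ a ∈ su x, a ∈ su y

/-- all cores have at most one element, and they are not empty if the support is not -/
structure Cor (C : Type) [L.Structure C] [MulAction Gam C] : Prop where
  ctx : Ctx L C
  equ : Equivalence (Lnk L : C → C → Prop)
  act : ∀ (g : Gam) (x y : C), Lnk L x y → Lnk L (g • x) (g • y)
  forr : ∀ X Y : Set C, X.Finite → Y.Finite → (∀ x ∈ X, ∀ y ∈ Y, ¬ Lnk L x y) → AF L X Y
  one : ∀ (x : C), ∀ a ∈ co L x, ∀ b ∈ co L x, a = b
  ne : ∀ x : C, (su x).Nonempty → (co L x).Nonempty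

/-- arrays -/
structure Arr (C : Type) [L.Structure C] [MulAction Gam C] where
  m : ℕ
  n : ℕ
  φ : L.Formula ((Fin m ⊕ Fin n) ⊕ Unit)
  x : ℚ → Fin m → C
  y : ℚ → Fin n → C
  z : ℚ → ℚ → C
  xa : ∀ (g : Gam) q i, g • x q i = x (g q) i
  ya : ∀ (g : Gam) q i, g • y q i = y (g q) i
  za : ∀ (g : Gam) p q, g • z p q = z (g p) (g q)
  ex : ∀ i j p q, p < q →
    (φ.Realize (Sum.elim (Sum.elim (x i) (y j)) fun _ => z p q) ↔ i = p ∧ j = q)

end link

end Pool.Agent.AAD
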