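import Pool.Agent.AAD.Defs

/-!
AAD: classes of finite ordered structures of any arity, pattern structures (definitions for part II;
helper45).
-/

set_option autoImplicit false
set_option linter.unusedVariables false

namespace Pool.Agent.AAD

open FirstOrder.Language Set
open scoped FirstOrder

/-! ### The language -/

/-- the arities of the symbols `c : κ` and of the order `none` -/
def ar' {κ : Type} (ar : κ → ℕ) : Option κ → ℕ
  | none => 2
  | some c => ar c

/-- unary symbols `un i`, the order `rl none`, the relation symbols `rl (some c)` -/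
inductive Sm (ι : Type) {κ : Type} (ar : κ → ℕ) : ℕ → Type
  | un (i : ι) : Sm ι ar 1
  | rl (s : Option κ) : Sm ι ar (ar' ar s)

/-- the language of an order, relations `c : κ` of arity `ar c` and unary predicates `i : ι` -/
def LA (ι : Type) {κ : Type} (ar : κ → ℕ) : FirstOrder.Language.{0, 0} := ⟨fun _ => Empty, Sm ι ar⟩

section

variable {ι κ M : Type} {ar : κ → ℕ} (S : (LA ι ar).Structure M)

/-- the unary predicates -/
def au (i : ι) (x : M) : Prop := S.RelMap (n := 1) (Sm.un i : Sm ι ar 1) (fun _ => x)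

/-- the order and the relations -/
def rr (s : Option κ) (v : Fin (ar' ar s) → M) : Prop :=
  S.RelMap (n := ar' ar s) (Sm.rl s : Sm ι ar (ar' ar s)) v

/-- the order -/
def al (x y : M) : Prop := rr S none (![x, y] : Fin 2 → M)

end

/-- strict linear orders -/
def Lin {M : Type} (r : M → M → Prop) : Prop :=
  (∀ x, ¬ r x x) ∧ (∀ x y z, r x y → r y z → r x z) ∧ ∀ x y, x ≠ y → r x y ∨ r y x

/-! ### Classes -/

/-- `K n` is a set of structures on `{0, ..., n - 1}` (with the natural order) -/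
abbrev Cla {κ : Type} (ar : κ → ℕ) : Type := ∀ n : ℕ, Set (∀ c : κ, (Fin (ar c) → Fin n) → Prop)

section

variable {κ : Type} {ar : κ → ℕ} (K : Cla ar)

/-- closed under suborders -/
def HerA : Prop :=
  ∀ (m n : ℕ) (f : Fin m → Fin n), StrictMono f →
    ∀ r ∈ K n, (fun c v => r c (fun i => f (v i))) ∈ K m

/-- closed: membership is decided by the finite sets of relations -/
def CloA : Prop :=
  ∀ (n : ℕ) (r : ∀ c : κ, (Fin (ar c) → Fin n) → Prop),
    (∀ s : Finset κ, ∃ r' ∈ K n, ∀ c ∈ s, ∀ v, r' c v ↔ r c v) → r ∈ K n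

/-- all finite suborders of `(M, lt, R)` are in `K` -/
def AgeA {M : Type} (lt : M → M → Prop) (R : ∀ c : κ, (Fin (ar c) → M) → Prop) : Prop :=
  ∀ (m : ℕ) (z : Fin m → M), (∀ i j, i < j → lt (z i) (z j)) →
    (fun c v => R c (fun i => z (v i))) ∈ K m

/-- `S` is an ordered structure with age in `K` -/
def InK {ι M : Type} (S : (LA ι ar).Structure M) : Prop :=
  Lin (al S) ∧ AgeA K (al S) (fun c => rr S (some c))

end

/-- exact arrays of size `k` -/
def Exk {U α β : Type} (P : (α → U) → (β → U) → U → Prop) (k : ℕ) : Prop :=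
  ∃ (x : Fin k → α → U) (y : Fin k → β → U) (z : Fin k → Fin k → U),
    ∀ i j a b, P (x i) (y j) (z a b) ↔ i = a ∧ j = b

/-- `K` is wild: in a structure on `ℕ` with age in `K` and unary predicates some formula has exact
arrays of all sizes -/
def Wild {κ : Type} {ar : κ → ℕ} (K : Cla ar) : Prop :=
  ∃ (ι : Type) (_ : Countable ι) (S : (LA ι ar).Structure ℕ), InK K S ∧
    ∃ (m n : ℕ) (φ : (LA ι ar).Formula ((Fin m ⊕ Fin n) ⊕ Unit)), ∀ k,
      Exk (fun (x : Fin m → ℕ) (y : Fin n → ℕ) (z : ℕ) =>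
        φ.Realize (Sum.elim (Sum.elim x y) fun _ => z)) k

/-- finite pieces of `C` occur in `M` -/
def Pcs (L : FirstOrder.Language.{0, 0}) (C M : Type) [L.Structure C] [L.Structure M] : Prop :=
  ∀ (n : ℕ) (c : Fin n → C) (F : Finset (Σ n, L.Relations n)), ∃ e : Fin n → M,
    (∀ i j, e i = e j ↔ c i = c j) ∧
    ∀ R ∈ F, ∀ w : Fin R.1 → Fin n,
      (Structure.RelMap R.2 (fun i => e (w i)) ↔ Structure.RelMap R.2 (fun i => c (w i)))

/-! ### Pattern structures

`N` kinds of elements with supports `sp t ⊆ {0, ..., k - 1}`; an element of kind `t` at the point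
`π : Fin k → ℚ` (only `π` on the support matters).  `Tr s t π`: the relation `s` holds for the elements
of kinds `t j` at the points `π j`; this depends on the order pattern only. -/

/-- pattern structures with age in `K` -/
structure PS {κ : Type} {ar : κ → ℕ} (K : Cla ar) where
  N : ℕ
  k : ℕ
  sp : Fin N → Fin k → Prop
  Tr : ∀ s : Option κ, (Fin (ar' ar s) → Fin N) → (Fin (ar' ar s) → Fin k → ℚ) → Prop
  inv : ∀ s t π π', (∀ j j' i, sp (t j) i → sp (t j') i → (π j i < π j' i ↔ π' j i < π' j' i)) →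
    (Tr s t π ↔ Tr s t π')
  /-- irreflexive -/
  irr : ∀ t π, ¬ Tr none (![t, t] : Fin 2 → Fin N) (![π, π] : Fin 2 → Fin k → ℚ)
  tra : ∀ t₁ t₂ t₃ π₁ π₂ π₃, Tr none (![t₁, t₂] : Fin 2 → Fin N) (![π₁, π₂] : Fin 2 → Fin k → ℚ) →
    Tr none (![t₂, t₃] : Fin 2 → Fin N) (![π₂, π₃] : Fin 2 → Fin k → ℚ) →
    Tr none (![t₁, t₃] : Fin 2 → Fin N) (![π₁, π₃] : Fin 2 → Fin k → ℚ)
  tot : ∀ t₁ t₂ π₁ π₂, ¬ (t₁ = t₂ ∧ ∀ i, sp t₁ i → π₁ i = π₂ i) →
    Tr none (![t₁, t₂] : Fin 2 → Fin N) (![π₁, π₂] : Fin 2 → Fin k → ℚ) ∨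
    Tr none (![t₂, t₁] : Fin 2 → Fin N) (![π₂, π₁] : Fin 2 → Fin k → ℚ)
  age : ∀ (m : ℕ) (t : Fin m → Fin N) (π : Fin m → Fin k → ℚ),
    (∀ i j, i < j → Tr none (![t i, t j] : Fin 2 → Fin N) (![π i, π j] : Fin 2 → Fin k → ℚ)) →
    (fun c v => Tr (some c) (fun i => t (v i)) (fun i => π (v i))) ∈ K m
  z₁ : Fin N
  z₂ : Fin N
  ne₁ : ∃ i, sp z₁ i
  ne₂ : ∃ i, sp z₂ i
  dis : ∀ i, sp z₁ i → ¬ sp z₂ i
  /-- connectedness: some relation changes if the kinds in `E` are moved in one sort -/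
  con : ∀ E : Set (Fin N), z₁ ∈ E → z₂ ∉ E → ∃ (s : Option κ) (t : Fin (ar' ar s) → Fin N)
    (i : Fin k) (q : ℚ) (π : Fin (ar' ar s) → Fin k → ℚ),
    (∀ j, t j ∈ E → π j i = q) ∧ (∀ j, t j ∉ E → π j i = 0) ∧ (∀ j i', i' ≠ i → π j i' = 0) ∧
    ¬ (Tr s t π ↔ Tr s t fun _ _ => 0)

end Pool.Agent.AAD
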