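import Pool.Agent.AAD.DefsB
import Pool.Agent.PMC.StE

/-!
AAD: codes of two linear orders (definitions for parts II and III; helper45).
-/

set_option autoImplicit false
set_option linter.unusedVariables false

namespace Pool.Agent.AAD

open FirstOrder.Language Set
open scoped FirstOrder
open Pool.Agent.PMC (Sy LP us Two)

/-! ### Positions and points -/

/-- positions in one sort: low references, the points of `M × {0, 1, 2}`, high references -/
inductive Pos (N : ℕ) (M : Type) : Type
  | lo (i : Fin N) : Pos N M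
  | md (μ : M) (d : Fin 3) : Pos N M
  | hi (i : Fin N) : Pos N M

/-- the order of the positions, `M` is ordered by `r` -/
def plt {N : ℕ} {M : Type} (r : M → M → Prop) : Pos N M → Pos N M → Prop
  | .lo i, .lo j => i < j
  | .lo _, .md _ _ => True
  | .lo _, .hi _ => True
  | .md _ _, .lo _ => False
  | .md μ d, .md ν e => r μ ν ∨ (μ = ν ∧ d < e)
  | .md _ _, .hi _ => True
  | .hi _, .lo _ => False
  | .hi _, .md _ _ => False
  | .hi i, .hi j => i < j

section

variable {κ : Type} {ar : κ → ℕ} {K : Cla ar} (P : PS K)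

open Classical in
/-- the order used in the sort `i`: `lt false` for the sorts of `z₂`, else `lt true` -/
noncomputable def bt (i : Fin P.k) : Bool := if P.sp P.z₂ i then false else true

/-- the relation `s` for elements of kinds `t j` at the points `π j` -/
def TrM {M : Type} (lt : Bool → M → M → Prop) (s : Option κ) (t : Fin (ar' ar s) → Fin P.N)
    (π : Fin (ar' ar s) → Fin P.k → Pos P.N M) : Prop :=
  ∃ π' : Fin (ar' ar s) → Fin P.k → ℚ,
    (∀ j j' i, P.sp (t j) i → P.sp (t j') i →
      (plt (lt (bt P i)) (π j i) (π j' i) ↔ π' j i < π' j' i)) ∧ P.Tr s t π'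

/-- the levels of the kinds in `E`: kind and displacement (`1` = no displacement); kinds with empty
support have no levels -/
def LvE (E : Set (Fin P.N)) : Type :=
  {l : Fin P.N × (Fin P.k → Fin 3) // l.1 ∈ E ∧ (∃ i, P.sp l.1 i) ∧ ∀ i, ¬ P.sp l.1 i → l.2 i = 1}

/-- the reference elements: kind and position (`(false, a)` is low, `(true, a)` is high) -/
def Rf : Type :=
  {l : Fin P.N × (Fin P.k → Bool × Fin P.N) // ∀ i, ¬ P.sp l.1 i → l.2 i = (false, P.z₁)}

/-- the elements of the code of `M` with the levels of `E` -/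
abbrev XE (E : Set (Fin P.N)) (M : Type) : Type := (M × LvE P E) ⊕ Rf P

/-- the position of a reference -/
def rfp {N : ℕ} (M : Type) : Bool × Fin N → Pos N M
  | (false, a) => .lo a
  | (true, a) => .hi a

variable {E : Set (Fin P.N)} {M : Type}

/-- the label -/
def lbl : XE P E M → LvE P E ⊕ Rf P
  | .inl x => .inl x.2
  | .inr r => .inr r

/-- the kind -/
def kd : XE P E M → Fin P.N
  | .inl x => x.2.1.1
  | .inr r => r.1.1

/-- the point -/
def pp : XE P E M → Fin P.k → Pos P.N M
  | .inl x => fun i => .md x.1 (x.2.1.2 i)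
  | .inr r => fun i => rfp M (r.1.2 i)

/-- the code of `(M, lt)` with the levels of `E`; unary predicates for the labels -/
@[instance_reducible]
def cdE (E : Set (Fin P.N)) (M : Type) (lt : Bool → M → M → Prop) :
    (LA (LvE P E ⊕ Rf P) ar).Structure (XE P E M) where
  funMap := fun f _ => Empty.elim f
  RelMap := fun {n} R => match n, R with
    | _, .un l => fun v => lbl P (v 0) = l
    | _, .rl s => fun v => TrM P lt s (fun j => kd P (v j)) (fun j => pp P (v j))

/-- a type with two linear orders -/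
structure LL where
  M : Type
  lt : Bool → M → M → Prop
  lin : ∀ b, Lin (lt b)

/-- relations on the codes which are uniformly definable -/
def UDE (E : Set (Fin P.N)) (α : Type) (Q : ∀ m : LL, (α → XE P E m.M) → Prop) : Prop :=
  UD (LA (LvE P E ⊕ Rf P) ar) (J := LL) (fun m => XE P E m.M) (fun m => cdE P E m.M m.lt) α Q

/-- `E` is tight: the levels of `E` are matched definably -/
def Tight (E : Set (Fin P.N)) : Prop :=
  ∀ l l' : LvE P E, UDE P E (Fin 2) fun m v => ∃ μ, v 0 = .inl (μ, l) ∧ v 1 = .inl (μ, l')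

open Classical in
/-- the kinds in `E` at `(μ, d)`, the kinds `u ∈ S₀` at `(ν u, e u)`, the others at the references `ρ u` -/
noncomputable def Fas (E S₀ : Set (Fin P.N)) (μ : M) (ν : Fin P.N → M) (d : Fin P.k → Fin 3)
    (e : Fin P.N → Fin P.k → Fin 3) (ρ : Fin P.N → Fin P.k → Bool × Fin P.N) :
    Fin P.N → Fin P.k → Pos P.N M := fun u i =>
  if u ∈ E then .md μ (d i) else if u ∈ S₀ then .md (ν u) (e u i) else rfp M (ρ u i)

/-- the relation `s` for the kinds `t` is not constant in the displacement of the kinds in `E`, for some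
displacements of the kinds in `S₀` -/
def NN (lt : Bool → M → M → Prop) (E S₀ : Set (Fin P.N)) (ρ : Fin P.N → Fin P.k → Bool × Fin P.N)
    (s : Option κ) (t : Fin (ar' ar s) → Fin P.N) (μ : M) (ν : Fin P.N → M) : Prop :=
  ∃ (d d' : Fin P.k → Fin 3) (e : Fin P.N → Fin P.k → Fin 3),
    ¬ (TrM P lt s t (fun j => Fas P E S₀ μ ν d e ρ (t j)) ↔
      TrM P lt s t (fun j => Fas P E S₀ μ ν d' e ρ (t j)))

end

/-! ### Good codes -/

section

variable {κ : Type} (ar : κ → ℕ)

/-- `M`-parts of elements: the pattern of two elements for `lt b` -/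
def pl {M Λ Ρ : Type} (lt : M → M → Prop) : (M × Λ) ⊕ Ρ → (M × Λ) ⊕ Ρ → Prop
  | .inl x, .inl y => lt x.1 y.1
  | _, _ => False

/-- the label -/
def lab {M Λ Ρ : Type} : (M × Λ) ⊕ Ρ → Λ ⊕ Ρ
  | .inl x => .inl x.2
  | .inr r => .inr r

/-- A uniform code: levels `Λ`, references `Ρ`; the relations of the code are given by the labels and the
order patterns. -/
structure Cd where
  Λ : Type
  Ρ : Type
  fΛ : Finite Λ
  fΡ : Finite Ρ
  W : ∀ s : Option κ, (Fin (ar' ar s) → Λ ⊕ Ρ) →
    (Bool → Fin (ar' ar s) → Fin (ar' ar s) → Prop) → Prop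

variable {ar} (G : Cd ar)

/-- the relations of the code of `(M, lt)` -/
def cr {M : Type} (lt : Bool → M → M → Prop) (s : Option κ)
    (v : Fin (ar' ar s) → (M × G.Λ) ⊕ G.Ρ) : Prop :=
  G.W s (fun j => lab (v j)) (fun b i j => pl (lt b) (v i) (v j))

/-- the code of `(M, lt)`, with unary predicates for the labels -/
@[instance_reducible]
def cd (M : Type) (lt : Bool → M → M → Prop) :
    (LA (G.Λ ⊕ G.Ρ) ar).Structure ((M × G.Λ) ⊕ G.Ρ) where
  funMap := fun f _ => Empty.elim f
  RelMap := fun {n} R => match n, R with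
    | _, .un l => fun v => lab (v 0) = l
    | _, .rl s => fun v => cr G lt s v

end

/-- Good codes for `K`: linear, age in `K`; formulas `mt l` match the levels with the level `l₀`, the
formulas `th b` define the orders on the level `l₀`. -/
structure Gcd {κ : Type} {ar : κ → ℕ} (K : Cla ar) extends Cd ar where
  l₀ : Λ
  lin : ∀ m : LL, Lin fun x y => cr toCd m.lt none (![x, y] : Fin 2 → (m.M × Λ) ⊕ Ρ)
  age : ∀ m : LL, AgeA K (fun x y => cr toCd m.lt none (![x, y] : Fin 2 → (m.M × Λ) ⊕ Ρ))
    (fun c v => cr toCd m.lt (some c) v)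
  mt : Λ → (LA (Λ ⊕ Ρ) ar).Formula (Fin 2)
  th : Bool → (LA (Λ ⊕ Ρ) ar).Formula (Fin 2)
  mtp : ∀ (m : LL) (l : Λ) (v : Fin 2 → (m.M × Λ) ⊕ Ρ),
    @Formula.Realize _ _ (cd toCd m.M m.lt) _ (mt l) v ↔ ∃ μ, v 0 = .inl (μ, l₀) ∧ v 1 = .inl (μ, l)
  thp : ∀ (m : LL) (b : Bool) (v : Fin 2 → (m.M × Λ) ⊕ Ρ),
    @Formula.Realize _ _ (cd toCd m.M m.lt) _ (th b) v ↔
      ∃ μ ν, v 0 = .inl (μ, l₀) ∧ v 1 = .inl (ν, l₀) ∧ m.lt b μ ν

end Pool.Agent.AAD
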