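import Pool.Agent.AAD.DefsC

/-!
AAD: coding and decoding (definitions for part III; helper45).  `G : Gcd K` is a good code.
-/

set_option autoImplicit false
set_option linter.unusedVariables false

namespace Pool.Agent.AAD

open FirstOrder.Language Set
open scoped FirstOrder
open Pool.Agent.PMC (Sy LP us Two)
open Pool.Agent.Helper6.Str (PerfK CtblK Iso Code toStr)
open VPF (ModF)

section

variable {κ : Type} {ar : κ → ℕ} {K : Cla ar} (G : Gcd K) {ι M : Type}

/-- the code of a structure with two orders; the unary predicates `i : ι` live on the level `l₀` -/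
@[instance_reducible]
def enc (S : (LP ι).Structure M) :
    (LA (ι ⊕ (G.Λ ⊕ G.Ρ)) ar).Structure ((M × G.Λ) ⊕ G.Ρ) where
  funMap := fun f _ => Empty.elim f
  RelMap := fun {n} R => match n, R with
    | _, .un (.inl i) => fun v => ∃ μ, v 0 = .inl (μ, G.l₀) ∧ us S i μ
    | _, .un (.inr l) => fun v => lab (v 0) = l
    | _, .rl s => fun v => cr G.toCd (PMC.ls S) s v

variable (S : (LA (ι ⊕ (G.Λ ⊕ G.Ρ)) ar).Structure M)

/-- the reduct to the labels and the relations -/
@[instance_reducible]
def rd : (LA (G.Λ ⊕ G.Ρ) ar).Structure M where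
  funMap := fun f _ => Empty.elim f
  RelMap := fun {n} R => match n, R with
    | _, .un l => fun v => au S (.inr l) (v 0)
    | _, .rl s => fun v => rr S s v

/-- the label `l` -/
def lv (l : G.Λ ⊕ G.Ρ) (z : M) : Prop := au S (.inr l) z

/-- `w` is the element of level `l` over `z` -/
def mS (l : G.Λ) (z w : M) : Prop := @Formula.Realize _ _ (rd G S) _ (G.mt l) ![z, w]

/-- the decoded orders (on the level `l₀`) -/
def tS (b : Bool) (z w : M) : Prop := @Formula.Realize _ _ (rd G S) _ (G.th b) ![z, w]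

/-- `w` is over `z` with label `l` (for references: `w` is the reference) -/
def ov (l : G.Λ ⊕ G.Ρ) (z w : M) : Prop :=
  match l with
  | .inl a => mS G S a z w
  | .inr r => lv G S (.inr r) w

/-- the decoded structure -/
@[instance_reducible]
def dec : (LP ι).Structure {z : M // lv G S (.inl G.l₀) z} where
  funMap := fun f _ => Empty.elim f
  RelMap := fun {n} R => match n, R with
    | _, .un i => fun v => au S (.inl i) (v 0).1
    | _, .lt b => fun v => tS G S b (v 0).1 (v 1).1

/-- the codes -/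
structure Frame : Prop where
  lev : ∀ z, ∃ l, lv G S l z
  unq : ∀ z l l', lv G S l z → lv G S l' z → l = l'
  rex : ∀ r : G.Ρ, ∃ z, lv G S (.inr r) z
  run : ∀ (r : G.Ρ) z z', lv G S (.inr r) z → lv G S (.inr r) z' → z = z'
  mlv : ∀ l z w, mS G S l z w → lv G S (.inl G.l₀) z ∧ lv G S (.inl l) w
  mex : ∀ l z, lv G S (.inl G.l₀) z → ∃ w, mS G S l z w
  mun : ∀ l z w w', mS G S l z w → mS G S l z w' → w = w'
  msu : ∀ l w, lv G S (.inl l) w → ∃ z, mS G S l z w
  min : ∀ l z z' w, mS G S l z w → mS G S l z' w → z = z'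
  mid : ∀ z w, mS G S G.l₀ z w → z = w
  irr : ∀ b z, lv G S (.inl G.l₀) z → ¬ tS G S b z z
  tra : ∀ b z z' z'', lv G S (.inl G.l₀) z → lv G S (.inl G.l₀) z' → lv G S (.inl G.l₀) z'' →
    tS G S b z z' → tS G S b z' z'' → tS G S b z z''
  tot : ∀ b z z', lv G S (.inl G.l₀) z → lv G S (.inl G.l₀) z' → z ≠ z' →
    tS G S b z z' ∨ tS G S b z' z
  rel : ∀ (s : Option κ) (l : Fin (ar' ar s) → G.Λ ⊕ G.Ρ) (z w : Fin (ar' ar s) → M),
    (∀ j, ov G S (l j) (z j) (w j)) →
    (rr S s w ↔ G.W s l fun b i j => (l i).isLeft = true ∧ (l j).isLeft = true ∧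
      tS G S b (z i) (z j))
  un : ∀ i z, au S (.inl i) z → lv G S (.inl G.l₀) z

end

/-- Vaught's conjecture for `K`: the dichotomy for the first-order theories of structures with age in `K`
and unary predicates. -/
def VCA {κ : Type} {ar : κ → ℕ} (K : Cla ar) : Prop :=
  ∀ (ι : Type), Countable ι → ∀ T : (LA ι ar).Theory,
    (∀ S ∈ ModF T, InK K S) → CtblK (ModF T) ∨ PerfK (ModF T)

end Pool.Agent.AAD
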