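import Pool.Agent.AAD.StB

/-!
AAD, module GCF: the good code (helper40).
-/

set_option autoImplicit false
set_option linter.unusedVariables false

namespace Pool.Agent.AAD

open FirstOrder.Language Set
open scoped FirstOrder

section

variable {κ : Type} {ar : κ → ℕ} {K : Cla ar} (P : PS K) (E : Set (Fin P.N))

theorem GCF_finL : Finite (LvE P E) := by
  unfold LvE
  exact Subtype.finite

theorem GCF_finR : Finite (Rf P) := by
  unfold Rf
  exact Subtype.finite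

/-- the code -/
@[reducible]
def GCF_cd : Cd ar where
  Λ := LvE P E
  Ρ := Rf P
  fΛ := GCF_finL P E
  fΡ := GCF_finR P
  W := fun s l p => ∃ (m : LL) (v : Fin (ar' ar s) → XE P E m.M), (∀ j, lbl P (v j) = l j) ∧
    (∀ b i j, pl (m.lt b) (v i) (v j) ↔ p b i j) ∧
    TrM P m.lt s (fun j => kd P (v j)) (fun j => pp P (v j))

theorem GCF_lab {M : Type} (x : XE P E M) : lab x = lbl P x := by
  rcases x with x | x <;> rfl

theorem GCF_cr (hPWM : St_PWM) (m : LL) (s : Option κ) (v : Fin (ar' ar s) → XE P E m.M) :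
    cr (GCF_cd P E) m.lt s v ↔ TrM P m.lt s (fun j => kd P (v j)) (fun j => pp P (v j)) := by
  constructor
  · rintro ⟨m', v', h1, h2, h3⟩
    refine (hPWM κ ar K P E m' m s v' v (fun j => ?_) h2).1 h3
    rw [h1 j]
    exact GCF_lab P E (v j)
  · intro h
    exact ⟨m, v, fun j => (GCF_lab P E (v j)).symm, fun b i j => Iff.rfl, h⟩

theorem GCF_str (hPWM : St_PWM) (m : LL) : cd (GCF_cd P E) m.M m.lt = cdE P E m.M m.lt := by
  refine FirstOrder.Language.Structure.ext ?_ ?_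
  · funext n f
    exact Empty.elim f
  · funext n R v
    change Sm (LvE P E ⊕ Rf P) ar n at R
    cases R with
    | un l =>
      change (lab (v 0) = l) = (lbl P (v 0) = l)
      rw [GCF_lab]
    | rl s => exact propext (GCF_cr P E hPWM m s v)

end

/-- a maximal tight set contains `z₂` -/
theorem GCF_max (hADJ : St_ADJ) (hNCM : St_NCM) (hMRG : St_MRG) {κ : Type} {ar : κ → ℕ}
    {K : Cla ar} (P : PS K) : ∃ E : Set (Fin P.N), P.z₁ ∈ E ∧ P.z₂ ∈ E ∧ Tight P E := by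
  classical
  have h1 : ∃ E ∈ {E : Set (Fin P.N) | P.z₁ ∈ E ∧ (∀ u ∈ E, ∃ i, P.sp u i) ∧ Tight P E},
      ∀ E' ∈ {E : Set (Fin P.N) | P.z₁ ∈ E ∧ (∀ u ∈ E, ∃ i, P.sp u i) ∧ Tight P E},
        E'.ncard ≤ E.ncard := by
    refine Set.exists_max_image _ _ (Set.toFinite _) ⟨{P.z₁}, rfl, ?_, ?_⟩
    · rintro u rfl
      exact P.ne₁
    · intro l l'
      refine hADJ κ ar K P {P.z₁} l l' ?_
      rw [Set.mem_singleton_iff.1 l.2.1, Set.mem_singleton_iff.1 l'.2.1]
  obtain ⟨E, ⟨hz, hne, hT⟩, hmax⟩ := h1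
  refine ⟨E, hz, ?_, hT⟩
  by_contra h2
  obtain ⟨S₀, ρ, s, t, hS, hd, hS', hN⟩ := hNCM κ ar K P E hz h2
  have hT' := hMRG κ ar K P E S₀ ρ s t hz hne hT hd hS' hN
  have h3 := hmax (E ∪ S₀) ⟨Or.inl hz, fun u hu => hu.elim (hne u) (hS' u), hT'⟩
  rw [Set.ncard_union_eq hd (Set.toFinite _) (Set.toFinite _)] at h3
  have h4 : 0 < S₀.ncard := (Set.ncard_pos (Set.toFinite _)).2 hS
  omega

theorem thm_GCF (hCLN : St_CLN) (hPWM : St_PWM) (hADJ : St_ADJ) (hORL : St_ORL) (hNCM : St_NCM)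
    (hMRG : St_MRG) : St_GCF := by
  classical
  intro κ ar K P
  obtain ⟨E, hz₁, hz₂, hT⟩ := GCF_max hADJ hNCM hMRG P
  let l₀ : LvE P E := ⟨(P.z₁, fun _ => 1), hz₁, P.ne₁, fun _ _ => rfl⟩
  let l₂ : LvE P E := ⟨(P.z₂, fun _ => 1), hz₂, P.ne₂, fun _ _ => rfl⟩
  choose mt hmt using fun l : LvE P E => hT l₀ l
  have hth : ∀ b : Bool, UDE P E (Fin 2) fun m v => ∃ μ ν, v 0 = .inl (μ, l₀) ∧
      v 1 = .inl (ν, l₀) ∧ m.lt b μ ν := by
    intro b
    cases b with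
    | true =>
      refine hORL κ ar K P E l₀ true fun i hi => ?_
      unfold bt
      rw [if_neg (P.dis i hi)]
    | false =>
      have hO : UDE P E (Fin 2) fun m v => ∃ μ ν, v 0 = .inl (μ, l₂) ∧
          v 1 = .inl (ν, l₂) ∧ m.lt false μ ν := by
        refine hORL κ ar K P E l₂ false fun i hi => ?_
        have hi' : P.sp P.z₂ i := hi
        unfold bt
        rw [if_pos hi']
      have hM := hT l₀ l₂
      have a1 := UD_sub hM (![Sum.inl 0, Sum.inr 0] : Fin 2 → Fin 2 ⊕ Fin 2)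
      have a2 := UD_sub hM (![Sum.inl 1, Sum.inr 1] : Fin 2 → Fin 2 ⊕ Fin 2)
      have a3 := UD_sub hO (![Sum.inr 0, Sum.inr 1] : Fin 2 → Fin 2 ⊕ Fin 2)
      have a4 := UD_and a1 (UD_and a2 a3)
      have a5 := UD_ex (β := Fin 2) a4
      refine UD_congr a5 fun m v => ?_
      constructor
      · rintro ⟨w, ⟨μ, h1, h2⟩, ⟨ν, h3, h4⟩, μ', ν', h5, h6, h7⟩
        change v 0 = _ at h1
        change w 0 = _ at h2
        change v 1 = _ at h3
        change w 1 = _ at h4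
        change w 0 = _ at h5
        change w 1 = _ at h6
        have e1 : μ = μ' := (Prod.mk.inj (Sum.inl.inj (h2.symm.trans h5))).1
        have e2 : ν = ν' := (Prod.mk.inj (Sum.inl.inj (h4.symm.trans h6))).1
        subst e1 e2
        exact ⟨μ, ν, h1, h3, h7⟩
      · rintro ⟨μ, ν, h1, h2, h3⟩
        exact ⟨![.inl (μ, l₂), .inl (ν, l₂)], ⟨μ, h1, rfl⟩, ⟨ν, h2, rfl⟩, μ, ν, rfl, rfl, h3⟩
  choose th hth' using hth
  refine ⟨{ GCF_cd P E with
    l₀ := l₀
    lin := fun m => ?_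
    age := fun m => ?_
    mt := mt
    th := th
    mtp := fun m l v => ?_
    thp := fun m b v => ?_ }⟩
  · have h := (hCLN κ ar K P E m).1
    rw [← GCF_str P E hPWM m] at h
    exact h
  · have h := (hCLN κ ar K P E m).2
    rw [← GCF_str P E hPWM m] at h
    exact h
  · have h : @Formula.Realize (LA (LvE P E ⊕ Rf P) ar) (XE P E m.M) (cdE P E m.M m.lt) (Fin 2)
        (mt l) v ↔ ∃ μ, v 0 = Sum.inl (μ, l₀) ∧ v 1 = Sum.inl (μ, l) := hmt l m v
    rw [← GCF_str P E hPWM m] at h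
    exact h
  · have h : @Formula.Realize (LA (LvE P E ⊕ Rf P) ar) (XE P E m.M) (cdE P E m.M m.lt) (Fin 2)
        (th b) v ↔ ∃ μ ν, v 0 = Sum.inl (μ, l₀) ∧ v 1 = Sum.inl (ν, l₀) ∧ m.lt b μ ν :=
      hth' b m v
    rw [← GCF_str P E hPWM m] at h
    exact h

end Pool.Agent.AAD
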