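import Pool.Agent.AAD.StD

/-!
AAD, module ITU2: the iterated ultrapower along `ℚ`.

`ITU_V` is an ultrafilter on `ℚ → ℕ`; on the properties which depend on finitely many coordinates it is
the iterated (along the sorted list of these coordinates) hyperfilter of `ℕ`, so it is invariant under
`Gam` there.  `C` consists of the classes of the functions with finitely many relevant coordinates in
the ultrapower of `M`.
-/

set_option autoImplicit false
set_option linter.unusedVariables false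
set_option linter.unusedSectionVars false

namespace Pool.Agent.AAD

open FirstOrder.Language Set Filter
open scoped FirstOrder

/-! ### The ultrafilter -/

/-- the iterated ultrafilter: `∀ᶠ i₁, ∀ᶠ i₂, ..` for the coordinates in the list `l` -/
noncomputable def ITU_W : List ℚ → (ℚ → ℕ) → Ultrafilter (ℚ → ℕ)
  | [], v => pure v
  | q :: l, v => (hyperfilter ℕ).bind fun i => ITU_W l (Function.update v q i)

theorem ITU_nil (P : (ℚ → ℕ) → Prop) (v : ℚ → ℕ) : (∀ᶠ w in (ITU_W [] v : Filter (ℚ → ℕ)), P w) ↔ P v := by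
  unfold ITU_W
  exact Iff.rfl

theorem ITU_cons (P : (ℚ → ℕ) → Prop) (q : ℚ) (l : List ℚ) (v : ℚ → ℕ) :
    (∀ᶠ w in (ITU_W (q :: l) v : Filter (ℚ → ℕ)), P w) ↔
      ∀ᶠ i in (hyperfilter ℕ : Filter ℕ), ∀ᶠ w in (ITU_W l (Function.update v q i) : Filter (ℚ → ℕ)), P w := by
  conv_lhs => rw [ITU_W]
  exact Iff.rfl

/-- `P` depends on the coordinates in `s` -/
def ITU_Dep {X : Type} (s : Finset ℚ) (P : (ℚ → ℕ) → X) : Prop :=
  ∀ v w : ℚ → ℕ, (∀ q ∈ s, v q = w q) → P v = P w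

theorem ITU_ind {s : Finset ℚ} {P : (ℚ → ℕ) → Prop} (hP : ITU_Dep s P) (l : List ℚ) :
    ∀ v v' : ℚ → ℕ, (∀ q ∈ s, q ∉ l → v q = v' q) →
      ((∀ᶠ w in (ITU_W l v : Filter (ℚ → ℕ)), P w) ↔ ∀ᶠ w in (ITU_W l v' : Filter (ℚ → ℕ)), P w) := by
  induction l with
  | nil =>
    intro v v' h
    rw [ITU_nil, ITU_nil, hP v v' fun q hq => h q hq (by simp)]
  | cons a l ih =>
    intro v v' h
    rw [ITU_cons, ITU_cons]
    refine eventually_congr (Eventually.of_forall fun i => ih _ _ fun q hq hl => ?_)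
    by_cases hqa : q = a
    · rw [hqa, Function.update_self, Function.update_self]
    · rw [Function.update_of_ne hqa, Function.update_of_ne hqa]
      exact h q hq (by simp [hqa, hl])

theorem ITU_sub {s : Finset ℚ} {P : (ℚ → ℕ) → Prop} (hP : ITU_Dep s P) {l l' : List ℚ}
    (h : l.Sublist l') : l'.Nodup → (∀ q ∈ l', q ∈ s → q ∈ l) → ∀ v : ℚ → ℕ,
      ((∀ᶠ w in (ITU_W l' v : Filter (ℚ → ℕ)), P w) ↔ ∀ᶠ w in (ITU_W l v : Filter (ℚ → ℕ)), P w) := by
  induction h with
  | slnil => intro _ _ v; exact Iff.rfl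
  | @cons l l' a h ih =>
    intro hn hs v
    rw [ITU_cons]
    have h1 : ∀ i, (∀ᶠ w in (ITU_W l' (Function.update v a i) : Filter (ℚ → ℕ)), P w) ↔
        ∀ᶠ w in (ITU_W l v : Filter (ℚ → ℕ)), P w := fun i => by
      rw [ih (List.nodup_cons.1 hn).2 (fun q hq => hs q (List.mem_cons_of_mem _ hq))]
      refine ITU_ind hP l _ _ fun q hq hl => ?_
      by_cases hqa : q = a
      · exact absurd (hs a List.mem_cons_self (hqa ▸ hq)) (hqa ▸ hl)
      · rw [Function.update_of_ne hqa]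
    rw [eventually_congr (Eventually.of_forall h1), eventually_const]
  | @cons_cons l l' a h ih =>
    intro hn hs v
    rw [ITU_cons, ITU_cons]
    refine eventually_congr (Eventually.of_forall fun i => ih (List.nodup_cons.1 hn).2 ?_ _)
    intro q hq hqs
    rcases List.mem_cons.1 (hs q (List.mem_cons_of_mem _ hq) hqs) with h1 | h1
    · exact absurd (h1 ▸ hq) (List.nodup_cons.1 hn).1
    · exact h1

theorem ITU_map (P : (ℚ → ℕ) → Prop) (g : Gam) (l : List ℚ) : ∀ v : ℚ → ℕ,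
    ((∀ᶠ w in (ITU_W (l.map g) v : Filter (ℚ → ℕ)), P (w ∘ g)) ↔
      ∀ᶠ w in (ITU_W l (v ∘ g) : Filter (ℚ → ℕ)), P w) := by
  induction l with
  | nil =>
    intro v
    rw [List.map_nil, ITU_nil, ITU_nil]
  | cons a l ih =>
    intro v
    rw [List.map_cons, ITU_cons, ITU_cons]
    refine eventually_congr (Eventually.of_forall fun i => ?_)
    rw [ih, Function.update_comp_eq_of_injective v g.injective a i]

/-- the ultrafilter of the ultrapower -/
noncomputable def ITU_V : Ultrafilter (ℚ → ℕ) :=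
  (Ultrafilter.of (atTop : Filter (Finset ℚ))).bind fun s => ITU_W s.sort 0

theorem ITU_sort {s s' : Finset ℚ} (h : s ⊆ s') : s.sort.Sublist s'.sort := by
  refine List.sublist_of_subperm_of_pairwise ?_ (s.pairwise_sort (· ≤ ·)) (s'.pairwise_sort (· ≤ ·))
  refine List.subperm_of_subset (s.sort_nodup _) fun q hq => ?_
  rw [Finset.mem_sort] at hq ⊢
  exact h hq

theorem ITU_V1 {s : Finset ℚ} {P : (ℚ → ℕ) → Prop} (hP : ITU_Dep s P) (v : ℚ → ℕ) :
    (∀ᶠ w in (ITU_V : Filter (ℚ → ℕ)), P w) ↔ ∀ᶠ w in (ITU_W s.sort v : Filter (ℚ → ℕ)), P w := by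
  have h1 : (∀ᶠ w in (ITU_V : Filter (ℚ → ℕ)), P w) ↔
      ∀ᶠ s' in (Ultrafilter.of (atTop : Filter (Finset ℚ)) : Filter (Finset ℚ)),
        ∀ᶠ w in (ITU_W s'.sort 0 : Filter (ℚ → ℕ)), P w := Iff.rfl
  have h2 : ∀ᶠ s' in (Ultrafilter.of (atTop : Filter (Finset ℚ)) : Filter (Finset ℚ)), s ⊆ s' :=
    (Ultrafilter.of_le _) (eventually_ge_atTop s)
  have h3 : ∀ s', s ⊆ s' → ((∀ᶠ w in (ITU_W s'.sort 0 : Filter (ℚ → ℕ)), P w) ↔
      ∀ᶠ w in (ITU_W s.sort v : Filter (ℚ → ℕ)), P w) := by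
    intro s' hs
    rw [ITU_sub hP (ITU_sort hs) (s'.sort_nodup _) (fun q _ hq => (Finset.mem_sort _).2 hq)]
    exact ITU_ind hP _ _ _ fun q hq hl => absurd ((Finset.mem_sort _).2 hq) hl
  rw [h1, eventually_congr (h2.mono h3), eventually_const]

theorem ITU_Dep.comp {X : Type} {s : Finset ℚ} {P : (ℚ → ℕ) → X} (hP : ITU_Dep s P) (g : Gam) :
    ITU_Dep (s.map g.toEquiv.toEmbedding) (fun v => P (v ∘ g)) := by
  intro v w h
  refine hP _ _ fun q hq => ?_
  exact h (g q) (Finset.mem_map_of_mem g.toEquiv.toEmbedding hq)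

theorem ITU_V2 {s : Finset ℚ} {P : (ℚ → ℕ) → Prop} (hP : ITU_Dep s P) (g : Gam) :
    (∀ᶠ w in (ITU_V : Filter (ℚ → ℕ)), P (w ∘ g)) ↔ ∀ᶠ w in (ITU_V : Filter (ℚ → ℕ)), P w := by
  rw [ITU_V1 (hP.comp g) 0, ITU_V1 hP ((0 : ℚ → ℕ) ∘ g), ← ITU_map P g]
  have h : (s.map g.toEquiv.toEmbedding).sort = s.sort.map g := by
    rw [← Finset.map_sort (f := g.toEquiv.toEmbedding) (r := (· ≤ ·)) (r' := (· ≤ ·))]
    · rfl
    · intro a _ b _
      exact g.le_iff_le.symm
  rw [h]

theorem ITU_ne {p r : ℚ} (h : p ≠ r) : ∀ᶠ v in (ITU_V : Filter (ℚ → ℕ)), v p ≠ v r := by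
  have hh : ∀ p r : ℚ, p < r → ∀ᶠ v in (ITU_V : Filter (ℚ → ℕ)), v p ≠ v r := by
    intro p r hpr
    have hd : ITU_Dep {p, r} (fun v : ℚ → ℕ => v p ≠ v r) := by
      intro v w hvw
      have h1 := hvw p (by simp)
      have h2 := hvw r (by simp)
      simp only [h1, h2]
    have hs : ({p, r} : Finset ℚ).sort = [p, r] := by
      rw [Finset.sort_insert (r := (· ≤ ·)) (by simp [hpr.le]) (by simp [hpr.ne]),
        Finset.sort_singleton]
    rw [ITU_V1 hd 0, hs, ITU_cons]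
    refine Eventually.of_forall fun i => ?_
    rw [ITU_cons]
    have h1 : ∀ᶠ j in (hyperfilter ℕ : Filter ℕ), j ≠ i := by
      have h2 : ({i}ᶜ : Set ℕ) ∈ (hyperfilter ℕ : Filter ℕ) := (Set.finite_singleton i).compl_mem_hyperfilter
      exact h2
    refine h1.mono fun j hj => ?_
    rw [ITU_nil, Function.update_self, Function.update_of_ne hpr.ne, Function.update_self]
    exact hj.symm
  rcases lt_or_gt_of_ne h with h1 | h1
  · exact hh p r h1
  · exact (hh r p h1).mono fun v hv => hv.symm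

theorem ITU_Dep.mono {X : Type} {s s' : Finset ℚ} {P : (ℚ → ℕ) → X} (hP : ITU_Dep s P) (h : s ⊆ s') :
    ITU_Dep s' P := fun v w hvw => hP v w fun q hq => hvw q (h hq)

/-- a common set of coordinates for a finite family -/
theorem ITU_fin {α X : Type} [Finite α] {f : α → (ℚ → ℕ) → X} (h : ∀ i, ∃ s, ITU_Dep s (f i)) :
    ∃ s, ∀ i, ITU_Dep s (f i) := by
  classical
  have := Fintype.ofFinite α
  choose s hs using h
  exact ⟨Finset.univ.biUnion s, fun i => (hs i).mono (Finset.subset_biUnion_of_mem s (Finset.mem_univ i))⟩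

/-! ### The structure -/

section

variable (L : FirstOrder.Language.{0, 0}) (hL : ∀ n, IsEmpty (L.Functions n)) (M : Type)
  [L.Structure M] [Nonempty M]

/-- the ultrapower -/
abbrev ITU_N : Type := (ITU_V : Filter (ℚ → ℕ)).Product fun _ => M

/-- the class of a function -/
noncomputable def ITU_mk {M : Type} (f : (ℚ → ℕ) → M) : ITU_N M :=
  @Quotient.mk' _ ((ITU_V : Filter (ℚ → ℕ)).productSetoid fun _ => M) f

theorem ITU_mk_eq {M : Type} (f f' : (ℚ → ℕ) → M) :
    (ITU_mk f = ITU_mk f') ↔ ∀ᶠ v in (ITU_V : Filter (ℚ → ℕ)), f v = f' v := by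
  unfold ITU_mk
  exact Quotient.eq''

/-- the classes of the functions with finitely many relevant coordinates -/
noncomputable def ITU_S : L.Substructure (ITU_N M) where
  carrier := {c | ∃ (f : (ℚ → ℕ) → M) (s : Finset ℚ), ITU_Dep s f ∧ c = ITU_mk f}
  fun_mem := fun {n} F => (hL n).elim F

variable {L hL M}

theorem ITU_rep (c : ITU_S L hL M) : ∃ (f : (ℚ → ℕ) → M) (s : Finset ℚ), ITU_Dep s f ∧
    (c : ITU_N M) = ITU_mk f := c.2

/-- the element of a function -/
noncomputable def ITU_el (f : (ℚ → ℕ) → M) (h : ∃ s : Finset ℚ, ITU_Dep s f) : ITU_S L hL M :=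
  ⟨ITU_mk f, f, h.choose, h.choose_spec, rfl⟩

theorem ITU_elim (c : ITU_S L hL M) : ∃ (f : (ℚ → ℕ) → M) (h : ∃ s : Finset ℚ, ITU_Dep s f),
    c = ITU_el f h := by
  obtain ⟨f, s, h, e⟩ := ITU_rep c
  exact ⟨f, ⟨s, h⟩, Subtype.ext e⟩

theorem ITU_el_eq (f f' : (ℚ → ℕ) → M) (h : ∃ s : Finset ℚ, ITU_Dep s f)
    (h' : ∃ s : Finset ℚ, ITU_Dep s f') : (ITU_el f h : ITU_S L hL M) = ITU_el f' h' ↔
      ∀ᶠ v in (ITU_V : Filter (ℚ → ℕ)), f v = f' v := by
  rw [← ITU_mk_eq, ← Subtype.coe_inj]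
  rfl

/-- Łoś for the ultrapower -/
theorem ITU_los {α : Type} {n : ℕ} (φ : L.BoundedFormula α n) (x : α → (ℚ → ℕ) → M)
    (y : Fin n → (ℚ → ℕ) → M) : φ.Realize (fun i => ITU_mk (x i)) (fun i => ITU_mk (y i)) ↔
      ∀ᶠ v in (ITU_V : Filter (ℚ → ℕ)), φ.Realize (fun i => x i v) fun i => y i v :=
  Ultraproduct.boundedFormula_realize_cast (u := ITU_V) (M := fun _ => M) φ x y

/-- Łoś for formulas -/
theorem ITU_losF {α : Type} (φ : L.Formula α) (x : α → (ℚ → ℕ) → M) :
    φ.Realize (fun i => ITU_mk (x i)) ↔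
      ∀ᶠ v in (ITU_V : Filter (ℚ → ℕ)), φ.Realize fun i => x i v :=
  Ultraproduct.realize_formula_cast (u := ITU_V) (M := fun _ => M) φ x

theorem ITU_rel {n : ℕ} (R : L.Relations n) (x : Fin n → (ℚ → ℕ) → M) :
    Structure.RelMap R (fun i => ITU_mk (x i)) ↔
      ∀ᶠ v in (ITU_V : Filter (ℚ → ℕ)), Structure.RelMap R fun i => x i v := by
  have h := ITU_losF (R.formula fun i => Term.var i) x
  rw [Formula.realize_rel] at h
  refine h.trans (eventually_congr (Eventually.of_forall fun v => ?_))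
  rw [Formula.realize_rel]
  exact Iff.rfl

variable (L hL M)

/-- `ITU_S` is an elementary substructure of the ultrapower (Tarski-Vaught) -/
theorem ITU_elem : (ITU_S L hL M).IsElementary := by
  classical
  refine Substructure.isElementary_of_exists _ fun n φ x a ha => ?_
  choose f hf hx using fun i => ITU_elim (x i)
  obtain ⟨fa, hfa⟩ : ∃ fa : (ℚ → ℕ) → M, a = ITU_mk fa := by
    obtain ⟨fa, h⟩ := Quotient.exists_rep a
    exact ⟨fa, h.symm⟩
  obtain ⟨s, hs⟩ := ITU_fin hf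
  have e1 : ∀ b : (ℚ → ℕ) → M, (Fin.snoc ((↑) ∘ x) (ITU_mk b) : Fin (n + 1) → ITU_N M) =
      fun i => ITU_mk ((Fin.snoc f b : Fin (n + 1) → (ℚ → ℕ) → M) i) := by
    intro b
    funext i
    refine Fin.lastCases ?_ (fun j => ?_) i
    · rw [Fin.snoc_last, Fin.snoc_last]
    · rw [Fin.snoc_castSucc, Fin.snoc_castSucc, Function.comp_apply, hx]
      rfl
  have e2 : ∀ (b : (ℚ → ℕ) → M) (v : ℚ → ℕ),
      (fun i => (Fin.snoc f b : Fin (n + 1) → (ℚ → ℕ) → M) i v) =
      (Fin.snoc (fun i => f i v) (b v) : Fin (n + 1) → M) := by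
    intro b v
    funext i
    refine Fin.lastCases ?_ (fun j => ?_) i
    · rw [Fin.snoc_last, Fin.snoc_last]
    · rw [Fin.snoc_castSucc, Fin.snoc_castSucc]
  have e3 : ∀ b : (ℚ → ℕ) → M,
      φ.Realize default (Fin.snoc ((↑) ∘ x) (ITU_mk b) : Fin (n + 1) → ITU_N M) ↔
      ∀ᶠ v in (ITU_V : Filter (ℚ → ℕ)), φ.Realize (default : Empty → M)
        (Fin.snoc (fun i => f i v) (b v) : Fin (n + 1) → M) := by
    intro b
    rw [e1 b]
    have h := ITU_los φ (fun i : Empty => i.elim) (Fin.snoc f b : Fin (n + 1) → (ℚ → ℕ) → M)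
    have h4 : (fun i : Empty => ITU_mk ((i.elim : (ℚ → ℕ) → M))) = (default : Empty → ITU_N M) :=
      Subsingleton.elim _ _
    rw [h4] at h
    rw [h]
    refine eventually_congr (Eventually.of_forall fun v => ?_)
    rw [e2 b v]
    have h5 : (fun i : Empty => (i.elim : (ℚ → ℕ) → M) v) = (default : Empty → M) :=
      Subsingleton.elim _ _
    rw [h5]
  rw [hfa, e3] at ha
  let F : (Fin n → M) → M := fun m => if h : ∃ b, φ.Realize (default : Empty → M)
    (Fin.snoc m b : Fin (n + 1) → M) then h.choose else Classical.arbitrary M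
  have hF : ∀ m, (∃ b, φ.Realize (default : Empty → M) (Fin.snoc m b : Fin (n + 1) → M)) →
      φ.Realize (default : Empty → M) (Fin.snoc m (F m) : Fin (n + 1) → M) := by
    intro m h
    have : F m = h.choose := dif_pos h
    rw [this]
    exact h.choose_spec
  refine ⟨ITU_el (fun v => F fun i => f i v) ⟨s, fun v w h => ?_⟩, ?_⟩
  · have h1 : (fun i => f i v) = fun i => f i w := funext fun i => hs i v w h
    simp only [h1]
  · refine (e3 _).2 (ha.mono fun v hv => hF _ ⟨_, hv⟩)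

variable {L hL M}

/-- Łoś for `ITU_S` -/
theorem ITU_losS {α : Type} (φ : L.Formula α) (x : α → (ℚ → ℕ) → M)
    (h : ∀ i, ∃ s : Finset ℚ, ITU_Dep s (x i)) :
    φ.Realize (fun i => (ITU_el (x i) (h i) : ITU_S L hL M)) ↔
      ∀ᶠ v in (ITU_V : Filter (ℚ → ℕ)), φ.Realize fun i => x i v := by
  let T : L.ElementarySubstructure (ITU_N M) := ⟨ITU_S L hL M, ITU_elem L hL M⟩
  have h1 := T.subtype.map_formula φ (fun i => (ITU_el (x i) (h i) : ITU_S L hL M))
  rw [← ITU_losF]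
  exact h1.symm

theorem ITU_relS {n : ℕ} (R : L.Relations n) (x : Fin n → (ℚ → ℕ) → M)
    (h : ∀ i, ∃ s : Finset ℚ, ITU_Dep s (x i)) :
    Structure.RelMap R (fun i => (ITU_el (x i) (h i) : ITU_S L hL M)) ↔
      ∀ᶠ v in (ITU_V : Filter (ℚ → ℕ)), Structure.RelMap R fun i => x i v := by
  have h1 := ITU_losS (hL := hL) (R.formula fun i => Term.var i) x h
  rw [Formula.realize_rel] at h1
  refine h1.trans (eventually_congr (Eventually.of_forall fun v => ?_))
  rw [Formula.realize_rel]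
  exact Iff.rfl

/-! ### The action -/

theorem ITU_shd {X : Type} {f : (ℚ → ℕ) → X} (g : Gam) (h : ∃ s : Finset ℚ, ITU_Dep s f) :
    ∃ s : Finset ℚ, ITU_Dep s fun v => f (v ∘ g) := by
  obtain ⟨s, hs⟩ := h
  exact ⟨_, hs.comp g⟩

/-- the action -/
noncomputable def ITU_act (g : Gam) (c : ITU_S L hL M) : ITU_S L hL M :=
  ITU_el (fun v => (ITU_elim c).choose (v ∘ g)) (ITU_shd g (ITU_elim c).choose_spec.choose)

theorem ITU_act_el (g : Gam) (f : (ℚ → ℕ) → M) (h : ∃ s : Finset ℚ, ITU_Dep s f) :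
    ITU_act g (ITU_el f h : ITU_S L hL M) = ITU_el (fun v => f (v ∘ g)) (ITU_shd g h) := by
  unfold ITU_act
  obtain ⟨f', hf'⟩ : ∃ f', f' = (ITU_elim (ITU_el f h : ITU_S L hL M)).choose := ⟨_, rfl⟩
  have h1 : ∃ h' : ∃ s : Finset ℚ, ITU_Dep s f', (ITU_el f h : ITU_S L hL M) = ITU_el f' h' := by
    rw [hf']
    exact (ITU_elim (ITU_el f h : ITU_S L hL M)).choose_spec
  obtain ⟨h', e⟩ := h1
  have e' := (ITU_el_eq _ _ _ _).1 e
  rw [ITU_el_eq]
  rw [← hf']
  obtain ⟨s, hs⟩ := h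
  obtain ⟨s', hs'⟩ := h'
  have hd : ITU_Dep (s ∪ s') fun v => f v = f' v := by
    intro v w hvw
    have h2 := hs.mono Finset.subset_union_left v w hvw
    have h3 := hs'.mono Finset.subset_union_right v w hvw
    simp only [h2, h3]
  have h4 := (ITU_V2 hd g).2 e'
  exact h4.mono fun v hv => hv.symm

noncomputable instance ITU_ma : MulAction Gam (ITU_S L hL M) where
  smul := ITU_act
  one_smul := by
    intro c
    obtain ⟨f, h, rfl⟩ := ITU_elim c
    exact ITU_act_el 1 f h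
  mul_smul := by
    intro g g' c
    obtain ⟨f, h, rfl⟩ := ITU_elim c
    change ITU_act (g * g') _ = ITU_act g (ITU_act g' _)
    rw [ITU_act_el, ITU_act_el, ITU_act_el]
    rfl

theorem ITU_smul (g : Gam) (f : (ℚ → ℕ) → M) (h : ∃ s : Finset ℚ, ITU_Dep s f) :
    g • (ITU_el f h : ITU_S L hL M) = ITU_el (fun v => f (v ∘ g)) (ITU_shd g h) :=
  ITU_act_el g f h

theorem ITU_ctx : Ctx L (ITU_S L hL M) where
  nof := hL
  inv := by
    intro g n R v
    choose f hf hv using fun i => ITU_elim (v i)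
    obtain ⟨s, hs⟩ := ITU_fin hf
    have e1 : v = fun i => ITU_el (f i) (hf i) := funext hv
    rw [e1]
    simp only [ITU_smul]
    rw [ITU_relS, ITU_relS]
    refine ITU_V2 (P := fun v => Structure.RelMap R fun i => f i v) (s := s) ?_ g
    intro v w h
    have h1 : (fun i => f i v) = fun i => f i w := funext fun i => hs i v w h
    simp only [h1]
  fin := by
    intro x
    obtain ⟨f, ⟨s, hs⟩, rfl⟩ := ITU_elim x
    refine ⟨s, fun g hg => ?_⟩
    change g • (ITU_el f _ : ITU_S L hL M) = _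
    rw [ITU_smul, ITU_el_eq]
    refine Eventually.of_forall fun v => hs _ _ fun q hq => ?_
    rw [Function.comp_apply, hg q hq]

theorem ITU_iff {P : (ℚ → ℕ) → Prop} {A : Prop}
    (h : A ↔ ∀ᶠ v in (ITU_V : Filter (ℚ → ℕ)), P v) :
    ∀ᶠ v in (ITU_V : Filter (ℚ → ℕ)), (P v ↔ A) := by
  by_cases hA : A
  · exact (h.1 hA).mono fun v hv => ⟨fun _ => hA, fun _ => hv⟩
  · have h1 : ∀ᶠ v in (ITU_V : Filter (ℚ → ℕ)), ¬ P v := by
      rw [Ultrafilter.eventually_not]
      exact fun hP => hA (h.2 hP)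
    exact h1.mono fun v hv => ⟨fun h2 => absurd h2 hv, fun h2 => absurd h2 hA⟩

theorem ITU_pcs : Pcs L (ITU_S L hL M) M := by
  intro n c F
  choose f hf hc using fun i => ITU_elim (c i)
  have e1 : c = fun i => ITU_el (f i) (hf i) := funext hc
  have h1 : ∀ᶠ v in (ITU_V : Filter (ℚ → ℕ)), ∀ i j, (f i v = f j v ↔ c i = c j) := by
    rw [eventually_all]
    intro i
    rw [eventually_all]
    intro j
    refine ITU_iff ?_
    rw [hc i, hc j, ITU_el_eq]
  have h2 : ∀ᶠ v in (ITU_V : Filter (ℚ → ℕ)), ∀ R ∈ F, ∀ w : Fin R.1 → Fin n,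
      (Structure.RelMap R.2 (fun i => f (w i) v) ↔ Structure.RelMap R.2 (fun i => c (w i))) := by
    rw [Filter.eventually_all_finset]
    intro R _
    rw [eventually_all]
    intro w
    refine ITU_iff ?_
    rw [e1]
    exact ITU_relS R.2 (fun i => f (w i)) fun i => hf (w i)
  obtain ⟨v, hv1, hv2⟩ := (h1.and h2).exists
  exact ⟨fun i => f i v, hv1, hv2⟩

/-! ### The array -/

theorem ITU_arr (m n : ℕ) (φ : L.Formula (Fin m ⊕ Fin n)) (x : ℕ → Fin m → M)
    (y : (Fin (n + 1) → ℕ) → Fin n → M)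
    (hxy : ∀ r b, φ.Realize (Sum.elim (x r) (y b)) ↔ ∃ j, b j = r) :
    Nonempty (Arr2 L (ITU_S L hL M)) := by
  have hx : ∀ (q : ℚ) (i : Fin m), ∃ s : Finset ℚ, ITU_Dep s fun v : ℚ → ℕ => x (v q) i :=
    fun q i => ⟨{q}, fun v w h => by
      have := h q (by simp)
      simp only [this]⟩
  have hy : ∀ (b : Fin (n + 1) → ℚ) (i : Fin n),
      ∃ s : Finset ℚ, ITU_Dep s fun v : ℚ → ℕ => y (fun j => v (b j)) i :=
    fun b i => ⟨Finset.univ.image b, fun v w h => by
      have h1 : (fun j => v (b j)) = fun j => w (b j) := funext fun j => h _ (by simp)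
      simp only [h1]⟩
  refine ⟨⟨m, n, φ, fun q i => ITU_el _ (hx q i), fun b i => ITU_el _ (hy b i), ?_, ?_, ?_⟩⟩
  · intro g q i
    rw [ITU_smul]
    rfl
  · intro g b i
    rw [ITU_smul]
    rfl
  · intro r b
    have hh : ∀ i, ∃ s : Finset ℚ, ITU_Dep s ((Sum.elim (fun i v => x (v r) i)
        (fun i v => y (fun j => v (b j)) i) : Fin m ⊕ Fin n → (ℚ → ℕ) → M) i) := by
      rintro (i | i)
      · exact hx r i
      · exact hy b i
    have e1 : (Sum.elim (fun i => ITU_el _ (hx r i)) (fun i => ITU_el _ (hy b i)) :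
        Fin m ⊕ Fin n → ITU_S L hL M) = fun i => ITU_el _ (hh i) := by
      funext i
      rcases i with i | i <;> rfl
    rw [e1, ITU_losS]
    have e2 : ∀ v : ℚ → ℕ, (φ.Realize fun i => (Sum.elim (fun i v => x (v r) i)
        (fun i v => y (fun j => v (b j)) i) : Fin m ⊕ Fin n → (ℚ → ℕ) → M) i v) ↔
        ∃ j, v (b j) = v r := by
      intro v
      rw [← hxy (v r) fun j => v (b j)]
      have e3 : (fun i => (Sum.elim (fun i v => x (v r) i)
          (fun i v => y (fun j => v (b j)) i) : Fin m ⊕ Fin n → (ℚ → ℕ) → M) i v) =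
          Sum.elim (x (v r)) (y fun j => v (b j)) := by
        funext i
        rcases i with i | i <;> rfl
      rw [e3]
    rw [eventually_congr (Eventually.of_forall e2)]
    constructor
    · intro h
      by_contra hb
      push Not at hb
      have h1 : ∀ᶠ v in (ITU_V : Filter (ℚ → ℕ)), ∀ j, v (b j) ≠ v r := by
        rw [eventually_all]
        exact fun j => ITU_ne (hb j)
      obtain ⟨v, ⟨j, hv⟩, hv2⟩ := (h.and h1).exists
      exact hv2 j hv
    · rintro ⟨j, hj⟩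
      exact Eventually.of_forall fun v => ⟨j, by rw [hj]⟩

end

/-- [ITU2] the iterated ultrapower along `ℚ`. -/
theorem thm_ITU2 : St_ITU2 := by
  intro L hL M _ _ m n φ x y hxy
  exact ⟨ITU_S L hL M, inferInstance, inferInstance, ITU_ctx, ITU_pcs, ITU_arr m n φ x y hxy⟩

end Pool.Agent.AAD
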