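import Mathlib

/-!
AAD, toolkit: relations which are first-order definable in a family of structures, by one formula
(helper45).  `UD B X S α Q`: the relations `Q j` (of `α`-tuples of elements of `X j`) are defined in the
`B`-structures `X j` by one formula.
-/

set_option autoImplicit false
set_option linter.unusedVariables false

universe u

namespace Pool.Agent.AAD

open FirstOrder.Language Set
open scoped FirstOrder

/-- uniformly definable relations -/
def UD (B : FirstOrder.Language.{0, 0}) {J : Type u} (X : J → Type) (S : ∀ j, B.Structure (X j))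
    (α : Type) (Q : ∀ j, (α → X j) → Prop) : Prop :=
  ∃ φ : B.Formula α, ∀ (j : J) (v : α → X j), @Formula.Realize B (X j) (S j) α φ v ↔ Q j v

variable {B : FirstOrder.Language.{0, 0}} {J : Type u} {X : J → Type}
  {S : ∀ j, B.Structure (X j)} {α β : Type}

theorem UD_congr {Q Q' : ∀ j, (α → X j) → Prop} (h : UD B X S α Q) (e : ∀ j v, Q j v ↔ Q' j v) :
    UD B X S α Q' := by
  obtain ⟨φ, hφ⟩ := h
  exact ⟨φ, fun j v => (hφ j v).trans (e j v)⟩

/-- substitution of variables -/
theorem UD_sub {Q : ∀ j, (α → X j) → Prop} (h : UD B X S α Q) (f : α → β) :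
    UD B X S β fun j v => Q j fun i => v (f i) := by
  obtain ⟨φ, hφ⟩ := h
  refine ⟨φ.relabel f, fun j v => ?_⟩
  let _ := S j
  rw [Formula.realize_relabel]
  exact hφ j _

/-- atomic relations -/
theorem UD_rel {n : ℕ} (R : B.Relations n) (f : Fin n → α) :
    UD B X S α fun j v => @Structure.RelMap B (X j) (S j) n R fun i => v (f i) := by
  refine ⟨R.formula fun i => Term.var (f i), fun j v => ?_⟩
  let _ := S j
  rw [Formula.realize_rel]
  exact Iff.rfl

theorem UD_eq (a b : α) : UD B X S α fun j v => v a = v b := by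
  refine ⟨(Term.var a).equal (Term.var b), fun j v => ?_⟩
  let _ := S j
  rw [Formula.realize_equal]
  exact Iff.rfl

theorem UD_not {Q : ∀ j, (α → X j) → Prop} (h : UD B X S α Q) :
    UD B X S α fun j v => ¬ Q j v := by
  obtain ⟨φ, hφ⟩ := h
  refine ⟨φ.not, fun j v => ?_⟩
  let _ := S j
  rw [Formula.realize_not, hφ]

theorem UD_imp {Q Q' : ∀ j, (α → X j) → Prop} (h : UD B X S α Q) (h' : UD B X S α Q') :
    UD B X S α fun j v => Q j v → Q' j v := by
  obtain ⟨φ, hφ⟩ := h
  obtain ⟨ψ, hψ⟩ := h'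
  refine ⟨φ.imp ψ, fun j v => ?_⟩
  let _ := S j
  rw [Formula.realize_imp, hφ, hψ]

theorem UD_and {Q Q' : ∀ j, (α → X j) → Prop} (h : UD B X S α Q) (h' : UD B X S α Q') :
    UD B X S α fun j v => Q j v ∧ Q' j v := by
  obtain ⟨φ, hφ⟩ := h
  obtain ⟨ψ, hψ⟩ := h'
  refine ⟨φ ⊓ ψ, fun j v => ?_⟩
  let _ := S j
  rw [Formula.realize_inf, hφ, hψ]

theorem UD_or {Q Q' : ∀ j, (α → X j) → Prop} (h : UD B X S α Q) (h' : UD B X S α Q') :
    UD B X S α fun j v => Q j v ∨ Q' j v := by
  obtain ⟨φ, hφ⟩ := h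
  obtain ⟨ψ, hψ⟩ := h'
  refine ⟨φ ⊔ ψ, fun j v => ?_⟩
  let _ := S j
  rw [Formula.realize_sup, hφ, hψ]

theorem UD_iff {Q Q' : ∀ j, (α → X j) → Prop} (h : UD B X S α Q) (h' : UD B X S α Q') :
    UD B X S α fun j v => (Q j v ↔ Q' j v) :=
  UD_congr (UD_and (UD_imp h h') (UD_imp h' h)) fun j v => iff_iff_implies_and_implies.symm

theorem UD_const (p : Prop) : UD B X S α fun _ _ => p := by
  by_cases hp : p
  · refine ⟨⊤, fun j v => ?_⟩
    let _ := S j
    rw [Formula.realize_top]
    exact ⟨fun _ => hp, fun _ => trivial⟩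
  · refine ⟨⊥, fun j v => ?_⟩
    let _ := S j
    rw [Formula.realize_bot]
    exact ⟨fun h => h.elim, fun h => hp h⟩

/-- quantifiers: `β` is a finite type of new variables -/
theorem UD_ex [Finite β] {Q : ∀ j, (α ⊕ β → X j) → Prop} (h : UD B X S (α ⊕ β) Q) :
    UD B X S α fun j v => ∃ w : β → X j, Q j (Sum.elim v w) := by
  obtain ⟨φ, hφ⟩ := h
  refine ⟨φ.iExs β, fun j v => ?_⟩
  let _ := S j
  rw [Formula.realize_iExs]
  exact exists_congr fun w => hφ j _

theorem UD_all [Finite β] {Q : ∀ j, (α ⊕ β → X j) → Prop} (h : UD B X S (α ⊕ β) Q) :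
    UD B X S α fun j v => ∀ w : β → X j, Q j (Sum.elim v w) :=
  UD_congr (UD_not (UD_ex (UD_not h))) fun j v => by push Not; rfl

/-- one quantifier -/
theorem UD_ex1 {Q : ∀ j, (α → X j) → X j → Prop}
    (h : UD B X S (α ⊕ Unit) fun j v => Q j (fun i => v (Sum.inl i)) (v (Sum.inr ()))) :
    UD B X S α fun j v => ∃ x, Q j v x :=
  UD_congr (UD_ex h) fun j v => ⟨fun ⟨w, hw⟩ => ⟨w (), hw⟩, fun ⟨x, hx⟩ => ⟨fun _ => x, hx⟩⟩

theorem UD_all1 {Q : ∀ j, (α → X j) → X j → Prop}
    (h : UD B X S (α ⊕ Unit) fun j v => Q j (fun i => v (Sum.inl i)) (v (Sum.inr ()))) :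
    UD B X S α fun j v => ∀ x, Q j v x :=
  UD_congr (UD_all h) fun j v => ⟨fun hw x => hw fun _ => x, fun hx w => hx (w ())⟩

/-- finite conjunctions and disjunctions -/
theorem UD_fin {I : Type} [Finite I] {Q : I → ∀ j, (α → X j) → Prop} (h : ∀ i, UD B X S α (Q i)) :
    UD B X S α fun j v => ∀ i, Q i j v := by
  classical
  have : Fintype I := Fintype.ofFinite I
  have key : ∀ s : Finset I, UD B X S α fun j v => ∀ i ∈ s, Q i j v := by
    intro s
    induction s using Finset.induction_on with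
    | empty => exact UD_congr (UD_const True) fun j v => by simp
    | insert a s _ ih => exact UD_congr (UD_and (h a) ih) fun j v => by simp
  exact UD_congr (key Finset.univ) fun j v => by simp

theorem UD_fex {I : Type} [Finite I] {Q : I → ∀ j, (α → X j) → Prop} (h : ∀ i, UD B X S α (Q i)) :
    UD B X S α fun j v => ∃ i, Q i j v :=
  UD_congr (UD_not (UD_fin fun i => UD_not (h i))) fun j v => by push Not; rfl

end Pool.Agent.AAD
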