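import Pool.Agent.AAD.StB

/-!
# AAD [PWM]: the relations of a code are determined by the labels and the patterns of the orders
-/

set_option autoImplicit false

namespace Pool.Agent.AAD

variable {κ : Type} {ar : κ → ℕ} {K : Cla ar} (P : PS K) {E : Set (Fin P.N)}

private theorem PWM_kd {M M' : Type} (x : XE P E M) (x' : XE P E M')
    (h : lbl P x = lbl P x') : kd P x = kd P x' := by
  rcases x with x | x <;> rcases x' with x' | x'
  · have h1 : x.2 = x'.2 := Sum.inl.inj h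
    show x.2.1.1 = x'.2.1.1
    rw [h1]
  · exact absurd h (by intro h2; cases h2)
  · exact absurd h (by intro h2; cases h2)
  · have h1 : x = x' := Sum.inr.inj h
    show x.1.1 = x'.1.1
    rw [h1]

private theorem PWM_eq {M : Type} (r : M → M → Prop) (hr : Lin r) (x y : M) :
    x = y ↔ ¬ r x y ∧ ¬ r y x := by
  constructor
  · rintro rfl
    exact ⟨hr.1 x, hr.1 x⟩
  · rintro ⟨h1, h2⟩
    by_contra h3
    rcases hr.2.2 x y h3 with h4 | h4
    · exact h1 h4
    · exact h2 h4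

private theorem PWM_ref {M M' : Type} {N : ℕ} (r : M → M → Prop) (r' : M' → M' → Prop)
    (a b : Bool × Fin N) : plt r (rfp M a) (rfp M b) ↔ plt r' (rfp M' a) (rfp M' b) := by
  obtain ⟨a1, a2⟩ := a
  obtain ⟨b1, b2⟩ := b
  cases a1 <;> cases b1 <;> exact Iff.rfl

private theorem PWM_plt (m m' : LL) (b : Bool) (i : Fin P.k) (x y : XE P E m.M)
    (x' y' : XE P E m'.M) (hx : lbl P x = lbl P x') (hy : lbl P y = lbl P y')
    (h1 : pl (m.lt b) x y ↔ pl (m'.lt b) x' y') (h2 : pl (m.lt b) y x ↔ pl (m'.lt b) y' x') :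
    plt (m.lt b) (pp P x i) (pp P y i) ↔ plt (m'.lt b) (pp P x' i) (pp P y' i) := by
  rcases x with x | x <;> rcases x' with x' | x'
  · rcases y with y | y <;> rcases y' with y' | y'
    · have e1 : x.2 = x'.2 := Sum.inl.inj hx
      have e2 : y.2 = y'.2 := Sum.inl.inj hy
      have h1' : m.lt b x.1 y.1 ↔ m'.lt b x'.1 y'.1 := h1
      have h2' : m.lt b y.1 x.1 ↔ m'.lt b y'.1 x'.1 := h2
      show (m.lt b x.1 y.1 ∨ (x.1 = y.1 ∧ x.2.1.2 i < y.2.1.2 i)) ↔
        (m'.lt b x'.1 y'.1 ∨ (x'.1 = y'.1 ∧ x'.2.1.2 i < y'.2.1.2 i))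
      rw [PWM_eq (m.lt b) (m.lin b) x.1 y.1, PWM_eq (m'.lt b) (m'.lin b) x'.1 y'.1, h1', h2', e1, e2]
    · exact absurd hy (by intro h3; cases h3)
    · exact absurd hy (by intro h3; cases h3)
    · have e2 : y = y' := Sum.inr.inj hy
      subst e2
      show plt (m.lt b) (Pos.md x.1 (x.2.1.2 i)) (rfp m.M (y.1.2 i)) ↔
        plt (m'.lt b) (Pos.md x'.1 (x'.2.1.2 i)) (rfp m'.M (y.1.2 i))
      obtain ⟨c1, c2⟩ := y.1.2 i
      cases c1 <;> exact Iff.rfl
  · exact absurd hx (by intro h3; cases h3)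
  · exact absurd hx (by intro h3; cases h3)
  · have e1 : x = x' := Sum.inr.inj hx
    subst e1
    rcases y with y | y <;> rcases y' with y' | y'
    · show plt (m.lt b) (rfp m.M (x.1.2 i)) (Pos.md y.1 (y.2.1.2 i)) ↔
        plt (m'.lt b) (rfp m'.M (x.1.2 i)) (Pos.md y'.1 (y'.2.1.2 i))
      obtain ⟨c1, c2⟩ := x.1.2 i
      cases c1 <;> exact Iff.rfl
    · exact absurd hy (by intro h3; cases h3)
    · exact absurd hy (by intro h3; cases h3)
    · have e2 : y = y' := Sum.inr.inj hy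
      subst e2
      exact PWM_ref _ _ _ _

/-- **[PWM]** -/
theorem thm_PWM (hTMI : St_TMI) : St_PWM := by
  intro κ ar K P E m m' s v v' hl hp
  have hk : (fun j => kd P (v' j)) = fun j => kd P (v j) := by
    funext j
    exact (PWM_kd P (v j) (v' j) (hl j)).symm
  rw [hk]
  refine (hTMI κ ar K P m s (fun j => kd P (v j)) (fun j => pp P (v j))).2 m'
    (fun j => pp P (v' j)) fun j j' i _ _ => ?_
  exact PWM_plt P m m' (bt P i) i (v j) (v j') (v' j) (v' j') (hl j) (hl j') (hp _ j j')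
    (hp _ j' j)

end Pool.Agent.AAD
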