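import Pool.Agent.AAD.DefsD

/-!
AAD, statements of part III (helper45), with proofs in the docstrings: coding (compare `Pool/Agent/OGD`,
which is the case of one binary relation) and the positive half.
-/

set_option autoImplicit false
set_option linter.unusedVariables false

namespace Pool.Agent.AAD

open FirstOrder.Language Set
open scoped FirstOrder
open Pool.Agent.PMC (Sy LP us Two Bin)
open Pool.Agent.Helper6.Str (PerfK CtblK Iso Code toStr)
open VPF (ModF)

/-- [KFR] `Frame` is a set of sentences.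
PROOF.  Toolkit `Kit.lean` for `J = Σ M, structure on M`: `lv`, `au`, `rr` are atomic; `mS`, `tS` are definable (the formulas `G.mt l`, `G.th b` with the
symbols `un l` replaced by `un (inr l)`: `LHom.onFormula`, or by recursion).  Each condition of `Frame`, for fixed `l`, `r`, `b`, `i`, `s` is a sentence (`UD` for the
empty type of variables); there is one sentence for each value of the parameters, the set of all of them is the theory.  `∃ l` is a finite
disjunction (`G.fΛ`, `G.fΡ`).  `rel` for fixed `s`, `l`: finite case distinction over the pattern `p : Bool → Fin n → Fin n → Prop`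
(`Finite Prop`): `G.W s l p` is a constant (`UD_const`). -/
def St_KFR : Prop :=
  ∀ (κ : Type) (ar : κ → ℕ) (K : Cla ar) (G : Gcd K) (ι : Type),
    ∃ F : (LA (ι ⊕ (G.Λ ⊕ G.Ρ)) ar).Theory,
      ∀ (M : Type) (S : (LA (ι ⊕ (G.Λ ⊕ G.Ρ)) ar).Structure M),
        @FirstOrder.Language.Theory.Model (LA (ι ⊕ (G.Λ ⊕ G.Ρ)) ar) M S F ↔ Frame G S

/-- [KTR] translation of sentences.
PROOF.  As OGD/TRN.lean: recursion on `φ : (LP ι).BoundedFormula Empty n`: `rel (un i)`: `un (inl i)`; `rel (lt b)`: the formula `G.th b` with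
`un l ↦ un (inr l)`; `all`: relativised to `lv (inl l₀)`. -/
def St_KTR : Prop :=
  ∀ (κ : Type) (ar : κ → ℕ) (K : Cla ar) (G : Gcd K) (ι : Type) (σ : (LP ι).Sentence),
    ∃ τ : (LA (ι ⊕ (G.Λ ⊕ G.Ρ)) ar).Sentence,
      ∀ (M : Type) (S : (LA (ι ⊕ (G.Λ ⊕ G.Ρ)) ar).Structure M),
        (@FirstOrder.Language.Sentence.Realize (LA (ι ⊕ (G.Λ ⊕ G.Ρ)) ar) M S τ ↔
          @FirstOrder.Language.Sentence.Realize (LP ι) {z : M // lv G S (.inl G.l₀) z} (dec G S) σ)

/-- [KCO] `enc G S` is a code of `S`.
PROOF.  `rd G (enc G S) = cd G.toCd M (ls S)` (same relations), so `mS l z w ↔ ∃ μ, z = inl (μ, l₀) ∧ w = inl (μ, l)` (`G.mtp` for the `LL` given by `Two S`), `tS b z w ↔ ∃ μ ν, .. ls S b μ ν`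
(`G.thp`).  All conditions are direct; `rel`: `w j` has label `l j`, and if `l i`, `l j` are levels then `pl (ls S b) (w i) (w j) ↔ tS b (z i) (z j)`; if one is a
reference both sides are false.  `Iso`: `inl (μ, l₀) ↦ μ`. -/
def St_KCO : Prop :=
  ∀ (κ : Type) (ar : κ → ℕ) (K : Cla ar) (G : Gcd K) (ι M : Type) (S : (LP ι).Structure M),
    Two S → Frame G (enc G S) ∧ Iso (dec G (enc G S)) S

/-- [KRE] a code is the code of its decoded structure.
PROOF.  `Two`: `irr`, `tra`, `tot`.  `Iso (enc G (dec G S)) S`: `inl (z, l) ↦` the `w` with `mS l z w`, `inr r ↦` the `w` with `lv (inr r) w`; bijective by `lev`, `unq`, `msu`, `min`,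
`rex`, `run`; labels: `mlv`, `unq`; `rl s`: `rel` for `l j` = the label of `v j`, `z j` = the first component (arbitrary, e.g. `w j`, for references);
`un (inl i)`: for level `l₀` `w = z` (`mid`), for other labels `un`. -/
def St_KRE : Prop :=
  ∀ (κ : Type) (ar : κ → ℕ) (K : Cla ar) (G : Gcd K) (ι M : Type)
    (S : (LA (ι ⊕ (G.Λ ⊕ G.Ρ)) ar).Structure M), Frame G S →
    Two (dec G S) ∧ Iso (enc G (dec G S)) S

/-- [KFU] functoriality.
PROOF.  `e × id` on levels, `id` on references; formulas are preserved by isomorphisms. -/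
def St_KFU : Prop :=
  ∀ (κ : Type) (ar : κ → ℕ) (K : Cla ar) (G : Gcd K) (ι M M' : Type),
    (∀ (S : (LP ι).Structure M) (S' : (LP ι).Structure M'),
      Iso S S' → Iso (enc G S) (enc G S')) ∧
    ∀ (S : (LA (ι ⊕ (G.Λ ⊕ G.Ρ)) ar).Structure M) (S' : (LA (ι ⊕ (G.Λ ⊕ G.Ρ)) ar).Structure M'),
      Iso S S' → Iso (dec G S) (dec G S')

/-- [KDM] measurable decoding.
PROOF.  As OGD/DMS.lean.  `{x | φ.Realize v in rd G (F x)}` is measurable for every formula `φ` (induction; countable intersections), in particular for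
`mS`, `tS`.  `A x = {a | lv (inl l₀) a}` is infinite: `ℕ` is the union of finitely many levels, each in bijection with `A x`, and finitely many
references.  Enumeration `Nat.nth (· ∈ A x)`; `G' x ⟨n, (R, a)⟩` says that `R` holds in `dec` at the points number `a i`. -/
def St_KDM : Prop :=
  ∀ (κ : Type) (ar : κ → ℕ) (K : Cla ar) (G : Gcd K) (ι : Type)
    (F : (ℕ → Bool) → (LA (ι ⊕ (G.Λ ⊕ G.Ρ)) ar).Structure ℕ), (∀ x, Frame G (F x)) →
    (∀ (n : ℕ) (R : (LA (ι ⊕ (G.Λ ⊕ G.Ρ)) ar).Relations n) (a : Fin n → ℕ),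
      IsClopen {x | (F x).RelMap R a}) →
    ∃ D : (ℕ → Bool) → Code (LP ι), (Measurable D) ∧
      ∀ x, Iso (dec G (F x)) (@toStr (LP ι) (fun n => ⟨fun f => Empty.elim f⟩) (D x))

/-- [KAG] codes have age in `K`.
PROOF.  By KRE the structure is isomorphic to `enc G (dec G S)`, whose order and relations are `cr G.toCd m.lt` for the `LL` `m` of `dec G S`
(`Two`): `G.lin m`, `G.age m`. -/
def St_KAG : Prop :=
  ∀ (κ : Type) (ar : κ → ℕ) (K : Cla ar) (G : Gcd K) (ι M : Type)
    (S : (LA (ι ⊕ (G.Λ ⊕ G.Ρ)) ar).Structure M), Frame G S → InK K S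

/-- [KSH] the dichotomy for `K` implies the dichotomy for two linear orders with unary predicates.
PROOF.  As OGD/SHQ.lean, OGM/SHM.lean: `T' = F ∪` translations of `T`; `κ` countable. -/
def St_KSH : Prop :=
  St_KFR → St_KTR → St_KCO → St_KRE → St_KFU → St_KDM → St_KAG → PMC.St_MPK →
  ∀ (κ : Type), Countable κ → ∀ (ar : κ → ℕ) (K : Cla ar), Gcd K → VCA K →
    ∀ (ι : Type), Countable ι → ∀ T : (LP ι).Theory, (∀ S ∈ ModF T, Two S) →
      CtblK (ModF T) ∨ PerfK (ModF T)

/-! ### The positive half -/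

/-- [POS] ordered structures without arrays (T5, `Pool/Agent/MNO`).
PROOF.  As MNO/TOP.lean (`TOP_of`, with `all_END` and `lt` = the formula of the order): only `hHYC` is replaced: for the saturated model `U` of the theory of
some `S ∈ ModF T`: `Cx` for the order; `cod`: if a formula has exact arrays of all sizes in `U` then in `S` (for each `k` the existence of an exact array of
size `k` is a first-order sentence), against the hypothesis.  (See `PRM.cx`, `PRM.cod_of_nip` in MNO/PRM.lean.)  The dichotomy `CtT`/`PerfT` gives `CtblK`/`PerfK`. -/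
def St_POS : Prop :=
  ∀ (ι κ : Type), Countable ι → Countable κ → ∀ (ar : κ → ℕ) (T : (LA ι ar).Theory),
    (∀ S ∈ ModF T, Lin (al S) ∧ ∀ (m n : ℕ) (φ : (LA ι ar).Formula ((Fin m ⊕ Fin n) ⊕ Unit)), ∃ k,
      ¬ Exk (fun (x : Fin m → ℕ) (y : Fin n → ℕ) (z : ℕ) =>
        @Formula.Realize _ _ S _ φ (Sum.elim (Sum.elim x y) fun _ => z)) k) →
    CtblK (ModF T) ∨ PerfK (ModF T)

/-! ### Growth -/

/-- the reducts to the relations in `s` of the members with `n` points -/
def redK {κ : Type} {ar : κ → ℕ} (K : Cla ar) (s : Finset κ) (n : ℕ) :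
    Set (∀ c : {c // c ∈ s}, (Fin (ar c.1) → Fin n) → Prop) :=
  (fun r c => r c.1) '' K n

/-- [GRA] growth of classes with good codes.
PROOF.  A formula contains finitely many symbols: for every formula `φ` there is a finite `s` such that two structures on the same set with the same
labels, order and relations `c ∈ s` agree on `φ`.  Let `s` work for all `G.mt l`, `G.th b`; `N' = |Λ| n + |Ρ|` (`c = |Λ|`, `d = |Ρ|`).  For a permutation `π` of `Fin n` let
`m π : LL` be `M = Fin n`, `lt true p q = p < q`, `lt false p q = π p < π q`; its code has `N'` points; `e π : Fin N' → code` the increasing enumeration (`G.lin`;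
e.g. `Finset.orderIsoOfFin` for the linear order of the code), `r π ∈ K N'` the relations (`G.age`), `λ π = lab ∘ e π : Fin N' → Λ ⊕ Ρ`.  The map `π ↦ (r π restricted to s, λ π)` is
injective: if `π`, `π'` have the same image then `e π' ∘ (e π)⁻¹` preserves labels, order, relations in `s`, so the formulas `th b` on the level `l₀`: an
isomorphism of `(Fin n, <, π)` and `(Fin n, <, π')`, so (an increasing bijection of `Fin n` is the identity) `π = π'`.
`Fintype.card_perm`, number of functions `Fin N' → Λ ⊕ Ρ`. -/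
def St_GRA : Prop :=
  ∀ (κ : Type) (ar : κ → ℕ) (K : Cla ar), Gcd K → ∃ (s : Finset κ) (c d : ℕ), ∀ n : ℕ,
    n.factorial ≤ (redK K s (c * n + d)).ncard * (c + d) ^ (c * n + d)

/-- [GRN] PROOF.  `A ^ n * B < n!` for large `n` (`A = (C (c + d)) ^ c`, `B = (C (c + d)) ^ d`). -/
def St_GRN : Prop :=
  ∀ C c d : ℕ, ∃ n : ℕ, C ^ (c * n + d) * (c + d) ^ (c * n + d) < n.factorial

end Pool.Agent.AAD
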