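import Pool.Agent.AAD.StA
import Pool.Agent.AAD.StC

/-!
AAD, stronger form of part I (helper45): arbitrary formulas with the independence property instead of
exact arrays, so `K` is tame iff it is monadically NIP.  The tuples `y b` shatter; `b` has one entry more
than `y b`, so some index of `b` is not the core of an entry of `y b`.
-/

set_option autoImplicit false
set_option linter.unusedVariables false

namespace Pool.Agent.AAD

open FirstOrder.Language Set
open scoped FirstOrder
open Pool.Agent.PMC (Sy LP us Two Bin)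
open Pool.Agent.Helper6.Str (PerfK CtblK Iso Code toStr)
open VPF (ModF)

/-- `F` shatters a set with `k` elements -/
def Sha {α β : Type} (F : α → β → Prop) (k : ℕ) : Prop :=
  ∃ (x : Fin k → α) (y : Set (Fin k) → β), ∀ i s, F (x i) (y s) ↔ i ∈ s

/-- `K` is monadically NIP: in every structure on `ℕ` with age in `K` and countably many unary
predicates no formula shatters arbitrarily large finite sets -/
def MonNIP {κ : Type} {ar : κ → ℕ} (K : Cla ar) : Prop :=
  ∀ (ι : Type), Countable ι → ∀ S : (LA ι ar).Structure ℕ, InK K S →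
    ∀ (m n : ℕ) (φ : (LA ι ar).Formula (Fin m ⊕ Fin n)), ∃ k,
      ¬ Sha (fun (x : Fin m → ℕ) (y : Fin n → ℕ) => φ.Realize (Sum.elim x y)) k

/-- arrays: `y b` contains `x r` iff `r` is in the range of `b` -/
structure Arr2 (L : FirstOrder.Language.{0, 0}) (C : Type) [L.Structure C] [MulAction Gam C] where
  m : ℕ
  n : ℕ
  φ : L.Formula (Fin m ⊕ Fin n)
  x : ℚ → Fin m → C
  y : (Fin (n + 1) → ℚ) → Fin n → C
  xa : ∀ (g : Gam) q i, g • x q i = x (g q) i
  ya : ∀ (g : Gam) b i, g • y b i = y (fun j => g (b j)) i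
  ex : ∀ r b, φ.Realize (Sum.elim (x r) (y b)) ↔ ∃ j, b j = r

/-- [ARR2] PROOF.  As ARR: the ultrapower `M'` of `M` by `Filter.hyperfilter ℕ`; for each `k`: `x^k : Fin k → ..`, `y^k : Set (Fin k) → ..`; `x r` = the class of
`k ↦ x^k r` (`r < k`), `y b` = the class of `k ↦ y^k {i | ∃ j, b j = i}`. -/
def St_ARR2 : Prop :=
  ∀ (L : FirstOrder.Language.{0, 0}), (∀ n, IsEmpty (L.Functions n)) →
    ∀ (M : Type) [L.Structure M] (m n : ℕ) (φ : L.Formula (Fin m ⊕ Fin n)),
    (∀ k, Sha (fun (x : Fin m → M) (y : Fin n → M) => φ.Realize (Sum.elim x y)) k) →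
    ∃ (M' : Type) (_ : L.Structure M') (x : ℕ → Fin m → M') (y : (Fin (n + 1) → ℕ) → Fin n → M'),
      Nonempty M' ∧ Pcs L M' M ∧ ∀ r b, φ.Realize (Sum.elim (x r) (y b)) ↔ ∃ j, b j = r

/-- [ITU2] iterated ultrapower along `ℚ`.
PROOF.  As ITU (docstring of `St_ITU`): `x q i = [v ↦ x (v q) i]`, `y b i = [v ↦ y (v ∘ b) i]`; `ex`: `φ (x r, y b)` iff `G (∃ j, v (b j) = v r)` iff `∃ j, b j = r`. -/
def St_ITU2 : Prop :=
  ∀ (L : FirstOrder.Language.{0, 0}), (∀ n, IsEmpty (L.Functions n)) →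
    ∀ (M : Type) [L.Structure M] [Nonempty M] (m n : ℕ) (φ : L.Formula (Fin m ⊕ Fin n))
      (x : ℕ → Fin m → M) (y : (Fin (n + 1) → ℕ) → Fin n → M),
    (∀ r b, φ.Realize (Sum.elim (x r) (y b)) ↔ ∃ j, b j = r) →
    ∃ (C : Type) (_ : L.Structure C) (_ : MulAction Gam C),
      Ctx L C ∧ Pcs L C M ∧ Nonempty (Arr2 L C)

/-- [CTR2] no arrays.
PROOF.  `b j = j` (`j : Fin (n + 1)`, as a rational).  `su (x r i) ⊆ {r}`, `su (y b i) ⊆` the range of `b` (`xa`, `ya`, SU).  Each `co (y b i)` has at most one element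
(`Cor.one`), so there is `j` with `b j ∉ co (y b i)` for all `i : Fin n` (`n + 1` values, at most `n` cores).  `r = b j`.  `h` (EXT): fixes the other values of `b`,
`h r = r + 1/2`.  `c = (x r, y b)` (`Fin m ⊕ Fin n`), `g = h` at the `x r i` with nonempty support, `g = 1` elsewhere.  `CfgI`: (cls) `co (x r i) = {r}` if the support is not
empty, `r` is in no other core; (ord) for a core `{a}` of `y b i`, `a ≠ r` is a value of `b`: `a < r → a < r + 1/2`, `r < a → r + 1/2 < a`.  BAF:
`φ (x r, y b) ↔ φ (x (r + 1/2), y b)` (`h • x r i = x (h r) i`; if the support is empty then `x (h r) i = h • x r i = x r i`): contradiction to `ex`. -/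
def St_CTR2 : Prop :=
  ∀ (L : FirstOrder.Language.{0, 0}) (C : Type) [L.Structure C] [MulAction Gam C], Cor L C →
    Arr2 L C → False

/-- [FIN2] as FIN. -/
def St_FIN2 : Prop :=
  ∀ (L : FirstOrder.Language.{0, 0}) (C : Type) [L.Structure C] [MulAction Gam C], Ctx L C →
    ∀ lt : L.Relations 2,
    (∀ x y : C, x ≠ y → (Structure.RelMap lt ![x, y] ↔ ¬ Structure.RelMap lt ![y, x])) →
    Arr2 L C → ∃ (T : Set C) (z₁ z₂ : C), Con L C T z₁ z₂

/-- [WLD2] classes which are not monadically NIP contain pattern structures. -/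
def St_WLD2 : Prop :=
  ∀ (κ : Type) (ar : κ → ℕ) (K : Cla ar), CloA K → ¬ MonNIP K → Nonempty (PS K)

/-- [POS2] monadically NIP classes (T5, `Pool/Agent/MNO`).
PROOF.  `MNO.all_MAINP` (or `MNO.all_MAIN`) for `L = LA ι ar`: for `S ∈ ModF T` the order `al S` is definable.  Let `P : Set ℕ` and `φ : L.Formula ((Fin m ⊕ Fin n) ⊕ Unit)`; the
expansion `S'` of `S` by `P`, in the language `LA (Option ι) ar` (`un none` for `P`), is in `K`, and `∃ z (P z ∧ φ)` is a formula of this language (`un i ↦ un (some i)`; `LHom.onFormula`):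
`MonNIP K`.  The dichotomy `CtT`/`PerfT` gives `CtblK`/`PerfK` (see OGM/PosM.lean or MNO/ResT5.lean). -/
def St_POS2 : Prop :=
  ∀ (κ : Type), Countable κ → ∀ (ar : κ → ℕ) (K : Cla ar), MonNIP K → VCA K

end Pool.Agent.AAD
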