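import Pool.Agent.AAD.StB
import Pool.Agent.AAD.StD
import Pool.Agent.OGD.Ren
import Pool.Agent.OGD.All
import Pool.Agent.PMC.ResT3

/-!
# Vaught's conjecture for universal classes of ordered structures: a dichotomy (draft of the result file)
-/

set_option autoImplicit false

namespace Pool.Agent.AAD.Res

open Set FirstOrder

/-! ### Universal classes of ordered structures -/

/-- A class of finite ordered structures with relations `R_c` of arity `ar c`, `c : κ`: for each `n` a set
of families of relations on `{0, ..., n - 1}`, which is ordered by the natural order. -/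
abbrev OrderedClass {κ : Type} (ar : κ → ℕ) : Type :=
  (n : ℕ) → Set ((c : κ) → (Fin (ar c) → Fin n) → Prop)

/-- `K` is closed: a structure belongs to `K` if each of its reducts to finitely many relations is the
reduct of a member of `K` (always true if `κ` is finite). -/
def Closed {κ : Type} {ar : κ → ℕ} (K : OrderedClass ar) : Prop :=
  ∀ (n : ℕ) (r : (c : κ) → (Fin (ar c) → Fin n) → Prop),
    (∀ s : Finset κ, ∃ r' ∈ K n, ∀ c ∈ s, r' c = r c) → r ∈ K n

/-- The reducts of the members of `K` on `{0, ..., n - 1}` to the relations `R_c`, `c ∈ s`. -/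
def reduct {κ : Type} {ar : κ → ℕ} (K : OrderedClass ar) (s : Finset κ) (n : ℕ) :
    Set ((c : {c // c ∈ s}) → (Fin (ar c.1) → Fin n) → Prop) :=
  (fun r c => r c.1) '' K n

/-- At most exponential growth: for every finite set of relations there are at most `C ^ n` reducts on
`{0, ..., n - 1}`. -/
def AtMostExponential {κ : Type} {ar : κ → ℕ} (K : OrderedClass ar) : Prop :=
  ∀ s : Finset κ, ∃ C : ℕ, ∀ n, (reduct K s n).ncard ≤ C ^ n

/-! ### Structures -/

/-- The symbol of the order, relation symbols of arity `ar c`, `c : κ`, unary relation symbols (colors)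
indexed by `ι`. -/
inductive Sym (ι : Type) {κ : Type} (ar : κ → ℕ) : ℕ → Type
  | color (i : ι) : Sym ι ar 1
  | lt : Sym ι ar 2
  | rel (c : κ) : Sym ι ar (ar c)

/-- The language of ordered structures with colors. -/
def Lang (ι : Type) {κ : Type} (ar : κ → ℕ) : FirstOrder.Language.{0, 0} :=
  ⟨fun _ => Empty, Sym ι ar⟩

/-- The relation of the symbol `lt` is a strict linear order of `ℕ`, and all finite substructures for
this order and the relations of the symbols `rel c` belong to `K`. -/
def InClass {ι κ : Type} {ar : κ → ℕ} (K : OrderedClass ar) (S : (Lang ι ar).Structure ℕ) : Prop :=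
  (∀ x, ¬ S.RelMap (n := 2) (Sym.lt : Sym ι ar 2) ![x, x]) ∧
  (∀ x y z, S.RelMap (n := 2) (Sym.lt : Sym ι ar 2) ![x, y] →
    S.RelMap (n := 2) (Sym.lt : Sym ι ar 2) ![y, z] →
      S.RelMap (n := 2) (Sym.lt : Sym ι ar 2) ![x, z]) ∧
  (∀ x y, x ≠ y → S.RelMap (n := 2) (Sym.lt : Sym ι ar 2) ![x, y] ∨
    S.RelMap (n := 2) (Sym.lt : Sym ι ar 2) ![y, x]) ∧
  ∀ (m : ℕ) (z : Fin m → ℕ),
    (∀ i j, i < j → S.RelMap (n := 2) (Sym.lt : Sym ι ar 2) ![z i, z j]) →
    (fun c v => S.RelMap (n := ar c) (Sym.rel c : Sym ι ar (ar c)) fun i => z (v i)) ∈ K m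

/-- `F` shatters a set with `k` elements. -/
def Shatters {α β : Type} (F : α → β → Prop) (k : ℕ) : Prop :=
  ∃ (x : Fin k → α) (y : Set (Fin k) → β), ∀ i s, F (x i) (y s) ↔ i ∈ s

/-- `K` is monadically NIP: in no structure of the class, expanded by countably many unary predicates,
does a first-order formula in two tuples of variables shatter arbitrarily large finite sets. -/
def MonadicallyNIP {κ : Type} {ar : κ → ℕ} (K : OrderedClass ar) : Prop :=
  ∀ (ι : Type), Countable ι → ∀ S : (Lang ι ar).Structure ℕ, InClass K S →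
    ∀ (m n : ℕ) (φ : (Lang ι ar).Formula (Fin m ⊕ Fin n)), ∃ k,
      ¬ Shatters (fun (x : Fin m → ℕ) (y : Fin n → ℕ) => φ.Realize (Sum.elim x y)) k

/-! ### Vaught's conjecture -/

/-- The dichotomy for a theory (the conclusion of `S14759`): its models on `ℕ` fall into countably
many isomorphism classes, or a continuous map from Cantor space to these models has pairwise
nonisomorphic values. -/
def Dich (L : FirstOrder.Language.{0, 0}) (T : L.Theory) : Prop :=
  (∃ g : ℕ → L.Structure ℕ, ∀ S : L.Structure ℕ,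
      @FirstOrder.Language.Theory.Model L ℕ S T →
        ∃ n : ℕ, Nonempty (@FirstOrder.Language.Equiv L ℕ ℕ S (g n))) ∨
  (∃ f : (ℕ → Bool) → L.Structure ℕ,
      (∀ x : ℕ → Bool, @FirstOrder.Language.Theory.Model L ℕ (f x) T) ∧
      (∀ x y : ℕ → Bool,
          Nonempty (@FirstOrder.Language.Equiv L ℕ ℕ (f x) (f y)) → x = y) ∧
      (∀ (n : ℕ) (R : L.Relations n) (a : Fin n → ℕ),
          IsClopen {x : ℕ → Bool | @FirstOrder.Language.Structure.RelMap L ℕ (f x) n R a}) ∧
      (∀ (n : ℕ) (F : L.Functions n) (a : Fin n → ℕ) (b : ℕ),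
          IsOpen {x : ℕ → Bool | @FirstOrder.Language.Structure.funMap L ℕ (f x) n F a = b}))

/-- Vaught's conjecture for all first-order theories in countable languages (the frozen statement
`S14759`). -/
def FullVC : Prop :=
  ∀ (L : FirstOrder.Language.{0, 0}), Countable L.Symbols → ∀ (T : L.Theory), Dich L T

/-- Vaught's conjecture for `K`: the dichotomy for all first-order theories of ordered structures with
countably many colors whose models on `ℕ` are in the class. -/
def VC {κ : Type} {ar : κ → ℕ} (K : OrderedClass ar) : Prop :=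
  ∀ (ι : Type), Countable ι → ∀ T : (Lang ι ar).Theory,
    (∀ S : (Lang ι ar).Structure ℕ,
      @FirstOrder.Language.Theory.Model (Lang ι ar) ℕ S T → InClass K S) → Dich (Lang ι ar) T

/-! ## Proof -/

/-- the names of the symbols -/
def names (ι : Type) {κ : Type} (ar : κ → ℕ) :
    ∀ n, (Lang ι ar).Relations n ≃ (LA ι ar).Relations n := fun n =>
  { toFun := fun R => match n, R with
      | _, Sym.color i => Sm.un i
      | _, Sym.lt => (Sm.rl none : Sm ι ar 2)
      | _, Sym.rel c => (Sm.rl (some c) : Sm ι ar (ar c))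
    invFun := fun R => match n, R with
      | _, Sm.un i => Sym.color i
      | _, Sm.rl none => (Sym.lt : Sym ι ar 2)
      | _, Sm.rl (some c) => (Sym.rel c : Sym ι ar (ar c))
    left_inv := by
      intro R
      cases R <;> rfl
    right_inv := by
      intro R
      rcases R with _ | (_ | _) <;> rfl }

theorem lang_rel (ι : Type) {κ : Type} (ar : κ → ℕ) : ∀ n, IsEmpty ((Lang ι ar).Functions n) :=
  fun n => ⟨fun x => Empty.elim x⟩

theorem la_rel (ι : Type) {κ : Type} (ar : κ → ℕ) : ∀ n, IsEmpty ((LA ι ar).Functions n) :=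
  fun n => ⟨fun x => Empty.elim x⟩

open VPF (ModF) in
theorem dich_iff {L : FirstOrder.Language.{0, 0}} (hF : ∀ n, IsEmpty (L.Functions n))
    (T : L.Theory) : Dich L T ↔ Pool.Agent.Helper6.Str.CtblK (ModF T) ∨
      Pool.Agent.Helper6.Str.PerfK (ModF T) :=
  OGD.dich_iff hF T

theorem old_iff {ι κ : Type} {ar : κ → ℕ} (K : OrderedClass ar) (S : (LA ι ar).Structure ℕ) :
    InClass K (OGD.Ren_old (lang_rel ι ar) (names ι ar) S) ↔ InK K S := by
  constructor
  · intro h
    exact ⟨⟨h.1, h.2.1, h.2.2.1⟩, h.2.2.2⟩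
  · intro h
    exact ⟨h.1.1, h.1.2.1, h.1.2.2, h.2⟩

theorem old_iff' {ι κ : Type} {ar : κ → ℕ} (K : OrderedClass ar) (S : (Lang ι ar).Structure ℕ) :
    InK K (OGD.Ren_old (la_rel ι ar) (fun n => (names ι ar n).symm) S) ↔ InClass K S := by
  constructor
  · intro h
    exact ⟨h.1.1, h.1.2.1, h.1.2.2, h.2⟩
  · intro h
    exact ⟨⟨h.1, h.2.1, h.2.2.1⟩, h.2.2.2⟩

theorem vc_iff {κ : Type} {ar : κ → ℕ} (K : OrderedClass ar) : VC K ↔ VCA K := by
  constructor
  · intro h ι hι T hT
    refine OGD.Ren_dich (la_rel ι ar) (lang_rel ι ar) (fun n => (names ι ar n).symm) T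
      ((dich_iff (lang_rel ι ar) _).1 (h ι hι _ fun S hS => ?_))
    exact (old_iff' K S).1 (hT _ ((OGD.Ren_model (la_rel ι ar)
      (fun n => (names ι ar n).symm) T S).1 hS))
  · intro h ι hι T hT
    refine (dich_iff (lang_rel ι ar) T).2 (OGD.Ren_dich (lang_rel ι ar) (la_rel ι ar)
      (names ι ar) T (h ι hι _ fun S hS => ?_))
    exact (old_iff K S).1 (hT _ ((OGD.Ren_model (lang_rel ι ar) (names ι ar) T S).1 hS))

theorem nip_iff {κ : Type} {ar : κ → ℕ} (K : OrderedClass ar) : MonadicallyNIP K ↔ MonNIP K := by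
  constructor
  · intro h ι hι S hS m n φ
    let e : ∀ n, (LA ι ar).Relations n ≃ (Lang ι ar).Relations n := fun n => (names ι ar n).symm
    let S' : (Lang ι ar).Structure ℕ := OGD.Ren_old (lang_rel ι ar) (names ι ar) S
    obtain ⟨k, hk⟩ := h ι hι S' ((old_iff K S).2 hS) m n ((OGD.Ren_hom (la_rel ι ar) e).onFormula φ)
    refine ⟨k, fun hc => hk ?_⟩
    obtain ⟨x, y, hxy⟩ := hc
    refine ⟨x, y, fun i s => ?_⟩
    rw [← hxy i s]
    have : (OGD.Ren_hom (la_rel ι ar) e).IsExpansionOn ℕ :=
      { map_onFunction := fun {n} f _ => (la_rel ι ar n).elim f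
        map_onRelation := fun {n} R v => by
          show S.RelMap (names ι ar n ((names ι ar n).symm R)) v = S.RelMap R v
          rw [Equiv.apply_symm_apply] }
    exact FirstOrder.Language.LHom.realize_onFormula (OGD.Ren_hom (la_rel ι ar) e) φ
  · intro h ι hι S hS m n φ
    let S' : (LA ι ar).Structure ℕ :=
      OGD.Ren_old (la_rel ι ar) (fun n => (names ι ar n).symm) S
    obtain ⟨k, hk⟩ := h ι hι S' ((old_iff' K S).2 hS) m n
      ((OGD.Ren_hom (lang_rel ι ar) (names ι ar)).onFormula φ)
    refine ⟨k, fun hc => hk ?_⟩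
    obtain ⟨x, y, hxy⟩ := hc
    refine ⟨x, y, fun i s => ?_⟩
    rw [← hxy i s]
    have : (OGD.Ren_hom (lang_rel ι ar) (names ι ar)).IsExpansionOn ℕ :=
      { map_onFunction := fun {n} f _ => (lang_rel ι ar n).elim f
        map_onRelation := fun {n} R v => by
          show S.RelMap ((names ι ar n).symm (names ι ar n R)) v = S.RelMap R v
          rw [Equiv.symm_apply_apply] }
    exact FirstOrder.Language.LHom.realize_onFormula (OGD.Ren_hom (lang_rel ι ar) (names ι ar)) φ

theorem lang_countable (ι : Type) (hι : Countable ι) {κ : Type} (hκ : Countable κ) (ar : κ → ℕ) :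
    Countable (Lang ι ar).Symbols := by
  have h1 : Countable (Σ m, (Lang ι ar).Functions m) := by
    have : ∀ m, Countable ((Lang ι ar).Functions m) :=
      fun m => (inferInstance : Countable Empty)
    infer_instance
  have h2 : Countable (Σ m, (Lang ι ar).Relations m) := by
    have h3 : Function.Surjective (fun x : ι ⊕ Option κ => (match x with
        | .inl i => ⟨1, (Sym.color i : Sym ι ar 1)⟩
        | .inr none => ⟨2, (Sym.lt : Sym ι ar 2)⟩
        | .inr (some c) => ⟨ar c, (Sym.rel c : Sym ι ar (ar c))⟩ :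
          Σ m, (Lang ι ar).Relations m)) := by
      rintro ⟨m, R⟩
      cases R with
      | color i => exact ⟨.inl i, rfl⟩
      | lt => exact ⟨.inr none, rfl⟩
      | rel c => exact ⟨.inr (some c), rfl⟩
    exact h3.countable
  exact (inferInstance : Countable ((Σ m, (Lang ι ar).Functions m) ⊕
    (Σ m, (Lang ι ar).Relations m)))

theorem result_of (hPOS : St_POS2) (hWLD : St_WLD2) (hGCF : St_GCF)
    (hKSH : ∀ (κ : Type), Countable κ → ∀ (ar : κ → ℕ) (K : Cla ar), Gcd K → VCA K →
      ∀ (ι : Type), Countable ι → ∀ T : (PMC.LP ι).Theory, (∀ S ∈ VPF.ModF T, PMC.Two S) →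
        Pool.Agent.Helper6.Str.CtblK (VPF.ModF T) ∨ Pool.Agent.Helper6.Str.PerfK (VPF.ModF T))
    (hGRA : St_GRA) (hGRN : St_GRN)
    (κ : Type) (hκ : Countable κ) (ar : κ → ℕ) (K : OrderedClass ar) (hC : Closed K) :
    (MonadicallyNIP K → VC K) ∧ (AtMostExponential K → MonadicallyNIP K) ∧
      (¬ MonadicallyNIP K → (VC K ↔ FullVC)) := by
  have hC' : CloA K := fun n r h => hC n r fun s => by
    obtain ⟨r', h1, h2⟩ := h s
    exact ⟨r', h1, fun c hc => funext fun v => propext (h2 c hc v)⟩
  have hG : ¬ MonadicallyNIP K → Nonempty (Gcd K) := fun h => by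
    obtain ⟨P⟩ := hWLD κ ar K hC' fun h' => h ((nip_iff K).2 h')
    exact hGCF κ ar K P
  refine ⟨fun h => (vc_iff K).2 (hPOS κ hκ ar K ((nip_iff K).1 h)), fun hE => ?_, fun h => ?_⟩
  · by_contra hN
    obtain ⟨G⟩ := hG hN
    obtain ⟨s, c, d, h1⟩ := hGRA κ ar K G
    obtain ⟨C, hC⟩ := hE s
    obtain ⟨n, hn⟩ := hGRN C c d
    exact absurd (lt_of_le_of_lt ((h1 n).trans (Nat.mul_le_mul_right _ (hC (c * n + d)))) hn)
      (lt_irrefl _)
  · obtain ⟨G⟩ := hG h
    constructor
    · intro hV
      refine PMC.ResT3.full_of_vc fun ι hι T hT => ?_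
      exact (OGD.dich_iff (OGD.lp_rel ι) T).2 (hKSH κ hκ ar K G ((vc_iff K).1 hV) ι hι T
        fun S hS => (hT S hS).1)
    · intro hF ι hι T _
      exact hF (Lang ι ar) (lang_countable ι hι hκ ar) T

end Pool.Agent.AAD.Res
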