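import Pool.Agent.AAD.DefsB

/-!
AAD, statements of part I (helper45), with proofs in the docstrings.  The paper proof is
`GC_AAD_helper45.md` in the team store (sections 1-3).  `g • x` is the action of `g : Gam`.
-/

set_option autoImplicit false
set_option linter.unusedVariables false

namespace Pool.Agent.AAD

open FirstOrder.Language Set
open scoped FirstOrder

/-! ### Supports -/

/-- [EXT] finite strictly monotone maps extend to automorphisms of `(ℚ, <)`.
PROOF.  `Finset.induction_on_max`.  `A = insert a A'`, `a` larger than the elements of `A'`, `g'` for `A'`.  If `A'` is empty: the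
translation by `f a - a` (`OrderIso.addRight`).  Else `u = f (max A') = g' (max A') < g' a`, `u < f a`; `h` = identity on `x ≤ u`,
`x ↦ u + (x - u) * ((f a - u) / (g' a - u))` for `x > u`; `g = h * g'`. -/
def St_EXT : Prop :=
  ∀ (A : Finset ℚ) (f : ℚ → ℚ), (∀ a ∈ A, ∀ b ∈ A, a < b → f a < f b) →
    ∃ g : Gam, ∀ a ∈ A, g a = f a

/-- [LS] least supports of subgroups.
PROOF.  Key step: if `Fx A ⊆ H`, `Fx B ⊆ H`, `a ∈ A`, `a ∉ B` then `Fx (A.erase a) ⊆ H`.  Let `g ∈ Fx (A.erase a)`; if `g a = a` then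
`g ∈ Fx A`; if `g a < a` replace `g` by `g⁻¹`; so `a' = g a > a`; there is no element of `A` in `(a, a']` (`g` fixes them and is
strictly monotone).  Let `d > a'` be a bound: `(a, d)` contains no element of `A` (finite set: take `d` below the next
element of `A`).  Take `h` (EXT) fixing `A` and the elements of `B` outside `(a, a']`, moving the elements of `B` in `(a, a']`
into `(a', d)` (take `f` there: an increasing map of `(a, a']` into `(a', d')`, with `d' < d` and no element of `B` in `(a', d')`,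
e.g. affine).  `h ∈ Fx A ⊆ H`.  `h (Fx B) h⁻¹ = Fx (B.image h) ⊆ H`, and `B.image h` has no element in `[a, a']`.  `b` (EXT):
fixes `B.image h` and `A.erase a`, `b a = a'`.  `b ∈ H`, `b⁻¹ * g ∈ Fx A ⊆ H`.
Then by induction on the size of `A \ B`: `Fx (A ∩ B) ⊆ H`.  So if `A` is of minimal size with `Fx A ⊆ H` then `A ⊆ B` for all
`B` with `Fx B ⊆ H`, and `ls H = A`. -/
def St_LS : Prop :=
  ∀ H : Set Gam, (1 : Gam) ∈ H → (∀ g ∈ H, ∀ h ∈ H, g * h ∈ H) → (∀ g ∈ H, g⁻¹ ∈ H) →
    (∃ A : Finset ℚ, Fx A ⊆ H) → Fx (ls H) ⊆ H ∧ ∀ A : Finset ℚ, Fx A ⊆ H → ls H ⊆ A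

/-- [LSC] conjugation.
PROOF.  `Fx A ⊆ H ↔ Fx (A.image g) ⊆ H'` (`h ∈ Fx (A.image g) ↔ g⁻¹ * h * g ∈ Fx A`), and the definition of `ls` (`a ∈ ls H ↔
∀ A, Fx A ⊆ H → a ∈ A` if there is such an `A`). -/
def St_LSC : Prop :=
  ∀ (H H' : Set Gam) (g : Gam), (∀ h, h ∈ H' ↔ g⁻¹ * h * g ∈ H) → (∃ A : Finset ℚ, Fx A ⊆ H) →
    ls H' = (ls H).image g

/-- [SU] least supports in a `Γ`-set.
PROOF.  LS and LSC for `St x` (`St (g • x) = g (St x) g⁻¹`).  Last part: `g⁻¹ * h ∈ Fx (su x)`. -/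
def St_SU : Prop :=
  ∀ (X : Type) [MulAction Gam X], (∀ x : X, ∃ A : Finset ℚ, Fx A ⊆ St x) →
    ∀ x : X, Fx (su x) ⊆ St x ∧ (∀ A : Finset ℚ, Fx A ⊆ St x → su x ⊆ A) ∧
      (∀ g : Gam, su (g • x) = (su x).image g) ∧
      ∀ g h : Gam, (∀ a ∈ su x, g a = h a) → g • x = h • x

/-! ### Freeness -/

/-- [FSY] symmetry.
PROOF.  Let `g, R, v, v'` be as in `Fre p Y X`.  Put `u j = g⁻¹ • v' j`.  `R v' ↔ R u` (`Ctx.inv`).  If `v j ∈ Y`, `v' j = g • v j`: `u j =
v j`.  Else `v' j = v j`; if `p ∉ su (v j)`: `g` fixes `su (v j)`, so `u j = v j`; if `p ∈ su (v j)` then `v j ∈ X`, `u j = g⁻¹ • v j`.  So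
`Fre p X Y` for `g⁻¹`, `v`, `u` gives `R u ↔ R v`. -/
def St_FSY : Prop :=
  ∀ (L : FirstOrder.Language.{0, 0}) (C : Type) [L.Structure C] [MulAction Gam C], Ctx L C →
    ∀ (p : ℚ) (X Y : Set C), Fre L p X Y → Fre L p Y X

/-- [FP3] PROOF.  `g, R, v, v'` as in `Fre p X (Y ∪ V)`.  If `g p = p` then `v' = v` (`g` fixes all `su (v j)`).  Let `p' = g p ≠ p`, say
`p < p'` (the other case is symmetric).  `S` = the union of the `su (v j)` without `p`.  `[p, p']` contains no element of `S` (`g` fixes `S`).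
Take `p'' < p` with no element of `S` in `[p'', p]`; by EXT `h` fixing `S` and `p'` with `h p = p''`, and `g'` fixing `S` and `p''` with `g' p = p'`; `g'`, `g`
agree on the `su (v j)`, so `g' • v j = g • v j`.  Positions: (s) `v j ∈ X`, `v' j = g • v j`; (t) not (s), `v j ∈ V`, `p ∈ su (v j)`, `v' j = v j`;
(u) the others: `v j ∈ Y` or `p ∉ su (v j)`, `v' j = v j`.  (1) `R v ↔ R v₁`, `v₁ = v` with `h` on (t): `Fre p V (X ∪ Y)` (FSY).
(2) `R v₁ ↔ R v₂`, `v₂ = v₁` with `g'` on (s): `Fre p X Y` for `g'`: in (t) `v₁ j = h • v j` has support `h (su (v j)) ∌ p`, contained in `S ∪ {p''}`.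
(3) `R v' ↔ R v₂`, `v₂ = v'` with `h` on (t): `Fre p V Y` (from `Fre p V (X ∪ Y)`, monotone): in (s) `v' j = g • v j` either
has `p ∉ g (su (v j))`, contained in `S ∪ {p'}`. -/
def St_FP3 : Prop :=
  ∀ (L : FirstOrder.Language.{0, 0}) (C : Type) [L.Structure C] [MulAction Gam C], Ctx L C →
    ∀ (p : ℚ) (X Y V : Set C), Fre L p X Y → Fre L p (X ∪ Y) V → Fre L p X (Y ∪ V)

/-- [FOR] different classes are free.
PROOF.  `Fre` is antitone in `X`, `Y`; `AF ∅ Y`, `AF X ∅` (FSY).  `Lnk x x` (`{x}` is connected), so `X`, `Y` are disjoint.  Induction on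
`(X ∪ Y).ncard`; `X`, `Y` nonempty: `X ∪ Y` is not connected: `X ∪ Y = A ∪ B`, disjoint, nonempty, `AF A B`.  Induction: `AF (X ∩ A) (Y ∩ A)`,
`AF (X ∩ B) (Y ∩ B)`.  FP3: `AF (X ∩ A) ((Y ∩ A) ∪ B)` (as `(X ∩ A) ∪ (Y ∩ A) = A`), `AF (X ∩ B) ((Y ∩ B) ∪ A)`.  So `AF Y (X ∩ A)` and
`AF (Y ∪ (X ∩ A)) (X ∩ B)` (FSY, monotone), FP3: `AF Y ((X ∩ A) ∪ (X ∩ B))`, FSY. -/
def St_FOR : Prop :=
  ∀ (L : FirstOrder.Language.{0, 0}) (C : Type) [L.Structure C] [MulAction Gam C], Ctx L C →
    ∀ X Y : Set C, X.Finite → Y.Finite → (∀ x ∈ X, ∀ y ∈ Y, ¬ Lnk L x y) → AF L X Y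

/-- [EQV] PROOF.  Transitivity: `Z₁`, `Z₂` connected with a common point: if `Z₁ ∪ Z₂ = X ∪ Y` is free then `Zᵢ = (X ∩ Zᵢ) ∪ (Y ∩ Zᵢ)` is free, so `Zᵢ ⊆ X` or
`Zᵢ ⊆ Y`, and both are in the same part.  Action: `Fre p X Y ↔ Fre (h p) (h • X) (h • Y)` for `h : Gam` (images; conjugate `g`: `h⁻¹ * g * h`;
`su (h • x) = (su x).image h`, SU; `Ctx.inv`), so images of connected sets are connected. -/
def St_EQV : Prop :=
  ∀ (L : FirstOrder.Language.{0, 0}) (C : Type) [L.Structure C] [MulAction Gam C], Ctx L C →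
    Equivalence (Lnk L : C → C → Prop) ∧
    ∀ (g : Gam) (x y : C), Lnk L x y → Lnk L (g • x) (g • y)

/-- [CF] facts on cores.
PROOF.  `H = {g | Lnk (g • x) x}` is a subgroup (EQV), contains `Fx (su x)` (SU); LS, LSC.  If `Lnk x y` then `Lnk (g • x) x ↔ Lnk (g • y) y`. -/
def St_CF : Prop :=
  ∀ (L : FirstOrder.Language.{0, 0}) (C : Type) [L.Structure C] [MulAction Gam C], Ctx L C →
    ∀ x : C, co L x ⊆ su x ∧ (∀ g : Gam, (∀ a ∈ co L x, g a = a) → Lnk L (g • x) x) ∧
      (∀ g : Gam, co L (g • x) = (co L x).image g) ∧ ∀ y : C, Lnk L x y → co L x = co L y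

/-- [COR] cores under the hypothesis (H).
PROOF.  `ctx`, `equ`, `act`, `forr`: FOR, EQV.  `ne`: if `co x = ∅` then `Lnk (g • x) x` for all `g` (CF); for the translation `g` by a
number larger than all differences of elements of `su x` the supports `su x`, `(su x).image g` are disjoint, and `g • x ≠ x` if `su x` is
not empty: contradiction to `Hyp`.  `one`: let `a₁ < a₂` be in `co x`, `a₁' > a₁`, `a₂' > a₂` with no other elements of `su x` in `[a₁, a₁']`,
`[a₂, a₂']`, `a₁' < a₂`.  EXT: `h₁`, `h₂`, `h₁₂` fixing the rest of `su x` and moving `a₁`, or `a₂`, or both; `x₁ = h₁ • x`, `x₂ = h₂ • x`, `x₁₂ = h₁₂ • x`.  By `co`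
(`(co x).image h`, subset of the support) `x`, `x₁`, `x₂`, `x₁₂` are pairwise not linked.  `AF {x} {x₂}` (FOR): moving `a₁ ↦ a₁'` (an element
of `Γ` which fixes the rest of `su x` and `a₂'`) in `x₂` or in `x`: `x < x₁₂ ↔ x < x₂ ↔ x₁ < x₂`.  `AF {x} {x₁}`, moving `a₂ ↦ a₂'`:
`x < x₁₂ ↔ x < x₁ ↔ x₂ < x₁`.  So `x₁ < x₂ ↔ x₂ < x₁`, `x₁ ≠ x₂`: contradiction. -/
def St_COR : Prop :=
  ∀ (L : FirstOrder.Language.{0, 0}) (C : Type) [L.Structure C] [MulAction Gam C], Ctx L C →
    Hyp L C → ∀ lt : L.Relations 2,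
    (∀ x y : C, x ≠ y → (Structure.RelMap lt ![x, y] ↔ ¬ Structure.RelMap lt ![y, x])) → Cor L C

/-! ### The main lemma -/

/-- [ONE] moving one class.
PROOF.  If `co x = ∅` then the moved elements have empty support (`Cor.ne`, CF) and `w' = w`.  Let `co x = {a}` (`Cor.one`); for moved `j`:
`a ∈ su (v j)` (CF, `co (v j) = co x`).  `A` = the union of the `su (v j)`, `j` moved; `T` = the union of the others; `J a q`: `∃ h, h a = q` and
`Lnk (h • x) (v j)` for some unmoved `j`.  (L) Let `g`, `g'` agree on `A` without `b`, `g b < g' b`, at most one of `g b`, `g' b` and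
nothing strictly between in `T`, not `J` for `g a`, `g' a`.  If `g b, g' b ∉ T`: EXT gives `δ` fixing `T` and `g (A \ {b})` with `δ (g b) = g' b`
(as `g b`, `g' b` are in the same gap of `g (A \ {b})`), `Ctx.inv`.  If `g b ∈ T`: `X = {g • v j | j moved}`, `Y = {v j | j unmoved}` are not
linked (`g a` not in `J`), `AF X Y` (`Cor.forr`) at `p = g b` with `δ` fixing `T \ {p}`, `g (A \ {b})`, `δ p = g' b`.  If `g' b ∈ T`: the same with `g`, `g'`
exchanged.  (M) `g`, `g'` agree on `A` without `b`, `g b < g' b`, no `J` in `[g a, g' a]`: induction on the number of elements of `T`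
strictly between `g b` and `g' b`; if there is none take a point strictly between, apply (L) twice; else insert an
element of `T` (EXT: `g''` = `g` on `A \ {b}`, `g'' b = q`).  (N) the general case by induction on the number of `b ∈ A` with `g b < g' b`: `b` the
largest one, `g''` = `g'` on `[b, ∞)`, `g` on `(-∞, b)` (EXT). -/
def St_ONE : Prop :=
  ∀ (L : FirstOrder.Language.{0, 0}) (C : Type) [L.Structure C] [MulAction Gam C], Cor L C →
    ∀ (n : ℕ) (R : L.Relations n) (v w w' : Fin n → C) (x : C) (g g' : Gam),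
      (∀ j, (Lnk L (v j) x ∧ (∀ b ∈ su (v j), g b ≤ g' b) ∧ w j = g • v j ∧ w' j = g' • v j) ∨
        ((∀ a ∈ co L x, ∀ h : Gam, g a ≤ h a → h a ≤ g' a → ¬ Lnk L (h • x) (v j)) ∧
          w j = v j ∧ w' j = v j)) →
      (Structure.RelMap R w' ↔ Structure.RelMap R w)

/-- configurations for an index type `I` -/
structure CfgI (L : FirstOrder.Language.{0, 0}) {C : Type} [L.Structure C] [MulAction Gam C]
    {I : Type} (c : I → C) (g : I → Gam) : Prop where
  cls : ∀ i j, Lnk L (c i) (c j) → g i = g j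
  ord : ∀ i j, Spc L (c i) (c j) → ∀ a ∈ co L (c i), ∀ b ∈ co L (c j), a < b → g i a < g j b

/-- [CFS] PROOF.  `Spc` is an equivalence relation, `Spc (g • x) x` (EQV).  (cls) Let `Lnk (g i • c i) (g j • c j)`.  If `co (c i) = ∅`: `su (c i) = ∅`
(`Cor.ne`), `g i • c i = c i`; `co (g j • c j) = ∅` (CF), so `su (c j) = ∅`, `g j • c j = c j`, so `Lnk (c i) (c j)`.  Else `co (c i) = {a}`, `co (c j) = {b}`,
`g i a = g j b` (CF), `Spc (c i) (c j)`, so `a = b` by `ord` (both directions), and `Lnk (c i) (c j)`: `Lnk (h • c i) (c j)` with `h = (g j)⁻¹ * g i`, `h a = a`, and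
`Lnk (h • c i) (c i)` by CF.  So `g i = g j`.  (ord) trichotomy for `a`, `b` and `ord`; if `a = b` then `Lnk (c i) (c j)` as before, `g i = g j`. -/
def St_CFS : Prop :=
  ∀ (L : FirstOrder.Language.{0, 0}) (C : Type) [L.Structure C] [MulAction Gam C], Cor L C →
    ∀ (I : Type) (c : I → C) (g : I → Gam), CfgI L c g →
      CfgI L (fun i => g i • c i) (fun i => (g i)⁻¹)

/-- [CFE] extension by one element.
PROOF.  If `Lnk x (c i)` for some `i`: `h = g i`.  Else if `co x = ∅`: `h = 1` (`Spc x (c i)` and `a ∈ co (c i)`, `b ∈ co x` is impossible).  Else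
`co x = {a}`.  Choose `a'` with `g i b < a'` for all `i` with `Spc (c i) x`, `b ∈ co (c i)`, `b < a` and `a' < g i b` if `a < b` (finitely many
conditions, compatible by `ord`: density, no end points); `b = a` is impossible (then `Lnk (c i) x` as in CFS).  `h` = translation by `a' - a`. -/
def St_CFE : Prop :=
  ∀ (L : FirstOrder.Language.{0, 0}) (C : Type) [L.Structure C] [MulAction Gam C], Cor L C →
    ∀ (I : Type) [Finite I] (c : I → C) (g : I → Gam), CfgI L c g → ∀ x : C, ∃ h : Gam,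
      CfgI L (fun o : Option I => o.elim x c) (fun o : Option I => o.elim h g)

/-- [CFM] PROOF.  `k i = max (g i) 1` (the order isomorphism `x ↦ max (g i x) x`, inverse `y ↦ min ((g i)⁻¹ y) y`).  `CfgI c k`: `a < b`, `g i a < g j b`
imply `max (g i a) a < max (g j b) b`.  `CfgI (g • c) (k g⁻¹)`: by CFS `CfgI (g • c) (g⁻¹)`; `Lnk (g i • c i) (g j • c j)` gives `(g i)⁻¹ = (g j)⁻¹`, so `g i = g j`;
(ord): `a' = g i a`, `b' = g j b` (CF), `a' < b'` gives `a < b` (CFS), so `max (g i a) a < max (g j b) b`. -/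
def St_CFM : Prop :=
  ∀ (L : FirstOrder.Language.{0, 0}) (C : Type) [L.Structure C] [MulAction Gam C], Cor L C →
    ∀ (I : Type) (c : I → C) (g : I → Gam), CfgI L c g → ∃ k : I → Gam,
      CfgI L c k ∧ CfgI L (fun i => g i • c i) (fun i => k i * (g i)⁻¹) ∧
      ∀ i (q : ℚ), q ≤ k i q ∧ q ≤ (k i * (g i)⁻¹) q

/-- [MUP] configurations which move up.
PROOF.  Induction on the number of `i` with `g i • c i ≠ c i`.  If there is none: trivial.  Such `c i` have nonempty support, core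
`{a i}` (`Cor.ne`, `Cor.one`).  Take such an `i` with the largest core `a`.  ONE for `R`, `v = c ∘ w`, `x = c i`, `g = 1`, `g' = g i`: the positions with
`Lnk (c j) (c i)` are moved (`g j = g i`), the others not: let `Lnk (h • c i) (c j)`, not `Lnk (c j) (c i)`, `a ≤ h a ≤ g i a`; `co (c j) = {h a}`; `h a ≠ a` (else
`Lnk (h • c i) (c i)`, CF), so `a < h a`, by the choice of `i`: `g j • c j = c j`, so `g j (h a) = h a` (CF, SU), `ord`: `g i a < g j (h a) = h a`, a
contradiction.  The new configuration: `c' j = g j • c j`, `g' j = 1` for `Lnk (c j) (c i)`, `c' j = c j`, `g' j = g j` else; it is `CfgI`: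
(cls) if `Lnk (c j) (c i)`, not `Lnk (c k) (c i)`: `Lnk (g i • c j) (c k)` is impossible (as above with `h = g i`, `Lnk (g i • c j) (g i • c i)`).
(ord) `j` moved, `k` not, same species, `g i a < b` (`b ∈ co (c k)`): `b ≤ g k b`; `b < g i a`: if `b < a` then `g k b < g i a` by `ord`, `b = a` is
impossible, if `a < b` then `g k b = b` (choice of `i`) and `g i a < g k b = b` by `ord`, a contradiction. -/
def St_MUP : Prop :=
  ∀ (L : FirstOrder.Language.{0, 0}) (C : Type) [L.Structure C] [MulAction Gam C], Cor L C →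
    ∀ (N : ℕ) (c : Fin N → C) (g : Fin N → Gam), CfgI L c g → (∀ i (q : ℚ), q ≤ g i q) →
      ∀ (n : ℕ) (R : L.Relations n) (w : Fin n → Fin N),
        (Structure.RelMap R (fun j => g (w j) • c (w j)) ↔ Structure.RelMap R (fun j => c (w j)))

/-- [BAF] configurations preserve first-order formulas.
PROOF.  First for atomic relations: CFM, MUP twice.  Equality: `g i • c i = g j • c j ↔ c i = c j` (if `c i = c j` then `g i = g j`; conversely by CFS).
Then induction on `φ` (for all `c`, `g`; `Ctx.nof`: the terms are variables; reindex finite types by `Fin N`).  `∀`: given `x`, CFE gives `h` for `Option (α ⊕ Fin n)`, i.e. for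
`α ⊕ Fin (n + 1)` (`Fin.snoc`); for the other direction use CFS (`c = g⁻¹ • (g • c)`). -/
def St_BAF : Prop :=
  ∀ (L : FirstOrder.Language.{0, 0}) (C : Type) [L.Structure C] [MulAction Gam C], Cor L C →
    ∀ (α : Type) [Finite α] (φ : L.Formula α) (c : α → C) (g : α → Gam), CfgI L c g →
      (φ.Realize (fun i => g i • c i) ↔ φ.Realize c)

/-- [CTR] no arrays.
PROOF.  `su (x q i) ⊆ {q}`, `su (y q i) ⊆ {q}`, `su (z p q) ⊆ {p, q}` (`xa`, `ya`, `za`, SU).  `z = z 0 1`.  Case `1 ∉ co z`: `c = (x 0, y 1, z)`; `h` (EXT) with `h 0 = 0`,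
`h 1 = 2`; `g = h` at the `y 1 i` with nonempty support, `g = 1` elsewhere.  `CfgI`: `co (y 1 i) = {1}` for these `i`, all other cores are in `{0}` except
`co (y 1 i) = ∅`.  BAF: `φ (x 0, y 1, z) ↔ φ (x 0, y 2, z)` (`h • y 1 i = y 2 i`; if the support is empty then also `y 2 i = y 1 i`): contradiction to `ex`.
Case `1 ∈ co z`: `co z = {1}` (`Cor.one`), `h 0 = -1`, `h 1 = 1`, `g = h` at the `x 0 i` with nonempty support: `φ (x 0, y 1, z) ↔ φ (x (-1), y 1, z)`. -/
def St_CTR : Prop :=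
  ∀ (L : FirstOrder.Language.{0, 0}) (C : Type) [L.Structure C] [MulAction Gam C], Cor L C →
    Arr L C → False

/-- the conclusion: `T` is finite, `z₁`, `z₂ ∈ T` have disjoint supports, for every `E ⊆ T` which separates them some
relation between elements of `T` changes if one index is moved in the elements of `E` -/
structure Con (L : FirstOrder.Language.{0, 0}) (C : Type) [L.Structure C] [MulAction Gam C]
    (T : Set C) (z₁ z₂ : C) : Prop where
  fin : T.Finite
  m₁ : z₁ ∈ T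
  m₂ : z₂ ∈ T
  n₁ : (su z₁).Nonempty
  n₂ : (su z₂).Nonempty
  dis : Disjoint (su z₁) (su z₂)
  con : ∀ E ⊆ T, z₁ ∈ E → z₂ ∉ E → ∃ (p : ℚ) (g : Gam) (n : ℕ) (R : L.Relations n)
    (v v' : Fin n → C), (∀ j, v j ∈ T) ∧ (∀ j, ∀ a ∈ su (v j), a ≠ p → g a = a) ∧
    (∀ j, v j ∈ E → v' j = g • v j) ∧ (∀ j, v j ∉ E → v' j = v j) ∧
    ¬ (Structure.RelMap R v' ↔ Structure.RelMap R v)

/-- [FIN] PROOF.  COR and CTR: `Hyp` fails: `Lnk z₁ z₂`, `z₁ ≠ z₂`, disjoint supports.  `Z` connected with `z₁, z₂ ∈ Z`.  If `su z₁ = ∅` then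
`AF {z₁} (Z \ {z₁})` (`g • z₁ = z₁`), impossible.  For every `X ⊆ Z` with `z₁ ∈ X`, `z₂ ∉ X` choose `p, g, n, R, v, v'` witnessing `¬ AF X (Z \ X)`; `T` = `Z` and
all these `v j`.  `con`: `X = E ∩ Z`; if `v j ∈ X`: fine; if `v j ∈ Z \ X`: `v j ∉ E`; if `p ∉ su (v j)`: `g • v j = v j`. -/
def St_FIN : Prop :=
  ∀ (L : FirstOrder.Language.{0, 0}) (C : Type) [L.Structure C] [MulAction Gam C], Ctx L C →
    ∀ lt : L.Relations 2,
    (∀ x y : C, x ≠ y → (Structure.RelMap lt ![x, y] ↔ ¬ Structure.RelMap lt ![y, x])) →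
    Arr L C → ∃ (T : Set C) (z₁ z₂ : C), Con L C T z₁ z₂

/-! ### Ultrapowers -/

/-- [ARR] PROOF.  The ultrapower `M'` of `M` by a nonprincipal ultrafilter (`Filter.hyperfilter ℕ`), Mathlib: `Ultraproduct`.  `x i` = the class of
`k ↦ x^k i` (for `i < k`; arbitrary for `k ≤ i`), etc.; Łoś (`Ultraproduct.realize_formula_cast`).  `Pcs`: for a finite set of relations, and
equality, there is one `k` at which all (finitely many) truth values are those in `M'`. -/
def St_ARR : Prop :=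
  ∀ (L : FirstOrder.Language.{0, 0}), (∀ n, IsEmpty (L.Functions n)) →
    ∀ (M : Type) [L.Structure M] (m n : ℕ) (φ : L.Formula ((Fin m ⊕ Fin n) ⊕ Unit)),
    (∀ k, Exk (fun (x : Fin m → M) (y : Fin n → M) (z : M) =>
      φ.Realize (Sum.elim (Sum.elim x y) fun _ => z)) k) →
    ∃ (M' : Type) (_ : L.Structure M') (x : ℕ → Fin m → M') (y : ℕ → Fin n → M')
      (z : ℕ → ℕ → M'), Pcs L M' M ∧
      ∀ i j a b, φ.Realize (Sum.elim (Sum.elim (x i) (y j)) fun _ => z a b) ↔ i = a ∧ j = b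

/-- [ITU] iterated ultrapower along `ℚ`.
PROOF.  `U = Filter.hyperfilter ℕ`.  For a list `l` of rationals and `P : (ℚ → ℕ) → Prop`: `Q [] P v = P v`, `Q (q :: l) P v = ∀ᶠ i in U, Q l P (update v q i)`.
`P` depends on the finite set `s` (`Dep s P`): equal values on `v`, `w` which agree on `s`.  `G P`: for some `s` with `Dep s P`: `Q (sorted list of s) P v` for all `v`
(for `Dep s P` this does not depend on `v`, nor on `s`: a quantifier over a coordinate which is irrelevant can be dropped).  `G (P ∧ P') ↔ G P ∧ G P'`, `G (¬ P) ↔ ¬ G P`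
(ultrafilter) for dependent `P`, `P'`; `G P` implies `∃ v, P v`; `G (P (· ∘ g)) ↔ G P` for `g : Gam` (the sorted list of `s.image g`).
`C` = the functions `f : (ℚ → ℕ) → M` with `∃ s, Dep s f`, modulo `G (f = f')`; `RelMap R [f] ↔ G (fun v => RelMap R (f v))`; `g • [f] = [fun v => f (v ∘ g)]`, an action
(`(v ∘ g) ∘ h = v ∘ (g * h)`).  Łoś: `φ.Realize [f] ↔ G (fun v => φ.Realize (f v))` by induction: `∀ x φ`: if `G (∃ x, ¬ φ (x, f v))` fails to give an element take
`f' v = choose` (a function `F` of the tuple `f v`).  `fin`: `[f]` is fixed by `Fx s` if `Dep s f`.  `Pcs`: `G` of a finite conjunction gives a point `v`.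
`Arr`: `x q i = [v ↦ x (v q) i]`, `y q i`, `z p q = [v ↦ z (v p) (v q)]`; `ex`: `G (v i = v p ∧ v j = v q)` iff `i = p`, `j = q` (`U` is nonprincipal). -/
def St_ITU : Prop :=
  ∀ (L : FirstOrder.Language.{0, 0}), (∀ n, IsEmpty (L.Functions n)) →
    ∀ (M : Type) [L.Structure M] (m n : ℕ) (φ : L.Formula ((Fin m ⊕ Fin n) ⊕ Unit))
      (x : ℕ → Fin m → M) (y : ℕ → Fin n → M) (z : ℕ → ℕ → M),
    (∀ i j a b, φ.Realize (Sum.elim (Sum.elim (x i) (y j)) fun _ => z a b) ↔ i = a ∧ j = b) →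
    ∃ (C : Type) (_ : L.Structure C) (_ : MulAction Gam C),
      Ctx L C ∧ Pcs L C M ∧ Nonempty (Arr L C)

/-- [AGC] PROOF.  `Lin`: every axiom is about at most three elements.  `AgeA`: by `CloA` it suffices to treat finitely many relations; `Pcs` for the
tuple `z` and these relations and the order gives an increasing tuple in `M` with the same relations. -/
def St_AGC : Prop :=
  ∀ (ι κ : Type) (ar : κ → ℕ) (K : Cla ar) (C M : Type) (S : (LA ι ar).Structure C)
    (S' : (LA ι ar).Structure M), CloA K → @Pcs (LA ι ar) C M S S' → InK K S' → InK K S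

/-- [BRI] from `Con` to a pattern structure.
PROOF.  `T = {t 0, .., t (N - 1)}` (injective enumeration).  `S` = the union of the supports, `s 0 < .. < s (k - 1)` its increasing enumeration;
`sp t i ↔ s i ∈ su (t)`.  `ε > 0` smaller than half of all distances in `S`; `b i x = s i + ε * x / (1 + |x|)`: strictly monotone, `b i 0 = s i`, `b i x < b i' x'` for
`i < i'`.  For a kind `t` and a point `π`: `el t π = g • t` for any `g` with `g (s i) = b i (π i)` for all `i < k` (EXT; `choose`).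
`Tr s t π = rr S s (fun j => el (t j) (π j))`.  `su (el t π) = {b i (π i) | sp t i}` (SU).
`inv`: the map `b i (π j i) ↦ b i (π' j i)` (`sp (t j) i`) is well defined and strictly monotone, EXT: `δ`; `δ • el (t j) (π j) = el (t j) (π' j)` (SU, last part).
`irr`, `tra`, `tot`, `age`: `InK`; `el t π = el t' π'` implies `t = t'` and `π = π'` on the support (the supports determine `sp t = sp t'` and the values; then
`g • t = g' • t'` with `g`, `g'` equal on the support of `t'`, so `t = t'`).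
`con`: `E' = {t j | j ∈ E}`, `Con.con`: `p, g, n, R, v, v'`.  `g p ≠ p` (else `v' = v`).  `R` is not unary: `R (g • v 0) ↔ R (v 0)` by `Ctx.inv`.
So `R = rl s`.  `p` is in `S` (else `v' = v`), `p = s i`; `v = el (t j) 0`; put `q = 1` if `g p > p`, `q = -1` if `g p < p`; `v' j` and `el (t j) (q e_i)` (`t j ∈ E`) have the same pattern
(EXT: `δ` fixing `S \ {p}`, `p`, with `δ (g p) = b i q`). -/
def St_BRI : Prop :=
  ∀ (ι κ : Type) (ar : κ → ℕ) (K : Cla ar) (C : Type) (S : (LA ι ar).Structure C)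
    [MulAction Gam C] (T : Set C) (z₁ z₂ : C), Ctx (LA ι ar) C → InK K S →
    Con (LA ι ar) C T z₁ z₂ → Nonempty (PS K)

/-- [WLD] wild classes contain pattern structures. -/
def St_WLD : Prop :=
  ∀ (κ : Type) (ar : κ → ℕ) (K : Cla ar), CloA K → Wild K → Nonempty (PS K)

end Pool.Agent.AAD
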