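import Pool.Agent.AAD.DefsC

/-!
AAD, statements of part II (helper45), with proofs in the docstrings: from a pattern structure to a good
code.  See section 4 of `GC_AAD_helper45.md`.
-/

set_option autoImplicit false
set_option linter.unusedVariables false

namespace Pool.Agent.AAD

open FirstOrder.Language Set
open scoped FirstOrder

/-- [RNK] every finite pattern is realised in `ℚ`.
PROOF.  `plt r` is a strict linear order if `r` is (`Lin r`).  `π' j i = ` the number of `j'` with `plt (m.lt (bt P i)) (π j' i) (π j i)` (as a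
rational): if `plt (π j i) (π j' i)` then the set for `j` is a proper subset of the set for `j'` (`j` is new); if not then it contains
the set for `j'`.  (For all `j`, `j'`, `i`; the supports play no role.) -/
def St_RNK : Prop :=
  ∀ (κ : Type) (ar : κ → ℕ) (K : Cla ar) (P : PS K) (m : LL) (n : ℕ)
    (π : Fin n → Fin P.k → Pos P.N m.M), ∃ π' : Fin n → Fin P.k → ℚ,
    ∀ j j' i, plt (m.lt (bt P i)) (π j i) (π j' i) ↔ π' j i < π' j' i

/-- [TMI] `TrM` depends on the pattern only.
PROOF.  RNK gives a rational `π'` for `π`; `TrM` for `π` is `P.Tr` for any such `π'` (`PS.inv`); the same rational points have the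
pattern of the second tuple of points (for the pairs in the supports). -/
def St_TMI : Prop :=
  ∀ (κ : Type) (ar : κ → ℕ) (K : Cla ar) (P : PS K) (m : LL) (s : Option κ)
    (t : Fin (ar' ar s) → Fin P.N) (π : Fin (ar' ar s) → Fin P.k → Pos P.N m.M),
    (∀ π' : Fin (ar' ar s) → Fin P.k → ℚ, (∀ j j' i, P.sp (t j) i → P.sp (t j') i →
      (plt (m.lt (bt P i)) (π j i) (π j' i) ↔ π' j i < π' j' i)) →
      (TrM P m.lt s t π ↔ P.Tr s t π')) ∧
    ∀ (m' : LL) (π' : Fin (ar' ar s) → Fin P.k → Pos P.N m'.M),
      (∀ j j' i, P.sp (t j) i → P.sp (t j') i → (plt (m.lt (bt P i)) (π j i) (π j' i) ↔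
        plt (m'.lt (bt P i)) (π' j i) (π' j' i))) →
      (TrM P m.lt s t π ↔ TrM P m'.lt s t π')

/-- [CLN] the codes are ordered structures with age in `K`.
PROOF.  For finitely many elements `v j` of the code RNK gives rational points for `pp P (v j)`, and by TMI all relations between them are
those of `P.Tr` at these points.  So irreflexivity, transitivity (three elements) and the age follow from `PS.irr`, `tra`, `age`; totality from `tot`:
if `v ≠ w`, `kd v = kd w` and the positions agree on the support then (RNK: `<` and so equality agree) the positions `pp v i`, `pp w i` are equal for `i` in the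
support; if this support is empty both are references (levels have nonempty support) and they are equal as the
normal forms are; if not: both have the same `M`-part (or both are references), and the same displacement on the support, so they are
equal (normal forms outside the support). -/
def St_CLN : Prop :=
  ∀ (κ : Type) (ar : κ → ℕ) (K : Cla ar) (P : PS K) (E : Set (Fin P.N)) (m : LL),
    Lin (al (cdE P E m.M m.lt)) ∧
    AgeA K (al (cdE P E m.M m.lt)) (fun c => rr (cdE P E m.M m.lt) (some c))

/-- [PWM] the relations of a code are determined by the labels and the patterns of the orders.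
PROOF.  TMI for the kinds `kd (v j)`: for a sort `i` the positions `pp (v j) i`, `pp (v j') i` are of the form `md μ d`, `md ν e` (`d`, `e`
given by the labels; `μ`, `ν` the `M`-parts; `μ = ν` iff neither `lt true μ ν` nor `lt true ν μ`, `m.lin`), or at least one of them is a reference. -/
def St_PWM : Prop :=
  ∀ (κ : Type) (ar : κ → ℕ) (K : Cla ar) (P : PS K) (E : Set (Fin P.N)) (m m' : LL)
    (s : Option κ) (v : Fin (ar' ar s) → XE P E m.M) (v' : Fin (ar' ar s) → XE P E m'.M),
    (∀ j, lbl P (v j) = lbl P (v' j)) →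
    (∀ b i j, pl (m.lt b) (v i) (v j) ↔ pl (m'.lt b) (v' i) (v' j)) →
    (TrM P m.lt s (fun j => kd P (v j)) (fun j => pp P (v j)) ↔
      TrM P m'.lt s (fun j => kd P (v' j)) (fun j => pp P (v' j)))

/-- [ADJ] levels of the same kind are matched definably.
PROOF.  `l = l'`: equality and `lbl (v 0) = l`.  Let `l ≠ l'`, same kind `u`, displacements `d ≠ d'`; they differ on the support.  Write `x μ`, `x' μ` for the
elements `(μ, l)`, `(μ, l')`.  By CLN `<` is a linear order on the code.  By PWM: for `μ ≠ ν`: `x μ < x' ν ↔ x' μ < x' ν` (TMI: the pattern of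
`(μ, d)`, `(ν, d')` and of `(μ, d')`, `(ν, d')` is the same: it is the one of `μ`, `ν`), and `x μ < x' μ` has a truth value `σ` which does not
depend on `m`, `μ`.  Case `σ` true: `x' μ` is the least element of level `l'` above `x μ`: it is above, and if `x μ < x' ν`, `ν ≠ μ`, then `x' μ < x' ν`.
So the matching is `lbl (v 0) = l ∧ lbl (v 1) = l' ∧ v 0 < v 1 ∧ ∀ z, lbl z = l' → v 0 < z → z < v 1 → False` (if `v 1 = x' ν` is such an element and `ν ≠ μ` then
`z = x' μ` is a counterexample).  Case `σ` false: `x' μ < x μ` (CLN), `x' μ` is the greatest element of level `l'` below `x μ`.  (If `m.M` is empty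
everything is trivial; `σ` can be read off in the one-point structure.)  Use the toolkit `UD_..`; `lbl = l` is the atomic relation `Sm.un l`. -/
def St_ADJ : Prop :=
  ∀ (κ : Type) (ar : κ → ℕ) (K : Cla ar) (P : PS K) (E : Set (Fin P.N)) (l l' : LvE P E),
    l.1.1 = l'.1.1 → UDE P E (Fin 2) fun m v => ∃ μ, v 0 = .inl (μ, l) ∧ v 1 = .inl (μ, l')

/-- [ORL] the order of a level all of whose sorts are ordered by `lt b`.
PROOF.  TMI: for `μ ≠ ν` the truth value of `(μ, l) < (ν, l)` depends only on the truth value of `m.lt b μ ν`; let `σ` be the truth value of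
`(0, l) < (1, l)` in the code of `ℕ` with both orders `<`.  If `σ`: `m.lt b μ ν → (μ, l) < (ν, l)`, and so (exchanging `μ`, `ν`, and CLN) the
relation is `lbl (v 0) = l ∧ lbl (v 1) = l ∧ v 0 < v 1`; if not `σ`: `v 1 < v 0` instead (CLN: totality; injectivity of `μ ↦ (μ, l)`). -/
def St_ORL : Prop :=
  ∀ (κ : Type) (ar : κ → ℕ) (K : Cla ar) (P : PS K) (E : Set (Fin P.N)) (l : LvE P E) (b : Bool),
    (∀ i, P.sp l.1.1 i → bt P i = b) →
    UDE P E (Fin 2) fun m v => ∃ μ ν, v 0 = .inl (μ, l) ∧ v 1 = .inl (ν, l) ∧ m.lt b μ ν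

/-- [NCM] the combinatorial core.
PROOF.  `PS.con` for `E`: `s, t, i, q, π`; `q ≠ 0` (else `π = 0`).  For `S₀ : Set (Fin N)` (finite) say `NC S₀` if for some `ρ`: `NN` holds in the one-point
structure (`M = Unit`, `lt` empty) with `μ = ν u = ()`.  (a) By TMI `NN P m.lt E S₀ ρ s t μ (fun _ => μ)` is equivalent to this for all `m`, `μ`.
(b) `NC Eᶜ`: `d = 1`, `e = 1`, `d' i = 2` if `q > 0`, `= 0` if `q < 0`, `d' i' = 1` for `i' ≠ i`: `TrM` for `d` is `P.Tr s t 0` (TMI, all points equal), for `d'` it is
`P.Tr s t π` (same pattern).  Take `S₀ ⊆ Eᶜ` with `NC S₀` of minimal size, `ρ` for it.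
(c) `S₀` is not empty: if `S₀ = ∅` then the pattern does not depend on `d` (kinds in `E` are at the same point, the others at references).
(d) `u ∈ S₀` has nonempty support: otherwise the position of `u` plays no role, `NC (S₀ \ {u})`.
(e) Let `m`, `μ`, `ν` with `NN P m.lt E S₀ ρ s t μ ν`, by `d, d', e`, and suppose `S₁ = {u ∈ S₀ | ν u ≠ μ}` is not empty.  Put `S₂ = S₁ ∪ (E ∪ S₀)ᶜ`.  For
a sort `i` the positions `c u = Fas .. u i`, `u ∈ S₂`, do not depend on `d`, and each is below all `md μ _` (`low`) or above all of them (`high`).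
New references `ρ' u i` for `u ∈ S₂`: `(true, r)` if high, `(false, r)` if low, `r` = the number of `u' ∈ S₂` (high, low as `u`) with `c u' < c u`; `r < N` (`u` is not counted).
The pattern of `Fas E (S₀ \ S₁) μ (fun _ => μ) d e ρ'` is that of `Fas E S₀ μ ν d e ρ`, for `d` and for `d'`.  So `NC (S₀ \ S₁)` by (a),
contradiction.  Conversely (`ν u = μ` for `u ∈ S₀`) use (a). -/
def St_NCM : Prop :=
  ∀ (κ : Type) (ar : κ → ℕ) (K : Cla ar) (P : PS K) (E : Set (Fin P.N)), P.z₁ ∈ E → P.z₂ ∉ E →
    ∃ (S₀ : Set (Fin P.N)) (ρ : Fin P.N → Fin P.k → Bool × Fin P.N) (s : Option κ)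
      (t : Fin (ar' ar s) → Fin P.N), S₀.Nonempty ∧ Disjoint E S₀ ∧ (∀ u ∈ S₀, ∃ i, P.sp u i) ∧
      ∀ (m : LL) (μ : m.M) (ν : Fin P.N → m.M),
        NN P m.lt E S₀ ρ s t μ ν ↔ ∀ u ∈ S₀, ν u = μ

/-- the inclusion of codes -/
def xinc {κ : Type} {ar : κ → ℕ} {K : Cla ar} (P : PS K) {E E' : Set (Fin P.N)} (h : E ⊆ E')
    {M : Type} : XE P E M → XE P E' M
  | .inl x => .inl (x.1, ⟨x.2.1, h x.2.2.1, x.2.2.2⟩)
  | .inr r => .inr r

/-- [RLV] relativisation: the code for `E` is definable in the code for `E'`.
PROOF.  By induction on `φ : (LA (LvE P E ⊕ Rf P) ar).BoundedFormula α n` there is `φ'` for `E'` with: for all `m : LL` and tuples `v`, `w` in the code for `E`: `φ` is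
true at `v`, `w` iff `φ'` is true at `xinc ∘ v`, `xinc ∘ w` (`xinc` is injective and preserves `kd`, `pp`, and the labels up to
`l ↦ ⟨l.1, ..⟩`: `un (inl l) ↦ un (inl ⟨l.1, ..⟩)`; `all`: relativised to `∨ lbl = ..`, a finite disjunction over the labels in the range of
`xinc`).  Then add the condition that all `v a`, `a : α`, are in the range of `xinc` (`UD_fin`, `UD_fex`: the labels). -/
def St_RLV : Prop :=
  ∀ (κ : Type) (ar : κ → ℕ) (K : Cla ar) (P : PS K) (E E' : Set (Fin P.N)) (h : E ⊆ E')
    (α : Type) [Finite α] (Q : ∀ m : LL, (α → XE P E m.M) → Prop), UDE P E α Q →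
    UDE P E' α fun m v => ∃ w : α → XE P E m.M, (∀ a, v a = xinc P h (w a)) ∧ Q m w

/-- [MRG] merging.
PROOF.  Put `E' = E ∪ S₀`; work in the codes for `E'`.  Levels of `E` are matched (RLV for the formulas of `Tight P E`), levels of the
same kind are matched (ADJ).  Let `lz` be the level of `z₁`, `lu` that of `u ∈ S₀`, without displacement (`l.2 = 1`).  For `d : Fin k → Fin 3` and `u ∈ E'` with nonempty support
let `nd u d` be the level of `u` with displacement `d` on the support (`1` outside).  CLAIM: the relation `(μ, lz), (ν u, lu)_{u ∈ S₀} ↦ NN .. μ ν` is definable (variables: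
`Option S₀`).  For fixed `d, e` (finitely many; quantify by `UD_fex`) the truth value `TrM s t (Fas μ ν d e ρ ∘ t)` is: there are `w j` (`j : Fin (ar' ar s)`) with:
`w j` matched (tight `E`) with `(μ, lz)` of level `nd (t j) d` if `t j ∈ E`; `w j` matched (ADJ) with `(ν u, lu)` of level `nd u (e u)` if `t j = u ∈ S₀`; `w j` = the reference of kind `t j` with the
position `ρ (t j)` on the support (a label) otherwise; and `rl s` holds for `w`: by TMI (positions outside the supports do not matter).
So by the hypothesis `hN` the relation `∀ u, ν u = μ` is definable, and the matching of `lz` with `lu`: `∃` the other variables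
`(ν u', lu')`, all equal to `μ`.  Compose (symmetric, transitive): every level of `E'` is matched with its level without
displacement (ADJ), this one with `lz`. -/
def St_MRG : Prop :=
  ∀ (κ : Type) (ar : κ → ℕ) (K : Cla ar) (P : PS K) (E S₀ : Set (Fin P.N))
    (ρ : Fin P.N → Fin P.k → Bool × Fin P.N) (s : Option κ) (t : Fin (ar' ar s) → Fin P.N),
    P.z₁ ∈ E → (∀ u ∈ E, ∃ i, P.sp u i) → Tight P E → Disjoint E S₀ →
    (∀ u ∈ S₀, ∃ i, P.sp u i) →
    (∀ (m : LL) (μ : m.M) (ν : Fin P.N → m.M),
      NN P m.lt E S₀ ρ s t μ ν ↔ ∀ u ∈ S₀, ν u = μ) → Tight P (E ∪ S₀)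

/-- [GCF] the good code.
PROOF.  `{z₁}` is tight (ADJ), `P.ne₁`.  Let `E` be a maximal (finite type `Set (Fin N)`) tight set with `z₁ ∈ E` and nonempty supports.  `z₂ ∈ E`: else NCM, MRG give a larger
one.  `Λ = LvE P E`, `Ρ = Rf P` (finite: subtypes of finite types).  `W s l p` := there are `m : LL`, `v` with labels `l`, pattern `p` and `TrM P m.lt s (kd ∘ v) (pp ∘ v)`; by PWM
`cr .. m.lt s v ↔ TrM ..`, so `cd` and `cdE` are the same structure (up to `lab = lbl`).  `lin`, `age`: CLN.  `l₀` = the level of `z₁` without displacement; `mt l` from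
`Tight P E`; `th true`: ORL for `l₀` (`bt P i = true` for `i` in the support of `z₁`, `P.dis`); `th false`: for the level `l₂` of `z₂` without displacement:
`∃ x y`, `mt l₂ (v 0) x`, `mt l₂ (v 1) y`, ORL for `l₂`. -/
def St_GCF : Prop :=
  ∀ (κ : Type) (ar : κ → ℕ) (K : Cla ar), PS K → Nonempty (Gcd K)

end Pool.Agent.AAD
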